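import Pool.Agent.Helper19.SW.En

/-!
# Algebra of the interaction with a shear flow
-/

open MeasureTheory Set Filter Topology
open scoped ENNReal NNReal

namespace Pool.Agent.H356R3.NS.SW

/-- the projection orthogonal to `k` -/
noncomputable def PK (k : K) (v : C3) : C3 := fun i => v i - (k i : ℂ) * dt k v / ((sq k : ℝ) : ℂ)

lemma bt_PK (k : K) (v v' : C3) : bt k v v' = (-(2 * Real.pi * Complex.I) * dt k v) • PK k v' := by
  funext i
  rw [bt_eq]
  simp only [Pi.smul_apply, smul_eq_mul, PK]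

lemma norm_PK_le (k : K) (v : C3) : ‖PK k v‖ ≤ 3 * ‖v‖ := by
  refine (pi_norm_le_iff_of_nonneg (by positivity)).2 fun i => ?_
  unfold PK
  by_cases hk : k = 0
  · subst hk
    simp only [Pi.zero_apply, Int.cast_zero, zero_mul, zero_div, sub_zero]
    have := norm_le_pi_norm v i
    have := norm_nonneg v
    linarith
  have hs := sq_pos hk
  refine (norm_sub_le _ _).trans ?_
  have h3 : ‖(k i : ℂ) * dt k v / ((sq k : ℝ) : ℂ)‖ ≤ 2 * ‖v‖ := by
    rw [norm_div, norm_mul, Complex.norm_intCast, Complex.norm_real, Real.norm_of_nonneg hs.le,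
      div_le_iff₀ hs]
    calc |(k i : ℝ)| * ‖dt k v‖ ≤ nk k * (2 * nk k * ‖v‖) :=
          mul_le_mul (abs_le_nk k i) (norm_dt_le k v) (norm_nonneg _) (nk_nonneg _)
      _ = 2 * ‖v‖ * sq k := by rw [← nk_sq]; ring
  have := norm_le_pi_norm v i
  linarith

lemma bt_add_left (k : K) (u v w : C3) : bt k (u + v) w = bt k u w + bt k v w := by
  rw [bt_PK, bt_PK, bt_PK, dt_vadd, mul_add, add_smul]

lemma PK_add (k : K) (u v : C3) : PK k (u + v) = PK k u + PK k v := by
  funext i
  simp only [PK, Pi.add_apply, dt_vadd]; ring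

lemma PK_smul (k : K) (s : ℂ) (v : C3) : PK k (s • v) = s • PK k v := by
  funext i
  simp only [PK, Pi.smul_apply, dt_vsmul, smul_eq_mul]; ring

lemma bt_add_right (k : K) (u v w : C3) : bt k u (v + w) = bt k u v + bt k u w := by
  rw [bt_PK, bt_PK, bt_PK, PK_add, smul_add]

lemma bt_zero_l (k : K) (v : C3) : bt k 0 v = 0 := by rw [bt_PK, dt_vzero]; simp

lemma bt_zero_r (k : K) (v : C3) : bt k v 0 = 0 := by
  rw [bt_PK]
  have : PK k 0 = 0 := by funext i; simp [PK, dt_vzero]
  rw [this, smul_zero]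

lemma bt_sum_left {ι : Type*} (k : K) (s : Finset ι) (f : ι → C3) (w : C3) :
    bt k (∑ i ∈ s, f i) w = ∑ i ∈ s, bt k (f i) w := by
  classical
  induction s using Finset.induction_on with
  | empty => simp [bt_zero_l]
  | insert i s hi ih => rw [Finset.sum_insert hi, Finset.sum_insert hi, bt_add_left, ih]

lemma bt_sum_right {ι : Type*} (k : K) (s : Finset ι) (f : ι → C3) (w : C3) :
    bt k w (∑ i ∈ s, f i) = ∑ i ∈ s, bt k w (f i) := by
  classical
  induction s using Finset.induction_on with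
  | empty => simp [bt_zero_r]
  | insert i s hi ih => rw [Finset.sum_insert hi, Finset.sum_insert hi, bt_add_right, ih]

lemma Bf_apply {x y : K → C3} (hx : SN x) (hy : SN y) (k : K) (i : Fin 3) :
    Bf x y k i = ∑' l, bt k (x l) (y (k - l)) i := by
  unfold Bf bt cv
  have h1 : ∀ j m, Summable fun l => coef k i j m * (x l j * y (k - l) m) := fun j m =>
    (summ_cv hx hy k j m).mul_left _
  have h2 : ∀ j, Summable fun l => ∑ m, coef k i j m * (x l j * y (k - l) m) := fun j =>
    summable_sum fun m _ => h1 j m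
  rw [Summable.tsum_finsetSum fun j _ => h2 j]
  refine Finset.sum_congr rfl fun j _ => ?_
  rw [Summable.tsum_finsetSum fun m _ => h1 j m]
  refine Finset.sum_congr rfl fun m _ => ?_
  rw [tsum_mul_left]

lemma enorm_Bf_le_bt {x y : K → C3} (hx : SN x) (hy : SN y) (k : K) :
    ‖Bf x y k‖ₑ ≤ ∑' l, ‖bt k (x l) (y (k - l))‖ₑ := by
  refine enorm_pi_le fun i => ?_
  rw [Bf_apply hx hy]
  exact enorm_tsum_le'.trans (ENNReal.tsum_le_tsum fun l => enorm_apply_le _ i)

variable {S : Finset K} {x y : K → C3}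

lemma Bf_left_fin (hS : ∀ l, l ∉ S → x l = 0) (hx : SN x) (hy : SN y) (k : K) :
    Bf x y k = ∑ l ∈ S, bt k (x l) (y (k - l)) := by
  funext i
  rw [Bf_apply hx hy, Finset.sum_apply]
  refine tsum_eq_sum fun l hl => ?_
  rw [hS l hl, bt_zero_l]; rfl

lemma Bf_right_fin (hS : ∀ l, l ∉ S → y l = 0) (hx : SN x) (hy : SN y) (k : K) :
    Bf x y k = ∑ l ∈ S, bt k (x (k - l)) (y l) := by
  funext i
  rw [Bf_apply hx hy, Finset.sum_apply, ← (Equiv.subLeft k).tsum_eq]
  simp only [Equiv.subLeft_apply, sub_sub_cancel]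
  refine tsum_eq_sum fun l hl => ?_
  rw [hS l hl, bt_zero_r]; rfl

lemma SN_fin (hS : ∀ l, l ∉ S → x l = 0) : SN x :=
  summable_of_ne_finset_zero (s := S) fun l hl => by rw [hS l hl, norm_zero]

/-- the commutator of two modes -/
noncomputable def tt (l : K) (a : C3) (j : K) (y : C3) : C3 :=
  (2 * Real.pi * Complex.I) • (dt j a • y - dt l y • a)

lemma tt_eq {l j k : K} (hk : k = l + j) {a y : C3} (ha : dt l a = 0) (hy : dt j y = 0) :
    bt k y a - bt k a y = tt l a j y := by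
  subst hk
  funext i
  simp only [tt, Pi.sub_apply, Pi.smul_apply, smul_eq_mul, bt_eq, dt_kadd, ha, hy, zero_add, add_zero]
  ring

lemma tt_div {l j : K} {a y : C3} (ha : dt l a = 0) (hy : dt j y = 0) : dt (l + j) (tt l a j y) = 0 := by
  unfold tt
  rw [dt_vsmul, dt_vsub, dt_vsmul, dt_vsmul, dt_kadd, dt_kadd, ha, hy]; ring

/-- The Lie derivative along `A`: `A·∇ y - y·∇ A` -/
noncomputable def TA (A y : K → C3) : K → C3 := Bf y A - Bf A y

lemma dt_line {η l : K} (h : ∃ m : ℤ, l = m • η) {a : C3} (ha : dt η a = 0) : dt l a = 0 := by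
  obtain ⟨m, rfl⟩ := h
  rw [dt_ksmul, ha, mul_zero]

section shear

variable {P : Pm} {A : K → C3} {Y : K → C3}

/-- the frozen flow -/
structure ShA (P : Pm) (A : K → C3) : Prop where
  perp : ∀ l, dt P.η (A l) = 0
  supp : ∀ l, l ∉ P.S → A l = 0

lemma TA_apply (hP : P.OK) (hA : ShA P A) (hY : SN Y) (hd : ∀ k, dt k (Y k) = 0) (k : K) :
    TA A Y k = ∑ l ∈ P.S, tt l (A l) (k - l) (Y (k - l)) := by
  have hAS := SN_fin hA.supp
  unfold TA
  rw [Pi.sub_apply, Bf_right_fin hA.supp hY hAS, Bf_left_fin hA.supp hAS hY, ← Finset.sum_sub_distrib]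
  refine Finset.sum_congr rfl fun l hl => ?_
  exact tt_eq (by abel) (dt_line (hP.line l hl) (hA.perp l)) (hd _)

lemma TA_div (hP : P.OK) (hA : ShA P A) (hY : SN Y) (hd : ∀ k, dt k (Y k) = 0) (k : K) :
    dt k (TA A Y k) = 0 := by
  unfold TA
  rw [Pi.sub_apply, dt_vsub]
  have h1 : dt k (Bf Y A k) = 0 := Bf_div Y A k
  have h2 : dt k (Bf A Y k) = 0 := Bf_div A Y k
  rw [h1, h2, sub_zero]

/-- The identity for the second order term. -/
lemma second (hP : P.OK) (hA : ShA P A) (hY : SN Y) (hT : SN (TA A Y)) (hd : ∀ k, dt k (Y k) = 0) (k : K) :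
    Bf A (TA A Y) k + Bf (TA A Y) A k = ∑ l' ∈ P.S, ∑ l ∈ P.S,
      (4 * (Real.pi : ℂ) ^ 2 * dt (k - l' - l) (A l') * dt (k - l' - l) (A l)) • PK k (Y (k - l' - l)) := by
  have hAS := SN_fin hA.supp
  rw [Bf_left_fin hA.supp hAS hT, Bf_right_fin hA.supp hT hAS]
  set D : K → K → C3 := fun l l' =>
    (4 * (Real.pi : ℂ) ^ 2 * dt (k - l' - l) (A l) * dt l' (Y (k - l' - l))) • PK k (A l') with hD
  have key : ∀ l' ∈ P.S, ∀ l ∈ P.S,
      bt k (A l') (tt l (A l) (k - l' - l) (Y (k - l' - l)))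
        + bt k (tt l (A l) (k - l' - l) (Y (k - l' - l))) (A l')
      = (4 * (Real.pi : ℂ) ^ 2 * dt (k - l' - l) (A l') * dt (k - l' - l) (A l)) • PK k (Y (k - l' - l))
        + (D l l' - D l' l) := by
    intro l' hl' l hl
    set j := k - l' - l with hj
    have hj' : k - l - l' = j := by rw [hj]; abel
    have e1 : dt k (A l') = dt j (A l') := by
      have : k = l' + (l + j) := by rw [hj]; abel
      rw [this, dt_kadd, dt_kadd, dt_line (hP.line l' hl') (hA.perp l'),
        dt_line (hP.line l hl) (hA.perp l')]; ring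
    have e2 : dt k (tt l (A l) j (Y j)) = 2 * Real.pi * Complex.I * (dt j (A l) * dt l' (Y j)) := by
      have h1 : dt (l + j) (tt l (A l) j (Y j)) = 0 :=
        tt_div (dt_line (hP.line l hl) (hA.perp l)) (hd _)
      have : k = l' + (l + j) := by rw [hj]; abel
      rw [this, dt_kadd, h1, add_zero]
      unfold tt
      rw [dt_vsmul, dt_vsub, dt_vsmul, dt_vsmul, dt_line (hP.line l' hl') (hA.perp l)]; ring
    have e3 : PK k (tt l (A l) j (Y j)) = (2 * Real.pi * Complex.I) •
        (dt j (A l) • PK k (Y j) - dt l (Y j) • PK k (A l)) := by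
      unfold tt
      rw [PK_smul]
      congr 1
      rw [sub_eq_add_neg, PK_add, PK_smul, ← neg_one_smul ℂ, PK_smul, PK_smul, neg_one_smul, sub_eq_add_neg]
    have hI : Complex.I * Complex.I = -1 := Complex.I_mul_I
    rw [bt_PK, bt_PK, e1, e2, e3]
    simp only [hD]
    rw [hj']
    funext i
    simp only [Pi.add_apply, Pi.smul_apply, Pi.sub_apply, smul_eq_mul]
    rw [← hj]
    linear_combination (-(4 * (Real.pi : ℂ) ^ 2) * (dt j (A l') * (dt j (A l) * PK k (Y j) i
      - dt l (Y j) * PK k (A l) i)) - 4 * (Real.pi : ℂ) ^ 2 * (dt j (A l) * dt l' (Y j)) * PK k (A l') i) * hI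
  have hsum : (∑ l' ∈ P.S, bt k (A l') (TA A Y (k - l'))) + ∑ l' ∈ P.S, bt k (TA A Y (k - l')) (A l')
      = ∑ l' ∈ P.S, ∑ l ∈ P.S, ((4 * (Real.pi : ℂ) ^ 2 * dt (k - l' - l) (A l') * dt (k - l' - l) (A l)) •
        PK k (Y (k - l' - l)) + (D l l' - D l' l)) := by
    rw [← Finset.sum_add_distrib]
    refine Finset.sum_congr rfl fun l' hl' => ?_
    rw [TA_apply hP hA hY hd, bt_sum_right, bt_sum_left, ← Finset.sum_add_distrib]
    exact Finset.sum_congr rfl fun l hl => key l' hl' l hl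
  rw [hsum]
  simp only [Finset.sum_add_distrib, Finset.sum_sub_distrib]
  rw [Finset.sum_comm (f := fun l' l => D l l'), sub_self, add_zero]

/-- The identity for the first order term. -/
lemma first {A U : K → C3} : Bf A U + Bf U A - TA A U = 2 • Bf A U := by
  unfold TA; rw [two_smul]; abel

end shear

end Pool.Agent.H356R3.NS.SW
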