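import Pool.Agent.Helper19.SW.Phy6

/-!
# Fourier coefficients of real-analytic periodic fields
-/

open MeasureTheory Set Filter Topology
open scoped ENNReal NNReal ContDiff Nat

namespace Pool.Agent.H356R3.NS.SW

open H459R3.NS (fr SP cube)

/-- Cauchy estimates near a point. -/
lemma ana_local {f : R3 → ℝ} {x0 : R3} (h : AnalyticAt ℝ f x0) : ∃ U ∈ 𝓝 x0, ∃ C : ℝ, 0 ≤ C ∧ ∃ r : ℝ, 0 < r ∧
    ∀ y ∈ U, ∀ n : ℕ, ∀ v : R3, ‖v‖ ≤ 1 → ‖iteratedFDeriv ℝ n f y (fun _ => v)‖ ≤ C * n ! / r ^ n := by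
  obtain ⟨p, R, hp⟩ := h
  obtain ⟨s, hs0, hsR⟩ := ENNReal.lt_iff_exists_nnreal_btwn.1 hp.r_pos
  have hs0' : 0 < s := by exact_mod_cast hs0
  set r : ℝ≥0 := s / 2 with hr
  have hr0 : 0 < r := by rw [hr]; positivity
  have hrr : (r + r : ℝ≥0∞) < p.radius := by
    refine lt_of_lt_of_le ?_ hp.r_le
    have : (r + r : ℝ≥0∞) = s := by
      rw [← ENNReal.coe_add, hr, add_halves]
    rw [this]; exact hsR
  have hsum := p.changeOriginSeries_summable_aux₁ hrr
  set C : ℝ≥0 := ∑' s : Σ k l : ℕ, { s : Finset (Fin (k + l)) // s.card = l },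
    ‖p (s.1 + s.2.1)‖₊ * r ^ s.2.1 * r ^ s.1 with hC
  refine ⟨Metric.ball x0 r, Metric.ball_mem_nhds x0 (by exact_mod_cast hr0), C, C.2, r, by exact_mod_cast hr0,
    fun y hy n v hv => ?_⟩
  have hyr : ‖y - x0‖₊ < r := by
    rw [Metric.mem_ball, dist_eq_norm] at hy
    exact_mod_cast hy
  have hrR : (r : ℝ≥0∞) < R := by
    refine lt_of_le_of_lt ?_ hsR
    have : r ≤ s := by rw [hr]; exact half_le_self s.2
    exact_mod_cast this
  have hyR : (‖y - x0‖₊ : ℝ≥0∞) < R := lt_trans (by exact_mod_cast hyr) hrR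
  have h1 := hp.changeOrigin hyR
  rw [add_sub_cancel] at h1
  rw [← h1.factorial_smul v n]
  have h2 : ‖p.changeOrigin (y - x0) n‖₊ * r ^ n ≤ C := by
    have h3 := p.nnnorm_changeOrigin_le n (hyR.trans_le hp.r_le)
    have hs2 : Summable fun s : Σ l : ℕ, { s : Finset (Fin (n + l)) // s.card = l } =>
        ‖p (n + s.1)‖₊ * r ^ s.1 := p.changeOriginSeries_summable_aux₂ (hrR.trans_le hp.r_le) n
    have h4 : ‖p.changeOrigin (y - x0) n‖₊ ≤
        ∑' s : Σ l : ℕ, { s : Finset (Fin (n + l)) // s.card = l }, ‖p (n + s.1)‖₊ * r ^ s.1 := by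
      refine h3.trans (Summable.tsum_le_tsum (fun s => ?_)
        (p.changeOriginSeries_summable_aux₂ (hyR.trans_le hp.r_le) n) hs2)
      gcongr
    calc ‖p.changeOrigin (y - x0) n‖₊ * r ^ n
        ≤ (∑' s : Σ l : ℕ, { s : Finset (Fin (n + l)) // s.card = l }, ‖p (n + s.1)‖₊ * r ^ s.1) * r ^ n := by
          gcongr
      _ = ∑' s : Σ l : ℕ, { s : Finset (Fin (n + l)) // s.card = l }, ‖p (n + s.1)‖₊ * r ^ s.1 * r ^ n := by
          rw [NNReal.tsum_mul_right]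
      _ ≤ C := by
          have hinj : Function.Injective (fun t : Σ l : ℕ, { s : Finset (Fin (n + l)) // s.card = l } =>
              (⟨n, t⟩ : Σ k l : ℕ, { s : Finset (Fin (k + l)) // s.card = l })) := by
            intro t t' h
            simpa only [Sigma.mk.injEq, heq_eq_eq, true_and] using h
          have hle := NNReal.tsum_comp_le_tsum_of_inj hsum hinj
          rw [← hC] at hle
          exact hle
  have h2' : ‖p.changeOrigin (y - x0) n‖ * (r : ℝ) ^ n ≤ C := by exact_mod_cast h2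
  have h5 : ‖p.changeOrigin (y - x0) n fun _ => v‖ ≤ ‖p.changeOrigin (y - x0) n‖ := by
    refine (ContinuousMultilinearMap.le_opNorm _ _).trans ?_
    have : ∏ _i : Fin n, ‖v‖ ≤ 1 := Finset.prod_le_one (fun _ _ => norm_nonneg _) fun _ _ => hv
    calc _ ≤ ‖p.changeOrigin (y - x0) n‖ * 1 := by gcongr
      _ = _ := mul_one _
  have hrn : (0 : ℝ) < (r : ℝ) ^ n := by
    have : (0 : ℝ) < r := by exact_mod_cast hr0
    positivity
  rw [le_div_iff₀ hrn, nsmul_eq_mul, norm_mul, Real.norm_natCast]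
  calc (n ! : ℝ) * ‖p.changeOrigin (y - x0) n fun _ => v‖ * (r : ℝ) ^ n
      ≤ (n ! : ℝ) * ‖p.changeOrigin (y - x0) n‖ * (r : ℝ) ^ n := by gcongr
    _ = (‖p.changeOrigin (y - x0) n‖ * (r : ℝ) ^ n) * n ! := by ring
    _ ≤ C * n ! := by gcongr

/-- Cauchy estimates on a compact set. -/
lemma ana_compact {f : R3 → ℝ} (h : ∀ x, AnalyticAt ℝ f x) {Q : Set R3} (hQ : IsCompact Q) :
    ∃ C : ℝ, 0 ≤ C ∧ ∃ r : ℝ, 0 < r ∧
    ∀ y ∈ Q, ∀ n : ℕ, ∀ v : R3, ‖v‖ ≤ 1 → ‖iteratedFDeriv ℝ n f y (fun _ => v)‖ ≤ C * n ! / r ^ n := by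
  refine hQ.induction_on (p := fun Q => ∃ C : ℝ, 0 ≤ C ∧ ∃ r : ℝ, 0 < r ∧
    ∀ y ∈ Q, ∀ n : ℕ, ∀ v : R3, ‖v‖ ≤ 1 → ‖iteratedFDeriv ℝ n f y (fun _ => v)‖ ≤ C * n ! / r ^ n) ?_ ?_ ?_ ?_
  · exact ⟨0, le_rfl, 1, one_pos, fun y hy => absurd hy (notMem_empty y)⟩
  · rintro s t hst ⟨C, hC, r, hr, h⟩
    exact ⟨C, hC, r, hr, fun y hy => h y (hst hy)⟩
  · rintro s t ⟨C, hC, r, hr, h⟩ ⟨C', hC', r', hr', h'⟩
    have key : ∀ (C₁ r₁ : ℝ), 0 ≤ C₁ → 0 < r₁ → C₁ ≤ max C C' → min r r' ≤ r₁ → ∀ n : ℕ,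
        C₁ * n ! / r₁ ^ n ≤ max C C' * n ! / (min r r') ^ n := by
      intro C₁ r₁ hC₁ hr₁ h1 h2 n
      have hm : 0 < min r r' := lt_min hr hr'
      gcongr
    refine ⟨max C C', hC.trans (le_max_left _ _), min r r', lt_min hr hr', fun y hy n v hv => ?_⟩
    rcases hy with hy | hy
    · exact (h y hy n v hv).trans (key C r hC hr (le_max_left _ _) (min_le_left _ _) n)
    · exact (h' y hy n v hv).trans (key C' r' hC' hr' (le_max_right _ _) (min_le_right _ _) n)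
  · intro x _
    obtain ⟨U, hU, C, hC, r, hr, h1⟩ := ana_local (h x)
    exact ⟨U, nhdsWithin_le_nhds hU, C, hC, r, hr, h1⟩

lemma pd_iter_eq {f : R3 → ℝ} (hf : ContDiff ℝ ∞ f) (j : Fin 3) (n : ℕ) (y : R3) :
    (H459R3.NS.pd j)^[n] f y = iteratedFDeriv ℝ n f y (fun _ => Pi.single j 1) := by
  induction n generalizing y with
  | zero => simp
  | succ n ih =>
    rw [Function.iterate_succ_apply', iteratedFDeriv_succ_apply_left]
    have e : (H459R3.NS.pd j)^[n] f = fun y => iteratedFDeriv ℝ n f y (fun _ => Pi.single j 1) := funext ih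
    rw [e]
    unfold H459R3.NS.pd
    have h1 : DifferentiableAt ℝ (iteratedFDeriv ℝ n f) y :=
      (hf.differentiable_iteratedFDeriv (by exact_mod_cast WithTop.coe_lt_top _)) y
    have h2 := (ContinuousMultilinearMap.apply ℝ (fun _ : Fin n => R3) ℝ (fun _ => Pi.single j 1)).hasFDerivAt.comp y
      h1.hasFDerivAt
    have h3 := h2.fderiv
    have e2 : (fun y => iteratedFDeriv ℝ n f y (fun _ => Pi.single j 1)) =
      (⇑(ContinuousMultilinearMap.apply ℝ (fun _ : Fin n => R3) ℝ (fun _ => Pi.single j 1)) ∘ iteratedFDeriv ℝ n f) := rfl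
    rw [e2, h3]
    rfl

lemma norm_single_le (j : Fin 3) : ‖(Pi.single j 1 : R3)‖ ≤ 1 := by
  refine (pi_norm_le_iff_of_nonneg zero_le_one).2 fun i => ?_
  by_cases h : i = j
  · subst h; simp
  · rw [Pi.single_eq_of_ne h]; simp

/-- exponential decay in one direction -/
lemma fr_exp {f : R3 → ℝ} (hf : SP f) (h : ∀ x, AnalyticAt ℝ f x) : ∃ B : ℝ, 0 ≤ B ∧ ∃ ρ : ℝ, 0 < ρ ∧
    ∀ k : K, ∀ j, ‖fr f k‖ ≤ B * Real.exp (-(ρ * |(k j : ℝ)|)) := by
  obtain ⟨C, hC, r, hr, hb⟩ := ana_compact h (Q := cube) isCompact_Icc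
  refine ⟨2 * C, by positivity, r / 2, by positivity, fun k j => ?_⟩
  set a : ℝ := |(k j : ℝ)| with ha
  have ha0 : 0 ≤ a := abs_nonneg _
  -- the bound for each power
  have h1 : ∀ n : ℕ, a ^ n * ‖fr f k‖ ≤ C * n ! / r ^ n := by
    intro n
    have h2 : a ^ n * ‖fr f k‖ ≤ ‖fr ((H459R3.NS.pd j)^[n] f) k‖ := by
      rw [H459R3.NS.fr_iter hf, norm_mul, norm_pow]
      gcongr
      rw [norm_mul, norm_mul, norm_mul, Complex.norm_I, mul_one, Complex.norm_real,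
        Real.norm_eq_abs, abs_of_pos Real.pi_pos, Complex.norm_ofNat, Complex.norm_intCast]
      have := Real.pi_gt_three
      nlinarith
    refine h2.trans ?_
    unfold fr H459R3.NS.fc
    have := H459R3.NS.cube_finite
    have h3 : ∀ x ∈ cube, ‖H459R3.NS.ee (-k) x * (((H459R3.NS.pd j)^[n] f x : ℝ) : ℂ)‖ ≤ C * n ! / r ^ n := by
      intro x hx
      rw [norm_mul, H459R3.NS.norm_ee, one_mul, Complex.norm_real, pd_iter_eq hf.smooth]
      exact hb x hx n _ (norm_single_le j)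
    refine (norm_setIntegral_le_of_norm_le_const (by rw [H459R3.NS.volume_cube]; exact ENNReal.one_lt_top) h3).trans ?_
    rw [Measure.real, H459R3.NS.volume_cube]
    simp
  -- sum the exponential series
  have h4 : HasSum (fun n : ℕ => ((r / 2) * a) ^ n / n ! * ‖fr f k‖) (Real.exp (r / 2 * a) * ‖fr f k‖) := by
    have := (NormedSpace.expSeries_div_hasSum_exp (𝔸 := ℝ) (r / 2 * a)).mul_right ‖fr f k‖
    rw [← Real.exp_eq_exp_ℝ] at this
    exact this
  have h5 : HasSum (fun n : ℕ => C * (1 / 2 : ℝ) ^ n) (C * 2) := hasSum_geometric_two.mul_left C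
  have h6 : Real.exp (r / 2 * a) * ‖fr f k‖ ≤ C * 2 := by
    refine hasSum_le (fun n => ?_) h4 h5
    have h7 := h1 n
    have hn : (0 : ℝ) < n ! := by exact_mod_cast Nat.factorial_pos n
    have hrn : (0 : ℝ) < r ^ n := by positivity
    rw [le_div_iff₀ hrn] at h7
    calc ((r / 2) * a) ^ n / n ! * ‖fr f k‖ = (a ^ n * ‖fr f k‖ * r ^ n) * ((1 / 2 : ℝ) ^ n / n !) := by
          rw [mul_pow, div_pow, div_pow, one_pow]; field_simp
      _ ≤ (C * n !) * ((1 / 2 : ℝ) ^ n / n !) := by gcongr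
      _ = C * (1 / 2 : ℝ) ^ n := by field_simp
  have h8 := Real.exp_pos (r / 2 * a)
  rw [Real.exp_neg, ← div_eq_mul_inv, le_div_iff₀ h8]
  linarith

lemma exists_third (k : K) : ∃ j, l1 k / 3 ≤ |(k j : ℝ)| := by
  by_contra h
  push Not at h
  have h0 := h 0
  have h1 := h 1
  have h2 := h 2
  rw [l13] at h0 h1 h2
  linarith

/-- The Fourier coefficients of a smooth periodic real-analytic field decay exponentially. -/
theorem fc_analytic {V : R3 → R3} (hsm : ContDiff ℝ ∞ V) (hper : ∀ x j, V (x + Pi.single j 1) = V x)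
    (hV : AnalyticOnNhd ℝ V univ) : ∃ α : ℝ, 0 < α ∧ Summable fun k => om α k * ‖fc V k‖ := by
  have hsp : ∀ i, SP (fun y => V y i) := fun i =>
    ⟨(contDiff_pi.1 hsm) i, fun j x => by simp only [hper]⟩
  have han : ∀ i x, AnalyticAt ℝ (fun y => V y i) x := fun i x => by
    have h1 := hV x (mem_univ _)
    exact ((ContinuousLinearMap.proj i : R3 →L[ℝ] ℝ).analyticAt (V x)).comp h1
  choose B hB0 rr hrr hb using fun i => fr_exp (hsp i) (han i)
  set ρ0 : ℝ := min (rr 0) (min (rr 1) (rr 2)) with hρ0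
  have hρ0p : 0 < ρ0 := lt_min (hrr 0) (lt_min (hrr 1) (hrr 2))
  have hρi : ∀ i, ρ0 ≤ rr i := by
    intro i
    fin_cases i
    · exact min_le_left _ _
    · exact (min_le_right _ _).trans (min_le_left _ _)
    · exact (min_le_right _ _).trans (min_le_right _ _)
  set B0 : ℝ := ∑ i, B i
  have hB00 : 0 ≤ B0 := Finset.sum_nonneg fun i _ => hB0 i
  have hfc : ∀ k, ‖fc V k‖ ≤ B0 * Real.exp (-(ρ0 / 3 * l1 k)) := by
    intro k
    obtain ⟨j, hj⟩ := exists_third k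
    refine (pi_norm_le_iff_of_nonneg (by positivity)).2 fun i => ?_
    rw [← fr_eq_fc]
    refine (hb i k j).trans ?_
    have h1 : B i ≤ B0 := Finset.single_le_sum (f := B) (fun i _ => hB0 i) (Finset.mem_univ i)
    have h2 : ρ0 / 3 * l1 k ≤ rr i * |(k j : ℝ)| := by
      calc ρ0 / 3 * l1 k = ρ0 * (l1 k / 3) := by ring
        _ ≤ rr i * |(k j : ℝ)| := mul_le_mul (hρi i) hj (div_nonneg (l1_nonneg k) (by norm_num)) (hrr i).le
    gcongr
  refine ⟨ρ0 / 6, by positivity, ?_⟩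
  have hs := (summ_exp (b := ρ0 / 6) (by positivity)).mul_left B0
  refine hs.of_nonneg_of_le (fun k => mul_nonneg (om_pos _ _).le (norm_nonneg _)) fun k => ?_
  calc om (ρ0 / 6) k * ‖fc V k‖ ≤ om (ρ0 / 6) k * (B0 * Real.exp (-(ρ0 / 3 * l1 k))) :=
        mul_le_mul_of_nonneg_left (hfc k) (om_pos _ _).le
    _ = B0 * Real.exp (-(ρ0 / 6 * l1 k)) := by
      unfold om
      rw [mul_left_comm, ← Real.exp_add]
      congr 2
      ring

end Pool.Agent.H356R3.NS.SW
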