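import Pool.Agent.Helper19.SW.Sums

/-!
# Bounds of the solution and the bilinear estimate
-/

open MeasureTheory Set Filter Topology
open scoped ENNReal NNReal

namespace Pool.Agent.H356R3.NS.SW

variable {P : Pm}

lemma sc_meas (hP : P.OK) {X : Fam} (hX : CF X) (f : K → ℝ) : Measurable (sc P f X) := by
  unfold sc
  exact Measurable.tsum fun k => (ph_meas hP hX k).const_mul _

lemma s0_meas (hP : P.OK) {X : Fam} (hX : CF X) : Measurable (s0 P X) := by
  unfold s0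
  exact Measurable.tsum fun k => ph_meas hP hX k

lemma int_sc (hP : P.OK) {X U : Fam} (hX : CF X) {h : ℝ → ℝ} (hh : Measurable h) (hh0 : ∀ t, 0 ≤ h t)
    {f : K → ℝ} {C : ℝ≥0∞}
    (hC : ∀ k, ∫⁻ t in Ioc 0 P.T, ENNReal.ofReal (h t * f k) * ph P X k t ≤ C * en P U k) :
    ∫⁻ t in Ioc 0 P.T, ENNReal.ofReal (h t) * sc P f X t ≤ C * EN P U := by
  have e : ∀ t, ENNReal.ofReal (h t) * sc P f X t = ∑' k, ENNReal.ofReal (h t * f k) * ph P X k t := by
    intro t
    unfold sc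
    rw [← ENNReal.tsum_mul_left]
    refine tsum_congr fun k => ?_
    rw [← mul_assoc, ← ENNReal.ofReal_mul (hh0 t)]
  simp only [e]
  rw [lintegral_tsum]
  · unfold EN
    rw [← ENNReal.tsum_mul_left]
    exact ENNReal.tsum_le_tsum hC
  · intro k
    exact ((hh.mul_const _).ennreal_ofReal.mul (ph_meas hP hX k)).aemeasurable

lemma sc_le {f : K → ℝ} {X U : Fam} {t : ℝ} {C : ℝ≥0∞}
    (h : ∀ k, ENNReal.ofReal (f k) * ph P X k t ≤ C * en P U k) : sc P f X t ≤ C * EN P U := by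
  unfold sc EN
  rw [← ENNReal.tsum_mul_left]
  exact ENNReal.tsum_le_tsum h

lemma s0_le {X U : Fam} {t : ℝ} {C : ℝ≥0∞}
    (h : ∀ k, ph P X k t ≤ C * en P U k) : s0 P X t ≤ C * EN P U := by
  unfold s0 EN
  rw [← ENNReal.tsum_mul_left]
  exact ENNReal.tsum_le_tsum h

lemma s0_le_EN {X : Fam} {t : ℝ} (ht : t ∈ Icc 0 P.T) : s0 P X t ≤ EN P X := by
  have := s0_le (P := P) (X := X) (U := X) (t := t) (C := 1) fun k => by rw [one_mul]; exact ph_le_en ht
  rwa [one_mul] at this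

section YoS

variable (hP : P.OK) {U : Fam} (hU : CF U)
include hP hU

lemma gpp_Yo {t : ℝ} (ht : t ∈ Icc 0 P.T) :
    ENNReal.ofReal (P.g t) * sc P (pp P.η) (Yo P U) t ≤ ENNReal.ofReal P.μ * EN P U := by
  have h : sc P (fun k => P.g t * pp P.η k) (Yo P U) t ≤ ENNReal.ofReal P.μ * EN P U :=
    sc_le fun k => (m2 hP hU k ht).trans (mul_le_mul' (ENNReal.ofReal_le_ofReal (inv_κ_le hP)) le_rfl)
  refine le_trans (le_of_eq ?_) h
  unfold sc
  rw [← ENNReal.tsum_mul_left]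
  refine tsum_congr fun k => ?_
  rw [← mul_assoc, ← ENNReal.ofReal_mul (g_nonneg P t)]

lemma h0pp_Yo {t : ℝ} (ht : t ∈ Icc 0 P.T) :
    ENNReal.ofReal (P.h0 t) * sc P (pp P.η) (Yo P U) t ≤ ENNReal.ofReal P.μ * EN P U :=
  (mul_le_mul' (ENNReal.ofReal_le_ofReal (h0_le hP ht.1)) le_rfl).trans (gpp_Yo hP hU ht)

lemma s0_Yo {t : ℝ} (ht : t ∈ Icc 0 P.T) : s0 P (Yo P U) t ≤ ENNReal.ofReal t * EN P U :=
  s0_le fun k => m3 hP hU k ht

lemma h1_s0_Yo {t : ℝ} (ht : t ∈ Ioc 0 P.T) :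
    ENNReal.ofReal (P.h1 t) * s0 P (Yo P U) t ≤
      ENNReal.ofReal (1 / Real.sqrt P.c * (Real.sqrt t * P.g t)) * EN P U := by
  have hc := hP.hc
  have hsc := Real.sqrt_pos.2 hc
  have hst := Real.sqrt_pos.2 ht.1
  have h1 := h1_le hP ht.1
  rw [Real.sqrt_mul hc.le] at h1
  refine (mul_le_mul' (ENNReal.ofReal_le_ofReal h1) (s0_Yo hP hU (Ioc_subset_Icc_self ht))).trans (le_of_eq ?_)
  have hg := g_nonneg P t
  rw [← mul_assoc, ← ENNReal.ofReal_mul (by positivity)]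
  congr 2
  have : t = Real.sqrt t * Real.sqrt t := (Real.mul_self_sqrt ht.1.le).symm
  field_simp
  nlinarith [this]

lemma int_h1pp : ∫⁻ t in Ioc 0 P.T, ENNReal.ofReal (P.h1 t) * sc P (pp P.η) (Yo P U) t
    ≤ ENNReal.ofReal (P.CC * P.μ) * EN P U :=
  int_sc hP (Yo_cf hU) (h1_cont P).measurable (h1_nonneg P) fun k => i2 hP hU k

lemma int_h0ppnk : ∫⁻ t in Ioc 0 P.T, ENNReal.ofReal (P.h0 t) * sc P (fun k => pp P.η k * nk k) (Yo P U) t
    ≤ ENNReal.ofReal (P.CC * P.μ) * EN P U := by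
  have h : ∫⁻ t in Ioc 0 P.T, ENNReal.ofReal (P.g t) * sc P (fun k => pp P.η k * nk k) (Yo P U) t
      ≤ ENNReal.ofReal (P.CC * P.μ) * EN P U :=
    int_sc hP (Yo_cf hU) (g_cont P).measurable (g_nonneg P) fun k => by
      simp only [← mul_assoc]
      exact i3 hP hU k
  refine le_trans (setLIntegral_mono' measurableSet_Ioc fun t ht => ?_) h
  exact mul_le_mul' (ENNReal.ofReal_le_ofReal (h0_le hP ht.1.le)) le_rfl

lemma int_h0pp2 : ∫⁻ t in Ioc 0 P.T, ENNReal.ofReal (P.h0 t) * sc P (fun k => pp P.η k * pp P.η k) (Yo P U) t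
    ≤ ENNReal.ofReal (3 * (P.CC * P.μ)) * EN P U := by
  have h : ∫⁻ t in Ioc 0 P.T, ENNReal.ofReal (P.h0 t) * sc P (fun k => pp P.η k * pp P.η k) (Yo P U) t
      ≤ ∫⁻ t in Ioc 0 P.T, ENNReal.ofReal 3 *
        (ENNReal.ofReal (P.h0 t) * sc P (fun k => pp P.η k * nk k) (Yo P U) t) := by
    refine lintegral_mono fun t => ?_
    dsimp only
    rw [mul_left_comm]
    apply mul_le_mul' le_rfl
    unfold sc
    rw [← ENNReal.tsum_mul_left]
    refine ENNReal.tsum_le_tsum fun k => ?_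
    rw [← mul_assoc, ← ENNReal.ofReal_mul (by norm_num)]
    apply mul_le_mul' (ENNReal.ofReal_le_ofReal _) le_rfl
    have := mul_le_mul_of_nonneg_left (pp_le_nk hP.hη k) (pp_nonneg P.η k)
    linarith
  refine h.trans ?_
  rw [lintegral_const_mul' _ _ ENNReal.ofReal_ne_top]
  refine (mul_le_mul' le_rfl (int_h0ppnk hP hU)).trans (le_of_eq ?_)
  rw [← mul_assoc, ← ENNReal.ofReal_mul (by norm_num)]

lemma int_h2s0 : ∫⁻ t in Ioc 0 P.T, ENNReal.ofReal (P.h2 t) * s0 P (Yo P U) t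
    ≤ ENNReal.ofReal (P.CC * P.μ) * EN P U := by
  have h := int_sc hP (Yo_cf hU) (h2_cont P).measurable (h2_nonneg P) (U := U) (f := fun _ => 1)
    (C := ENNReal.ofReal (P.CC * P.μ)) fun k => by
      simp only [mul_one]
      exact i4 hP hU k
  simpa only [sc_one] using h

lemma int_gh0pp2 : ∫⁻ t in Ioc 0 P.T, ENNReal.ofReal (P.g t * P.g t) *
    sc P (fun k => pp P.η k * pp P.η k) (Yo P U) t ≤ ENNReal.ofReal P.μ * EN P U := by
  have hg := g_cont P
  refine int_sc hP (Yo_cf hU) (by fun_prop : Continuous fun t => P.g t * P.g t).measurable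
    (fun t => mul_nonneg (g_nonneg P t) (g_nonneg P t)) fun k => ?_
  refine le_trans (le_of_eq ?_) (i8 hP hU k)
  refine lintegral_congr fun t => ?_
  congr 2; ring

lemma int_gh1pp : ∫⁻ t in Ioc 0 P.T, ENNReal.ofReal (Real.sqrt t * P.g t) *
    (ENNReal.ofReal (P.h1 t) * sc P (pp P.η) (Yo P U) t) ≤ ENNReal.ofReal (P.CC * P.μ) * EN P U := by
  have hg := g_cont P
  have hh := h1_cont P
  have h := int_sc hP (Yo_cf hU) (h := fun t => Real.sqrt t * P.g t * P.h1 t)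
    (by fun_prop : Continuous fun t => Real.sqrt t * P.g t * P.h1 t).measurable
    (fun t => mul_nonneg (mul_nonneg (Real.sqrt_nonneg t) (g_nonneg P t)) (h1_nonneg P t))
    (U := U) (f := pp P.η) (C := ENNReal.ofReal (P.CC * P.μ)) fun k => by
      refine le_trans (le_of_eq ?_) (i7 hP hU k)
      refine lintegral_congr fun t => ?_
      rw [← mul_assoc, ← ENNReal.ofReal_mul (mul_nonneg (Real.sqrt_nonneg t) (g_nonneg P t))]
      congr 2; ring
  refine le_trans (le_of_eq ?_) h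
  refine lintegral_congr fun t => ?_
  rw [← mul_assoc, ← ENNReal.ofReal_mul (mul_nonneg (Real.sqrt_nonneg t) (g_nonneg P t))]

lemma int_c0 : ∫⁻ t in Ioc 0 P.T, ENNReal.ofReal (P.h0 t) * sc P (fun k => pp P.η k * (P.c * sq k)) (Yo P U) t
    ≤ ENNReal.ofReal P.μ * EN P U := by
  have h : ∫⁻ t in Ioc 0 P.T, ENNReal.ofReal (P.g t) * sc P (fun k => pp P.η k * (P.c * sq k)) (Yo P U) t
      ≤ ENNReal.ofReal P.μ * EN P U :=
    int_sc hP (Yo_cf hU) (g_cont P).measurable (g_nonneg P) fun k => by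
      have := j2 hP hU k
      simp only [← mul_assoc] at this ⊢
      exact this
  refine le_trans (setLIntegral_mono' measurableSet_Ioc fun t ht => ?_) h
  exact mul_le_mul' (ENNReal.ofReal_le_ofReal (h0_le hP ht.1.le)) le_rfl

lemma int_c1 : ∫⁻ t in Ioc 0 P.T, ENNReal.ofReal (P.c * P.h1 t) * sc P (fun k => pp P.η k * nk k) (Yo P U) t
    ≤ ENNReal.ofReal (P.c * (P.CC * P.μ)) * EN P U := by
  have hc := hP.hc
  have h : ∫⁻ t in Ioc 0 P.T, ENNReal.ofReal (P.h1 t) * sc P (fun k => pp P.η k * nk k) (Yo P U) t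
      ≤ ENNReal.ofReal (P.CC * P.μ) * EN P U :=
    int_sc hP (Yo_cf hU) (h1_cont P).measurable (h1_nonneg P) fun k => by
      have := j3 hP hU k
      simp only [← mul_assoc] at this ⊢
      exact this
  rw [ENNReal.ofReal_mul hc.le, mul_assoc]
  refine le_trans (le_of_eq ?_) (mul_le_mul' le_rfl h)
  rw [← lintegral_const_mul' _ _ ENNReal.ofReal_ne_top]
  refine lintegral_congr fun t => ?_
  rw [ENNReal.ofReal_mul hc.le, mul_assoc]

lemma int_c2 : ∫⁻ t in Ioc 0 P.T, ENNReal.ofReal (P.c * P.h2 t) * sc P (pp P.η) (Yo P U) t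
    ≤ ENNReal.ofReal P.μ * EN P U := by
  have hh := h2_cont P
  refine int_sc hP (Yo_cf hU) (by fun_prop : Continuous fun t => P.c * P.h2 t).measurable
    (fun t => mul_nonneg hP.hc.le (h2_nonneg P t)) fun k => ?_
  refine le_trans (le_of_eq ?_) (j4 hP hU k)
  refine lintegral_congr fun t => ?_
  congr 2; ring

end YoS

end Pool.Agent.H356R3.NS.SW
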