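import Pool.Agent.Helper19.SW.Bd

/-!
# Bounds of the solution and the bilinear estimate
-/

open MeasureTheory Set Filter Topology
open scoped ENNReal NNReal

namespace Pool.Agent.H356R3.NS.SW

variable {P : Pm}

/-- The bounds of a field. -/
structure Bd (P : Pm) (w : Fam) (α β γ δ : ℝ) : Prop where
  s : ∀ t ∈ Ioc 0 P.T, s0 P w t ≤ ENNReal.ofReal (α + β * (Real.sqrt t * P.g t))
  π : ∀ t ∈ Ioc 0 P.T, sπ P w t ≤ ENNReal.ofReal α
  p : ∫⁻ t in Ioc 0 P.T, sc P (pp P.η) w t ≤ ENNReal.ofReal γ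
  q : ∫⁻ t in Ioc 0 P.T, sc P (qq P.η) w t ≤ ENNReal.ofReal γ
  gp : ∫⁻ t in Ioc 0 P.T, ENNReal.ofReal (Real.sqrt t * P.g t) * sc P (pp P.η) w t ≤ ENNReal.ofReal δ

lemma tg_nonneg (P : Pm) (t : ℝ) : 0 ≤ Real.sqrt t * P.g t := mul_nonneg (Real.sqrt_nonneg t) (g_nonneg P t)

lemma tg_cont (P : Pm) : Continuous fun t => Real.sqrt t * P.g t := by have := g_cont P; fun_prop

lemma ph_add_le (X Y : Fam) (k : K) (t : ℝ) : ph P (X + Y) k t ≤ ph P X k t + ph P Y k t := by
  unfold ph
  rw [← mul_add]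
  exact mul_le_mul' le_rfl (enorm_add_le _ _)

lemma sc_add_le (f : K → ℝ) (X Y : Fam) (t : ℝ) : sc P f (X + Y) t ≤ sc P f X t + sc P f Y t := by
  unfold sc
  rw [← ENNReal.tsum_add]
  refine ENNReal.tsum_le_tsum fun k => ?_
  rw [← mul_add]
  exact mul_le_mul' le_rfl (ph_add_le X Y k t)

lemma s0_add_le (X Y : Fam) (t : ℝ) : s0 P (X + Y) t ≤ s0 P X t + s0 P Y t := by
  unfold s0
  rw [← ENNReal.tsum_add]
  exact ENNReal.tsum_le_tsum fun k => ph_add_le X Y k t

lemma sπ_add_le (X Y : Fam) (t : ℝ) : sπ P (X + Y) t ≤ sπ P X t + sπ P Y t := by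
  unfold sπ
  rw [← ENNReal.tsum_add]
  refine ENNReal.tsum_le_tsum fun k => ?_
  have w := (W_pos P t k).le
  rw [← ENNReal.ofReal_add (mul_nonneg w (par_nonneg _ _)) (mul_nonneg w (par_nonneg _ _)), ← mul_add]
  exact ENNReal.ofReal_le_ofReal (mul_le_mul_of_nonneg_left (par_add_le _ _ _) w)

lemma Bd.add (hP : P.OK) {w w' : Fam} {α β γ δ α' β' γ' δ' : ℝ} (h : Bd P w α β γ δ)
    (h' : Bd P w' α' β' γ' δ') (hw : CF w) (p1 : 0 ≤ α) (p2 : 0 ≤ β) (p3 : 0 ≤ γ) (p4 : 0 ≤ δ)
    (q1 : 0 ≤ α') (q2 : 0 ≤ β') (q3 : 0 ≤ γ') (q4 : 0 ≤ δ') :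
    Bd P (w + w') (α + α') (β + β') (γ + γ') (δ + δ') := by
  have hm := sc_meas hP hw
  have hg := (tg_cont P).measurable.ennreal_ofReal
  refine ⟨fun t ht => ?_, fun t ht => ?_, ?_, ?_, ?_⟩
  · have := tg_nonneg P t
    refine (s0_add_le w w' t).trans ((add_le_add (h.s t ht) (h'.s t ht)).trans (le_of_eq ?_))
    rw [← ENNReal.ofReal_add (by positivity) (by positivity)]
    congr 1; ring
  · refine (sπ_add_le w w' t).trans ((add_le_add (h.π t ht) (h'.π t ht)).trans (le_of_eq ?_))
    rw [← ENNReal.ofReal_add p1 q1]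
  · rw [ENNReal.ofReal_add p3 q3]
    refine le_trans ?_ (add_le_add h.p h'.p)
    rw [← lintegral_add_left (hm _)]
    exact lintegral_mono fun t => sc_add_le _ w w' t
  · rw [ENNReal.ofReal_add p3 q3]
    refine le_trans ?_ (add_le_add h.q h'.q)
    rw [← lintegral_add_left (hm _)]
    exact lintegral_mono fun t => sc_add_le _ w w' t
  · rw [ENNReal.ofReal_add p4 q4]
    refine le_trans ?_ (add_le_add h.gp h'.gp)
    have mm : Measurable fun t => ENNReal.ofReal (Real.sqrt t * P.g t) * sc P (pp P.η) w t := hg.mul (hm _)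
    rw [← lintegral_add_left mm]
    refine lintegral_mono fun t => ?_
    dsimp only
    rw [← mul_add]
    exact mul_le_mul' le_rfl (sc_add_le _ w w' t)

lemma Bd_self (hP : P.OK) {Z : Fam} (hZ : CF Z) {z : ℝ} (hz : 0 ≤ z) (h : EN P Z ≤ ENNReal.ofReal z) :
    Bd P Z (2 * z) 0 (3 * (P.CC * Real.sqrt P.T) * z) (P.μ * z) := by
  have hC := one_le_CC hP
  have hs := (sT_pos hP).le
  have hμ := μ_nonneg hP
  have hnk : ∫⁻ t in Ioc 0 P.T, sc P nk Z t ≤ ENNReal.ofReal (P.CC * Real.sqrt P.T * z) := by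
    have h1 := int_sc hP hZ (h := fun _ => 1) measurable_const (fun _ => zero_le_one) (U := Z) (f := nk)
      (C := ENNReal.ofReal (P.CC * Real.sqrt P.T)) fun k => by
        simp only [one_mul]
        exact i1 hP k
    simp only [ENNReal.ofReal_one, one_mul] at h1
    refine h1.trans ((mul_le_mul' le_rfl h).trans (le_of_eq ?_))
    rw [← ENNReal.ofReal_mul (by positivity)]
  refine ⟨fun t ht => ?_, fun t ht => ?_, ?_, ?_, ?_⟩
  · refine (s0_le_EN (Ioc_subset_Icc_self ht)).trans (h.trans (ENNReal.ofReal_le_ofReal ?_))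
    linarith
  · have h1 : sπ P Z t ≤ 2 * s0 P Z t := by
      unfold sπ s0
      rw [← ENNReal.tsum_mul_left]
      refine ENNReal.tsum_le_tsum fun k => ?_
      rw [ph_eq, show (2 : ℝ≥0∞) = ENNReal.ofReal 2 by simp, ← ENNReal.ofReal_mul (by norm_num)]
      apply ENNReal.ofReal_le_ofReal
      have := mul_le_mul_of_nonneg_left (par_le hP.hη (Z k t)) (W_pos P t k).le
      linarith
    refine h1.trans ((mul_le_mul' le_rfl ((s0_le_EN (Ioc_subset_Icc_self ht)).trans h)).trans (le_of_eq ?_))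
    rw [ENNReal.ofReal_mul (by norm_num), ENNReal.ofReal_ofNat]
  · have h1 : ∀ t, sc P (pp P.η) Z t ≤ ENNReal.ofReal 3 * sc P nk Z t := by
      intro t
      unfold sc
      rw [← ENNReal.tsum_mul_left]
      refine ENNReal.tsum_le_tsum fun k => ?_
      rw [← mul_assoc, ← ENNReal.ofReal_mul (by norm_num)]
      exact mul_le_mul' (ENNReal.ofReal_le_ofReal (pp_le_nk hP.hη k)) le_rfl
    refine (lintegral_mono h1).trans ?_
    rw [lintegral_const_mul' _ _ ENNReal.ofReal_ne_top]
    refine (mul_le_mul' le_rfl hnk).trans (le_of_eq ?_)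
    rw [← ENNReal.ofReal_mul (by norm_num)]
    congr 1; ring
  · refine (lintegral_mono fun t => sc_mono (fun k => qq_le_nk hP.hη k) Z t).trans (hnk.trans
      (ENNReal.ofReal_le_ofReal ?_))
    have : 0 ≤ P.CC * Real.sqrt P.T * z := by positivity
    linarith
  · have h1 : ∫⁻ t in Ioc 0 P.T, ENNReal.ofReal (P.g t) * sc P (pp P.η) Z t
        ≤ ENNReal.ofReal P.μ * EN P Z :=
      int_sc hP hZ (g_cont P).measurable (g_nonneg P) fun k => (i6 hP k).trans
        (mul_le_mul' (ENNReal.ofReal_le_ofReal (inv_κ_le hP)) le_rfl)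
    refine le_trans (setLIntegral_mono' measurableSet_Ioc fun t ht => ?_)
      (h1.trans ((mul_le_mul' le_rfl h).trans (le_of_eq ?_)))
    · apply mul_le_mul' (ENNReal.ofReal_le_ofReal _) le_rfl
      have h2 : Real.sqrt t ≤ 1 := (Real.sqrt_le_sqrt ht.2).trans (sT_le hP)
      have := mul_le_mul_of_nonneg_right h2 (g_nonneg P t)
      linarith
    · rw [← ENNReal.ofReal_mul hμ]

lemma tt_cont {l j : K} {a y : ℝ → C3} (ha : Continuous a) (hy : Continuous y) :
    Continuous fun t => tt l (a t) j (y t) := by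
  unfold tt dt
  fun_prop

lemma TAf_cf {Y : Fam} (hY : CF Y) : CF (TAf P Y) := by
  intro k
  unfold TAf
  refine continuous_finsetSum _ fun l _ => ?_
  exact tt_cont ((A_cf P l).comp (cl_cont P.T)) (hY (k - l))

lemma Rf_cf {Y : Fam} (hY : CF Y) : CF (Rf P Y) := by
  intro k
  unfold Rf
  refine continuous_finsetSum _ fun l _ => ?_
  exact (tt_cont ((A_cf P l).comp (cl_cont P.T)) (hY (k - l))).const_smul (P.c * (sq k - sq l))

lemma Bd_TA (hP : P.OK) {U : Fam} (hU : CF U) (hd : ∀ k t, dt k (Yo P U k t) = 0) {u : ℝ} (hu : 0 ≤ u)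
    (h : EN P U ≤ ENNReal.ofReal u) :
    Bd P (TAf P (Yo P U)) (16 * Real.pi * P.μ * u) (8 * Real.pi / Real.sqrt P.c * u)
      (48 * Real.pi * (P.CC * P.μ) * u) (16 * Real.pi * (P.CC * P.μ) * u) := by
  have hpi := Real.pi_pos
  have hC := one_le_CC hP
  have hμ := μ_nonneg hP
  have hc := hP.hc
  have hsc := Real.sqrt_pos.2 hc
  have hY := Yo_cf (P := P) hU
  have m1 := (sc_meas hP hY (pp P.η))
  have m2' := (sc_meas hP hY (fun k => pp P.η k * pp P.η k))
  have m3' := (sc_meas hP hY (fun k => pp P.η k * nk k))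
  have m0 := s0_meas hP hY
  have n0 := (h0_cont P).measurable.ennreal_ofReal
  have n1 := (h1_cont P).measurable.ennreal_ofReal
  have n2 := (h2_cont P).measurable.ennreal_ofReal
  have hCμ : 0 ≤ P.CC * P.μ := by positivity
  refine ⟨fun t ht => ?_, fun t ht => ?_, ?_, ?_, ?_⟩
  · have ht' := Ioc_subset_Icc_self ht
    have hg := tg_nonneg P t
    refine (TAs0 hP ht').trans ?_
    calc ENNReal.ofReal (8 * Real.pi) * (ENNReal.ofReal (P.h0 t) * sc P (pp P.η) (Yo P U) t
          + ENNReal.ofReal (P.h1 t) * s0 P (Yo P U) t)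
        ≤ ENNReal.ofReal (8 * Real.pi) * (ENNReal.ofReal P.μ * ENNReal.ofReal u
          + ENNReal.ofReal (1 / Real.sqrt P.c * (Real.sqrt t * P.g t)) * ENNReal.ofReal u) := by
          apply mul_le_mul' le_rfl (add_le_add _ _)
          · exact (h0pp_Yo hP hU ht').trans (mul_le_mul' le_rfl h)
          · exact (h1_s0_Yo hP hU ht).trans (mul_le_mul' le_rfl h)
      _ = ENNReal.ofReal (8 * Real.pi * (P.μ * u + 1 / Real.sqrt P.c * (Real.sqrt t * P.g t) * u)) := by
          rw [← ENNReal.ofReal_mul hμ, ← ENNReal.ofReal_mul (by positivity),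
            ← ENNReal.ofReal_add (by positivity) (by positivity), ← ENNReal.ofReal_mul (by positivity)]
      _ ≤ _ := by
          apply ENNReal.ofReal_le_ofReal
          have e : 8 * Real.pi / Real.sqrt P.c * u * (Real.sqrt t * P.g t)
            = 8 * Real.pi * (1 / Real.sqrt P.c * (Real.sqrt t * P.g t) * u) := by field_simp
          rw [e]
          have : 0 ≤ Real.pi * P.μ * u := by positivity
          linarith
  · have ht' := Ioc_subset_Icc_self ht
    refine (TAsπ hP ht').trans ?_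
    refine (mul_le_mul' le_rfl ((h0pp_Yo hP hU ht').trans (mul_le_mul' le_rfl h))).trans (le_of_eq ?_)
    rw [← ENNReal.ofReal_mul hμ, ← ENNReal.ofReal_mul (by positivity)]
    congr 1; ring
  · refine (setLIntegral_mono' measurableSet_Ioc fun t ht => TAsp hP (Ioc_subset_Icc_self ht)).trans ?_
    have mm : Measurable fun t => ENNReal.ofReal (P.h0 t) * sc P (fun k => pp P.η k * pp P.η k) (Yo P U) t :=
      n0.mul m2'
    rw [lintegral_const_mul' _ _ ENNReal.ofReal_ne_top, lintegral_add_left mm]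
    refine (mul_le_mul' le_rfl (add_le_add ((int_h0pp2 hP hU).trans (mul_le_mul' le_rfl h))
      ((int_h1pp hP hU).trans (mul_le_mul' le_rfl h)))).trans ?_
    rw [← ENNReal.ofReal_mul (by positivity), ← ENNReal.ofReal_mul (by positivity),
      ← ENNReal.ofReal_add (by positivity) (by positivity), ← ENNReal.ofReal_mul (by positivity)]
    apply ENNReal.ofReal_le_ofReal
    have : 0 ≤ Real.pi * (P.CC * P.μ) * u := by positivity
    nlinarith
  · refine (setLIntegral_mono' measurableSet_Ioc fun t ht => TAsq hP hd (Ioc_subset_Icc_self ht)).trans ?_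
    have mm1 : Measurable fun t => ENNReal.ofReal (P.h1 t) * sc P (pp P.η) (Yo P U) t := n1.mul m1
    have mm3 : Measurable fun t => ENNReal.ofReal (P.h0 t) * sc P (fun k => pp P.η k * nk k) (Yo P U) t :=
      n0.mul m3'
    have mm2 : Measurable fun t => ENNReal.ofReal (P.h1 t) * sc P (pp P.η) (Yo P U) t +
        ENNReal.ofReal (P.h0 t) * sc P (fun k => pp P.η k * nk k) (Yo P U) t := mm1.add mm3
    rw [lintegral_const_mul' _ _ ENNReal.ofReal_ne_top, lintegral_add_left mm2,
      lintegral_add_left mm1]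
    refine (mul_le_mul' le_rfl (add_le_add (add_le_add ((int_h1pp hP hU).trans (mul_le_mul' le_rfl h))
      ((int_h0ppnk hP hU).trans (mul_le_mul' le_rfl h)))
      ((int_h2s0 hP hU).trans (mul_le_mul' le_rfl h)))).trans ?_
    rw [← ENNReal.ofReal_mul (by positivity),
      ← ENNReal.ofReal_add (by positivity) (by positivity),
      ← ENNReal.ofReal_add (by positivity) (by positivity), ← ENNReal.ofReal_mul (by positivity)]
    apply ENNReal.ofReal_le_ofReal
    apply le_of_eq; ring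
  · have ng := (tg_cont P).measurable.ennreal_ofReal
    have h1 : ∀ t ∈ Ioc 0 P.T, ENNReal.ofReal (Real.sqrt t * P.g t) * sc P (pp P.η) (TAf P (Yo P U)) t ≤
        ENNReal.ofReal (8 * Real.pi) * (ENNReal.ofReal (P.g t * P.g t) *
          sc P (fun k => pp P.η k * pp P.η k) (Yo P U) t + ENNReal.ofReal (Real.sqrt t * P.g t) *
          (ENNReal.ofReal (P.h1 t) * sc P (pp P.η) (Yo P U) t)) := by
      intro t ht
      refine (mul_le_mul' le_rfl (TAsp hP (Ioc_subset_Icc_self ht))).trans ?_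
      rw [mul_left_comm, mul_add]
      apply mul_le_mul' le_rfl (add_le_add _ le_rfl)
      rw [← mul_assoc, ← ENNReal.ofReal_mul (tg_nonneg P t)]
      apply mul_le_mul' (ENNReal.ofReal_le_ofReal _) le_rfl
      have h2 : Real.sqrt t ≤ 1 := (Real.sqrt_le_sqrt ht.2).trans (sT_le hP)
      have hg := g_nonneg P t
      have h3 := h0_le hP ht.1.le
      have h4 := h0_nonneg P t
      calc Real.sqrt t * P.g t * P.h0 t ≤ 1 * P.g t * P.g t := by gcongr
        _ = _ := by ring
    refine (setLIntegral_mono' measurableSet_Ioc h1).trans ?_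
    have mg : Measurable fun t => ENNReal.ofReal (P.g t * P.g t) *
        sc P (fun k => pp P.η k * pp P.η k) (Yo P U) t :=
      ((g_cont P).mul (g_cont P)).measurable.ennreal_ofReal.mul m2'
    rw [lintegral_const_mul' _ _ ENNReal.ofReal_ne_top, lintegral_add_left mg]
    refine (mul_le_mul' le_rfl (add_le_add ((int_gh0pp2 hP hU).trans (mul_le_mul' le_rfl h))
      ((int_gh1pp hP hU).trans (mul_le_mul' le_rfl h)))).trans ?_
    rw [← ENNReal.ofReal_mul (by positivity), ← ENNReal.ofReal_mul (by positivity),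
      ← ENNReal.ofReal_add (by positivity) (by positivity), ← ENNReal.ofReal_mul (by positivity)]
    apply ENNReal.ofReal_le_ofReal
    have h5 : P.μ * u ≤ P.CC * P.μ * u := by
      apply mul_le_mul_of_nonneg_right _ hu
      nlinarith
    calc 8 * Real.pi * (P.μ * u + P.CC * P.μ * u) ≤ 8 * Real.pi * (P.CC * P.μ * u + P.CC * P.μ * u) := by gcongr
      _ = _ := by ring

end Pool.Agent.H356R3.NS.SW
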