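import Pool.Agent.Helper19.SW.Alg

/-!
# Pointwise estimates
-/

open MeasureTheory Set Filter Topology
open scoped ENNReal NNReal

namespace Pool.Agent.H356R3.NS.SW

variable {P : Pm}

/-- weighted sums -/
noncomputable def sc (P : Pm) (f : K → ℝ) (X : Fam) (t : ℝ) : ℝ≥0∞ := ∑' k, ENNReal.ofReal (f k) * ph P X k t

noncomputable def s0 (P : Pm) (X : Fam) (t : ℝ) : ℝ≥0∞ := ∑' k, ph P X k t

noncomputable def sπ (P : Pm) (X : Fam) (t : ℝ) : ℝ≥0∞ := ∑' k, ENNReal.ofReal (P.W t k * par P.η (X k t))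

lemma ph_eq (X : Fam) (k : K) (t : ℝ) : ph P X k t = ENNReal.ofReal (P.W t k * ‖X k t‖) := by
  unfold ph; rw [ENNReal.ofReal_mul (W_pos P t k).le, ofReal_norm]

lemma conv_eq (f h : K → ℝ≥0∞) : ∑' k, ∑' l, f l * h (k - l) = (∑' k, f k) * ∑' k, h k := by
  rw [ENNReal.tsum_comm, ← ENNReal.tsum_mul_right]
  refine tsum_congr fun l => ?_
  rw [ENNReal.tsum_mul_left]
  congr 1
  exact (Equiv.subRight l).tsum_eq h

lemma bil_pt (hP : P.OK) {X Y : Fam} {t : ℝ} (hX : SN (at' X t)) (hY : SN (at' Y t))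
    (hd : ∀ l, dt l (X l t) = 0) :
    ∑' k, ENNReal.ofReal (P.W t k) * ‖Bf (at' X t) (at' Y t) k‖ₑ
      ≤ ENNReal.ofReal (12 * Real.pi) * (s0 P X t * sc P (pp P.η) Y t + sπ P X t * sc P (qq P.η) Y t) := by
  have hpi := Real.pi_pos
  have h1 : ∀ k, ENNReal.ofReal (P.W t k) * ‖Bf (at' X t) (at' Y t) k‖ₑ ≤
      ENNReal.ofReal (12 * Real.pi) * ∑' l, (ph P X l t * (ENNReal.ofReal (pp P.η (k - l)) * ph P Y (k - l) t)
        + ENNReal.ofReal (P.W t l * par P.η (X l t)) *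
          (ENNReal.ofReal (qq P.η (k - l)) * ph P Y (k - l) t)) := by
    intro k
    rw [← ENNReal.tsum_mul_left]
    refine (mul_le_mul' le_rfl (enorm_Bf_le_bt hX hY k)).trans ?_
    rw [← ENNReal.tsum_mul_left]
    refine ENNReal.tsum_le_tsum fun l => ?_
    set x := X l t
    set y := Y (k - l) t
    have hp := pp_nonneg P.η (k - l)
    have hq := qq_nonneg P.η (k - l)
    have hπ := par_nonneg P.η x
    have w1 := W_pos P t l
    have w2 := W_pos P t (k - l)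
    have e1 : ‖bt k (at' X t l) (at' Y t (k - l))‖ₑ = ENNReal.ofReal ‖bt k x y‖ := by
      rw [ofReal_norm]; rfl
    rw [e1, ph_eq, ph_eq, ← ENNReal.ofReal_mul (W_pos P t k).le, ← ENNReal.ofReal_mul hp,
      ← ENNReal.ofReal_mul hq, ← ENNReal.ofReal_mul (by positivity), ← ENNReal.ofReal_mul (by positivity),
      ← ENNReal.ofReal_add (by positivity) (by positivity), ← ENNReal.ofReal_mul (by positivity)]
    apply ENNReal.ofReal_le_ofReal
    have h2 : dt k x = dt (k - l) x := by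
      have : k = (k - l) + l := by abel
      conv_lhs => rw [this]
      rw [dt_kadd, hd l, add_zero]
    have h3 : ‖bt k x y‖ ≤ 6 * Real.pi * (2 * ‖x‖ * pp P.η (k - l) + par P.η x * qq P.η (k - l)) * ‖y‖ := by
      refine (norm_bt_le k x y).trans ?_
      rw [h2]
      have := dt_le hP.hη (k - l) x
      gcongr
    calc P.W t k * ‖bt k x y‖ ≤ (P.W t l * P.W t (k - l)) *
          (6 * Real.pi * (2 * ‖x‖ * pp P.η (k - l) + par P.η x * qq P.η (k - l)) * ‖y‖) :=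
          mul_le_mul (W_sub hP t k l) h3 (norm_nonneg _) (by positivity)
      _ = 12 * Real.pi * (P.W t l * ‖x‖ * (pp P.η (k - l) * (P.W t (k - l) * ‖y‖)))
          + 6 * Real.pi * (P.W t l * par P.η x * (qq P.η (k - l) * (P.W t (k - l) * ‖y‖))) := by ring
      _ ≤ 12 * Real.pi * (P.W t l * ‖x‖ * (pp P.η (k - l) * (P.W t (k - l) * ‖y‖)))
          + 12 * Real.pi * (P.W t l * par P.η x * (qq P.η (k - l) * (P.W t (k - l) * ‖y‖))) := by
          gcongr; norm_num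
      _ = _ := by ring
  calc _ ≤ ∑' k, ENNReal.ofReal (12 * Real.pi) *
        ∑' l, (ph P X l t * (ENNReal.ofReal (pp P.η (k - l)) * ph P Y (k - l) t)
        + ENNReal.ofReal (P.W t l * par P.η (X l t)) *
          (ENNReal.ofReal (qq P.η (k - l)) * ph P Y (k - l) t)) := ENNReal.tsum_le_tsum h1
    _ = _ := by
        rw [ENNReal.tsum_mul_left]
        congr 1
        simp only [ENNReal.tsum_add]
        rw [conv_eq (fun l => ph P X l t) (fun l => ENNReal.ofReal (pp P.η l) * ph P Y l t),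
          conv_eq (fun l => ENNReal.ofReal (P.W t l * par P.η (X l t)))
            (fun l => ENNReal.ofReal (qq P.η l) * ph P Y l t)]
        rfl

lemma line_sum3 (hP : P.OK) {t : ℝ} {Y : Fam} {Q : K → ℝ} {α1 α2 α3 f1 f2 f3 : K → ℝ}
    (a1 : ∀ l, 0 ≤ α1 l) (a2 : ∀ l, 0 ≤ α2 l) (a3 : ∀ l, 0 ≤ α3 l)
    (b1 : ∀ l, 0 ≤ f1 l) (b2 : ∀ l, 0 ≤ f2 l) (b3 : ∀ l, 0 ≤ f3 l)
    (hQ : ∀ k, Q k ≤ ∑ l ∈ P.S, (α1 l * f1 (k - l) + α2 l * f2 (k - l) + α3 l * f3 (k - l)) * ‖Y (k - l) t‖) :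
    ∑' k, ENNReal.ofReal (P.W t k * Q k) ≤ 2 * (ENNReal.ofReal (∑ l ∈ P.S, α1 l) * sc P f1 Y t
      + ENNReal.ofReal (∑ l ∈ P.S, α2 l) * sc P f2 Y t + ENNReal.ofReal (∑ l ∈ P.S, α3 l) * sc P f3 Y t) := by
  have h1 : ∀ k, ENNReal.ofReal (P.W t k * Q k) ≤ ∑ l ∈ P.S, 2 *
      (ENNReal.ofReal (α1 l) * (ENNReal.ofReal (f1 (k - l)) * ph P Y (k - l) t)
      + ENNReal.ofReal (α2 l) * (ENNReal.ofReal (f2 (k - l)) * ph P Y (k - l) t)
      + ENNReal.ofReal (α3 l) * (ENNReal.ofReal (f3 (k - l)) * ph P Y (k - l) t)) := by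
    intro k
    have h2 : P.W t k * Q k ≤ ∑ l ∈ P.S, 2 * (α1 l * (f1 (k - l) * (P.W t (k - l) * ‖Y (k - l) t‖))
        + α2 l * (f2 (k - l) * (P.W t (k - l) * ‖Y (k - l) t‖))
        + α3 l * (f3 (k - l) * (P.W t (k - l) * ‖Y (k - l) t‖))) := by
      refine (mul_le_mul_of_nonneg_left (hQ k) (W_pos P t k).le).trans ?_
      rw [Finset.mul_sum]
      refine Finset.sum_le_sum fun l hl => ?_
      have w := W_line hP t hl k
      have := a1 l; have := a2 l; have := a3 l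
      have := b1 (k - l); have := b2 (k - l); have := b3 (k - l)
      calc P.W t k * ((α1 l * f1 (k - l) + α2 l * f2 (k - l) + α3 l * f3 (k - l)) * ‖Y (k - l) t‖)
          ≤ 2 * P.W t (k - l) * ((α1 l * f1 (k - l) + α2 l * f2 (k - l) + α3 l * f3 (k - l)) * ‖Y (k - l) t‖) :=
            mul_le_mul_of_nonneg_right w (by positivity)
        _ = _ := by ring
    refine (ENNReal.ofReal_le_ofReal h2).trans (le_of_eq ?_)
    have e3 : ∀ l : K, ∀ α f : ℝ, 0 ≤ α → 0 ≤ f → ENNReal.ofReal (α * (f * (P.W t (k - l) * ‖Y (k - l) t‖)))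
        = ENNReal.ofReal α * (ENNReal.ofReal f * ph P Y (k - l) t) := by
      intro l α f hα hf
      rw [ph_eq, ENNReal.ofReal_mul hα, ENNReal.ofReal_mul hf]
    rw [ENNReal.ofReal_sum_of_nonneg]
    · refine Finset.sum_congr rfl fun l _ => ?_
      have := a1 l; have := a2 l; have := a3 l
      have := b1 (k - l); have := b2 (k - l); have := b3 (k - l)
      have w := W_pos P t (k - l)
      rw [ENNReal.ofReal_mul (by norm_num), ENNReal.ofReal_add (by positivity) (by positivity),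
        ENNReal.ofReal_add (by positivity) (by positivity), e3 l _ _ (a1 l) (b1 _), e3 l _ _ (a2 l) (b2 _),
        e3 l _ _ (a3 l) (b3 _), ENNReal.ofReal_ofNat]
    · intro l _
      have := a1 l; have := a2 l; have := a3 l
      have := b1 (k - l); have := b2 (k - l); have := b3 (k - l)
      have w := W_pos P t (k - l)
      positivity
  have h3 : ∀ (α f : K → ℝ), (∀ l, 0 ≤ α l) → ∑' k, ∑ l ∈ P.S, ENNReal.ofReal (α l) *
      (ENNReal.ofReal (f (k - l)) * ph P Y (k - l) t) = ENNReal.ofReal (∑ l ∈ P.S, α l) * sc P f Y t := by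
    intro α f hα
    rw [Summable.tsum_finsetSum fun _ _ => ENNReal.summable, ENNReal.ofReal_sum_of_nonneg fun l _ => hα l,
      Finset.sum_mul]
    refine Finset.sum_congr rfl fun l _ => ?_
    rw [ENNReal.tsum_mul_left]
    congr 1
    exact (Equiv.subRight l).tsum_eq fun k => ENNReal.ofReal (f k) * ph P Y k t
  calc _ ≤ ∑' k, ∑ l ∈ P.S, 2 *
      (ENNReal.ofReal (α1 l) * (ENNReal.ofReal (f1 (k - l)) * ph P Y (k - l) t)
      + ENNReal.ofReal (α2 l) * (ENNReal.ofReal (f2 (k - l)) * ph P Y (k - l) t)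
      + ENNReal.ofReal (α3 l) * (ENNReal.ofReal (f3 (k - l)) * ph P Y (k - l) t)) := ENNReal.tsum_le_tsum h1
    _ = 2 * ∑' k, ((∑ l ∈ P.S, ENNReal.ofReal (α1 l) * (ENNReal.ofReal (f1 (k - l)) * ph P Y (k - l) t))
      + (∑ l ∈ P.S, ENNReal.ofReal (α2 l) * (ENNReal.ofReal (f2 (k - l)) * ph P Y (k - l) t))
      + (∑ l ∈ P.S, ENNReal.ofReal (α3 l) * (ENNReal.ofReal (f3 (k - l)) * ph P Y (k - l) t))) := by
        rw [← ENNReal.tsum_mul_left]
        refine tsum_congr fun k => ?_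
        rw [← Finset.mul_sum, Finset.sum_add_distrib, Finset.sum_add_distrib]
    _ = _ := by
        rw [ENNReal.tsum_add, ENNReal.tsum_add, h3 α1 f1 a1, h3 α2 f2 a2, h3 α3 f3 a3]

lemma sc_zero (P : Pm) (X : Fam) (t : ℝ) : sc P (fun _ => 0) X t = 0 := by simp [sc]

lemma sc_one (P : Pm) (X : Fam) (t : ℝ) : sc P (fun _ => 1) X t = s0 P X t := by simp [sc, s0]

/-! ### Norms of the commutator -/

section norms

variable (hP : P.OK) {l j : K} (hl : l ∈ P.S) {a y : C3} (ha : dt P.η a = 0) (hy : dt j y = 0)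
include hP hl ha hy

omit hy in
lemma N0 : ‖tt l a j y‖ ≤ 2 * Real.pi * (2 * ‖a‖ * pp P.η j * ‖y‖ + nk l * par P.η y * ‖a‖) := by
  have hpi := Real.pi_pos
  obtain ⟨m, rfl⟩ := hP.line l hl
  unfold tt
  rw [norm_smul]
  have h1 : ‖2 * (Real.pi : ℂ) * Complex.I‖ = 2 * Real.pi := by
    rw [norm_mul, norm_mul, Complex.norm_I, Complex.norm_real]
    simp [abs_of_pos hpi]
  rw [h1]
  apply mul_le_mul_of_nonneg_left _ (by positivity)
  refine (norm_sub_le _ _).trans ?_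
  rw [norm_smul, norm_smul, norm_dt_line hP.hη]
  have := dt_le_perp hP.hη j ha
  gcongr

omit hy in
lemma N1 : ‖tt l a j y‖ ≤ 4 * Real.pi * (‖a‖ * pp P.η j + nk l * ‖a‖) * ‖y‖ := by
  have hpi := Real.pi_pos
  refine (N0 hP hl ha (j := j) (y := y)).trans ?_
  have h1 := par_le hP.hη y
  have h2 : nk l * par P.η y * ‖a‖ ≤ nk l * (2 * ‖y‖) * ‖a‖ := by
    have := nk_nonneg l; gcongr
  calc 2 * Real.pi * (2 * ‖a‖ * pp P.η j * ‖y‖ + nk l * par P.η y * ‖a‖)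
      ≤ 2 * Real.pi * (2 * ‖a‖ * pp P.η j * ‖y‖ + nk l * (2 * ‖y‖) * ‖a‖) := by gcongr
    _ = _ := by ring

omit hl hy in
lemma N2 : par P.η (tt l a j y) ≤ 8 * Real.pi * (‖a‖ * pp P.η j) * ‖y‖ := by
  have hpi := Real.pi_pos
  have hn := nk_pos hP.hη
  have hp := pp_nonneg P.η j
  have e : dt P.η (tt l a j y) = 2 * Real.pi * Complex.I * (dt j a * dt P.η y) := by
    unfold tt
    rw [dt_vsmul, dt_vsub, dt_vsmul, dt_vsmul, ha]; ring
  have e2 : par P.η (tt l a j y) = 2 * Real.pi * (‖dt j a‖ * par P.η y) := by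
    unfold par
    rw [e, norm_mul, norm_mul, norm_mul, norm_mul, Complex.norm_I, Complex.norm_real,
      Real.norm_of_nonneg hpi.le]
    simp only [Complex.norm_ofNat]
    ring
  rw [e2]
  have h1 := dt_le_perp hP.hη j ha
  have h2 := par_le hP.hη y
  have h3 := par_nonneg P.η y
  calc 2 * Real.pi * (‖dt j a‖ * par P.η y) ≤ 2 * Real.pi * ((2 * ‖a‖ * pp P.η j) * (2 * ‖y‖)) := by gcongr
    _ = _ := by ring

lemma N3 : qq P.η (l + j) * ‖tt l a j y‖
    ≤ 8 * Real.pi * (nk l * ‖a‖ * pp P.η j + ‖a‖ * (pp P.η j * nk j) + sq l * ‖a‖) * ‖y‖ := by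
  have hpi := Real.pi_pos
  have h0 := N0 hP hl ha (j := j) (y := y)
  have h1 : qq P.η (l + j) ≤ nk l + qq P.η j := by
    obtain ⟨m, hm⟩ := hP.line l hl
    refine (qq_add_le _ _ _).trans ?_
    rw [hm, qq_line hP.hη]
  have h2 := par_qq_le hP.hη hy
  have h3 := par_le hP.hη y
  have hq := qq_nonneg P.η j
  have hp := pp_nonneg P.η j
  have hπ := par_nonneg P.η y
  have hn := nk_nonneg l
  have hnj := qq_le_nk hP.hη j
  calc qq P.η (l + j) * ‖tt l a j y‖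
      ≤ (nk l + qq P.η j) * (2 * Real.pi * (2 * ‖a‖ * pp P.η j * ‖y‖ + nk l * par P.η y * ‖a‖)) :=
        mul_le_mul h1 h0 (norm_nonneg _) (by positivity)
    _ = 2 * Real.pi * (2 * nk l * ‖a‖ * pp P.η j * ‖y‖ + nk l ^ 2 * par P.η y * ‖a‖
        + 2 * ‖a‖ * pp P.η j * qq P.η j * ‖y‖ + nk l * (par P.η y * qq P.η j) * ‖a‖) := by ring
    _ ≤ 2 * Real.pi * (2 * nk l * ‖a‖ * pp P.η j * ‖y‖ + nk l ^ 2 * (2 * ‖y‖) * ‖a‖
        + 2 * ‖a‖ * pp P.η j * nk j * ‖y‖ + nk l * (2 * ‖y‖ * pp P.η j) * ‖a‖) := by gcongr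
    _ = 4 * Real.pi * (2 * (nk l * ‖a‖ * pp P.η j) + ‖a‖ * (pp P.η j * nk j) + sq l * ‖a‖) * ‖y‖ := by
        rw [← nk_sq]; ring
    _ ≤ 4 * Real.pi * (2 * (nk l * ‖a‖ * pp P.η j) + 2 * (‖a‖ * (pp P.η j * nk j)) + 2 * (sq l * ‖a‖)) * ‖y‖ := by
        have := nk_nonneg j
        have := sq_nonneg' l
        have h4 : ‖a‖ * (pp P.η j * nk j) ≤ 2 * (‖a‖ * (pp P.η j * nk j)) := by
          have : 0 ≤ ‖a‖ * (pp P.η j * nk j) := by positivity
          linarith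
        have h5 : sq l * ‖a‖ ≤ 2 * (sq l * ‖a‖) := by
          have : 0 ≤ sq l * ‖a‖ := by positivity
          linarith
        gcongr
    _ = _ := by ring

omit hy in
lemma N4 : pp P.η (l + j) * ‖tt l a j y‖
    ≤ 4 * Real.pi * (‖a‖ * (pp P.η j * pp P.η j) + nk l * ‖a‖ * pp P.η j) * ‖y‖ := by
  have hpi := Real.pi_pos
  have h1 := N1 hP hl ha (j := j) (y := y)
  have hp := pp_nonneg P.η j
  obtain ⟨m, hm⟩ := hP.line l hl
  have e : pp P.η (l + j) = pp P.η j := by rw [hm, pp_line_add]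
  rw [e]
  calc pp P.η j * ‖tt l a j y‖ ≤ pp P.η j * (4 * Real.pi * (‖a‖ * pp P.η j + nk l * ‖a‖) * ‖y‖) :=
        mul_le_mul_of_nonneg_left h1 hp
    _ = _ := by ring

lemma N5 : P.c * |sq (l + j) - sq l| * ‖tt l a j y‖
    ≤ 24 * Real.pi * (‖a‖ * (pp P.η j * (P.c * sq j)) + P.c * (nk l * ‖a‖) * (pp P.η j * nk j)
      + P.c * (sq l * ‖a‖) * pp P.η j) * ‖y‖ := by
  have hpi := Real.pi_pos
  have hc := hP.hc
  have h0 := N0 hP hl ha (j := j) (y := y)
  have h2 := par_qq_le hP.hη hy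
  have h3 := par_le hP.hη y
  have hq := qq_nonneg P.η j
  have hp := pp_nonneg P.η j
  have hπ := par_nonneg P.η y
  have hn := nk_nonneg l
  have hnn := nk_nonneg j
  have hnj := qq_le_nk hP.hη j
  have hpj := pp_le_nk hP.hη j
  have hsj := sq_nonneg' j
  have e1 : sq (l + j) - sq l = sq j + 2 * (ip l j : ℝ) := by
    rw [sq_eq_ip, sq_eq_ip, sq_eq_ip, ip_add, ip_add_right, ip_add_right, ip_comm j l]
    push_cast; ring
  have e2 : |(ip l j : ℝ)| = nk l * qq P.η j := by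
    obtain ⟨m, hm⟩ := hP.line l hl
    rw [hm, ip_line hP.hη]
  have h4 : |sq (l + j) - sq l| ≤ sq j + 2 * (nk l * qq P.η j) := by
    rw [e1, ← e2]
    refine (abs_add_le _ _).trans ?_
    rw [abs_mul, abs_two, abs_of_nonneg hsj]
  -- `par y * sq j ≤ 8 ‖y‖ pp nk`
  have h5 : par P.η y * sq j ≤ 8 * ‖y‖ * (pp P.η j * nk j) := by
    have h6 := sq_le_pq hP.hη j
    calc par P.η y * sq j ≤ par P.η y * (pp P.η j ^ 2 + qq P.η j ^ 2) := by gcongr
      _ = par P.η y * pp P.η j * pp P.η j + (par P.η y * qq P.η j) * qq P.η j := by ring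
      _ ≤ (2 * ‖y‖) * pp P.η j * (3 * nk j) + (2 * ‖y‖ * pp P.η j) * nk j := by gcongr
      _ = _ := by ring
  calc P.c * |sq (l + j) - sq l| * ‖tt l a j y‖
      ≤ P.c * (sq j + 2 * (nk l * qq P.η j)) *
        (2 * Real.pi * (2 * ‖a‖ * pp P.η j * ‖y‖ + nk l * par P.η y * ‖a‖)) := by gcongr
    _ = 2 * Real.pi * (2 * ‖a‖ * (pp P.η j * (P.c * sq j)) * ‖y‖
        + 4 * P.c * (nk l * ‖a‖) * (pp P.η j * qq P.η j) * ‖y‖
        + P.c * nk l * ‖a‖ * (par P.η y * sq j)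
        + 2 * P.c * (nk l ^ 2) * ‖a‖ * (par P.η y * qq P.η j)) := by ring
    _ ≤ 2 * Real.pi * (2 * ‖a‖ * (pp P.η j * (P.c * sq j)) * ‖y‖
        + 4 * P.c * (nk l * ‖a‖) * (pp P.η j * nk j) * ‖y‖
        + P.c * nk l * ‖a‖ * (8 * ‖y‖ * (pp P.η j * nk j))
        + 2 * P.c * (nk l ^ 2) * ‖a‖ * (2 * ‖y‖ * pp P.η j)) := by gcongr
    _ = 2 * Real.pi * (2 * (‖a‖ * (pp P.η j * (P.c * sq j))) + 12 * (P.c * (nk l * ‖a‖) * (pp P.η j * nk j))
        + 4 * (P.c * (sq l * ‖a‖) * pp P.η j)) * ‖y‖ := by rw [← nk_sq l]; ring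
    _ ≤ 2 * Real.pi * (12 * (‖a‖ * (pp P.η j * (P.c * sq j))) + 12 * (P.c * (nk l * ‖a‖) * (pp P.η j * nk j))
        + 12 * (P.c * (sq l * ‖a‖) * pp P.η j)) * ‖y‖ := by
        have hsl := sq_nonneg' l
        have q1 : 0 ≤ ‖a‖ * (pp P.η j * (P.c * sq j)) := by positivity
        have q2 : 0 ≤ P.c * (sq l * ‖a‖) * pp P.η j := by positivity
        apply mul_le_mul_of_nonneg_right _ (norm_nonneg y)
        apply mul_le_mul_of_nonneg_left _ (by positivity)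
        linarith
    _ = _ := by ring

end norms

end Pool.Agent.H356R3.NS.SW
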