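import Pool.Agent.Helper19.SW.Bd2

/-!
# The bilinear estimate and the linear part
-/

open MeasureTheory Set Filter Topology
open scoped ENNReal NNReal

namespace Pool.Agent.H356R3.NS.SW

variable {P : Pm}

/-- the norm of the forcing -/
noncomputable def SI (P : Pm) (F : Fam) : ℝ≥0∞ := ∫⁻ t in Ioc 0 P.T, s0 P F t

/-- the bilinear term of two families -/
noncomputable def BB (X Y : Fam) : Fam := fun k t => Bf (at' X t) (at' Y t) k

lemma EN_DT_le (hP : P.OK) {F : Fam} (hF : CF F) : EN P (DT P F) ≤ 2 * SI P F := by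
  unfold EN SI s0
  rw [lintegral_tsum fun k => (ph_meas hP hF k).aemeasurable, ← ENNReal.tsum_mul_left]
  exact ENNReal.tsum_le_tsum fun k => en_DT_le hP hF k

lemma EN_He_le (hP : P.OK) (V : K → C3) :
    EN P (He P V) ≤ 2 * ∑' k, ENNReal.ofReal (P.W 0 k) * ‖V k‖ₑ := by
  unfold EN
  rw [← ENNReal.tsum_mul_left]
  exact ENNReal.tsum_le_tsum fun k => en_He_le hP V k

lemma SI_add_le (hP : P.OK) {F G : Fam} (hF : CF F) : SI P (F + G) ≤ SI P F + SI P G := by
  unfold SI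
  rw [← lintegral_add_left (s0_meas hP hF)]
  exact lintegral_mono fun t => s0_add_le F G t

lemma s0_neg (F : Fam) (t : ℝ) : s0 P (-F) t = s0 P F t := by
  unfold s0 ph
  exact tsum_congr fun k => by simp

lemma SI_neg (F : Fam) : SI P (-F) = SI P F := by
  unfold SI; exact lintegral_congr fun t => s0_neg F t

lemma SI_sub_le (hP : P.OK) {F G : Fam} (hF : CF F) : SI P (F - G) ≤ SI P F + SI P G := by
  rw [sub_eq_add_neg, ← SI_neg G]
  exact SI_add_le hP hF

lemma SN_of_s0 (hP : P.OK) {X : Fam} {t : ℝ} (h : s0 P X t ≠ ⊤) : SN (at' X t) := by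
  have h1 : ∑' k, ‖at' X t k‖ₑ ≠ ⊤ := by
    refine ne_top_of_le_ne_top h (ENNReal.tsum_le_tsum fun k => ?_)
    unfold ph
    calc ‖at' X t k‖ₑ = 1 * ‖X k t‖ₑ := (one_mul _).symm
      _ ≤ _ := by
        apply mul_le_mul' _ le_rfl
        rw [ENNReal.one_le_ofReal]
        exact one_le_W hP t k
  have := ENNReal.summable_toReal h1
  unfold SN
  simpa using this

lemma Bd.sn (hP : P.OK) {w : Fam} {α β γ δ : ℝ} (h : Bd P w α β γ δ) {t : ℝ} (ht : t ∈ Ioc 0 P.T) :
    SN (at' w t) := SN_of_s0 hP (ne_top_of_le_ne_top ENNReal.ofReal_ne_top (h.s t ht))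

lemma SI_BB (hP : P.OK) {w w' : Fam} {α β γ δ α' β' γ' δ' : ℝ} (h : Bd P w α β γ δ)
    (h' : Bd P w' α' β' γ' δ') (hw' : CF w') (hd : ∀ l t, dt l (w l t) = 0)
    (p1 : 0 ≤ α) (p2 : 0 ≤ β) (q3 : 0 ≤ γ') (q4 : 0 ≤ δ') :
    SI P (BB w w') ≤ ENNReal.ofReal (12 * Real.pi * (2 * α * γ' + β * δ')) := by
  have hpi := Real.pi_pos
  have m1 := sc_meas hP hw' (pp P.η)
  have m2 := sc_meas hP hw' (qq P.η)
  have mt := (tg_cont P).measurable.ennreal_ofReal
  have h1 : ∀ t ∈ Ioc 0 P.T, s0 P (BB w w') t ≤ ENNReal.ofReal (12 * Real.pi) *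
      (ENNReal.ofReal α * sc P (pp P.η) w' t
        + ENNReal.ofReal β * (ENNReal.ofReal (Real.sqrt t * P.g t) * sc P (pp P.η) w' t)
        + ENNReal.ofReal α * sc P (qq P.η) w' t) := by
    intro t ht
    refine (bil_pt hP (h.sn hP ht) (h'.sn hP ht) fun l => hd l t).trans ?_
    apply mul_le_mul' le_rfl
    refine add_le_add ?_ (mul_le_mul' (h.π t ht) le_rfl)
    refine (mul_le_mul' (h.s t ht) le_rfl).trans (le_of_eq ?_)
    rw [ENNReal.ofReal_add p1 (mul_nonneg p2 (tg_nonneg P t)), ENNReal.ofReal_mul p2]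
    ring
  have mm1 : Measurable fun t => ENNReal.ofReal α * sc P (pp P.η) w' t := m1.const_mul _
  have mm2 : Measurable fun t => ENNReal.ofReal β * (ENNReal.ofReal (Real.sqrt t * P.g t) * sc P (pp P.η) w' t) :=
    (mt.mul m1).const_mul _
  have mm12 : Measurable fun t => ENNReal.ofReal α * sc P (pp P.η) w' t
      + ENNReal.ofReal β * (ENNReal.ofReal (Real.sqrt t * P.g t) * sc P (pp P.η) w' t) := mm1.add mm2
  unfold SI
  refine (setLIntegral_mono' measurableSet_Ioc h1).trans ?_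
  rw [lintegral_const_mul' _ _ ENNReal.ofReal_ne_top, lintegral_add_left mm12, lintegral_add_left mm1,
    lintegral_const_mul' _ _ ENNReal.ofReal_ne_top, lintegral_const_mul' _ _ ENNReal.ofReal_ne_top,
    lintegral_const_mul' _ _ ENNReal.ofReal_ne_top]
  refine (mul_le_mul' le_rfl (add_le_add (add_le_add (mul_le_mul' le_rfl h'.p) (mul_le_mul' le_rfl h'.gp))
    (mul_le_mul' le_rfl h'.q))).trans (le_of_eq ?_)
  rw [← ENNReal.ofReal_mul p1, ← ENNReal.ofReal_mul p2, ← ENNReal.ofReal_add (by positivity) (by positivity),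
    ← ENNReal.ofReal_add (by positivity) (by positivity), ← ENNReal.ofReal_mul (by positivity)]
  congr 1; ring

/-! ### The linear part -/

lemma line1 (hP : P.OK) {t : ℝ} {q α Q : K → ℝ} (hq : ∀ k, 0 ≤ q k) (hα : ∀ l, 0 ≤ α l)
    (hQ : ∀ k, Q k ≤ ∑ l ∈ P.S, α l * q (k - l)) :
    ∑' k, ENNReal.ofReal (P.W t k * Q k)
      ≤ 2 * (ENNReal.ofReal (∑ l ∈ P.S, α l) * ∑' k, ENNReal.ofReal (P.W t k * q k)) := by
  have hn : ∀ k, ‖(fun _ => (q k : ℂ) : C3)‖ = q k := by
    intro k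
    rw [pi_norm_const, Complex.norm_real, Real.norm_of_nonneg (hq k)]
  have h := line_sum3 hP (t := t) (Y := fun k _ => fun _ => (q k : ℂ)) (Q := Q) (α1 := α)
    (α2 := fun _ => 0) (α3 := fun _ => 0) (f1 := fun _ => 1) (f2 := fun _ => 0) (f3 := fun _ => 0)
    hα (fun _ => le_rfl) (fun _ => le_rfl) (fun _ => zero_le_one) (fun _ => le_rfl) (fun _ => le_rfl)
    (fun k => by simp only [hn, mul_one, mul_zero, add_zero]; exact hQ k)
  simp only [Finset.sum_const_zero, ENNReal.ofReal_zero, zero_mul, add_zero] at h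
  rw [sc_one, s0_eq] at h
  simpa only [hn] using h

/-- the clamped shear flow -/
noncomputable def Ac (P : Pm) : Fam := fun k t => P.A k (cl P.T t)

lemma Ac_sh (hP : P.OK) (t : ℝ) : ShA P (at' (Ac P) t) :=
  ⟨fun l => A_perp hP l _, fun l hl => by
    show P.A l _ = 0
    unfold Pm.A; rw [hP.supp l hl, smul_zero]⟩

lemma Ac_norm (hP : P.OK) (l : K) (t : ℝ) : ‖Ac P l t‖ ≤ ‖P.a l‖ := by
  have hc := hP.hc
  have h0 := (cl_mem hP.hT.le t).1
  show ‖P.A l _‖ ≤ _
  rw [A_norm P l h0]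
  have := sq_nonneg' l
  have h1 : Real.exp (-(P.c * sq l * cl P.T t)) ≤ 1 := by
    rw [Real.exp_le_one_iff]
    have : 0 ≤ P.c * sq l * cl P.T t := by positivity
    linarith
  calc _ ≤ ‖P.a l‖ * 1 := mul_le_mul_of_nonneg_left h1 (norm_nonneg _)
    _ = _ := mul_one _

lemma dt_shift (hP : P.OK) {A : K → C3} (hA : ShA P A) {l : K} (hl : l ∈ P.S) (k : K) :
    dt k (A l) = dt (k - l) (A l) := by
  have : k = (k - l) + l := by abel
  conv_lhs => rw [this]
  rw [dt_kadd, dt_line (hP.line l hl) (hA.perp l), add_zero]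

/-- first term -/
lemma L1_le (hP : P.OK) {U : Fam} {t : ℝ} (ht : t ∈ Icc 0 P.T) (hs : SN (at' U t)) :
    s0 P (BB (Ac P) U + BB (Ac P) U) t ≤ ENNReal.ofReal (48 * Real.pi) *
      (ENNReal.ofReal (P.g t) * sc P (pp P.η) U t) := by
  have hpi := Real.pi_pos
  have hA := Ac_sh hP t
  rw [s0_eq]
  have h := line1 hP (t := t) (q := fun k => pp P.η k * ‖U k t‖) (α := fun l => 24 * Real.pi * ‖P.A l t‖)
    (Q := fun k => ‖(BB (Ac P) U + BB (Ac P) U) k t‖)
    (fun k => mul_nonneg (pp_nonneg _ _) (norm_nonneg _)) (fun l => by positivity) (fun k => by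
      have e : (BB (Ac P) U + BB (Ac P) U) k t = (2 : ℝ) • Bf (at' (Ac P) t) (at' U t) k := by
        rw [two_smul]; rfl
      rw [e, norm_smul, Bf_left_fin hA.supp (SN_fin hA.supp) hs, Real.norm_of_nonneg (by norm_num)]
      calc 2 * ‖∑ l ∈ P.S, bt k (at' (Ac P) t l) (at' U t (k - l))‖
          ≤ 2 * ∑ l ∈ P.S, ‖bt k (at' (Ac P) t l) (at' U t (k - l))‖ := by gcongr; exact norm_sum_le _ _
        _ ≤ _ := by
            rw [Finset.mul_sum]
            refine Finset.sum_le_sum fun l hl => ?_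
            have h1 := norm_bt_le k (at' (Ac P) t l) (at' U t (k - l))
            rw [dt_shift hP hA hl] at h1
            have h2 := dt_le_perp hP.hη (k - l) (hA.perp l)
            have e2 : ‖at' (Ac P) t l‖ = ‖P.A l t‖ := by
              show ‖P.A l (cl P.T t)‖ = _
              rw [cl_of_mem ht]
            rw [e2] at h2
            have e3 : at' U t (k - l) = U (k - l) t := rfl
            rw [e3] at h1 ⊢
            calc 2 * ‖bt k (at' (Ac P) t l) (U (k - l) t)‖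
                ≤ 2 * (6 * Real.pi * ‖dt (k - l) (at' (Ac P) t l)‖ * ‖U (k - l) t‖) := by gcongr
              _ ≤ 2 * (6 * Real.pi * (2 * ‖P.A l t‖ * pp P.η (k - l)) * ‖U (k - l) t‖) := by gcongr
              _ = _ := by ring)
  refine h.trans ?_
  rw [← Finset.mul_sum, h0_eq P ht.1, sc_eq _ (pp_nonneg P.η), ENNReal.ofReal_mul (by positivity)]
  calc 2 * (ENNReal.ofReal (24 * Real.pi) * ENNReal.ofReal (P.h0 t) *
        ∑' k, ENNReal.ofReal (P.W t k * (pp P.η k * ‖U k t‖)))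
      = ENNReal.ofReal (48 * Real.pi) * (ENNReal.ofReal (P.h0 t) *
        ∑' k, ENNReal.ofReal (P.W t k * (pp P.η k * ‖U k t‖))) := by
        rw [show 48 * Real.pi = 2 * (24 * Real.pi) by ring, ENNReal.ofReal_mul (by norm_num : (0:ℝ) ≤ 2),
          ENNReal.ofReal_ofNat]
        ring
    _ ≤ _ := mul_le_mul' le_rfl (mul_le_mul' (ENNReal.ofReal_le_ofReal (h0_le hP ht.1)) le_rfl)

lemma TAf_at (hP : P.OK) {Y : Fam} {t : ℝ} (hs : SN (at' Y t)) (hd : ∀ k t, dt k (Y k t) = 0) :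
    at' (TAf P Y) t = TA (at' (Ac P) t) (at' Y t) := by
  funext k
  rw [TA_apply hP (Ac_sh hP t) hs fun k => hd k t]
  rfl

/-- second term -/
lemma L2_le (hP : P.OK) {Y : Fam} {t : ℝ} (ht : t ∈ Icc 0 P.T) (hs : SN (at' Y t))
    (hs' : SN (at' (TAf P Y) t)) (hd : ∀ k t, dt k (Y k t) = 0) :
    s0 P (BB (Ac P) (TAf P Y) + BB (TAf P Y) (Ac P)) t ≤ ENNReal.ofReal (192 * Real.pi ^ 2) *
      (ENNReal.ofReal (P.g t * P.g t) * sc P (fun k => pp P.η k * pp P.η k) Y t) := by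
  have hpi := Real.pi_pos
  have hA := Ac_sh hP t
  have e0 := TAf_at hP hs hd
  have hTA : SN (TA (at' (Ac P) t) (at' Y t)) := by rw [← e0]; exact hs'
  rw [s0_eq]
  have hAn : ∀ l, ‖at' (Ac P) t l‖ = ‖P.A l t‖ := fun l => by
    show ‖P.A l (cl P.T t)‖ = _
    rw [cl_of_mem ht]
  set X : K → ℝ := fun k => ∑ l ∈ P.S, (‖P.A l t‖ * (pp P.η (k - l) * pp P.η (k - l) * ‖Y (k - l) t‖)) with hX
  have hX0 : ∀ k, 0 ≤ X k := fun k => Finset.sum_nonneg fun l _ => by
    have := pp_nonneg P.η (k - l); positivity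
  have h2 : ∑' k, ENNReal.ofReal (P.W t k * X k) ≤
      2 * (ENNReal.ofReal (P.h0 t) * sc P (fun k => pp P.η k * pp P.η k) Y t) := by
    have := line1 hP (t := t) (q := fun k => pp P.η k * pp P.η k * ‖Y k t‖) (α := fun l => ‖P.A l t‖) (Q := X)
      (fun k => by have := pp_nonneg P.η k; positivity) (fun l => norm_nonneg _) (fun k => le_rfl)
    rw [h0_eq P ht.1] at this
    rw [sc_eq _ (fun k => mul_nonneg (pp_nonneg _ _) (pp_nonneg _ _))]
    exact this
  have h1 := line1 hP (t := t) (q := X) (α := fun l => 48 * Real.pi ^ 2 * ‖P.A l t‖)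
    (Q := fun k => ‖(BB (Ac P) (TAf P Y) + BB (TAf P Y) (Ac P)) k t‖) hX0 (fun l => by positivity) (fun k => by
      have e : (BB (Ac P) (TAf P Y) + BB (TAf P Y) (Ac P)) k t
          = Bf (at' (Ac P) t) (TA (at' (Ac P) t) (at' Y t)) k
            + Bf (TA (at' (Ac P) t) (at' Y t)) (at' (Ac P) t) k := by
        show Bf (at' (Ac P) t) (at' (TAf P Y) t) k + Bf (at' (TAf P Y) t) (at' (Ac P) t) k = _
        rw [e0]
      rw [e, second hP hA hs hTA fun k => hd k t]
      refine (norm_sum_le _ _).trans (Finset.sum_le_sum fun l' _ => ?_)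
      refine (norm_sum_le _ _).trans ?_
      rw [hX, Finset.mul_sum]
      refine Finset.sum_le_sum fun l _ => ?_
      rw [norm_smul, norm_mul, norm_mul]
      have h3 := dt_le_perp hP.hη (k - l' - l) (hA.perp l')
      have h4 := dt_le_perp hP.hη (k - l' - l) (hA.perp l)
      have h5 := norm_PK_le k (at' Y t (k - l' - l))
      have h6 : ‖4 * (Real.pi : ℂ) ^ 2‖ = 4 * Real.pi ^ 2 := by
        rw [norm_mul, norm_pow, Complex.norm_real, Real.norm_of_nonneg hpi.le]; simp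
      have hp := pp_nonneg P.η (k - l' - l)
      rw [h6]
      rw [hAn] at h3 h4
      have e5 : at' Y t (k - l' - l) = Y (k - l' - l) t := rfl
      rw [e5] at h5 ⊢
      calc 4 * Real.pi ^ 2 * ‖dt (k - l' - l) (at' (Ac P) t l')‖ * ‖dt (k - l' - l) (at' (Ac P) t l)‖ *
            ‖PK k (Y (k - l' - l) t)‖
          ≤ 4 * Real.pi ^ 2 * (2 * ‖P.A l' t‖ * pp P.η (k - l' - l)) * (2 * ‖P.A l t‖ * pp P.η (k - l' - l)) *
            (3 * ‖Y (k - l' - l) t‖) := by gcongr
        _ = _ := by ring)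
  refine h1.trans ?_
  rw [← Finset.mul_sum, h0_eq P ht.1]
  refine (mul_le_mul' le_rfl (mul_le_mul' le_rfl h2)).trans ?_
  have hg := g_nonneg P t
  calc 2 * (ENNReal.ofReal (48 * Real.pi ^ 2 * P.h0 t) *
        (2 * (ENNReal.ofReal (P.h0 t) * sc P (fun k => pp P.η k * pp P.η k) Y t)))
      = ENNReal.ofReal (192 * Real.pi ^ 2) * (ENNReal.ofReal (P.h0 t) * ENNReal.ofReal (P.h0 t) *
        sc P (fun k => pp P.η k * pp P.η k) Y t) := by
        rw [show 192 * Real.pi ^ 2 = 2 * (2 * (48 * Real.pi ^ 2)) by ring,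
          ENNReal.ofReal_mul (by norm_num : (0:ℝ) ≤ 2), ENNReal.ofReal_mul (by norm_num : (0:ℝ) ≤ 2),
          ENNReal.ofReal_mul (by positivity : (0:ℝ) ≤ 48 * Real.pi ^ 2), ENNReal.ofReal_ofNat]
        ring
    _ ≤ _ := by
        rw [ENNReal.ofReal_mul hg]
        have := ENNReal.ofReal_le_ofReal (h0_le hP ht.1)
        gcongr

end Pool.Agent.H356R3.NS.SW
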