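import Pool.Agent.Helper19.SW.Eqn

/-!
# Comparison with the unperturbed solution
-/

open MeasureTheory Set Filter Topology
open scoped ENNReal NNReal

namespace Pool.Agent.H356R3.NS.SW

variable {P : Pm}

/-- clamping of a family -/
noncomputable def clf (P : Pm) (v : Fam) : Fam := fun k t => v k (cl P.T t)

lemma EN_clf_le (hP : P.OK) {v : Fam} {β : K → ℝ} (hβ : ∀ k t, ‖v k t‖ ≤ β k)
    {R : ℝ} (hs : Summable fun k => (1 + P.c * sq k + P.a1 * pp P.η k) * (om (3 * P.a1 + P.b) k * β k))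
    (hR : ∑' k, (1 + P.c * sq k + P.a1 * pp P.η k) * (om (3 * P.a1 + P.b) k * β k) ≤ R) :
    EN P (clf P v) ≤ ENNReal.ofReal R := by
  have hc := hP.hc
  have hβ0 : ∀ k, 0 ≤ β k := fun k => (norm_nonneg _).trans (hβ k 0)
  have hq0 : ∀ k, 0 ≤ (1 + P.c * sq k + P.a1 * pp P.η k) * (om (3 * P.a1 + P.b) k * β k) := by
    intro k
    have := sq_nonneg' k; have := pp_nonneg P.η k; have := om_pos (3 * P.a1 + P.b) k; have := hβ0 k
    have := hP.ha1
    positivity
  have h : ∀ k, en P (clf P v) k ≤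
      ENNReal.ofReal ((1 + P.c * sq k + P.a1 * pp P.η k) * (om (3 * P.a1 + P.b) k * β k)) := by
    intro k
    have hsq := sq_nonneg' k
    have hpp := pp_nonneg P.η k
    have hom := om_pos (3 * P.a1 + P.b) k
    have hβk := hβ0 k
    have ha1 := hP.ha1
    set B := om (3 * P.a1 + P.b) k * β k
    have hB : 0 ≤ B := by positivity
    have hph : ∀ t ∈ Icc 0 P.T, ph P (clf P v) k t ≤ ENNReal.ofReal B := by
      intro t ht
      rw [ph_eq]
      apply ENNReal.ofReal_le_ofReal
      exact mul_le_mul (W_le_om hP ht.1 k) (hβ k _) (norm_nonneg _) hom.le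
    have hRa := Ra_ker hP k
    have hint : ∫⁻ t in Ioc 0 P.T, ENNReal.ofReal (P.ra k t) ≤ ENNReal.ofReal (P.c * sq k + P.a1 * pp P.η k) := by
      rw [← ofReal_integral_eq_lintegral_ofReal]
      · apply ENNReal.ofReal_le_ofReal
        rw [← intervalIntegral.integral_of_le hP.hT.le, intervalIntegral.integral_eq_sub_of_hasDerivAt
          (fun t _ => hRa.hd t) (hRa.hc.intervalIntegrable _ _)]
        have h0 : P.Ra k 0 = 0 := by simp [Pm.Ra, G_zero]
        rw [h0, sub_zero]
        unfold Pm.Ra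
        have h1 := κG_le hP P.T
        have h2 : P.c * sq k * P.T ≤ P.c * sq k * 1 := by
          have := hP.hT1
          gcongr
        have h3 : P.κ * pp P.η k * P.G P.T = (P.κ * P.G P.T) * pp P.η k := by ring
        rw [h3]
        have := mul_le_mul_of_nonneg_right h1 hpp
        linarith
      · exact hRa.hc.integrableOn_Icc.mono_set Ioc_subset_Icc_self
      · exact Filter.Eventually.of_forall fun t => hRa.h0 t
    unfold en
    calc (⨆ t ∈ Icc 0 P.T, ph P (clf P v) k t)
          + ∫⁻ t in Ioc 0 P.T, ENNReal.ofReal (P.ra k t) * ph P (clf P v) k t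
        ≤ ENNReal.ofReal B + ∫⁻ t in Ioc 0 P.T, ENNReal.ofReal (P.ra k t) * ENNReal.ofReal B := by
          refine add_le_add (iSup₂_le hph) (setLIntegral_mono' measurableSet_Ioc fun t ht => ?_)
          exact mul_le_mul' le_rfl (hph t (Ioc_subset_Icc_self ht))
      _ ≤ ENNReal.ofReal B + ENNReal.ofReal (P.c * sq k + P.a1 * pp P.η k) * ENNReal.ofReal B := by
          rw [lintegral_mul_const' _ _ ENNReal.ofReal_ne_top]
          exact add_le_add le_rfl (mul_le_mul' hint le_rfl)
      _ = _ := by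
          rw [← ENNReal.ofReal_mul (by positivity), ← ENNReal.ofReal_add hB (by positivity)]
          congr 1; ring
  refine (ENNReal.tsum_le_tsum h).trans ?_
  rw [← ENNReal.ofReal_tsum_of_nonneg hq0 hs]
  exact ENNReal.ofReal_le_ofReal hR

lemma Duh_congr {c T : ℝ} {F F' : Fam} (h : ∀ k, ∀ t ∈ Icc 0 T, F k t = F' k t) (k : K) {t : ℝ}
    (ht : t ∈ Icc 0 T) : Duh c F k t = Duh c F' k t := by
  unfold Duh
  rw [max_eq_left ht.1]
  refine intervalIntegral.integral_congr fun s hs => ?_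
  rw [uIcc_of_le ht.1] at hs
  simp only [h k s ⟨hs.1, hs.2.trans ht.2⟩]

lemma TAf_zero : TAf P (Yo P 0) = 0 := by
  funext k t
  unfold TAf
  refine Finset.sum_eq_zero fun l _ => ?_
  have : Yo P 0 (k - l) t = 0 := by unfold Yo; simp
  rw [this]
  unfold tt
  rw [dt_vzero]; simp

theorem diff_le (hP : P.OK) {R : ℝ} (hS : Sm P R) {V : K → C3} {U : Fam} (hU : Good P U)
    (hUR : EN P U ≤ ENNReal.ofReal R) (hfix : U = Phi P V U) {v : Fam} (hv : St v)
    (hvE : EN P (clf P v) ≤ ENNReal.ofReal R)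
    (hveq : ∀ k, ∀ t ∈ Icc 0 P.T, v k t = Real.exp (-(P.c * sq k * t)) • V k + Duh P.c (Bt v) k t) :
    EN P (U - clf P v) ≤ ENNReal.ofReal (P.μ * (4 * P.KL * R + 20 * P.KB * R ^ 2)) := by
  have hμ := μ_nonneg hP
  have hs := (sT_pos hP).le
  have hKL := KL_pos hP
  have hKB := KB_pos hP
  have hR := hS.R0
  set vc := clf P v
  have hvc : Good P vc := ⟨hv.comp (cl_cont P.T), fun k t => by
    show v k _ = v k _
    rw [cl_cl hP], ne_top_of_le_ne_top ENNReal.ofReal_ne_top hvE⟩
  set D := U - vc with hD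
  have gD : Good P D := hU.sub hP hvc
  have dv := hvc.dom hP
  have dw := wz_dom hP hU hU
  have cBv := BB_cont hvc.st.cf hvc.st.cf dv dv
  have hbb : St (BB vc vc) := St.bb hvc.st.cf hvc.st.cf dv dv hvc.st.sym hvc.st.sym
  have e1 : vc = He P V + DT P (BB vc vc) := by
    funext k t
    have ht := cl_mem hP.hT.le t
    show v k (cl P.T t) = Real.exp (-(P.c * sq k * cl P.T t)) • V k + Duh P.c (BB vc vc) k (cl P.T t)
    rw [hveq k _ ht]
    congr 1
    refine Duh_congr (T := P.T) (fun k s hs => ?_) k ht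
    show Bf (at' v s) (at' v s) k = Bf (at' vc s) (at' vc s) k
    have : at' vc s = at' v s := by
      funext k
      show v k (cl P.T s) = v k s
      rw [cl_of_mem hs]
    rw [this]
  have e2 : D = DT P (Fo P U - BB vc vc) := by
    have h1 : D = Phi P V U - (He P V + DT P (BB vc vc)) := by rw [← hfix, ← e1]
    rw [h1]
    unfold Phi DT
    rw [Duh_sub (Fo_St hP hU).cf hbb.cf]
    funext k t
    simp only [Pi.sub_apply, Pi.add_apply]
    abel
  have e3 : vc = wz P vc 0 := by unfold wz; rw [TAf_zero, add_zero]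
  have e4 : wz P U U - vc = wz P D U := by unfold wz; rw [hD]; abel
  have gz := Good.zero P
  have e5 : Fo P U - BB vc vc = Lin P U + (BB (wz P D U) (wz P U U) + BB (wz P vc 0) (wz P D U)) := by
    rw [← e3, ← e4, BB_sub_left dw dv dw, BB_sub_right dv dw dv]
    unfold Fo
    abel
  have hDtop : EN P D ≠ ⊤ := gD.fin
  set z := (EN P D).toReal with hz
  have hz0 : 0 ≤ z := ENNReal.toReal_nonneg
  have hDz : EN P D ≤ ENNReal.ofReal z := by rw [hz, ENNReal.ofReal_toReal hDtop]
  have hz2 : z ≤ 2 * R := by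
    have h1 : EN P D ≤ ENNReal.ofReal (2 * R) := by
      refine (EN_sub_le hP hU.st.cf).trans ((add_le_add hUR hvE).trans (le_of_eq ?_))
      rw [← ENNReal.ofReal_add hR.le hR.le]; congr 1; ring
    have := ENNReal.toReal_mono ENNReal.ofReal_ne_top h1
    rwa [ENNReal.toReal_ofReal (by positivity)] at this
  have hz00 : EN P 0 ≤ ENNReal.ofReal 0 := by rw [EN_zero]; exact zero_le
  have c1 := wz_St hP hU gD
  have c2 := wz_St hP hU hU
  have d1 := wz_dom hP hU gD
  have hSI : SI P (Fo P U - BB vc vc) ≤ ENNReal.ofReal (P.KL * P.μ * R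
      + (P.KB * (Real.sqrt P.T * z * R + P.μ * (z * R + R * R + R * R))
        + P.KB * (Real.sqrt P.T * R * z + P.μ * (R * R + 0 * z + 0 * R)))) := by
    rw [e5]
    refine (SI_add_le hP (Lin_St hP hU).cf).trans ((add_le_add (SI_Lin hP hU hR.le hUR)
      ((SI_add_le hP (BB_cont c1.cf c2.cf d1 dw)).trans (add_le_add
        (SI_pair hP gD hU hU hU hz0 hR.le hR.le hR.le hDz hUR hUR hUR)
        (SI_pair hP hvc gz gD hU hR.le le_rfl hz0 hR.le hvE hz00 hDz hUR)))).trans (le_of_eq ?_))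
    rw [← ENNReal.ofReal_add (by positivity) (by positivity),
      ← ENNReal.ofReal_add (by positivity) (by positivity)]
  have hE : EN P D ≤ ENNReal.ofReal (2 * (P.KL * P.μ * R
      + (P.KB * (Real.sqrt P.T * z * R + P.μ * (z * R + R * R + R * R))
        + P.KB * (Real.sqrt P.T * R * z + P.μ * (R * R + 0 * z + 0 * R))))) := by
    rw [ENNReal.ofReal_mul (by norm_num), ENNReal.ofReal_ofNat]
    conv_lhs => rw [e2]
    exact (EN_DT_le hP ((Fo_St hP hU).sub hbb).cf).trans (mul_le_mul' le_rfl hSI)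
  have hzle : z ≤ 2 * (P.KL * P.μ * R
      + (P.KB * (Real.sqrt P.T * z * R + P.μ * (z * R + R * R + R * R))
        + P.KB * (Real.sqrt P.T * R * z + P.μ * (R * R + 0 * z + 0 * R)))) := by
    have := ENNReal.toReal_mono ENNReal.ofReal_ne_top hE
    rwa [ENNReal.toReal_ofReal (by positivity)] at this
  have hsm := hS.sm
  have k1 : 4 * P.KB * R * Real.sqrt P.T ≤ 1 / 2 := by
    have h1 : 0 ≤ 2 * P.KL * P.μ := by positivity
    have h2 : 0 ≤ 12 * P.KB * R * P.μ := by positivity
    linarith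
  have k2 := mul_le_mul_of_nonneg_right k1 hz0
  have k3 : P.KB * P.μ * R * z ≤ P.KB * P.μ * R * (2 * R) := mul_le_mul_of_nonneg_left hz2 (by positivity)
  refine hDz.trans (ENNReal.ofReal_le_ofReal ?_)
  nlinarith

end Pool.Agent.H356R3.NS.SW
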