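import Pool.Agent.Helper19.SW.Wt

/-!
# The norm and the estimates for one mode
-/

open MeasureTheory Set Filter Topology
open scoped ENNReal NNReal

namespace Pool.Agent.H356R3.NS.SW

/-- clamping of the time to `[0,T]` -/
noncomputable def cl (T t : ℝ) : ℝ := min (max t 0) T

lemma cl_mem {T : ℝ} (hT : 0 ≤ T) (t : ℝ) : cl T t ∈ Icc 0 T :=
  ⟨le_min (le_max_right _ _) hT, min_le_right _ _⟩

lemma cl_of_mem {T t : ℝ} (ht : t ∈ Icc 0 T) : cl T t = t := by
  unfold cl; rw [max_eq_left ht.1, min_eq_left ht.2]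

lemma cl_cont (T : ℝ) : Continuous (cl T) := by unfold cl; fun_prop

/-- weighted size of a mode -/
noncomputable def ph (P : Pm) (U : Fam) (k : K) (t : ℝ) : ℝ≥0∞ := ENNReal.ofReal (P.W t k) * ‖U k t‖ₑ

/-- norm of a mode -/
noncomputable def en (P : Pm) (U : Fam) (k : K) : ℝ≥0∞ :=
  (⨆ t ∈ Icc 0 P.T, ph P U k t) + ∫⁻ t in Ioc 0 P.T, ENNReal.ofReal (P.ra k t) * ph P U k t

/-- the norm -/
noncomputable def EN (P : Pm) (U : Fam) : ℝ≥0∞ := ∑' k, en P U k

/-- the clamped Duhamel operator -/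
noncomputable def DT (P : Pm) (F : Fam) : Fam := fun k t => Duh P.c F k (cl P.T t)

/-- the clamped primitive -/
noncomputable def Yo (P : Pm) (U : Fam) : Fam := fun k t => ∫ s in (0 : ℝ)..(cl P.T t), U k s

/-- the clamped heat flow -/
noncomputable def He (P : Pm) (V : K → C3) : Fam := fun k t => Real.exp (-(P.c * sq k * cl P.T t)) • V k

variable {P : Pm} {U : Fam}

lemma DT_cf {F : Fam} (hF : CF F) : CF (DT P F) := fun k => (Duh_cont hF P.c k).comp (cl_cont P.T)

lemma Yo_cf (hU : CF U) : CF (Yo P U) := fun k =>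
  (intervalIntegral.continuous_primitive (fun a b => (hU k).intervalIntegrable a b) 0).comp (cl_cont P.T)

lemma He_cf (V : K → C3) : CF (He P V) := fun k => by
  have := cl_cont P.T
  unfold He; fun_prop

lemma ph_meas (hP : P.OK) (hU : CF U) (k : K) : Measurable (ph P U k) := by
  unfold ph
  exact (W_cont hP k).measurable.ennreal_ofReal.mul (hU k).enorm.measurable

lemma ph_le_en {k : K} {t : ℝ} (ht : t ∈ Icc 0 P.T) : ph P U k t ≤ en P U k :=
  (le_iSup₂ (f := fun t (_ : t ∈ Icc 0 P.T) => ph P U k t) t ht).trans le_self_add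

lemma ra_nonneg (hP : P.OK) (k : K) (t : ℝ) : 0 ≤ P.ra k t := (Ra_ker hP k).h0 t

/-- `y ≤ Av φ` -/
lemma ph_Yo_le (_hP : P.OK) (hU : CF U) (k : K) {t : ℝ} (ht : t ∈ Icc 0 P.T) :
    ph P (Yo P U) k t ≤ Av (P.Rb k) (ph P U k) t := by
  unfold ph Yo
  rw [cl_of_mem ht, intervalIntegral.integral_of_le ht.1]
  calc _ ≤ ENNReal.ofReal (P.W t k) * ∫⁻ r in Ioc 0 t, ‖U k r‖ₑ :=
        mul_le_mul' le_rfl (enorm_integral_le_lintegral_enorm _)
    _ = ∫⁻ r in Ioc 0 t, ENNReal.ofReal (P.W t k) * ‖U k r‖ₑ := by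
        rw [lintegral_const_mul _ (hU k).enorm.measurable]
    _ ≤ _ := by
        unfold Av
        refine lintegral_mono fun r => ?_
        dsimp only
        rw [W_eq P k r t, ENNReal.ofReal_mul (W_pos P r k).le]
        apply le_of_eq; ring

lemma ph_DT_le (_hP : P.OK) {F : Fam} (hF : CF F) (k : K) {t : ℝ} (ht : t ∈ Icc 0 P.T) :
    ph P (DT P F) k t ≤ Av (P.Ra k) (ph P F k) t := by
  unfold ph DT
  rw [cl_of_mem ht]
  have m1 : Measurable fun r => ENNReal.ofReal (Real.exp (-(P.c * sq k * (t - r)))) * ‖F k r‖ₑ :=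
    (by fun_prop : Measurable fun r => ENNReal.ofReal (Real.exp (-(P.c * sq k * (t - r))))).mul
      (hF k).enorm.measurable
  calc _ ≤ ENNReal.ofReal (P.W t k) * ∫⁻ r in Ioc 0 t,
        ENNReal.ofReal (Real.exp (-(P.c * sq k * (t - r)))) * ‖F k r‖ₑ :=
        mul_le_mul' le_rfl (enorm_Duh_le P.c F k ht.1)
    _ = ∫⁻ r in Ioc 0 t, ENNReal.ofReal (P.W t k) *
        (ENNReal.ofReal (Real.exp (-(P.c * sq k * (t - r)))) * ‖F k r‖ₑ) := by
        rw [lintegral_const_mul _ m1]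
    _ ≤ _ := by
        unfold Av
        refine lintegral_mono fun r => ?_
        dsimp only
        rw [← mul_assoc, ← ENNReal.ofReal_mul (W_pos P t k).le, W_exp P k r t,
          ENNReal.ofReal_mul (W_pos P r k).le]
        apply le_of_eq; ring

lemma Av_le_int {Θ θ : ℝ → ℝ} (hk : Ker Θ θ) (ψ : ℝ → ℝ≥0∞) {t : ℝ} :
    Av Θ ψ t ≤ ∫⁻ r in Ioc 0 t, ψ r := by
  unfold Av
  refine setLIntegral_mono' measurableSet_Ioc fun r hr => ?_
  calc _ ≤ 1 * ψ r := by
        apply mul_le_mul' _ le_rfl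
        rw [ENNReal.ofReal_le_one, Real.exp_le_one_iff]
        have := hk.mono hr.2
        linarith
    _ = _ := one_mul _

/-- linear estimate -/
lemma en_DT_le (hP : P.OK) {F : Fam} (hF : CF F) (k : K) :
    en P (DT P F) k ≤ 2 * ∫⁻ t in Ioc 0 P.T, ph P F k t := by
  have hk := Ra_ker hP k
  have h1 : (⨆ t ∈ Icc 0 P.T, ph P (DT P F) k t) ≤ ∫⁻ t in Ioc 0 P.T, ph P F k t := by
    refine iSup₂_le fun t ht => (ph_DT_le hP hF k ht).trans ((Av_le_int hk _).trans ?_)
    exact lintegral_mono_set (Ioc_subset_Ioc_right ht.2)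
  have h2 : ∫⁻ t in Ioc 0 P.T, ENNReal.ofReal (P.ra k t) * ph P (DT P F) k t
      ≤ ∫⁻ t in Ioc 0 P.T, ph P F k t := by
    have := hk.av_L1 (m := fun _ => 1) (fun _ _ _ _ _ => le_rfl) measurable_const (T := P.T) (ph_meas hP hF k)
    simp only [ENNReal.ofReal_one, one_mul] at this
    refine le_trans ?_ this
    exact setLIntegral_mono' measurableSet_Ioc fun t ht =>
      mul_le_mul' le_rfl (ph_DT_le hP hF k (Ioc_subset_Icc_self ht))
  unfold en
  rw [two_mul]
  exact add_le_add h1 h2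

lemma en_He_le (hP : P.OK) (V : K → C3) (k : K) :
    en P (He P V) k ≤ 2 * (ENNReal.ofReal (P.W 0 k) * ‖V k‖ₑ) := by
  have hk := Ra_ker hP k
  have h0 : P.Ra k 0 = 0 := by simp [Pm.Ra, G_zero]
  have hph : ∀ t ∈ Icc 0 P.T, ph P (He P V) k t
      = ENNReal.ofReal (Real.exp (-P.Ra k t)) * (ENNReal.ofReal (P.W 0 k) * ‖V k‖ₑ) := by
    intro t ht
    unfold ph He
    rw [cl_of_mem ht, enorm_smul, Real.enorm_of_nonneg (Real.exp_pos _).le, ← mul_assoc,
      ← ENNReal.ofReal_mul (W_pos P t k).le]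
    have := W_exp P k 0 t
    rw [sub_zero, h0, sub_zero] at this
    rw [this, ENNReal.ofReal_mul (W_pos P 0 k).le]
    ring
  set X := ENNReal.ofReal (P.W 0 k) * ‖V k‖ₑ
  have hle1 : ∀ t, 0 ≤ t → ENNReal.ofReal (Real.exp (-P.Ra k t)) ≤ 1 := by
    intro t ht
    rw [ENNReal.ofReal_le_one, Real.exp_le_one_iff]
    have := hk.mono ht
    rw [h0] at this; linarith
  have h1 : (⨆ t ∈ Icc 0 P.T, ph P (He P V) k t) ≤ X := by
    refine iSup₂_le fun t ht => ?_
    rw [hph t ht]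
    exact (mul_le_mul' (hle1 t ht.1) le_rfl).trans (by rw [one_mul])
  have h2 : ∫⁻ t in Ioc 0 P.T, ENNReal.ofReal (P.ra k t) * ph P (He P V) k t ≤ X := by
    have hc := hk.hc
    have hC := hk.cont
    calc ∫⁻ t in Ioc 0 P.T, ENNReal.ofReal (P.ra k t) * ph P (He P V) k t
        = ∫⁻ t in Ioc 0 P.T, ENNReal.ofReal (P.ra k t * Real.exp (-P.Ra k t)) * X := by
          refine setLIntegral_congr_fun measurableSet_Ioc fun t ht => ?_
          rw [hph t (Ioc_subset_Icc_self ht), ← mul_assoc, ← ENNReal.ofReal_mul (hk.h0 t)]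
      _ = (∫⁻ t in Ioc 0 P.T, ENNReal.ofReal (P.ra k t * Real.exp (-P.Ra k t))) * X := by
          rw [lintegral_mul_const _ (by fun_prop)]
      _ ≤ 1 * X := mul_le_mul' (hk.int_exp_le hP.hT.le h0) le_rfl
      _ = X := one_mul _
  unfold en
  rw [two_mul]
  exact add_le_add h1 h2

lemma int_ra_le {k : K} : ∫⁻ t in Ioc 0 P.T, ENNReal.ofReal (P.ra k t) * ph P U k t ≤ en P U k :=
  le_add_self

/-- the constant -/
noncomputable def Pm.CC (P : Pm) : ℝ :=
  1 + 1 / P.c + 2 / Real.sqrt P.c + 2 / P.c ^ 2 + 2 / (P.c * Real.sqrt P.c)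
    + (2 + 1 / P.c) / Real.sqrt P.c

/-- the small parameter -/
noncomputable def Pm.μ (P : Pm) : ℝ := 1 / P.κ + P.X2

lemma one_le_CC (hP : P.OK) : 1 ≤ P.CC := by
  have hc := hP.hc
  have hs := Real.sqrt_pos.2 hc
  unfold Pm.CC
  have h1 : 0 ≤ 1 / P.c := by positivity
  have h2 : 0 ≤ 2 / Real.sqrt P.c := by positivity
  have h3 : 0 ≤ 2 / P.c ^ 2 := by positivity
  have h4 : 0 ≤ 2 / (P.c * Real.sqrt P.c) := by positivity
  have h5 : 0 ≤ (2 + 1 / P.c) / Real.sqrt P.c := by positivity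
  linarith

lemma CC_bounds (hP : P.OK) : 1 + 1 / P.c ≤ P.CC ∧ 2 / Real.sqrt P.c ≤ P.CC ∧ 2 / P.c ^ 2 ≤ P.CC ∧
    2 / (P.c * Real.sqrt P.c) ≤ P.CC ∧ (2 + 1 / P.c) / Real.sqrt P.c ≤ P.CC := by
  have hc := hP.hc
  have hs := Real.sqrt_pos.2 hc
  unfold Pm.CC
  have h1 : 0 ≤ 1 / P.c := by positivity
  have h2 : 0 ≤ 2 / Real.sqrt P.c := by positivity
  have h3 : 0 ≤ 2 / P.c ^ 2 := by positivity
  have h4 : 0 ≤ 2 / (P.c * Real.sqrt P.c) := by positivity
  have h5 : 0 ≤ (2 + 1 / P.c) / Real.sqrt P.c := by positivity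
  refine ⟨by linarith, by linarith, by linarith, by linarith, by linarith⟩

lemma μ_nonneg (hP : P.OK) : 0 ≤ P.μ := by
  have := κ_pos hP; have := X2_nonneg P
  unfold Pm.μ; positivity

lemma inv_κ_le (hP : P.OK) : 1 / P.κ ≤ P.μ := by
  have := X2_nonneg P; unfold Pm.μ; linarith

lemma X2_le_μ (hP : P.OK) : P.X2 ≤ P.μ := by
  have := κ_pos hP
  have : 0 ≤ 1 / P.κ := by positivity
  unfold Pm.μ; linarith

lemma sT_pos (hP : P.OK) : 0 < Real.sqrt P.T := Real.sqrt_pos.2 hP.hT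

lemma sT_le (hP : P.OK) : Real.sqrt P.T ≤ 1 := by
  rw [show (1 : ℝ) = Real.sqrt 1 by simp]; exact Real.sqrt_le_sqrt hP.hT1

section modes

variable (hP : P.OK) (hU : CF U) (k : K)
include hP

lemma Av_ph_le_en {t : ℝ} (ht : t ∈ Icc 0 P.T) : Av (P.Rb k) (ph P U k) t ≤ ENNReal.ofReal t * en P U k :=
  (Rb_ker hP k).av_le_sup fun r hr => ph_le_en ⟨hr.1.le, hr.2.trans ht.2⟩

/-- i1 -/
lemma i1 : ∫⁻ t in Ioc 0 P.T, ENNReal.ofReal (nk k) * ph P U k t
    ≤ ENNReal.ofReal (P.CC * Real.sqrt P.T) * en P U k := by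
  have hc := hP.hc
  have hs := sT_pos hP
  have hT := hP.hT
  set s := Real.sqrt P.T
  have hss : s * s = P.T := Real.mul_self_sqrt hT.le
  have h1 : nk k ≤ s / P.c * (P.c * sq k) + 1 / s := by
    have e : s / P.c * (P.c * sq k) + 1 / s = s * nk k ^ 2 + 1 / s := by
      rw [nk_sq]; field_simp
    rw [e]
    have h2 : (s * nk k - 1) ^ 2 / s = s * nk k ^ 2 - 2 * nk k + 1 / s := by field_simp; ring
    have h3 : 0 ≤ (s * nk k - 1) ^ 2 / s := by positivity
    have := nk_nonneg k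
    linarith
  have hR : ∀ t, P.c * sq k ≤ P.ra k t := by
    intro t; unfold Pm.ra
    have := mul_nonneg (κp_nonneg hP k) (g_nonneg P t)
    linarith
  calc ∫⁻ t in Ioc 0 P.T, ENNReal.ofReal (nk k) * ph P U k t
      ≤ ∫⁻ t in Ioc 0 P.T, (ENNReal.ofReal (s / P.c) * (ENNReal.ofReal (P.ra k t) * ph P U k t)
        + ENNReal.ofReal (1 / s) * en P U k) := by
        refine setLIntegral_mono' measurableSet_Ioc fun t ht => ?_
        calc ENNReal.ofReal (nk k) * ph P U k t
            ≤ (ENNReal.ofReal (s / P.c) * ENNReal.ofReal (P.ra k t) + ENNReal.ofReal (1 / s)) * ph P U k t := by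
              apply mul_le_mul' _ le_rfl
              rw [← ENNReal.ofReal_mul (by positivity),
                ← ENNReal.ofReal_add (mul_nonneg (by positivity) (ra_nonneg hP k t)) (by positivity)]
              apply ENNReal.ofReal_le_ofReal
              have := mul_le_mul_of_nonneg_left (hR t) (by positivity : 0 ≤ s / P.c)
              linarith
          _ = ENNReal.ofReal (s / P.c) * (ENNReal.ofReal (P.ra k t) * ph P U k t)
              + ENNReal.ofReal (1 / s) * ph P U k t := by ring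
          _ ≤ _ := add_le_add le_rfl (mul_le_mul' le_rfl (ph_le_en (Ioc_subset_Icc_self ht)))
    _ = ENNReal.ofReal (s / P.c) * (∫⁻ t in Ioc 0 P.T, ENNReal.ofReal (P.ra k t) * ph P U k t)
        + ENNReal.ofReal (1 / s) * en P U k * ENNReal.ofReal P.T := by
        rw [lintegral_add_right _ measurable_const, lintegral_const_mul' _ _ ENNReal.ofReal_ne_top,
          setLIntegral_const, Real.volume_Ioc, sub_zero]
    _ ≤ ENNReal.ofReal (s / P.c) * en P U k + ENNReal.ofReal s * en P U k := by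
        apply add_le_add (mul_le_mul' le_rfl int_ra_le)
        apply le_of_eq
        rw [mul_right_comm, ← ENNReal.ofReal_mul (by positivity)]
        congr 2
        rw [← hss]; field_simp
    _ = ENNReal.ofReal (s / P.c + s) * en P U k := by
        rw [ENNReal.ofReal_add (by positivity) hs.le, add_mul]
    _ ≤ _ := by
        apply mul_le_mul' (ENNReal.ofReal_le_ofReal _) le_rfl
        have := (CC_bounds hP).1
        calc s / P.c + s = (1 + 1 / P.c) * s := by field_simp; ring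
          _ ≤ _ := mul_le_mul_of_nonneg_right this hs.le

/-- i6 -/
lemma i6 : ∫⁻ t in Ioc 0 P.T, ENNReal.ofReal (P.g t * pp P.η k) * ph P U k t
    ≤ ENNReal.ofReal (1 / P.κ) * en P U k := by
  have hκ := κ_pos hP
  calc _ ≤ ∫⁻ t in Ioc 0 P.T, ENNReal.ofReal (1 / P.κ) * (ENNReal.ofReal (P.ra k t) * ph P U k t) := by
        refine lintegral_mono fun t => ?_
        dsimp only
        rw [← mul_assoc, ← ENNReal.ofReal_mul (by positivity)]
        apply mul_le_mul' (ENNReal.ofReal_le_ofReal _) le_rfl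
        unfold Pm.ra
        have := hP.hc; have := sq_nonneg' k
        calc P.g t * pp P.η k = 1 / P.κ * (P.κ * pp P.η k * P.g t) := by field_simp
          _ ≤ _ := mul_le_mul_of_nonneg_left (le_add_of_nonneg_left (by positivity)) (by positivity)
    _ = ENNReal.ofReal (1 / P.κ) * ∫⁻ t in Ioc 0 P.T, ENNReal.ofReal (P.ra k t) * ph P U k t := by
        rw [lintegral_const_mul' _ _ ENNReal.ofReal_ne_top]
    _ ≤ _ := mul_le_mul' le_rfl int_ra_le

include hU

/-- m2 -/
lemma m2 {t : ℝ} (ht : t ∈ Icc 0 P.T) : ENNReal.ofReal (P.g t * pp P.η k) * ph P (Yo P U) k t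
    ≤ ENNReal.ofReal (1 / P.κ) * en P U k := by
  have hκ := κ_pos hP
  have h := (Rb_ker hP k).av_sup ((rb_anti hP k).antitoneOn _) ht.1 (ψ := ph P U k) (M := en P U k)
    fun r hr => ph_le_en ⟨hr.1.le, hr.2.trans ht.2⟩
  calc _ ≤ ENNReal.ofReal (1 / P.κ * P.rb k t) * Av (P.Rb k) (ph P U k) t := by
        apply mul_le_mul' (le_of_eq _) (ph_Yo_le hP hU k ht)
        congr 1
        unfold Pm.rb; field_simp
    _ = ENNReal.ofReal (1 / P.κ) * (ENNReal.ofReal (P.rb k t) * Av (P.Rb k) (ph P U k) t) := by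
        rw [ENNReal.ofReal_mul (by positivity), mul_assoc]
    _ ≤ _ := mul_le_mul' le_rfl h

/-- m3 -/
lemma m3 {t : ℝ} (ht : t ∈ Icc 0 P.T) : ph P (Yo P U) k t ≤ ENNReal.ofReal t * en P U k :=
  (ph_Yo_le hP hU k ht).trans (Av_ph_le_en hP k ht)

lemma yo_L1 {m : ℝ → ℝ} (hm : AntitoneOn m (Ici 0)) (hmm : Measurable m) :
    ∫⁻ t in Ioc 0 P.T, ENNReal.ofReal (m t) * ENNReal.ofReal (P.rb k t) * ph P (Yo P U) k t
      ≤ ∫⁻ t in Ioc 0 P.T, ENNReal.ofReal (m t) * ph P U k t := by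
  refine le_trans (setLIntegral_mono' measurableSet_Ioc fun t ht => ?_)
    ((Rb_ker hP k).av_L1 hm hmm (ph_meas hP hU k))
  exact mul_le_mul' le_rfl (ph_Yo_le hP hU k (Ioc_subset_Icc_self ht))

/-- the general form of i3, i8, j2 -/
lemma yo_L1' {m : ℝ → ℝ} (hm : AntitoneOn m (Ici 0)) (hmm : Measurable m) (hm0 : ∀ t, 0 ≤ m t) :
    ∫⁻ t in Ioc 0 P.T, ENNReal.ofReal (P.g t * pp P.η k * m t) * ph P (Yo P U) k t
      ≤ ENNReal.ofReal (1 / P.κ) * ∫⁻ t in Ioc 0 P.T, ENNReal.ofReal (m t) * ph P U k t := by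
  have hκ := κ_pos hP
  calc _ = ∫⁻ t in Ioc 0 P.T, ENNReal.ofReal (1 / P.κ) *
        (ENNReal.ofReal (m t) * ENNReal.ofReal (P.rb k t) * ph P (Yo P U) k t) := by
        refine lintegral_congr fun t => ?_
        rw [← mul_assoc, ← mul_assoc, ← ENNReal.ofReal_mul (by positivity),
          ← ENNReal.ofReal_mul (mul_nonneg (by positivity) (hm0 t))]
        congr 2
        unfold Pm.rb; field_simp
    _ = ENNReal.ofReal (1 / P.κ) * ∫⁻ t in Ioc 0 P.T,
        (ENNReal.ofReal (m t) * ENNReal.ofReal (P.rb k t) * ph P (Yo P U) k t) := by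
        rw [lintegral_const_mul' _ _ ENNReal.ofReal_ne_top]
    _ ≤ _ := mul_le_mul' le_rfl (yo_L1 hP hU k hm hmm)

lemma i3 : ∫⁻ t in Ioc 0 P.T, ENNReal.ofReal (P.g t * pp P.η k * nk k) * ph P (Yo P U) k t
    ≤ ENNReal.ofReal (P.CC * P.μ) * en P U k := by
  have hκ := κ_pos hP
  refine (yo_L1' hP hU k (m := fun _ => nk k) (fun _ _ _ _ _ => le_rfl) measurable_const
    fun _ => nk_nonneg k).trans ((mul_le_mul' le_rfl (i1 hP k)).trans ?_)
  rw [← mul_assoc, ← ENNReal.ofReal_mul (by positivity)]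
  refine mul_le_mul' (ENNReal.ofReal_le_ofReal ?_) le_rfl
  have h1 := inv_κ_le hP
  have h2 := sT_le hP
  have h3 := one_le_CC hP
  have h4 := (sT_pos hP).le
  have h5 : 0 ≤ 1 / P.κ := by positivity
  calc 1 / P.κ * (P.CC * Real.sqrt P.T) = P.CC * (1 / P.κ * Real.sqrt P.T) := by ring
    _ ≤ P.CC * (P.μ * 1) := mul_le_mul_of_nonneg_left (mul_le_mul h1 h2 h4 (μ_nonneg hP)) (by linarith)
    _ = _ := by ring

lemma j2 : ∫⁻ t in Ioc 0 P.T, ENNReal.ofReal (P.g t * pp P.η k * (P.c * sq k)) * ph P (Yo P U) k t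
    ≤ ENNReal.ofReal P.μ * en P U k := by
  have hκ := κ_pos hP
  have hc := hP.hc
  refine (yo_L1' hP hU k (m := fun _ => P.c * sq k) (fun _ _ _ _ _ => le_rfl) measurable_const
    fun _ => mul_nonneg hc.le (sq_nonneg' k)).trans ((mul_le_mul' le_rfl (?_ : _ ≤ en P U k)).trans
      (mul_le_mul' (ENNReal.ofReal_le_ofReal (inv_κ_le hP)) le_rfl))
  refine le_trans (lintegral_mono fun t => ?_) (int_ra_le (P := P) (U := U) (k := k))
  apply mul_le_mul' (ENNReal.ofReal_le_ofReal _) le_rfl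
  unfold Pm.ra
  have := mul_nonneg (κp_nonneg hP k) (g_nonneg P t)
  linarith

lemma i8 : ∫⁻ t in Ioc 0 P.T, ENNReal.ofReal (P.g t * pp P.η k * (P.g t * pp P.η k)) * ph P (Yo P U) k t
    ≤ ENNReal.ofReal P.μ * en P U k := by
  have hκ := κ_pos hP
  have hgc := g_cont P
  refine (yo_L1' hP hU k (m := fun t => P.g t * pp P.η k)
    (fun _ _ _ _ h => mul_le_mul_of_nonneg_right (g_anti hP h) (pp_nonneg _ _))
    (by fun_prop : Continuous fun t => P.g t * pp P.η k).measurable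
    fun t => mul_nonneg (g_nonneg P t) (pp_nonneg _ _)).trans ((mul_le_mul' le_rfl (i6 hP k)).trans ?_)
  rw [← mul_assoc, ← ENNReal.ofReal_mul (by positivity)]
  refine mul_le_mul' (ENNReal.ofReal_le_ofReal ?_) le_rfl
  have h1 := inv_κ_le hP
  have h5 : 0 ≤ 1 / P.κ := by positivity
  have h6 : 1 / P.κ ≤ 1 := by rw [div_le_one hκ]; exact hP.hκ
  nlinarith

lemma j4 : ∫⁻ t in Ioc 0 P.T, ENNReal.ofReal (P.h2 t * pp P.η k * P.c) * ph P (Yo P U) k t
    ≤ ENNReal.ofReal P.μ * en P U k := by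
  have hκ := κ_pos hP
  have hc := hP.hc
  have hp := pp_nonneg P.η k
  have hh := h2_cont P
  refine le_trans (setLIntegral_mono' measurableSet_Ioc fun t ht =>
    mul_le_mul' le_rfl (ph_Yo_le hP hU k (Ioc_subset_Icc_self ht))) ?_
  refine ((Rb_ker hP k).av_L1' (u := fun t => P.h2 t * pp P.η k * P.c) (v := fun t => P.g t * pp P.η k)
    (by fun_prop : Continuous fun t => P.h2 t * pp P.η k * P.c).measurable P.T (fun r hr => ?_)
    (ph_meas hP hU k)).trans ((i6 hP k).trans (mul_le_mul' (ENNReal.ofReal_le_ofReal (inv_κ_le hP)) le_rfl))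
  calc ∫⁻ t in Icc r P.T, ENNReal.ofReal (P.h2 t * pp P.η k * P.c)
      = ∫⁻ t in Icc r P.T, ENNReal.ofReal (P.h2 t) * ENNReal.ofReal (pp P.η k * P.c) := by
        refine lintegral_congr fun t => ?_
        rw [← ENNReal.ofReal_mul (h2_nonneg P t), mul_assoc]
    _ = (∫⁻ t in Icc r P.T, ENNReal.ofReal (P.h2 t)) * ENNReal.ofReal (pp P.η k * P.c) :=
        lintegral_mul_const' _ _ ENNReal.ofReal_ne_top
    _ ≤ ENNReal.ofReal (P.g r / P.c) * ENNReal.ofReal (pp P.η k * P.c) :=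
        mul_le_mul' (h2_int hP hr.1.le hr.2) le_rfl
    _ = _ := by
        rw [← ENNReal.ofReal_mul (div_nonneg (g_nonneg P r) hc.le)]
        congr 1; field_simp

lemma i4 : ∫⁻ t in Ioc 0 P.T, ENNReal.ofReal (P.h2 t) * ph P (Yo P U) k t
    ≤ ENNReal.ofReal (P.CC * P.μ) * en P U k := by
  have hc := hP.hc
  have hgc := g_cont P
  have hX := X2_nonneg P
  calc _ ≤ ∫⁻ t in Ioc 0 P.T, ENNReal.ofReal (P.g t) * (ENNReal.ofReal (1 / P.c) * en P U k) := by
        refine setLIntegral_mono' measurableSet_Ioc fun t ht => ?_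
        refine (mul_le_mul' le_rfl (m3 hP hU k (Ioc_subset_Icc_self ht))).trans ?_
        rw [← mul_assoc, ← mul_assoc, ← ENNReal.ofReal_mul (h2_nonneg P t),
          ← ENNReal.ofReal_mul (g_nonneg P t)]
        apply mul_le_mul' (ENNReal.ofReal_le_ofReal _) le_rfl
        have := h2_le hP t
        calc P.h2 t * t = t * P.h2 t := mul_comm _ _
          _ ≤ P.g t / P.c := this
          _ = _ := by ring
    _ = (∫⁻ t in Ioc 0 P.T, ENNReal.ofReal (P.g t)) * (ENNReal.ofReal (1 / P.c) * en P U k) :=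
        lintegral_mul_const _ hgc.measurable.ennreal_ofReal
    _ ≤ ENNReal.ofReal (2 / P.c * P.X2) * (ENNReal.ofReal (1 / P.c) * en P U k) :=
        mul_le_mul' (g_int hP hP.hT.le) le_rfl
    _ ≤ _ := by
        rw [← mul_assoc, ← ENNReal.ofReal_mul (by positivity)]
        apply mul_le_mul' (ENNReal.ofReal_le_ofReal _) le_rfl
        have h1 := (CC_bounds hP).2.2.1
        calc 2 / P.c * P.X2 * (1 / P.c) = 2 / P.c ^ 2 * P.X2 := by field_simp
          _ ≤ P.CC * P.μ := mul_le_mul h1 (X2_le_μ hP) hX (by have := one_le_CC hP; linarith)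

end modes

/-- `∫ t^{-1/2}` -/
lemma int_rsqrt {T : ℝ} (hT : 0 ≤ T) :
    ∫⁻ t in Ioc 0 T, ENNReal.ofReal (1 / Real.sqrt t) ≤ ENNReal.ofReal (2 * Real.sqrt T) := by
  have e : ∀ t ∈ Ioc (0 : ℝ) T, ENNReal.ofReal (1 / Real.sqrt t) = ENNReal.ofReal (t ^ (-(1 / 2) : ℝ)) := by
    intro t ht
    rw [Real.sqrt_eq_rpow, Real.rpow_neg ht.1.le, one_div]
  rw [setLIntegral_congr_fun measurableSet_Ioc e]
  have hi : IntegrableOn (fun t : ℝ => t ^ (-(1 / 2) : ℝ)) (Ioc 0 T) := by
    rw [← intervalIntegrable_iff_integrableOn_Ioc_of_le hT]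
    exact intervalIntegral.intervalIntegrable_rpow' (by norm_num)
  rw [← ofReal_integral_eq_lintegral_ofReal hi
    ((ae_restrict_iff' measurableSet_Ioc).2 (Filter.Eventually.of_forall fun t ht =>
      Real.rpow_nonneg ht.1.le _))]
  apply ENNReal.ofReal_le_ofReal
  rw [← intervalIntegral.integral_of_le hT, integral_rpow (Or.inl (by norm_num))]
  norm_num
  rw [← Real.sqrt_eq_rpow]
  apply le_of_eq; ring

section modes2

variable (hP : P.OK) (hU : CF U) (k : K)
include hP hU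

lemma h1_m2 {t : ℝ} (ht : t ∈ Ioc 0 P.T) : ENNReal.ofReal (P.h1 t * pp P.η k) * ph P (Yo P U) k t
    ≤ ENNReal.ofReal (1 / Real.sqrt P.c * (1 / P.κ)) * (ENNReal.ofReal (1 / Real.sqrt t) * en P U k) := by
  have hc := hP.hc
  have hsc := Real.sqrt_pos.2 hc
  have hst := Real.sqrt_pos.2 ht.1
  have hκ := κ_pos hP
  have h1 := h1_le hP ht.1
  have hp := pp_nonneg P.η k
  rw [Real.sqrt_mul hc.le] at h1
  calc _ ≤ ENNReal.ofReal (1 / (Real.sqrt P.c * Real.sqrt t) * (P.g t * pp P.η k)) * ph P (Yo P U) k t := by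
        apply mul_le_mul' (ENNReal.ofReal_le_ofReal _) le_rfl
        calc P.h1 t * pp P.η k ≤ P.g t / (Real.sqrt P.c * Real.sqrt t) * pp P.η k :=
              mul_le_mul_of_nonneg_right h1 hp
          _ = _ := by ring
    _ = ENNReal.ofReal (1 / (Real.sqrt P.c * Real.sqrt t)) *
        (ENNReal.ofReal (P.g t * pp P.η k) * ph P (Yo P U) k t) := by
        rw [ENNReal.ofReal_mul (by positivity), mul_assoc]
    _ ≤ ENNReal.ofReal (1 / (Real.sqrt P.c * Real.sqrt t)) * (ENNReal.ofReal (1 / P.κ) * en P U k) :=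
        mul_le_mul' le_rfl (m2 hP hU k (Ioc_subset_Icc_self ht))
    _ = _ := by
        rw [← mul_assoc, ← mul_assoc, ← ENNReal.ofReal_mul (by positivity),
          ← ENNReal.ofReal_mul (by positivity)]
        congr 2; field_simp

lemma i2 : ∫⁻ t in Ioc 0 P.T, ENNReal.ofReal (P.h1 t * pp P.η k) * ph P (Yo P U) k t
    ≤ ENNReal.ofReal (P.CC * P.μ) * en P U k := by
  have hc := hP.hc
  have hsc := Real.sqrt_pos.2 hc
  have hκ := κ_pos hP
  have hsT := sT_pos hP
  calc _ ≤ ∫⁻ t in Ioc 0 P.T, ENNReal.ofReal (1 / Real.sqrt P.c * (1 / P.κ)) *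
        (ENNReal.ofReal (1 / Real.sqrt t) * en P U k) :=
        setLIntegral_mono' measurableSet_Ioc fun t ht => h1_m2 hP hU k ht
    _ = ENNReal.ofReal (1 / Real.sqrt P.c * (1 / P.κ)) *
        ((∫⁻ t in Ioc 0 P.T, ENNReal.ofReal (1 / Real.sqrt t)) * en P U k) := by
        rw [lintegral_const_mul' _ _ ENNReal.ofReal_ne_top, lintegral_mul_const _ (by fun_prop)]
    _ ≤ ENNReal.ofReal (1 / Real.sqrt P.c * (1 / P.κ)) * (ENNReal.ofReal (2 * Real.sqrt P.T) * en P U k) :=
        mul_le_mul' le_rfl (mul_le_mul' (int_rsqrt hP.hT.le) le_rfl)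
    _ ≤ _ := by
        rw [← mul_assoc, ← ENNReal.ofReal_mul (by positivity)]
        apply mul_le_mul' (ENNReal.ofReal_le_ofReal _) le_rfl
        have h1 := (CC_bounds hP).2.1
        have h2 := sT_le hP
        have h3 := inv_κ_le hP
        have h4 : 0 ≤ 1 / P.κ := by positivity
        calc 1 / Real.sqrt P.c * (1 / P.κ) * (2 * Real.sqrt P.T)
            = 2 / Real.sqrt P.c * (1 / P.κ * Real.sqrt P.T) := by field_simp
          _ ≤ P.CC * (P.μ * 1) := mul_le_mul h1 (mul_le_mul h3 h2 hsT.le (μ_nonneg hP))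
              (by positivity) (by have := one_le_CC hP; linarith)
          _ = _ := by ring

lemma i7 : ∫⁻ t in Ioc 0 P.T, ENNReal.ofReal (Real.sqrt t * P.g t) * (ENNReal.ofReal (P.h1 t * pp P.η k)
      * ph P (Yo P U) k t) ≤ ENNReal.ofReal (P.CC * P.μ) * en P U k := by
  have hc := hP.hc
  have hsc := Real.sqrt_pos.2 hc
  have hκ := κ_pos hP
  have hgc := g_cont P
  have hX := X2_nonneg P
  calc _ ≤ ∫⁻ t in Ioc 0 P.T, ENNReal.ofReal (P.g t) *
        (ENNReal.ofReal (1 / Real.sqrt P.c * (1 / P.κ)) * en P U k) := by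
        refine setLIntegral_mono' measurableSet_Ioc fun t ht => ?_
        have hst := Real.sqrt_pos.2 ht.1
        refine (mul_le_mul' le_rfl (h1_m2 hP hU k ht)).trans (le_of_eq ?_)
        have hg := g_nonneg P t
        rw [← mul_assoc, ← mul_assoc, ← mul_assoc, ← ENNReal.ofReal_mul (by positivity),
          ← ENNReal.ofReal_mul (by positivity), ← ENNReal.ofReal_mul (by positivity)]
        congr 2; field_simp
    _ = (∫⁻ t in Ioc 0 P.T, ENNReal.ofReal (P.g t)) *
        (ENNReal.ofReal (1 / Real.sqrt P.c * (1 / P.κ)) * en P U k) :=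
        lintegral_mul_const _ hgc.measurable.ennreal_ofReal
    _ ≤ ENNReal.ofReal (2 / P.c * P.X2) * (ENNReal.ofReal (1 / Real.sqrt P.c * (1 / P.κ)) * en P U k) :=
        mul_le_mul' (g_int hP hP.hT.le) le_rfl
    _ ≤ _ := by
        rw [← mul_assoc, ← ENNReal.ofReal_mul (by positivity)]
        apply mul_le_mul' (ENNReal.ofReal_le_ofReal _) le_rfl
        have h1 := (CC_bounds hP).2.2.2.1
        have h3 : 1 / P.κ ≤ 1 := by rw [div_le_one hκ]; exact hP.hκ
        have h4 : 0 ≤ 1 / P.κ := by positivity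
        calc 2 / P.c * P.X2 * (1 / Real.sqrt P.c * (1 / P.κ))
            = 2 / (P.c * Real.sqrt P.c) * (P.X2 * (1 / P.κ)) := by field_simp
          _ ≤ P.CC * (P.μ * 1) := mul_le_mul h1 (mul_le_mul (X2_le_μ hP) h3 h4 (μ_nonneg hP))
              (by positivity) (by have := one_le_CC hP; linarith)
          _ = _ := by ring

lemma j3 : ∫⁻ t in Ioc 0 P.T, ENNReal.ofReal (P.h1 t * pp P.η k * nk k) * ph P (Yo P U) k t
    ≤ ENNReal.ofReal (P.CC * P.μ) * en P U k := by
  have hc := hP.hc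
  have hsc := Real.sqrt_pos.2 hc
  have hκ := κ_pos hP
  have hp := pp_nonneg P.η k
  have hC1 := one_le_CC hP
  by_cases hk : k = 0
  · subst hk
    simp only [nk_zero, mul_zero, ENNReal.ofReal_zero, zero_mul, lintegral_zero]
    exact zero_le
  have hn := nk_pos hk
  have hs := sq_pos hk
  set τ := min P.T (1 / sq k)
  have hτ0 : 0 ≤ τ := le_min hP.hT.le (by positivity)
  have hτT : τ ≤ P.T := min_le_left _ _
  -- pointwise bound
  have hpt : ∀ t ∈ Ioc 0 P.T, ENNReal.ofReal (P.h1 t * pp P.η k * nk k) * ph P (Yo P U) k t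
      ≤ (Ioc 0 τ).indicator (fun t => ENNReal.ofReal (1 / Real.sqrt P.c * (1 / P.κ) * nk k) *
          (ENNReal.ofReal (1 / Real.sqrt t) * en P U k)) t
        + ENNReal.ofReal (1 / Real.sqrt P.c * (1 / P.c)) *
          (ENNReal.ofReal (P.g t * pp P.η k * (P.c * sq k)) * ph P (Yo P U) k t) := by
    intro t ht
    have hst := Real.sqrt_pos.2 ht.1
    by_cases htτ : t ≤ 1 / sq k
    · rw [indicator_of_mem (show t ∈ Ioc 0 τ from ⟨ht.1, le_min ht.2 htτ⟩)]
      refine le_trans ?_ le_self_add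
      calc ENNReal.ofReal (P.h1 t * pp P.η k * nk k) * ph P (Yo P U) k t
          = ENNReal.ofReal (nk k) * (ENNReal.ofReal (P.h1 t * pp P.η k) * ph P (Yo P U) k t) := by
            rw [← mul_assoc, ← ENNReal.ofReal_mul hn.le]; congr 2; ring
        _ ≤ ENNReal.ofReal (nk k) * (ENNReal.ofReal (1 / Real.sqrt P.c * (1 / P.κ)) *
            (ENNReal.ofReal (1 / Real.sqrt t) * en P U k)) := mul_le_mul' le_rfl (h1_m2 hP hU k ht)
        _ = _ := by
            rw [← mul_assoc, ← ENNReal.ofReal_mul hn.le]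
            congr 2; ring
    · refine le_trans ?_ le_add_self
      rw [← mul_assoc, ← ENNReal.ofReal_mul (by positivity)]
      apply mul_le_mul' (ENNReal.ofReal_le_ofReal _) le_rfl
      have h1 := h1_le hP ht.1
      rw [Real.sqrt_mul hc.le] at h1
      push Not at htτ
      have h2 : 1 ≤ Real.sqrt t * nk k := by
        have h3 : 1 ≤ (Real.sqrt t * nk k) ^ 2 := by
          rw [mul_pow, Real.sq_sqrt ht.1.le, nk_sq]
          rw [div_lt_iff₀ hs] at htτ
          exact htτ.le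
        have h4 : 0 ≤ Real.sqrt t * nk k := by positivity
        nlinarith
      have hg := g_nonneg P t
      calc P.h1 t * pp P.η k * nk k ≤ P.g t / (Real.sqrt P.c * Real.sqrt t) * pp P.η k * nk k :=
            mul_le_mul_of_nonneg_right (mul_le_mul_of_nonneg_right h1 hp) hn.le
        _ = P.g t / (Real.sqrt P.c * Real.sqrt t) * pp P.η k * nk k * 1 := by ring
        _ ≤ P.g t / (Real.sqrt P.c * Real.sqrt t) * pp P.η k * nk k * (Real.sqrt t * nk k) :=
            mul_le_mul_of_nonneg_left h2 (by positivity)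
        _ = _ := by rw [← nk_sq]; field_simp
  have m1 : Measurable fun t => ENNReal.ofReal (P.g t * pp P.η k * (P.c * sq k)) * ph P (Yo P U) k t := by
    have hgc := g_cont P
    exact ((by fun_prop : Continuous fun t => P.g t * pp P.η k * (P.c * sq k)).measurable.ennreal_ofReal).mul
      (ph_meas hP (Yo_cf hU) k)
  calc _ ≤ ∫⁻ t in Ioc 0 P.T, ((Ioc 0 τ).indicator (fun t => ENNReal.ofReal (1 / Real.sqrt P.c * (1 / P.κ) * nk k) *
          (ENNReal.ofReal (1 / Real.sqrt t) * en P U k)) t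
        + ENNReal.ofReal (1 / Real.sqrt P.c * (1 / P.c)) *
          (ENNReal.ofReal (P.g t * pp P.η k * (P.c * sq k)) * ph P (Yo P U) k t)) :=
        setLIntegral_mono' measurableSet_Ioc hpt
    _ = (∫⁻ t in Ioc 0 P.T, (Ioc 0 τ).indicator (fun t => ENNReal.ofReal (1 / Real.sqrt P.c * (1 / P.κ) * nk k) *
          (ENNReal.ofReal (1 / Real.sqrt t) * en P U k)) t)
        + ENNReal.ofReal (1 / Real.sqrt P.c * (1 / P.c)) *
          ∫⁻ t in Ioc 0 P.T, (ENNReal.ofReal (P.g t * pp P.η k * (P.c * sq k)) * ph P (Yo P U) k t) := by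
        rw [lintegral_add_right _ (m1.const_mul _), lintegral_const_mul _ m1]
    _ ≤ ENNReal.ofReal (1 / Real.sqrt P.c * (1 / P.κ) * 2) * en P U k
        + ENNReal.ofReal (1 / Real.sqrt P.c * (1 / P.c)) * (ENNReal.ofReal P.μ * en P U k) := by
        refine add_le_add ?_ (mul_le_mul' le_rfl (j2 hP hU k))
        rw [lintegral_indicator measurableSet_Ioc, Measure.restrict_restrict measurableSet_Ioc,
          inter_eq_left.2 (Ioc_subset_Ioc_right hτT), lintegral_const_mul' _ _ ENNReal.ofReal_ne_top,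
          lintegral_mul_const _ (by fun_prop)]
        calc _ ≤ ENNReal.ofReal (1 / Real.sqrt P.c * (1 / P.κ) * nk k) *
              (ENNReal.ofReal (2 * Real.sqrt τ) * en P U k) :=
              mul_le_mul' le_rfl (mul_le_mul' (int_rsqrt hτ0) le_rfl)
          _ ≤ _ := by
              rw [← mul_assoc, ← ENNReal.ofReal_mul (by positivity)]
              apply mul_le_mul' (ENNReal.ofReal_le_ofReal _) le_rfl
              have h5 : nk k * Real.sqrt τ ≤ 1 := by
                have : Real.sqrt τ ≤ 1 / nk k := by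
                  rw [show 1 / nk k = Real.sqrt (1 / sq k) by
                    rw [Real.sqrt_div zero_le_one, Real.sqrt_one]; rfl]
                  exact Real.sqrt_le_sqrt (min_le_right _ _)
                calc nk k * Real.sqrt τ ≤ nk k * (1 / nk k) := mul_le_mul_of_nonneg_left this hn.le
                  _ = 1 := by field_simp
              calc 1 / Real.sqrt P.c * (1 / P.κ) * nk k * (2 * Real.sqrt τ)
                  = 1 / Real.sqrt P.c * (1 / P.κ) * 2 * (nk k * Real.sqrt τ) := by ring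
                _ ≤ 1 / Real.sqrt P.c * (1 / P.κ) * 2 * 1 := mul_le_mul_of_nonneg_left h5 (by positivity)
                _ = _ := by ring
    _ ≤ _ := by
        have hμ := μ_nonneg hP
        rw [← mul_assoc, ← ENNReal.ofReal_mul (by positivity), ← add_mul,
          ← ENNReal.ofReal_add (by positivity) (by positivity)]
        apply mul_le_mul' (ENNReal.ofReal_le_ofReal _) le_rfl
        have h3 := inv_κ_le hP
        have h1 := (CC_bounds hP).2.2.2.2
        have h2 : (2 + 1 / P.c) / Real.sqrt P.c = 1 / Real.sqrt P.c * 2 + 1 / Real.sqrt P.c * (1 / P.c) := by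
          field_simp
        have h4 : 0 ≤ 1 / Real.sqrt P.c := by positivity
        calc 1 / Real.sqrt P.c * (1 / P.κ) * 2 + 1 / Real.sqrt P.c * (1 / P.c) * P.μ
            ≤ 1 / Real.sqrt P.c * P.μ * 2 + 1 / Real.sqrt P.c * (1 / P.c) * P.μ := by
              have := mul_le_mul_of_nonneg_left h3 h4
              linarith
          _ = ((2 + 1 / P.c) / Real.sqrt P.c) * P.μ := by rw [h2]; ring
          _ ≤ _ := mul_le_mul_of_nonneg_right h1 hμ

end modes2

end Pool.Agent.H356R3.NS.SW
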