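import Pool.Agent.Helper19.SW.Glue

/-!
# The difference at the final time of the first stage
-/

open MeasureTheory Set Filter Topology
open scoped ENNReal NNReal

namespace Pool.Agent.H356R3.NS.SW

variable {P : Pm}

lemma NW_le_s0 (hP : P.OK) (X : Fam) (t : ℝ) : NW (Wm P.b) (at' X t) ≤ s0 P X t := by
  unfold NW s0
  refine ENNReal.tsum_le_tsum fun k => ?_
  refine le_trans (mul_le_mul' ?_ le_rfl) (om_enorm_le hP X k t)
  unfold Wm
  apply ENNReal.ofReal_le_ofReal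
  by_cases hk : k = 0
  · subst hk; rw [nk_zero, div_zero]; exact (om_pos _ _).le
  · exact div_le_self (om_pos _ _).le (one_le_nk hk)

lemma g_T_le (hP : P.OK) : P.g P.T ≤ 2 / (P.c * P.T) * P.X2 := by
  have hc := hP.hc
  have hT := hP.hT
  unfold Pm.g Pm.X2
  rw [Finset.mul_sum]
  refine Finset.sum_le_sum fun l hl => ?_
  have hs := sq_pos (hP.ne l hl)
  have h1 : Real.exp (-(P.c * sq l / 2 * P.T)) ≤ 1 / (P.c * sq l / 2 * P.T) := by
    have hx : 0 < P.c * sq l / 2 * P.T := by positivity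
    rw [Real.exp_neg, ← one_div]
    apply one_div_le_one_div_of_le hx
    have := Real.add_one_le_exp (P.c * sq l / 2 * P.T)
    linarith
  calc ‖P.a l‖ * Real.exp (-(P.c * sq l / 2 * P.T)) ≤ ‖P.a l‖ * (1 / (P.c * sq l / 2 * P.T)) :=
        mul_le_mul_of_nonneg_left h1 (norm_nonneg _)
    _ = _ := by field_simp

lemma s0_Ac (hP : P.OK) : s0 P (Ac P) P.T ≤ ENNReal.ofReal (2 * P.g P.T) := by
  have h1 : s0 P (Ac P) P.T = ∑ l ∈ P.S, ph P (Ac P) l P.T := by
    unfold s0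
    refine tsum_eq_sum fun l hl => ?_
    unfold ph
    have : Ac P l P.T = 0 := (Ac_sh hP P.T).supp l hl
    rw [this]; simp
  rw [h1]
  have h2 : ∀ l ∈ P.S, ph P (Ac P) l P.T ≤ ENNReal.ofReal (2 * ‖P.A l P.T‖) := by
    intro l hl
    rw [ph_eq]
    apply ENNReal.ofReal_le_ofReal
    have e : Ac P l P.T = P.A l P.T := by
      show P.A l (cl P.T P.T) = _
      rw [cl_of_mem ⟨hP.hT.le, le_rfl⟩]
    rw [e]
    exact mul_le_mul_of_nonneg_right (W_S hP _ hl) (norm_nonneg _)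
  refine (Finset.sum_le_sum h2).trans ?_
  rw [← ENNReal.ofReal_sum_of_nonneg fun l _ => by positivity, ← Finset.mul_sum, h0_eq P hP.hT.le]
  apply ENNReal.ofReal_le_ofReal
  have := h0_le hP hP.hT.le
  linarith

/-- the constant at the final time -/
noncomputable def Pm.KE (P : Pm) (R : ℝ) : ℝ :=
  4 / (P.c * P.T) + (4 * P.KL * R + 20 * P.KB * R ^ 2) + 16 * Real.pi * R
    + 16 * Real.pi * R / (Real.sqrt P.c * (P.c * P.T))

theorem end_le (hP : P.OK) {R : ℝ} (hS : Sm P R) {V : K → C3} {U : Fam} (hU : Good P U)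
    (hUR : EN P U ≤ ENNReal.ofReal R) (hfix : U = Phi P V U) {v : Fam} (hv : St v)
    (hvE : EN P (clf P v) ≤ ENNReal.ofReal R)
    (hveq : ∀ k, ∀ t ∈ Icc 0 P.T, v k t = Real.exp (-(P.c * sq k * t)) • V k + Duh P.c (Bt v) k t) :
    NW (Wm P.b) (at' (Ac P + wz P U U) P.T - at' v P.T) ≤ ENNReal.ofReal (P.μ * P.KE R) := by
  have hd := diff_le hP hS hU hUR hfix hv hvE hveq
  have hT := hP.hT
  have hc := hP.hc
  have hpi := Real.pi_pos
  have hμ := μ_nonneg hP
  have hKL := KL_pos hP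
  have hKB := KB_pos hP
  have hR := hS.R0
  have hsc := Real.sqrt_pos.2 hc
  have hX := X2_le_μ hP
  have hX0 := X2_nonneg P
  have hT' : P.T ∈ Icc 0 P.T := ⟨hT.le, le_rfl⟩
  have e : at' (Ac P + wz P U U) P.T - at' v P.T
      = at' (Ac P + (U - clf P v) + TAf P (Yo P U)) P.T := by
    funext k
    show (Ac P k P.T + (U k P.T + TAf P (Yo P U) k P.T)) - v k P.T
      = (Ac P k P.T + (U k P.T - v k (cl P.T P.T))) + TAf P (Yo P U) k P.T
    rw [cl_of_mem hT']
    abel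
  rw [e]
  have hB := (Bd_TA hP hU.st.cf (hU.st.Yo hP).dv hR.le hUR).s P.T ⟨hT, le_rfl⟩
  refine (NW_le_s0 hP _ _).trans ((s0_add_le _ _ _).trans ((add_le_add ((s0_add_le _ _ _).trans
    (add_le_add (s0_Ac hP) ((s0_le_EN hT').trans hd))) hB).trans ?_))
  have hgT := g_T_le hP
  have hg0 := g_nonneg P P.T
  have hs1 := sT_le hP
  have hs0 := (sT_pos hP).le
  rw [← ENNReal.ofReal_add (by positivity) (by positivity), ← ENNReal.ofReal_add (by positivity) (by positivity)]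
  apply ENNReal.ofReal_le_ofReal
  have hgμ : P.g P.T ≤ 2 / (P.c * P.T) * P.μ :=
    hgT.trans (mul_le_mul_of_nonneg_left hX (by positivity))
  have h1 : Real.sqrt P.T * P.g P.T ≤ 2 / (P.c * P.T) * P.μ := by
    calc Real.sqrt P.T * P.g P.T ≤ 1 * P.g P.T := mul_le_mul_of_nonneg_right hs1 hg0
      _ ≤ _ := by rw [one_mul]; exact hgμ
  have h2 : 8 * Real.pi / Real.sqrt P.c * R * (Real.sqrt P.T * P.g P.T)
      ≤ 8 * Real.pi / Real.sqrt P.c * R * (2 / (P.c * P.T) * P.μ) :=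
    mul_le_mul_of_nonneg_left h1 (by positivity)
  have h3 : P.μ * P.KE R = 2 * (2 / (P.c * P.T) * P.μ) + P.μ * (4 * P.KL * R + 20 * P.KB * R ^ 2)
      + (16 * Real.pi * P.μ * R + 8 * Real.pi / Real.sqrt P.c * R * (2 / (P.c * P.T) * P.μ)) := by
    unfold Pm.KE
    field_simp
    ring
  rw [h3]
  linarith

end Pool.Agent.H356R3.NS.SW
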