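import Pool.Agent.Helper19.SW.Fixp
import Pool.Agent.H356R3.NS.Small

/-!
# The equation for the sum
-/

open MeasureTheory Set Filter Topology
open scoped ENNReal NNReal

namespace Pool.Agent.H356R3.NS.SW

variable {P : Pm}

/-- variation of constants -/
lemma varconst {lam T : ℝ} {y G : ℝ → C3} (hy : Continuous y) (hG : Continuous G)
    (hd : ∀ t ∈ Ioo 0 T, HasDerivAt y (-lam • y t + G t) t) {t : ℝ} (ht : t ∈ Icc 0 T) :
    y t = Real.exp (-(lam * t)) • y 0 + ∫ s in (0 : ℝ)..t, Real.exp (-(lam * (t - s))) • G s := by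
  have h1 : ∫ s in (0 : ℝ)..t, Real.exp (lam * s) • G s = Real.exp (lam * t) • y t - Real.exp (lam * 0) • y 0 := by
    refine intervalIntegral.integral_eq_sub_of_hasDerivAt_of_le (f := fun s => Real.exp (lam * s) • y s) ht.1
      (by fun_prop) (fun s hs => ?_) ((by fun_prop : Continuous fun s => Real.exp (lam * s) • G s).intervalIntegrable _ _)
    have h2 : HasDerivAt (fun s => Real.exp (lam * s)) (Real.exp (lam * s) * lam) s := by
      have : HasDerivAt (fun s : ℝ => lam * s) lam s := by simpa using (hasDerivAt_id' s).const_mul lam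
      exact this.exp
    have h3 := h2.fun_smul (hd s ⟨hs.1, hs.2.trans_le ht.2⟩)
    refine h3.congr_deriv ?_
    rw [smul_add, smul_smul, add_right_comm, ← add_smul]
    simp
  have h2 : ∫ s in (0 : ℝ)..t, Real.exp (-(lam * (t - s))) • G s
      = Real.exp (-(lam * t)) • ∫ s in (0 : ℝ)..t, Real.exp (lam * s) • G s := by
    rw [← intervalIntegral.integral_smul]
    refine intervalIntegral.integral_congr fun s _ => ?_
    simp only [smul_smul, ← Real.exp_add]
    congr 2; ring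
  rw [h2, h1, mul_zero, Real.exp_zero, one_smul, smul_sub, smul_smul, ← Real.exp_add]
  simp

lemma cl_ev {T t : ℝ} (ht : t ∈ Ioo 0 T) : ∀ᶠ s in 𝓝 t, cl T s = s := by
  filter_upwards [Ioo_mem_nhds ht.1 ht.2] with s hs
  exact cl_of_mem ⟨hs.1.le, hs.2.le⟩

lemma Yo_deriv {U : Fam} (hU : CF U) (k : K) {t : ℝ} (ht : t ∈ Ioo 0 P.T) :
    HasDerivAt (Yo P U k) (U k t) t := by
  have h1 : HasDerivAt (fun t => ∫ s in (0 : ℝ)..t, U k s) (U k t) t :=
    intervalIntegral.integral_hasDerivAt_right ((hU k).intervalIntegrable _ _)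
      (hU k).aestronglyMeasurable.stronglyMeasurableAtFilter (hU k).continuousAt
  refine h1.congr_of_eventuallyEq ?_
  filter_upwards [cl_ev ht] with s hs
  unfold Yo; rw [hs]

lemma Ac_deriv (k : K) {t : ℝ} (ht : t ∈ Ioo 0 P.T) :
    HasDerivAt (Ac P k) (-(P.c * sq k) • Ac P k t) t := by
  have h2 : HasDerivAt (fun u => Real.exp (-(P.c * sq k * u))) (Real.exp (-(P.c * sq k * t)) * -(P.c * sq k)) t := by
    have : HasDerivAt (fun u : ℝ => -(P.c * sq k * u)) (-(P.c * sq k)) t := by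
      simpa using ((hasDerivAt_id' t).const_mul (P.c * sq k)).fun_neg
    exact this.exp
  have h3 := h2.smul_const (P.a k)
  have e : Ac P k =ᶠ[𝓝 t] fun u => Real.exp (-(P.c * sq k * u)) • P.a k := by
    filter_upwards [cl_ev ht, lt_mem_nhds ht.1] with s hs hs'
    show Real.exp (-(P.c * sq k * max (cl P.T s) 0)) • P.a k = _
    rw [hs, max_eq_left hs'.le]
  refine (h3.congr_of_eventuallyEq e).congr_deriv ?_
  rw [e.eq_of_nhds, smul_smul]
  congr 1; ring

lemma tt_deriv {l j : K} {a y : ℝ → C3} {a' y' : C3} {t : ℝ} (ha : HasDerivAt a a' t) (hy : HasDerivAt y y' t) :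
    HasDerivAt (fun t => tt l (a t) j (y t)) (tt l a' j (y t) + tt l (a t) j y') t := by
  have ha' := fun i => (hasDerivAt_pi.1 ha) i
  have hy' := fun i => (hasDerivAt_pi.1 hy) i
  have hda : HasDerivAt (fun t => dt j (a t)) (dt j a') t := by
    unfold dt
    exact HasDerivAt.fun_sum fun i _ => (ha' i).const_mul _
  have hdy : HasDerivAt (fun t => dt l (y t)) (dt l y') t := by
    unfold dt
    exact HasDerivAt.fun_sum fun i _ => (hy' i).const_mul _
  have h := ((hda.fun_smul hy).fun_sub (hdy.fun_smul ha)).const_smul (2 * Real.pi * Complex.I : ℂ)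
  refine h.congr_deriv ?_
  unfold tt
  rw [← smul_add]
  congr 1
  abel

lemma TAf_deriv {U : Fam} (hU : CF U) (k : K) {t : ℝ} (ht : t ∈ Ioo 0 P.T) :
    HasDerivAt (TAf P (Yo P U) k) (-(P.c * sq k) • TAf P (Yo P U) k t
      + (TAf P U k t + Rf P (Yo P U) k t)) t := by
  have h1 : HasDerivAt (TAf P (Yo P U) k) (∑ l ∈ P.S, (tt l (-(P.c * sq l) • Ac P l t) (k - l) (Yo P U (k - l) t)
      + tt l (Ac P l t) (k - l) (U (k - l) t))) t := by
    unfold TAf
    exact HasDerivAt.fun_sum fun l _ => tt_deriv (Ac_deriv l ht) (Yo_deriv hU (k - l) ht)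
  refine h1.congr_deriv ?_
  unfold TAf Rf
  rw [Finset.smul_sum, ← Finset.sum_add_distrib, ← Finset.sum_add_distrib]
  refine Finset.sum_congr rfl fun l _ => ?_
  have e : Ac P l t = P.A l (cl P.T t) := rfl
  rw [tt_smul, e, add_left_comm, ← add_smul, add_comm]
  congr 2
  ring

lemma TAf_duh {U : Fam} (hU : CF U) (k : K) {t : ℝ} (ht : t ∈ Icc 0 P.T) :
    TAf P (Yo P U) k t = Duh P.c (TAf P U + Rf P (Yo P U)) k t := by
  have hY := Yo_cf (P := P) hU
  have h := varconst (lam := P.c * sq k) (T := P.T) (TAf_cf (P := P) hY k)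
    (G := (TAf P U + Rf P (Yo P U)) k) ((TAf_cf hU k).add (Rf_cf hY k)) (fun t ht => TAf_deriv hU k ht) ht
  have h0 : TAf P (Yo P U) k 0 = 0 := by
    unfold TAf
    refine Finset.sum_eq_zero fun l _ => ?_
    have : Yo P U (k - l) 0 = 0 := by
      unfold Yo
      have : cl P.T 0 = 0 ∨ P.T < 0 := by
        by_cases hT : 0 ≤ P.T
        · left; exact cl_of_mem ⟨le_rfl, hT⟩
        · right; linarith
      rcases this with h | h
      · rw [h]; simp
      · exfalso; linarith [ht.1.trans ht.2]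
    rw [this]
    unfold tt
    rw [dt_vzero]; simp
  rw [h, h0, smul_zero, zero_add]
  unfold Duh
  rw [max_eq_left ht.1]

/-- Solutions on `[0,T]`. -/
structure LSol (c a T : ℝ) (V : K → C3) (u : Fam) : Prop where
  cf : CF u
  z : ∀ t, u 0 t = 0
  sym : SymF u
  dom : WDom a u
  eq : ∀ k, ∀ t ∈ Icc 0 T, u k t = Real.exp (-(c * sq k * t)) • V k + Duh c (Bt u) k t

lemma Bt_eq_BB (u : Fam) : Bt u = BB u u := rfl

lemma Duh_add' {c : ℝ} {F F' : Fam} (hF : CF F) (hF' : CF F') (k : K) (t : ℝ) :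
    Duh c (F + F') k t = Duh c F k t + Duh c F' k t := by rw [Duh_add hF hF']; rfl

/-- The equation. -/
lemma main_eq (hP : P.OK) {V : K → C3} {U : Fam} (hU : Good P U) (hfix : U = Phi P V U) (k : K) {t : ℝ}
    (ht : t ∈ Icc 0 P.T) : (Ac P + wz P U U) k t =
      Real.exp (-(P.c * sq k * t)) • (V + P.a) k + Duh P.c (Bt (Ac P + wz P U U)) k t := by
  have hA := Ac_St hP
  have dA := Ac_dom hP
  have hT := TU_St hP hU
  have dT := TAf_dom hP hU
  have dU := hU.dom hP
  have hw := wz_St hP hU hU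
  have dw := wz_dom hP hU hU
  have hY := hU.st.Yo hP
  have dY := Yo_dom hP hU
  have cTU : CF (TAf P U) := TAf_cf hU.st.cf
  have cR := RU_St hP hU
  have cFo := (Fo_St hP hU).cf
  have e1 : Ac P k t = Real.exp (-(P.c * sq k * t)) • P.a k := by
    show Real.exp (-(P.c * sq k * max (cl P.T t) 0)) • P.a k = _
    rw [cl_of_mem ht, max_eq_left ht.1]
  have e2 : U k t = Real.exp (-(P.c * sq k * t)) • V k + Duh P.c (Fo P U) k t := by
    conv_lhs => rw [hfix]
    show Real.exp (-(P.c * sq k * cl P.T t)) • V k + Duh P.c (Fo P U) k (cl P.T t) = _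
    rw [cl_of_mem ht]
  have e3 := TAf_duh (P := P) hU.st.cf k ht
  have e4 : (Ac P + wz P U U) k t = Real.exp (-(P.c * sq k * t)) • (V + P.a) k
      + Duh P.c (Fo P U + (TAf P U + Rf P (Yo P U))) k t := by
    have cTR : CF (TAf P U + Rf P (Yo P U)) := fun k => (cTU k).add (cR.cf k)
    rw [Duh_add' cFo cTR]
    show Ac P k t + (U k t + TAf P (Yo P U) k t) = Real.exp (-(P.c * sq k * t)) • (V k + P.a k) + _
    rw [e1, e2, e3, smul_add]
    abel
  rw [e4]
  congr 2
  have e5 : TAf P U = BB U (Ac P) - BB (Ac P) U := by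
    funext k t
    have := TAf_at hP (dU.sn t) hU.st.dv
    exact congrFun this k
  rw [Bt_eq_BB, BB_add_left dA dw (dA.add dw), BB_add_right dA dA dw, BB_add_right dw dA dw, BB_AA hP]
  unfold Fo Lin
  have e6 : BB (Ac P) (wz P U U) = BB (Ac P) U + BB (Ac P) (TAf P (Yo P U)) := by
    unfold wz; rw [BB_add_right dA dU dT]
  have e7 : BB (wz P U U) (Ac P) = BB U (Ac P) + BB (TAf P (Yo P U)) (Ac P) := by
    unfold wz; rw [BB_add_left dU dT dA]
  rw [e5, e6, e7]
  abel

/-! ### weighted domination -/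

lemma om_enorm_le (hP : P.OK) (U : Fam) (k : K) (t : ℝ) : ENNReal.ofReal (om P.b k) * ‖U k t‖ₑ ≤ ph P U k t :=
  mul_le_mul' (ENNReal.ofReal_le_ofReal (om_le_W hP t k)) le_rfl

lemma real_of_enorm {s : ℝ} (hs : 0 ≤ s) {v : C3} {x : ℝ≥0∞} (hx : x ≠ ⊤) (h : ENNReal.ofReal s * ‖v‖ₑ ≤ x) :
    s * ‖v‖ ≤ x.toReal := by
  have := ENNReal.toReal_mono hx h
  rw [ENNReal.toReal_mul, ENNReal.toReal_ofReal hs] at this
  simpa using this

lemma Good.om_norm_le (hP : P.OK) {U : Fam} (h : Good P U) (k : K) (t : ℝ) :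
    om P.b k * ‖U k t‖ ≤ (en P U k).toReal := by
  rw [h.cl]
  exact real_of_enorm (om_pos _ _).le (en_ne_top h.fin k)
    ((om_enorm_le hP U k _).trans (ph_le_en (cl_mem hP.hT.le t)))

lemma Yo_om_norm_le (hP : P.OK) {U : Fam} (h : Good P U) (k : K) (t : ℝ) :
    om P.b k * ‖Yo P U k t‖ ≤ (en P U k).toReal := by
  have e : Yo P U k t = Yo P U k (cl P.T t) := by unfold Yo; rw [cl_cl hP]
  rw [e]
  have ht := cl_mem hP.hT.le t
  have h1 := (om_enorm_le hP (Yo P U) k _).trans (m3 hP h.st.cf k ht)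
  refine real_of_enorm (om_pos _ _).le (en_ne_top h.fin k) (h1.trans ?_)
  calc _ ≤ 1 * en P U k := by
        apply mul_le_mul' _ le_rfl
        rw [ENNReal.ofReal_le_one]; exact cl_le hP t
    _ = _ := one_mul _

lemma gppY_om_le (hP : P.OK) {U : Fam} (h : Good P U) {l : K} (hl : l ∈ P.S) (k : K) (t : ℝ) :
    om P.b k * (‖Ac P l t‖ * pp P.η k * ‖Yo P U k t‖) ≤ (en P U k).toReal := by
  have e : Yo P U k t = Yo P U k (cl P.T t) := by unfold Yo; rw [cl_cl hP]
  have ht := cl_mem hP.hT.le t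
  set s := cl P.T t
  have h1 := m2 hP h.st.cf k ht
  have hκ := κ_pos hP
  have hp := pp_nonneg P.η k
  have hg := g_nonneg P s
  have hom := om_pos P.b k
  have hAg : ‖Ac P l t‖ ≤ P.g s := by
    have h2 : ‖Ac P l t‖ ≤ P.h0 s := by
      rw [← h0_eq P ht.1]
      exact Finset.single_le_sum (f := fun l => ‖P.A l s‖) (fun _ _ => norm_nonneg _) hl
    exact h2.trans (h0_le hP ht.1)
  have h3 : ENNReal.ofReal (om P.b k * (P.g s * pp P.η k)) * ‖Yo P U k s‖ₑ ≤ en P U k := by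
    have h4 : ENNReal.ofReal (om P.b k * (P.g s * pp P.η k)) * ‖Yo P U k s‖ₑ
        = ENNReal.ofReal (P.g s * pp P.η k) * (ENNReal.ofReal (om P.b k) * ‖Yo P U k s‖ₑ) := by
      rw [ENNReal.ofReal_mul hom.le]; ring
    rw [h4]
    refine (mul_le_mul' le_rfl (om_enorm_le hP _ k s)).trans (h1.trans ?_)
    calc _ ≤ 1 * en P U k := by
          apply mul_le_mul' _ le_rfl
          rw [ENNReal.ofReal_le_one, div_le_one hκ]; exact hP.hκ
      _ = _ := one_mul _
  have h4 := real_of_enorm (by positivity) (en_ne_top h.fin k) h3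
  rw [e]
  calc _ ≤ om P.b k * (P.g s * pp P.η k * ‖Yo P U k s‖) := by gcongr
    _ = om P.b k * (P.g s * pp P.η k) * ‖Yo P U k s‖ := by ring
    _ ≤ _ := h4

lemma TAf_wdom (hP : P.OK) {U : Fam} (h : Good P U) : WDom P.b (TAf P (Yo P U)) := by
  have hpi := Real.pi_pos
  set B : K → ℝ := fun k => ∑ l ∈ P.S, 8 * Real.pi * (1 + nk l * ‖P.a l‖) * (en P U (k - l)).toReal
  have hB : Summable B :=
    summable_sum fun l _ => ((en_summ h.fin).comp_injective (Equiv.subRight l).injective).mul_left _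
  refine ⟨fun k => B k / om P.b k, ?_, fun k t => ?_⟩
  · refine hB.congr fun k => ?_
    have := om_pos P.b k
    field_simp
  have hom := om_pos P.b k
  rw [le_div_iff₀ hom, mul_comm]
  have h0 : ‖TAf P (Yo P U) k t‖ ≤ ∑ l ∈ P.S, ‖tt l (P.A l (cl P.T t)) (k - l) (Yo P U (k - l) t)‖ := norm_sum_le _ _
  refine (mul_le_mul_of_nonneg_left h0 hom.le).trans ?_
  rw [Finset.mul_sum]
  refine Finset.sum_le_sum fun l hl => ?_
  have hn := nk_nonneg l
  have h1 := N1 hP hl (A_perp hP l (cl P.T t)) (j := k - l) (y := Yo P U (k - l) t)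
  have h2 := gppY_om_le hP h hl (k - l) t
  have h3 := Yo_om_norm_le hP h (k - l) t
  have h4 : ‖P.A l (cl P.T t)‖ ≤ ‖P.a l‖ := Ac_norm hP l t
  have h5 : om P.b (k - l) * (‖P.A l (cl P.T t)‖ * pp P.η (k - l) * ‖Yo P U (k - l) t‖) ≤
    (en P U (k - l)).toReal := h2
  have hr0 : 0 ≤ (en P U (k - l)).toReal := ENNReal.toReal_nonneg
  have ho2 := om_pos P.b (k - l)
  have h6 : om P.b k ≤ 2 * om P.b (k - l) :=
    (om_sub hP.hb k l).trans (mul_le_mul_of_nonneg_right (hP.hom l hl) ho2.le)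
  have hp := pp_nonneg P.η (k - l)
  calc om P.b k * ‖tt l (P.A l (cl P.T t)) (k - l) (Yo P U (k - l) t)‖
      ≤ (2 * om P.b (k - l)) * (4 * Real.pi * (‖P.A l (cl P.T t)‖ * pp P.η (k - l)
        + nk l * ‖P.A l (cl P.T t)‖) * ‖Yo P U (k - l) t‖) := by gcongr
    _ = 8 * Real.pi * (om P.b (k - l) * (‖P.A l (cl P.T t)‖ * pp P.η (k - l) * ‖Yo P U (k - l) t‖)
        + nk l * ‖P.A l (cl P.T t)‖ * (om P.b (k - l) * ‖Yo P U (k - l) t‖)) := by ring
    _ ≤ 8 * Real.pi * ((en P U (k - l)).toReal + nk l * ‖P.a l‖ * (en P U (k - l)).toReal) := by gcongr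
    _ = _ := by ring

lemma Good.wdom (hP : P.OK) {U : Fam} (h : Good P U) : WDom P.b U := by
  refine ⟨fun k => (en P U k).toReal / om P.b k, ?_, fun k t => ?_⟩
  · refine (en_summ h.fin).congr fun k => ?_
    have := om_pos P.b k
    field_simp
  have hom := om_pos P.b k
  rw [le_div_iff₀ hom, mul_comm]
  exact h.om_norm_le hP k t

lemma Ac_wdom (hP : P.OK) : WDom P.b (Ac P) :=
  ⟨fun k => ‖P.a k‖, summable_of_ne_finset_zero (s := P.S) fun l hl => by
    simp [hP.supp l hl], fun k t => Ac_norm hP k t⟩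

theorem stage1 (hP : P.OK) {V : K → C3} {U : Fam} (hU : Good P U) (hfix : U = Phi P V U) :
    LSol P.c P.b P.T (V + P.a) (Ac P + wz P U U) := by
  have hA := Ac_St hP
  have hw := wz_St hP hU hU
  have h := hA.add hw
  exact ⟨h.cf, h.z, h.sym, (Ac_wdom hP).add ((hU.wdom hP).add (TAf_wdom hP hU)),
    fun k t ht => main_eq hP hU hfix k ht⟩

end Pool.Agent.H356R3.NS.SW
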