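import Pool.Agent.Helper19.SW.Fo

/-!
# The fixed point
-/

open MeasureTheory Set Filter Topology
open scoped ENNReal NNReal

namespace Pool.Agent.H356R3.NS.SW

variable {P : Pm}

lemma Yo_sub {U U' : Fam} (hU : CF U) (hU' : CF U') : Yo P (U - U') = Yo P U - Yo P U' := by
  funext k t
  simp only [Yo, Pi.sub_apply]
  rw [← intervalIntegral.integral_sub ((hU k).intervalIntegrable _ _) ((hU' k).intervalIntegrable _ _)]

lemma tt_sub_y (l : K) (a : C3) (j : K) (y y' : C3) : tt l a j (y - y') = tt l a j y - tt l a j y' := by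
  unfold tt
  rw [dt_vsub]
  funext i
  simp only [Pi.smul_apply, Pi.sub_apply, smul_eq_mul]
  ring

lemma TAf_sub (Y Y' : Fam) : TAf P (Y - Y') = TAf P Y - TAf P Y' := by
  funext k t
  simp only [TAf, Pi.sub_apply, tt_sub_y, Finset.sum_sub_distrib]

lemma Rf_sub (Y Y' : Fam) : Rf P (Y - Y') = Rf P Y - Rf P Y' := by
  funext k t
  simp only [Rf, Pi.sub_apply, tt_sub_y, smul_sub, Finset.sum_sub_distrib]

lemma BB_sub_right {X Y Y' : Fam} (hX : Dom X) (hY : Dom Y) (hY' : Dom Y') :
    BB X (Y - Y') = BB X Y - BB X Y' := by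
  funext k t
  have := Bf_sub_right (hX.sn t) (hY.sn t) (hY'.sn t)
  exact congrFun this k

lemma BB_sub_left {X X' Y : Fam} (hX : Dom X) (hX' : Dom X') (hY : Dom Y) :
    BB (X - X') Y = BB X Y - BB X' Y := by
  funext k t
  have := Bf_sub_left (hX.sn t) (hX'.sn t) (hY.sn t)
  exact congrFun this k

lemma BB_add_right {X Y Y' : Fam} (hX : Dom X) (hY : Dom Y) (hY' : Dom Y') :
    BB X (Y + Y') = BB X Y + BB X Y' := by
  funext k t
  have := Bf_add_right (hX.sn t) (hY.sn t) (hY'.sn t)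
  exact congrFun this k

lemma BB_add_left {X X' Y : Fam} (hX : Dom X) (hX' : Dom X') (hY : Dom Y) :
    BB (X + X') Y = BB X Y + BB X' Y := by
  funext k t
  have := Bf_add_left (hX.sn t) (hX'.sn t) (hY.sn t)
  exact congrFun this k

section diff

variable (hP : P.OK) {U U' : Fam} (hU : Good P U) (hU' : Good P U')
include hP hU hU'

lemma Lin_sub : Lin P (U - U') = Lin P U - Lin P U' := by
  have dA := Ac_dom hP
  have dU := hU.dom hP
  have dU' := hU'.dom hP
  have dT := TAf_dom hP hU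
  have dT' := TAf_dom hP hU'
  unfold Lin
  rw [Yo_sub hU.st.cf hU'.st.cf, TAf_sub, Rf_sub, BB_sub_right dA dU dU', BB_sub_right dA dT dT',
    BB_sub_left dT dT' dA]
  abel

lemma wz_sub {Z Z' : Fam} : wz P (Z - Z') (U - U') = wz P Z U - wz P Z' U' := by
  unfold wz
  rw [Yo_sub hU.st.cf hU'.st.cf, TAf_sub]
  abel

lemma Fo_sub : Fo P U - Fo P U' = Lin P (U - U') + (BB (wz P (U - U') (U - U')) (wz P U U)
    + BB (wz P U' U') (wz P (U - U') (U - U'))) := by
  have dw := wz_dom hP hU hU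
  have dw' := wz_dom hP hU' hU'
  unfold Fo
  rw [Lin_sub hP hU hU', wz_sub hP hU hU', BB_sub_left dw dw' dw, BB_sub_right dw' dw dw']
  abel

end diff

/-- the smallness condition -/
structure Sm (P : Pm) (R : ℝ) : Prop where
  R0 : 0 < R
  sm : 2 * P.KL * P.μ + 4 * P.KB * R * Real.sqrt P.T + 12 * P.KB * R * P.μ ≤ 1 / 2

lemma SI_Fo (hP : P.OK) {R : ℝ} (hS : Sm P R) {U : Fam} (hU : Good P U) {u : ℝ} (hu : 0 ≤ u) (huR : u ≤ R)
    (h : EN P U ≤ ENNReal.ofReal u) : SI P (Fo P U) ≤ ENNReal.ofReal (u / 4) := by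
  have hμ := μ_nonneg hP
  have hs := (sT_pos hP).le
  have hKL := KL_pos hP
  have hKB := KB_pos hP
  have hR := hS.R0
  unfold Fo
  refine (SI_add_le hP (Lin_St hP hU).cf).trans ((add_le_add (SI_Lin hP hU hu h)
    (SI_pair hP hU hU hU hU hu hu hu hu h h h h)).trans ?_)
  rw [← ENNReal.ofReal_add (by positivity) (by positivity)]
  apply ENNReal.ofReal_le_ofReal
  have h1 := mul_le_mul_of_nonneg_right hS.sm hu
  have h2 : P.KB * (Real.sqrt P.T * u * u + P.μ * (u * u + u * u + u * u))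
      ≤ P.KB * (Real.sqrt P.T * u * R + P.μ * (u * R + u * R + u * R)) := by gcongr
  have h3 : 0 ≤ P.KB * R * Real.sqrt P.T * u := by positivity
  have h4 : 0 ≤ P.KB * R * P.μ * u := by positivity
  nlinarith

lemma SI_Fo_sub (hP : P.OK) {R : ℝ} (hS : Sm P R) {U U' : Fam} (hU : Good P U) (hU' : Good P U')
    (h : EN P U ≤ ENNReal.ofReal R) (h' : EN P U' ≤ ENNReal.ofReal R) {z : ℝ} (hz : 0 ≤ z)
    (hd : EN P (U - U') ≤ ENNReal.ofReal z) : SI P (Fo P U - Fo P U') ≤ ENNReal.ofReal (z / 4) := by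
  have hμ := μ_nonneg hP
  have hs := (sT_pos hP).le
  have hKL := KL_pos hP
  have hKB := KB_pos hP
  have hR := hS.R0
  have hD := hU.sub hP hU'
  rw [Fo_sub hP hU hU']
  have c1 := wz_St hP hD hD
  have c2 := wz_St hP hU hU
  have d1 := wz_dom hP hD hD
  have d2 := wz_dom hP hU hU
  refine (SI_add_le hP (Lin_St hP hD).cf).trans ((add_le_add (SI_Lin hP hD hz hd)
    ((SI_add_le hP (BB_cont c1.cf c2.cf d1 d2)).trans (add_le_add
      (SI_pair hP hD hD hU hU hz hz hR.le hR.le hd hd h h)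
      (SI_pair hP hU' hU' hD hD hR.le hR.le hz hz h' h' hd hd)))).trans ?_)
  rw [← ENNReal.ofReal_add (by positivity) (by positivity), ← ENNReal.ofReal_add (by positivity) (by positivity)]
  apply ENNReal.ofReal_le_ofReal
  have h1 := mul_le_mul_of_nonneg_right hS.sm hz
  nlinarith

/-- the map -/
noncomputable def Phi (P : Pm) (V : K → C3) (U : Fam) : Fam := He P V + DT P (Fo P U)

section phi

variable (hP : P.OK) {V : K → C3} (hd : ∀ k, dt k (V k) = 0) (hz : V 0 = 0) (hs : Sym V)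
include hP hd hz hs

lemma Phi_St {U : Fam} (hU : Good P U) : St (Phi P V U) := (St.He hP hd hz hs).add (Fo_St hP hU).DT

omit hd hz hs in
lemma Phi_cl (U : Fam) (k : K) (t : ℝ) : Phi P V U k t = Phi P V U k (cl P.T t) := by
  show He P V k t + DT P (Fo P U) k t = He P V k _ + DT P (Fo P U) k _
  unfold He DT
  rw [cl_cl hP]

omit hd hz hs in
lemma EN_Phi_le {R : ℝ} (hS : Sm P R) {U : Fam} (hU : Good P U) {u : ℝ} (hu : 0 ≤ u) (huR : u ≤ R)
    (h : EN P U ≤ ENNReal.ofReal u) (hV : EN P (He P V) ≤ ENNReal.ofReal (R / 2)) :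
    EN P (Phi P V U) ≤ ENNReal.ofReal (R / 2 + u / 2) := by
  have hR := hS.R0
  refine (EN_add_le hP (He_cf V)).trans ((add_le_add hV ((EN_DT_le hP (Fo_St hP hU).cf).trans
    (mul_le_mul' le_rfl (SI_Fo hP hS hU hu huR h)))).trans (le_of_eq ?_))
  rw [show (2 : ℝ≥0∞) = ENNReal.ofReal 2 by simp, ← ENNReal.ofReal_mul (by norm_num),
    ← ENNReal.ofReal_add (by positivity) (by positivity)]
  congr 1; ring

lemma Phi_good {R : ℝ} (hS : Sm P R) {U : Fam} (hU : Good P U) {u : ℝ} (hu : 0 ≤ u) (huR : u ≤ R)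
    (h : EN P U ≤ ENNReal.ofReal u) (hV : EN P (He P V) ≤ ENNReal.ofReal (R / 2)) :
    Good P (Phi P V U) :=
  ⟨Phi_St hP hd hz hs hU, Phi_cl hP U, ne_top_of_le_ne_top ENNReal.ofReal_ne_top
    (EN_Phi_le hP hS hU hu huR h hV)⟩

omit hd hz hs in
lemma EN_Phi_sub {R : ℝ} (hS : Sm P R) {U U' : Fam} (hU : Good P U) (hU' : Good P U')
    (h : EN P U ≤ ENNReal.ofReal R) (h' : EN P U' ≤ ENNReal.ofReal R) {z : ℝ} (hz : 0 ≤ z)
    (hd : EN P (U - U') ≤ ENNReal.ofReal z) : EN P (Phi P V U - Phi P V U') ≤ ENNReal.ofReal (z / 2) := by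
  have e : Phi P V U - Phi P V U' = DT P (Fo P U - Fo P U') := by
    unfold Phi DT
    rw [Duh_sub (Fo_St hP hU).cf (Fo_St hP hU').cf]
    funext k t
    simp only [Pi.sub_apply, Pi.add_apply]
    abel
  rw [e]
  refine (EN_DT_le hP ((Fo_St hP hU).sub (Fo_St hP hU')).cf).trans ((mul_le_mul' le_rfl
    (SI_Fo_sub hP hS hU hU' h h' hz hd)).trans (le_of_eq ?_))
  rw [show (2 : ℝ≥0∞) = ENNReal.ofReal 2 by simp, ← ENNReal.ofReal_mul (by norm_num)]
  congr 1; ring

end phi

lemma ph_tsum_le (X : ℕ → Fam) (k : K) (t : ℝ) :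
    ph P (fun k t => ∑' m, X m k t) k t ≤ ∑' m, ph P (X m) k t := by
  unfold ph
  rw [ENNReal.tsum_mul_left]
  apply mul_le_mul' le_rfl
  by_cases h : Summable fun m => ‖X m k t‖
  · rw [← ofReal_norm]
    refine (ENNReal.ofReal_le_ofReal (norm_tsum_le_tsum_norm h)).trans ?_
    rw [ENNReal.ofReal_tsum_of_nonneg (fun _ => norm_nonneg _) h]
    simp
  · by_cases h2 : ∑' m, ‖X m k t‖ₑ = ⊤
    · rw [h2]; exact le_top
    · exfalso
      apply h
      have := ENNReal.summable_toReal h2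
      simpa using this

lemma EN_tsum_le (hP : P.OK) (X : ℕ → Fam) (hX : ∀ m, CF (X m)) :
    EN P (fun k t => ∑' m, X m k t) ≤ ∑' m, EN P (X m) := by
  have h : ∀ k, en P (fun k t => ∑' m, X m k t) k ≤ ∑' m, en P (X m) k := by
    intro k
    have hr : Measurable fun t => ENNReal.ofReal (P.ra k t) := (Ra_ker hP k).hc.measurable.ennreal_ofReal
    unfold en
    rw [ENNReal.tsum_add]
    refine add_le_add ?_ ?_
    · refine iSup₂_le fun t ht => (ph_tsum_le X k t).trans (ENNReal.tsum_le_tsum fun m => ?_)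
      exact le_iSup₂ (f := fun t (_ : t ∈ Icc 0 P.T) => ph P (X m) k t) t ht
    · calc ∫⁻ t in Ioc 0 P.T, ENNReal.ofReal (P.ra k t) * ph P (fun k t => ∑' m, X m k t) k t
          ≤ ∫⁻ t in Ioc 0 P.T, ∑' m, ENNReal.ofReal (P.ra k t) * ph P (X m) k t := by
            refine lintegral_mono fun t => ?_
            dsimp only
            rw [ENNReal.tsum_mul_left]
            exact mul_le_mul' le_rfl (ph_tsum_le X k t)
        _ = _ := lintegral_tsum fun m => (hr.mul (ph_meas hP (hX m) k)).aemeasurable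
  calc EN P (fun k t => ∑' m, X m k t) ≤ ∑' k, ∑' m, en P (X m) k := ENNReal.tsum_le_tsum h
    _ = _ := ENNReal.tsum_comm

/-- the iteration -/
noncomputable def Ite (P : Pm) (V : K → C3) : ℕ → Fam
  | 0 => 0
  | n + 1 => Phi P V (Ite P V n)

lemma norm_le_of_EN (hP : P.OK) {U : Fam} (hcl : ∀ k t, U k t = U k (cl P.T t)) {x : ℝ} (hx : 0 ≤ x)
    (h : EN P U ≤ ENNReal.ofReal x) (k : K) (t : ℝ) : ‖U k t‖ ≤ x := by
  have h1 : ‖U k t‖ₑ ≤ ENNReal.ofReal x := by
    rw [hcl]
    exact (enorm_le_ph hP U k _).trans ((ph_le_en (cl_mem hP.hT.le t)).trans ((ENNReal.le_tsum k).trans h))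
  rw [← ofReal_norm] at h1
  exact (ENNReal.ofReal_le_ofReal_iff hx).1 h1

theorem fixpoint (hP : P.OK) {V : K → C3} (hd : ∀ k, dt k (V k) = 0) (hz : V 0 = 0) (hs : Sym V)
    {R : ℝ} (hS : Sm P R) (hV : EN P (He P V) ≤ ENNReal.ofReal (R / 2)) :
    ∃ U : Fam, Good P U ∧ EN P U ≤ ENNReal.ofReal R ∧ U = Phi P V U := by
  have hR := hS.R0
  set I := Ite P V
  have hI0 : I 0 = 0 := rfl
  have hIs : ∀ n, I (n + 1) = Phi P V (I n) := fun n => rfl
  have hp0 : ∀ n : ℕ, (0 : ℝ) < (1 / 2) ^ n := fun n => by positivity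
  have hp1 : ∀ n : ℕ, ((1 : ℝ) / 2) ^ n ≤ 1 := fun n => pow_le_one₀ (by norm_num) (by norm_num)
  have hinv : ∀ n, Good P (I n) ∧ EN P (I n) ≤ ENNReal.ofReal (R * (1 - (1 / 2) ^ n)) ∧
      EN P (I (n + 1) - I n) ≤ ENNReal.ofReal (R / 2 * (1 / 2) ^ n) := by
    intro n
    induction n with
    | zero =>
      refine ⟨Good.zero P, ?_, ?_⟩
      · rw [hI0, EN_zero]; exact zero_le
      · rw [hIs, hI0, sub_zero]
        have := EN_Phi_le hP hS (Good.zero P) le_rfl hR.le (by rw [EN_zero]; exact zero_le) hV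
        simpa using this
    | succ n ih =>
      obtain ⟨g, e, d⟩ := ih
      have eR : EN P (I n) ≤ ENNReal.ofReal R := e.trans (ENNReal.ofReal_le_ofReal (by
        have := hp0 n; nlinarith))
      have g1 : Good P (I (n + 1)) := by
        rw [hIs]; exact Phi_good hP hd hz hs hS g hR.le le_rfl eR hV
      have e1 : EN P (I (n + 1)) ≤ ENNReal.ofReal (R * (1 - (1 / 2) ^ (n + 1))) := by
        have h1 : I (n + 1) = I n + (I (n + 1) - I n) := by abel
        rw [h1]
        refine (EN_add_le hP g.st.cf).trans ((add_le_add e d).trans ?_)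
        have := hp0 n; have := hp1 n
        rw [← ENNReal.ofReal_add (by nlinarith) (by positivity)]
        apply ENNReal.ofReal_le_ofReal
        rw [pow_succ]; apply le_of_eq; ring
      have e1R : EN P (I (n + 1)) ≤ ENNReal.ofReal R := e1.trans (ENNReal.ofReal_le_ofReal (by
        have := hp0 (n + 1); nlinarith))
      refine ⟨g1, e1, ?_⟩
      have h2 : I (n + 1 + 1) - I (n + 1) = Phi P V (I (n + 1)) - Phi P V (I n) := by
        rw [hIs (n + 1), hIs n]
      rw [h2]
      refine (EN_Phi_sub hP hS g1 g e1R eR (by positivity) d).trans (ENNReal.ofReal_le_ofReal ?_)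
      rw [pow_succ]; apply le_of_eq; ring
  set X : ℕ → Fam := fun m => I (m + 1) - I m with hX
  have hXg : ∀ m, Good P (X m) := fun m => (hinv (m + 1)).1.sub hP (hinv m).1
  have hXe : ∀ m, EN P (X m) ≤ ENNReal.ofReal (R / 2 * (1 / 2) ^ m) := fun m => (hinv m).2.2
  have hXn : ∀ m k t, ‖X m k t‖ ≤ R / 2 * (1 / 2) ^ m := fun m k t =>
    norm_le_of_EN hP (hXg m).cl (by positivity) (hXe m) k t
  have hgeo : Summable fun m : ℕ => R / 2 * (1 / 2 : ℝ) ^ m :=
    (summable_geometric_of_lt_one (by norm_num) (by norm_num)).mul_left _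
  have hXs : ∀ k t, Summable fun m => X m k t := fun k t =>
    Summable.of_norm_bounded hgeo fun m => hXn m k t
  set r : Fam := fun k t => ∑' m, X m k t with hr
  have htel : ∀ n k t, ∑ m ∈ Finset.range n, X m k t = I n k t := by
    intro n k t
    have := Finset.sum_range_sub (fun j => I j k t) n
    rw [hI0] at this
    simpa [hX] using this
  have htend : ∀ k t, Tendsto (fun n => I n k t) atTop (𝓝 (r k t)) := by
    intro k t
    have h1 := (hXs k t).hasSum.tendsto_sum_nat
    simpa only [htel] using h1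
  have htail : ∀ n, EN P (r - I n) ≤ ENNReal.ofReal (R * (1 / 2) ^ n) := by
    intro n
    have e : r - I n = fun k t => ∑' m, X (m + n) k t := by
      funext k t
      have := (hXs k t).sum_add_tsum_nat_add n
      rw [htel] at this
      simp only [Pi.sub_apply, hr]
      rw [← this]; abel
    rw [e]
    refine (EN_tsum_le hP (fun m => X (m + n)) fun m => (hXg _).st.cf).trans ?_
    refine (ENNReal.tsum_le_tsum fun m => hXe (m + n)).trans (le_of_eq ?_)
    have hs2 : Summable fun m : ℕ => R / 2 * (1 / 2 : ℝ) ^ (m + n) := (summable_nat_add_iff n).2 hgeo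
    rw [← ENNReal.ofReal_tsum_of_nonneg (fun m => by positivity) hs2]
    congr 1
    simp only [pow_add]
    rw [tsum_mul_left, tsum_mul_right, tsum_geometric_of_lt_one (by norm_num) (by norm_num)]
    ring
  have hrE : EN P r ≤ ENNReal.ofReal R := by
    have := htail 0
    rw [hI0, sub_zero, pow_zero, mul_one] at this
    exact this
  have hrG : Good P r := by
    refine ⟨⟨fun k => ?_, fun k t => ?_, fun t => ?_, fun t k i => ?_⟩, fun k t => ?_,
      ne_top_of_le_ne_top ENNReal.ofReal_ne_top hrE⟩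
    · exact continuous_tsum (fun m => (hXg m).st.cf k) hgeo fun m t => hXn m k t
    · have h1 : Tendsto (fun n => dt k (I n k t)) atTop (𝓝 (dt k (r k t))) := by
        have hc : Continuous fun v : C3 => dt k v := by unfold dt; fun_prop
        exact (hc.tendsto _).comp (htend k t)
      have h2 : (fun n => dt k (I n k t)) = fun _ => 0 := by
        funext n; exact (hinv n).1.st.dv k t
      rw [h2] at h1
      exact (tendsto_nhds_unique h1 tendsto_const_nhds)
    · have h1 := htend 0 t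
      have h2 : (fun n => I n 0 t) = fun _ => 0 := by
        funext n; exact (hinv n).1.st.z t
      rw [h2] at h1
      exact tendsto_nhds_unique h1 tendsto_const_nhds
    · have h1 : Tendsto (fun n => I n (-k) t i) atTop (𝓝 (r (-k) t i)) :=
        ((continuous_apply i).tendsto _).comp (htend (-k) t)
      have h2 : Tendsto (fun n => star (I n k t i)) atTop (𝓝 (star (r k t i))) :=
        ((continuous_star.comp (continuous_apply i)).tendsto _).comp (htend k t)
      have h3 : (fun n => I n (-k) t i) = fun n => star (I n k t i) := by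
        funext n
        exact (hinv n).1.st.sym t k i
      rw [h3] at h1
      exact tendsto_nhds_unique h1 h2
    · simp only [hr]
      exact tsum_congr fun m => (hXg m).cl k t
  refine ⟨r, hrG, hrE, ?_⟩
  -- the fixed point equation
  have hsmall : ∀ n : ℕ, EN P (r - Phi P V r) ≤ ENNReal.ofReal (R * (1 / 2) ^ n) := by
    intro n
    have e : r - Phi P V r = (r - I (n + 1)) + (Phi P V (I n) - Phi P V r) := by
      rw [← hIs]; abel
    have eR : EN P (I n) ≤ ENNReal.ofReal R := (hinv n).2.1.trans (ENNReal.ofReal_le_ofReal (by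
        have := hp0 n; nlinarith))
    have h1 : EN P (I n - r) ≤ ENNReal.ofReal (R * (1 / 2) ^ n) := by
      have h2 : I n - r = -(r - I n) := by abel
      rw [h2, EN_neg]; exact htail n
    rw [e]
    refine (EN_add_le hP ((hrG.sub hP (hinv (n + 1)).1).st.cf)).trans ((add_le_add (htail (n + 1))
      (EN_Phi_sub hP hS (hinv n).1 hrG eR hrE (by positivity) h1)).trans ?_)
    rw [← ENNReal.ofReal_add (by positivity) (by positivity)]
    apply ENNReal.ofReal_le_ofReal
    rw [pow_succ]; apply le_of_eq; ring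
  have hzero : EN P (r - Phi P V r) = 0 := by
    have h1 : Tendsto (fun n : ℕ => ENNReal.ofReal (R * (1 / 2) ^ n)) atTop (𝓝 0) := by
      have h2 : Tendsto (fun n : ℕ => R * (1 / 2 : ℝ) ^ n) atTop (𝓝 (R * 0)) :=
        (tendsto_pow_atTop_nhds_zero_of_lt_one (by norm_num) (by norm_num)).const_mul R
      rw [mul_zero] at h2
      have := (ENNReal.continuous_ofReal.tendsto 0).comp h2
      rw [ENNReal.ofReal_zero] at this
      exact this
    exact le_antisymm (ge_of_tendsto' h1 hsmall) zero_le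
  funext k t
  have h1 : (r - Phi P V r) k (cl P.T t) = 0 := by
    have h2 : ph P (r - Phi P V r) k (cl P.T t) ≤ 0 := by
      rw [← hzero]
      exact (ph_le_en (cl_mem hP.hT.le t)).trans (ENNReal.le_tsum k)
    have h3 := (enorm_le_ph hP (r - Phi P V r) k (cl P.T t)).trans h2
    simpa using h3
  rw [hrG.cl, Phi_cl hP]
  exact sub_eq_zero.1 h1

end Pool.Agent.H356R3.NS.SW
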