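import Pool.Agent.Helper19.SW.Good

/-!
# The forcing and its estimates
-/

open MeasureTheory Set Filter Topology
open scoped ENNReal NNReal

namespace Pool.Agent.H356R3.NS.SW

variable {P : Pm}

noncomputable def wz (P : Pm) (Z U : Fam) : Fam := Z + TAf P (Yo P U)

noncomputable def Lin (P : Pm) (U : Fam) : Fam :=
  (BB (Ac P) U + BB (Ac P) U) + (BB (Ac P) (TAf P (Yo P U)) + BB (TAf P (Yo P U)) (Ac P)) - Rf P (Yo P U)

noncomputable def Fo (P : Pm) (U : Fam) : Fam := Lin P U + BB (wz P U U) (wz P U U)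

lemma en_add_le (hP : P.OK) {U V : Fam} (hU : CF U) (k : K) : en P (U + V) k ≤ en P U k + en P V k := by
  have hr : Measurable fun t => ENNReal.ofReal (P.ra k t) := (Ra_ker hP k).hc.measurable.ennreal_ofReal
  unfold en
  calc (⨆ t ∈ Icc 0 P.T, ph P (U + V) k t) + ∫⁻ t in Ioc 0 P.T, ENNReal.ofReal (P.ra k t) * ph P (U + V) k t
      ≤ ((⨆ t ∈ Icc 0 P.T, ph P U k t) + ⨆ t ∈ Icc 0 P.T, ph P V k t)
        + ((∫⁻ t in Ioc 0 P.T, ENNReal.ofReal (P.ra k t) * ph P U k t)
          + ∫⁻ t in Ioc 0 P.T, ENNReal.ofReal (P.ra k t) * ph P V k t) := by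
        refine add_le_add ?_ ?_
        · refine iSup₂_le fun t ht => (ph_add_le U V k t).trans (add_le_add ?_ ?_)
          · exact le_iSup₂ (f := fun t (_ : t ∈ Icc 0 P.T) => ph P U k t) t ht
          · exact le_iSup₂ (f := fun t (_ : t ∈ Icc 0 P.T) => ph P V k t) t ht
        · have mm : Measurable fun t => ENNReal.ofReal (P.ra k t) * ph P U k t := hr.mul (ph_meas hP hU k)
          rw [← lintegral_add_left mm]
          refine lintegral_mono fun t => ?_
          dsimp only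
          rw [← mul_add]
          exact mul_le_mul' le_rfl (ph_add_le U V k t)
    _ = _ := by ring

lemma EN_add_le (hP : P.OK) {U V : Fam} (hU : CF U) : EN P (U + V) ≤ EN P U + EN P V := by
  unfold EN
  rw [← ENNReal.tsum_add]
  exact ENNReal.tsum_le_tsum fun k => en_add_le hP hU k

lemma ph_neg (U : Fam) (k : K) (t : ℝ) : ph P (-U) k t = ph P U k t := by
  unfold ph; simp

lemma EN_neg (U : Fam) : EN P (-U) = EN P U := by
  unfold EN en; simp only [ph_neg]

lemma EN_sub_le (hP : P.OK) {U V : Fam} (hU : CF U) : EN P (U - V) ≤ EN P U + EN P V := by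
  rw [sub_eq_add_neg, ← EN_neg V]
  exact EN_add_le hP hU

lemma EN_zero : EN P 0 = 0 := by
  unfold EN en ph; simp

lemma Good.add (hP : P.OK) {U V : Fam} (hU : Good P U) (hV : Good P V) : Good P (U + V) :=
  ⟨hU.st.add hV.st, fun k t => by
    show U k t + V k t = U k _ + V k _
    rw [hU.cl, hV.cl],
    ne_top_of_le_ne_top (ENNReal.add_ne_top.2 ⟨hU.fin, hV.fin⟩) (EN_add_le hP hU.st.cf)⟩

lemma Good.sub (hP : P.OK) {U V : Fam} (hU : Good P U) (hV : Good P V) : Good P (U - V) :=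
  ⟨hU.st.sub hV.st, fun k t => by
    show U k t - V k t = U k _ - V k _
    rw [hU.cl, hV.cl],
    ne_top_of_le_ne_top (ENNReal.add_ne_top.2 ⟨hU.fin, hV.fin⟩) (EN_sub_le hP hU.st.cf)⟩

lemma Good.zero (P : Pm) : Good P 0 := ⟨St.zero, fun _ _ => rfl, by rw [EN_zero]; exact ENNReal.zero_ne_top⟩

section struct

variable (hP : P.OK) {U Z : Fam} (hU : Good P U)
include hP hU

lemma TU_St : St (TAf P (Yo P U)) := TAf_St hP (hU.st.Yo hP) (Yo_dom hP hU)

lemma RU_St : St (Rf P (Yo P U)) := Rf_St hP (hU.st.Yo hP) (Yo_dom hP hU)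

lemma wz_St (hZ : Good P Z) : St (wz P Z U) := hZ.st.add (TU_St hP hU)

lemma wz_dom (hZ : Good P Z) : Dom (wz P Z U) := (hZ.dom hP).add (TAf_dom hP hU)

lemma Lin_St : St (Lin P U) := by
  have hA := Ac_St hP
  have hT := TU_St hP hU
  have dA := Ac_dom hP
  have dT := TAf_dom hP hU
  have dU := hU.dom hP
  have h1 := St.bb hA.cf hU.st.cf dA dU hA.sym hU.st.sym
  have h2 := St.bb hA.cf hT.cf dA dT hA.sym hT.sym
  have h3 := St.bb hT.cf hA.cf dT dA hT.sym hA.sym
  exact ((h1.add h1).add (h2.add h3)).sub (RU_St hP hU)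

lemma Fo_St : St (Fo P U) := by
  have hw := wz_St hP hU hU
  have dw := wz_dom hP hU hU
  exact (Lin_St hP hU).add (St.bb hw.cf hw.cf dw dw hw.sym hw.sym)

end struct

/-- constants -/
noncomputable def Pm.KL (P : Pm) : ℝ := 48 * Real.pi * (3 + P.c * P.CC) + 192 * Real.pi ^ 2
noncomputable def Pm.KB (P : Pm) : ℝ := 48000 * Real.pi ^ 3 * P.CC ^ 2

lemma KL_pos (hP : P.OK) : 0 < P.KL := by
  have := hP.hc; have := one_le_CC hP; have := Real.pi_pos
  unfold Pm.KL; positivity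

lemma KB_pos (hP : P.OK) : 0 < P.KB := by
  have := one_le_CC hP; have := Real.pi_pos
  unfold Pm.KB; positivity

lemma SI_Lin (hP : P.OK) {U : Fam} (hU : Good P U) {u : ℝ} (hu : 0 ≤ u) (h : EN P U ≤ ENNReal.ofReal u) :
    SI P (Lin P U) ≤ ENNReal.ofReal (P.KL * P.μ * u) := by
  have hpi := Real.pi_pos
  have hc := hP.hc
  have hμ := μ_nonneg hP
  have hC := one_le_CC hP
  have hA := Ac_St hP
  have hT := TU_St hP hU
  have dA := Ac_dom hP
  have dT := TAf_dom hP hU
  have dU := hU.dom hP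
  have dY := Yo_dom hP hU
  have hY := hU.st.Yo hP
  have h1 := St.bb hA.cf hU.st.cf dA dU hA.sym hU.st.sym
  have h2 := St.bb hA.cf hT.cf dA dT hA.sym hT.sym
  have h3 := St.bb hT.cf hA.cf dT dA hT.sym hA.sym
  have e1 : SI P (BB (Ac P) U + BB (Ac P) U) ≤ ENNReal.ofReal (48 * Real.pi * (P.μ * u)) := by
    unfold SI
    refine (setLIntegral_mono' measurableSet_Ioc fun t ht => L1_le hP (Ioc_subset_Icc_self ht) (dU.sn t)).trans ?_
    rw [lintegral_const_mul' _ _ ENNReal.ofReal_ne_top]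
    have h4 : ∫⁻ t in Ioc 0 P.T, ENNReal.ofReal (P.g t) * sc P (pp P.η) U t ≤ ENNReal.ofReal P.μ * EN P U :=
      int_sc hP hU.st.cf (g_cont P).measurable (g_nonneg P) fun k => (i6 hP k).trans
        (mul_le_mul' (ENNReal.ofReal_le_ofReal (inv_κ_le hP)) le_rfl)
    refine (mul_le_mul' le_rfl (h4.trans (mul_le_mul' le_rfl h))).trans (le_of_eq ?_)
    rw [← ENNReal.ofReal_mul hμ, ← ENNReal.ofReal_mul (by positivity)]
  have e2 : SI P (BB (Ac P) (TAf P (Yo P U)) + BB (TAf P (Yo P U)) (Ac P))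
      ≤ ENNReal.ofReal (192 * Real.pi ^ 2 * (P.μ * u)) := by
    unfold SI
    refine (setLIntegral_mono' measurableSet_Ioc fun t ht => L2_le hP (Ioc_subset_Icc_self ht) (dY.sn t)
      (dT.sn t) hY.dv).trans ?_
    rw [lintegral_const_mul' _ _ ENNReal.ofReal_ne_top]
    refine (mul_le_mul' le_rfl ((int_gh0pp2 hP hU.st.cf).trans (mul_le_mul' le_rfl h))).trans (le_of_eq ?_)
    rw [← ENNReal.ofReal_mul hμ, ← ENNReal.ofReal_mul (by positivity)]
  have e3 : SI P (Rf P (Yo P U)) ≤ ENNReal.ofReal (48 * Real.pi * (P.μ * u + P.c * (P.CC * P.μ) * u + P.μ * u)) := by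
    have hYc := hY.cf
    have n0 := (h0_cont P).measurable.ennreal_ofReal
    have n1 : Measurable fun t => ENNReal.ofReal (P.c * P.h1 t) :=
      ((h1_cont P).measurable.const_mul _).ennreal_ofReal
    have mm1 : Measurable fun t => ENNReal.ofReal (P.h0 t) * sc P (fun k => pp P.η k * (P.c * sq k)) (Yo P U) t :=
      n0.mul (sc_meas hP hYc _)
    have mm2 : Measurable fun t => ENNReal.ofReal (P.c * P.h1 t) * sc P (fun k => pp P.η k * nk k) (Yo P U) t :=
      n1.mul (sc_meas hP hYc _)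
    have mm3 : Measurable fun t => ENNReal.ofReal (P.h0 t) * sc P (fun k => pp P.η k * (P.c * sq k)) (Yo P U) t
        + ENNReal.ofReal (P.c * P.h1 t) * sc P (fun k => pp P.η k * nk k) (Yo P U) t := mm1.add mm2
    unfold SI
    refine (setLIntegral_mono' measurableSet_Ioc fun t ht => Rs0 hP hY.dv (Ioc_subset_Icc_self ht)).trans ?_
    rw [lintegral_const_mul' _ _ ENNReal.ofReal_ne_top, lintegral_add_left mm3, lintegral_add_left mm1]
    refine (mul_le_mul' le_rfl (add_le_add (add_le_add ((int_c0 hP hU.st.cf).trans (mul_le_mul' le_rfl h))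
      ((int_c1 hP hU.st.cf).trans (mul_le_mul' le_rfl h)))
      ((int_c2 hP hU.st.cf).trans (mul_le_mul' le_rfl h)))).trans (le_of_eq ?_)
    rw [← ENNReal.ofReal_mul hμ, ← ENNReal.ofReal_mul (by positivity),
      ← ENNReal.ofReal_add (by positivity) (by positivity), ← ENNReal.ofReal_add (by positivity) (by positivity),
      ← ENNReal.ofReal_mul (by positivity)]
  unfold Lin
  refine (SI_sub_le hP (h1.add h1 |>.add (h2.add h3)).cf).trans ?_
  refine (add_le_add ((SI_add_le hP (h1.add h1).cf).trans (add_le_add e1 e2)) e3).trans (le_of_eq ?_)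
  rw [← ENNReal.ofReal_add (by positivity) (by positivity), ← ENNReal.ofReal_add (by positivity) (by positivity)]
  congr 1
  unfold Pm.KL; ring

lemma μ_le_two (hP : P.OK) : P.μ ≤ 2 := by
  have h1 := hP.hX
  have hκ := κ_pos hP
  have h2 : 1 / P.κ ≤ 1 := by rw [div_le_one hκ]; exact hP.hκ
  unfold Pm.μ; linarith

lemma Bd_wz (hP : P.OK) {Z U : Fam} (hZ : Good P Z) (hU : Good P U) {z u : ℝ} (hz : 0 ≤ z) (hu : 0 ≤ u)
    (h : EN P Z ≤ ENNReal.ofReal z) (h' : EN P U ≤ ENNReal.ofReal u) :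
    Bd P (wz P Z U) (2 * z + 16 * Real.pi * P.μ * u) (0 + 8 * Real.pi / Real.sqrt P.c * u)
      (3 * (P.CC * Real.sqrt P.T) * z + 48 * Real.pi * (P.CC * P.μ) * u)
      (P.μ * z + 16 * Real.pi * (P.CC * P.μ) * u) := by
  have hpi := Real.pi_pos
  have hμ := μ_nonneg hP
  have hC := one_le_CC hP
  have hsc := Real.sqrt_pos.2 hP.hc
  have hs := (sT_pos hP).le
  exact (Bd_self hP hZ.st.cf hz h).add hP (Bd_TA hP hU.st.cf (hU.st.Yo hP).dv hu h') hZ.st.cf
    (by positivity) le_rfl (by positivity) (by positivity) (by positivity) (by positivity) (by positivity)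
    (by positivity)

lemma real_ineq {p C s m q z u z' u' : ℝ} (hp : 1 ≤ p) (hC : 1 ≤ C) (hs0 : 0 ≤ s) (hs : s ≤ 1) (hm0 : 0 ≤ m)
    (hm : m ≤ 2) (hq0 : 0 ≤ q) (hq : 2 * q ≤ C) (hz : 0 ≤ z) (hu : 0 ≤ u) (hz' : 0 ≤ z') (hu' : 0 ≤ u') :
    2 * (2 * z + 16 * p * m * u) * (3 * (C * s) * z' + 48 * p * (C * m) * u')
      + (8 * p * q * u) * (m * z' + 16 * p * (C * m) * u')
    ≤ 4000 * p ^ 2 * C ^ 2 * (s * z * z' + m * (z * u' + u * z' + u * u')) := by
  have hX : C ≤ p ^ 2 * C ^ 2 := by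
    calc C = 1 * 1 * (C * 1) := by ring
      _ ≤ p * p * (C * C) := by gcongr
      _ = _ := by ring
  have hX2 : p * C ≤ p ^ 2 * C ^ 2 := by
    calc p * C = p * 1 * (C * 1) := by ring
      _ ≤ p * p * (C * C) := by gcongr
      _ = _ := by ring
  have hX3 : p ^ 2 * C ≤ p ^ 2 * C ^ 2 := by
    calc p ^ 2 * C = p ^ 2 * (C * 1) := by ring
      _ ≤ p ^ 2 * (C * C) := by gcongr
      _ = _ := by ring
  have hX4 : p ^ 2 * (q * C) ≤ p ^ 2 * C ^ 2 := by
    calc p ^ 2 * (q * C) ≤ p ^ 2 * (C * C) := by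
          have : q ≤ C := by linarith
          gcongr
      _ = _ := by ring
  have hX5 : p * q ≤ p ^ 2 * C ^ 2 := by
    have : q ≤ C := by linarith
    calc p * q = p * 1 * (q * 1) := by ring
      _ ≤ p * p * (C * C) := by gcongr
      _ = _ := by ring
  set X := p ^ 2 * C ^ 2
  have t1 : 12 * C * (s * z * z') ≤ 4000 * X * (s * z * z') := by
    have : 0 ≤ s * z * z' := by positivity
    nlinarith
  have t2 : 192 * (p * C) * (m * (z * u')) ≤ 4000 * X * (m * (z * u')) := by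
    have : 0 ≤ m * (z * u') := by positivity
    nlinarith
  have t3 : 96 * (p * C) * (m * s * (u * z')) + 8 * (p * q) * (m * (u * z')) ≤ 4000 * X * (m * (u * z')) := by
    have h1 : 0 ≤ m * (u * z') := by positivity
    have h2 : m * s * (u * z') ≤ m * (u * z') := by
      calc m * s * (u * z') ≤ m * 1 * (u * z') := by gcongr
        _ = _ := by ring
    have h3 : 96 * (p * C) * (m * s * (u * z')) ≤ 96 * X * (m * (u * z')) := by
      have : 0 ≤ m * s * (u * z') := by positivity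
      have h0 : 0 ≤ p * C := by positivity
      calc 96 * (p * C) * (m * s * (u * z')) ≤ 96 * (p * C) * (m * (u * z')) := by gcongr
        _ ≤ _ := by gcongr
    have h4 : 8 * (p * q) * (m * (u * z')) ≤ 8 * X * (m * (u * z')) := by gcongr
    have h5 : 0 ≤ X * (m * (u * z')) := by positivity
    nlinarith
  have t4 : 1536 * (p ^ 2 * C) * (m * m * (u * u')) + 128 * (p ^ 2 * (q * C)) * (m * (u * u'))
      ≤ 4000 * X * (m * (u * u')) := by
    have h1 : 0 ≤ m * (u * u') := by positivity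
    have h2 : m * m * (u * u') ≤ 2 * (m * (u * u')) := by
      calc m * m * (u * u') ≤ m * 2 * (u * u') := by gcongr
        _ = _ := by ring
    have h3 : 1536 * (p ^ 2 * C) * (m * m * (u * u')) ≤ 1536 * X * (2 * (m * (u * u'))) := by
      gcongr
    have h4 : 128 * (p ^ 2 * (q * C)) * (m * (u * u')) ≤ 128 * X * (m * (u * u')) := by gcongr
    have h5 : 0 ≤ X * (m * (u * u')) := by positivity
    nlinarith
  calc _ = 12 * C * (s * z * z') + 192 * (p * C) * (m * (z * u'))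
        + (96 * (p * C) * (m * s * (u * z')) + 8 * (p * q) * (m * (u * z')))
        + (1536 * (p ^ 2 * C) * (m * m * (u * u')) + 128 * (p ^ 2 * (q * C)) * (m * (u * u'))) := by ring
    _ ≤ 4000 * X * (s * z * z') + 4000 * X * (m * (z * u')) + 4000 * X * (m * (u * z'))
        + 4000 * X * (m * (u * u')) := by linarith
    _ = _ := by simp only [X]; ring

lemma SI_pair (hP : P.OK) {Z U Z' U' : Fam} (hZ : Good P Z) (hU : Good P U) (hZ' : Good P Z') (hU' : Good P U')
    {z u z' u' : ℝ} (hz : 0 ≤ z) (hu : 0 ≤ u) (hz' : 0 ≤ z') (hu' : 0 ≤ u')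
    (e1 : EN P Z ≤ ENNReal.ofReal z) (e2 : EN P U ≤ ENNReal.ofReal u)
    (e3 : EN P Z' ≤ ENNReal.ofReal z') (e4 : EN P U' ≤ ENNReal.ofReal u') :
    SI P (BB (wz P Z U) (wz P Z' U')) ≤ ENNReal.ofReal
      (P.KB * (Real.sqrt P.T * z * z' + P.μ * (z * u' + u * z' + u * u'))) := by
  have hpi := Real.pi_pos
  have hpi1 : 1 ≤ Real.pi := by linarith [Real.pi_gt_three]
  have hμ := μ_nonneg hP
  have hC := one_le_CC hP
  have hsc := Real.sqrt_pos.2 hP.hc
  have hs := (sT_pos hP).le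
  have hw := wz_St hP hU hZ
  have hw' := wz_St hP hU' hZ'
  refine (SI_BB hP (Bd_wz hP hZ hU hz hu e1 e2) (Bd_wz hP hZ' hU' hz' hu' e3 e4) hw'.cf hw.dv
    (by positivity) (by positivity) (by positivity) (by positivity)).trans ?_
  apply ENNReal.ofReal_le_ofReal
  have hq : 2 * (1 / Real.sqrt P.c) ≤ P.CC := by
    have := (CC_bounds hP).2.1
    rw [mul_one_div]; exact this
  have h := real_ineq hpi1 hC hs (sT_le hP) hμ (μ_le_two hP) (by positivity : 0 ≤ 1 / Real.sqrt P.c) hq hz hu hz' hu'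
  have h2 := mul_le_mul_of_nonneg_left h (by positivity : 0 ≤ 12 * Real.pi)
  calc _ = 12 * Real.pi * (2 * (2 * z + 16 * Real.pi * P.μ * u) *
        (3 * (P.CC * Real.sqrt P.T) * z' + 48 * Real.pi * (P.CC * P.μ) * u')
      + (8 * Real.pi * (1 / Real.sqrt P.c) * u) * (P.μ * z' + 16 * Real.pi * (P.CC * P.μ) * u')) := by ring
    _ ≤ _ := h2
    _ = _ := by unfold Pm.KB; ring

end Pool.Agent.H356R3.NS.SW
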