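import Pool.Agent.H356R3.NS.Dens

/-!
# Geometry of frequencies relative to a direction `η`
-/

open MeasureTheory Set Filter Topology
open scoped ENNReal NNReal

namespace Pool.Agent.H356R3.NS.SW


/-- size of the part of `k` orthogonal to `η` (an equivalent of it) -/
noncomputable def pp (η k : K) : ℝ := l1 (crs k η) / nk η

/-- size of the part of `k` parallel to `η` -/
noncomputable def qq (η k : K) : ℝ := |(ip η k : ℝ)| / nk η

/-- size of the part of `v` parallel to `η` -/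
noncomputable def par (η : K) (v : C3) : ℝ := ‖dt η v‖ / nk η

/-- the cross product `v × η` -/
noncomputable def cvec (v : C3) (η : K) : Fin 3 → ℂ :=
  ![v 1 * η 2 - v 2 * η 1, v 2 * η 0 - v 0 * η 2, v 0 * η 1 - v 1 * η 0]

lemma dt3 (k : K) (v : C3) : dt k v = k 0 * v 0 + k 1 * v 1 + k 2 * v 2 := by
  unfold dt; rw [Fin.sum_univ_three]

lemma sq3 (k : K) : sq k = (k 0 : ℝ) ^ 2 + (k 1 : ℝ) ^ 2 + (k 2 : ℝ) ^ 2 := by
  unfold sq; rw [Fin.sum_univ_three]

lemma l13 (k : K) : l1 k = |(k 0 : ℝ)| + |(k 1 : ℝ)| + |(k 2 : ℝ)| := by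
  unfold l1; rw [Fin.sum_univ_three]

lemma lagr (k η : K) (v : C3) :
    ((sq η : ℝ) : ℂ) * dt k v = (∑ i, cvec v η i * (crs k η i : ℂ)) + dt η v * (ip η k : ℂ) := by
  rw [dt3, dt3, sq3, ip3, Fin.sum_univ_three]
  simp only [cvec, crs, Matrix.cons_val_zero, Matrix.cons_val_one, Matrix.cons_val]
  push_cast
  ring

lemma lagr_int (k η : K) : sq k * sq η = sq (crs k η) + (ip η k : ℝ) ^ 2 := by
  rw [sq3, sq3, sq3, ip3]
  simp only [crs, Matrix.cons_val_zero, Matrix.cons_val_one, Matrix.cons_val]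
  push_cast
  ring

lemma norm_cvec_le (v : C3) (η : K) (i : Fin 3) : ‖cvec v η i‖ ≤ 2 * ‖v‖ * nk η := by
  have h : ∀ a b c d : Fin 3, ‖v a * (η b : ℂ) - v c * (η d : ℂ)‖ ≤ 2 * ‖v‖ * nk η := by
    intro a b c d
    have h1 : ∀ a b : Fin 3, ‖v a * (η b : ℂ)‖ ≤ ‖v‖ * nk η := by
      intro a b
      rw [norm_mul, Complex.norm_intCast]
      exact mul_le_mul (norm_le_pi_norm v a) (abs_le_nk η b) (abs_nonneg _) (norm_nonneg _)
    refine (norm_sub_le _ _).trans ((add_le_add (h1 a b) (h1 c d)).trans ?_)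
    linarith
  fin_cases i
  · exact h 1 2 2 1
  · exact h 2 0 0 2
  · exact h 0 1 1 0

lemma pp_nonneg (η k : K) : 0 ≤ pp η k := div_nonneg (l1_nonneg _) (nk_nonneg _)
lemma qq_nonneg (η k : K) : 0 ≤ qq η k := div_nonneg (abs_nonneg _) (nk_nonneg _)
lemma par_nonneg (η : K) (v : C3) : 0 ≤ par η v := div_nonneg (norm_nonneg _) (nk_nonneg _)

lemma crs_add (k l η : K) : crs (k + l) η = crs k η + crs l η := by
  funext i
  fin_cases i <;>
  simp only [crs, Fin.zero_eta, Fin.mk_one, Fin.reduceFinMk, Matrix.cons_val_zero,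
    Matrix.cons_val_one, Matrix.cons_val, Pi.add_apply] <;> ring

lemma crs_neg (k η : K) : crs (-k) η = -crs k η := by
  funext i
  fin_cases i <;>
  simp only [crs, Fin.zero_eta, Fin.mk_one, Fin.reduceFinMk, Matrix.cons_val_zero,
    Matrix.cons_val_one, Matrix.cons_val, Pi.neg_apply] <;> ring

lemma crs_smul_self (m : ℤ) (η : K) : crs (m • η) η = 0 := by
  funext i
  fin_cases i <;>
  simp only [crs, Fin.zero_eta, Fin.mk_one, Fin.reduceFinMk, Matrix.cons_val_zero,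
    Matrix.cons_val_one, Matrix.cons_val, Pi.smul_apply, smul_eq_mul, Pi.zero_apply] <;> ring

lemma pp_add_le (η k l : K) : pp η (k + l) ≤ pp η k + pp η l := by
  unfold pp
  rw [crs_add, ← add_div]
  exact div_le_div_of_nonneg_right (l1_add _ _) (nk_nonneg _)

lemma pp_neg (η k : K) : pp η (-k) = pp η k := by unfold pp; rw [crs_neg, l1_neg]

lemma pp_zero (η : K) : pp η 0 = 0 := by
  have := crs_smul_self 0 η
  rw [zero_smul] at this
  unfold pp; rw [this]; simp [l1]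

lemma pp_line (m : ℤ) (η : K) : pp η (m • η) = 0 := by
  unfold pp; rw [crs_smul_self]; simp [l1]

lemma pp_line_add (m : ℤ) (η j : K) : pp η (m • η + j) = pp η j := by
  unfold pp; rw [crs_add, crs_smul_self, zero_add]

lemma qq_add_le (η k l : K) : qq η (k + l) ≤ qq η k + qq η l := by
  unfold qq
  rw [ip_add_right, ← add_div]
  push_cast
  exact div_le_div_of_nonneg_right (abs_add_le _ _) (nk_nonneg _)

lemma qq_neg (η k : K) : qq η (-k) = qq η k := by
  unfold qq; rw [ip_comm, ip_neg, ip_comm]; push_cast; rw [abs_neg]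

lemma abs_ip_le (k l : K) : |(ip k l : ℝ)| ≤ nk k * nk l := by
  have h := lagr_int l k
  have h1 : (ip k l : ℝ) ^ 2 ≤ (nk k * nk l) ^ 2 := by
    rw [mul_pow, nk_sq, nk_sq]
    have := sq_nonneg' (crs l k)
    nlinarith
  exact abs_le_of_sq_le_sq h1 (mul_nonneg (nk_nonneg _) (nk_nonneg _))

lemma qq_le_nk {η : K} (hη : η ≠ 0) (k : K) : qq η k ≤ nk k := by
  unfold qq
  rw [div_le_iff₀ (nk_pos hη), mul_comm]
  exact abs_ip_le η k

lemma pp_le_nk {η : K} (hη : η ≠ 0) (k : K) : pp η k ≤ 3 * nk k := by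
  unfold pp
  rw [div_le_iff₀ (nk_pos hη)]
  have h1 : ∀ i, |((crs k η) i : ℝ)| ≤ nk k * nk η := by
    intro i
    have h2 := lagr_int k η
    have h3 : ((crs k η) i : ℝ) ^ 2 ≤ sq (crs k η) :=
      Finset.single_le_sum (f := fun i => ((crs k η) i : ℝ) ^ 2) (fun i _ => sq_nonneg _)
        (Finset.mem_univ i)
    apply abs_le_of_sq_le_sq _ (mul_nonneg (nk_nonneg _) (nk_nonneg _))
    rw [mul_pow, nk_sq, nk_sq]
    nlinarith [sq_nonneg (ip η k : ℝ)]
  rw [l13]
  have := h1 0; have := h1 1; have := h1 2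
  linarith

lemma sq_le_pq {η : K} (hη : η ≠ 0) (k : K) : sq k ≤ pp η k ^ 2 + qq η k ^ 2 := by
  have hs := sq_pos hη
  unfold pp qq
  rw [div_pow, div_pow, nk_sq, sq_abs, ← add_div, le_div_iff₀ hs, lagr_int]
  have h : sq (crs k η) ≤ l1 (crs k η) ^ 2 := by
    rw [← nk_sq]
    exact pow_le_pow_left₀ (nk_nonneg _) (nk_le_l1 _) 2
  linarith

lemma dt_le {η : K} (hη : η ≠ 0) (k : K) (v : C3) :
    ‖dt k v‖ ≤ 2 * ‖v‖ * pp η k + par η v * qq η k := by
  have hn := nk_pos hη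
  have hs := sq_pos hη
  have h := congrArg norm (lagr k η v)
  rw [norm_mul, Complex.norm_real, Real.norm_of_nonneg hs.le] at h
  have h1 : ‖∑ i, cvec v η i * (crs k η i : ℂ)‖ ≤ 2 * ‖v‖ * nk η * l1 (crs k η) := by
    refine (norm_sum_le _ _).trans ?_
    unfold l1
    rw [Finset.mul_sum]
    refine Finset.sum_le_sum fun i _ => ?_
    rw [norm_mul, Complex.norm_intCast]
    exact mul_le_mul_of_nonneg_right (norm_cvec_le v η i) (abs_nonneg _)
  have h2 : ‖dt η v * (ip η k : ℂ)‖ = ‖dt η v‖ * |(ip η k : ℝ)| := by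
    rw [norm_mul, Complex.norm_intCast]
  have h3 : sq η * ‖dt k v‖ ≤ 2 * ‖v‖ * nk η * l1 (crs k η) + ‖dt η v‖ * |(ip η k : ℝ)| := by
    rw [h, ← h2]
    exact (norm_add_le _ _).trans (add_le_add h1 le_rfl)
  have e : 2 * ‖v‖ * pp η k + par η v * qq η k
      = (2 * ‖v‖ * nk η * l1 (crs k η) + ‖dt η v‖ * |(ip η k : ℝ)|) / sq η := by
    unfold pp par qq
    rw [← nk_sq]
    field_simp
  rw [e, le_div_iff₀ hs, mul_comm]
  exact h3

lemma par_of_dt_zero {η : K} {v : C3} (h : dt η v = 0) : par η v = 0 := by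
  unfold par; rw [h]; simp

lemma dt_le_perp {η : K} (hη : η ≠ 0) (k : K) {v : C3} (h : dt η v = 0) :
    ‖dt k v‖ ≤ 2 * ‖v‖ * pp η k := by
  have := dt_le hη k v
  rw [par_of_dt_zero h, zero_mul, add_zero] at this
  exact this

lemma par_qq_le {η : K} (hη : η ≠ 0) {k : K} {v : C3} (h : dt k v = 0) :
    par η v * qq η k ≤ 2 * ‖v‖ * pp η k := by
  have hn := nk_pos hη
  have hs := sq_pos hη
  have h0 := lagr k η v
  rw [h, mul_zero] at h0
  have h1 : ‖∑ i, cvec v η i * (crs k η i : ℂ)‖ ≤ 2 * ‖v‖ * nk η * l1 (crs k η) := by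
    refine (norm_sum_le _ _).trans ?_
    unfold l1
    rw [Finset.mul_sum]
    refine Finset.sum_le_sum fun i _ => ?_
    rw [norm_mul, Complex.norm_intCast]
    exact mul_le_mul_of_nonneg_right (norm_cvec_le v η i) (abs_nonneg _)
  have h2 : ‖dt η v‖ * |(ip η k : ℝ)| ≤ 2 * ‖v‖ * nk η * l1 (crs k η) := by
    have e : dt η v * (ip η k : ℂ) = -∑ i, cvec v η i * (crs k η i : ℂ) := by
      linear_combination -h0
    calc ‖dt η v‖ * |(ip η k : ℝ)| = ‖dt η v * (ip η k : ℂ)‖ := by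
          rw [norm_mul, Complex.norm_intCast]
      _ ≤ _ := by rw [e, norm_neg]; exact h1
  have e : par η v * qq η k = (‖dt η v‖ * |(ip η k : ℝ)|) / sq η := by
    unfold par qq; rw [← nk_sq]; field_simp
  have e' : 2 * ‖v‖ * pp η k = (2 * ‖v‖ * nk η * l1 (crs k η)) / sq η := by
    unfold pp; rw [← nk_sq]; field_simp
  rw [e, e']
  exact div_le_div_of_nonneg_right h2 hs.le

lemma l1_le_nk (k : K) : l1 k ≤ 2 * nk k := by
  apply le_of_sq_le_sq _ (mul_nonneg (by norm_num) (nk_nonneg _))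
  rw [mul_pow, nk_sq, l13, sq3]
  have h0 := abs_nonneg (k 0 : ℝ)
  have h1 := abs_nonneg (k 1 : ℝ)
  have h2 := abs_nonneg (k 2 : ℝ)
  rw [← sq_abs (k 0 : ℝ), ← sq_abs (k 1 : ℝ), ← sq_abs (k 2 : ℝ)]
  nlinarith [sq_nonneg (|(k 0 : ℝ)| - |(k 1 : ℝ)|), sq_nonneg (|(k 0 : ℝ)| - |(k 2 : ℝ)|),
    sq_nonneg (|(k 1 : ℝ)| - |(k 2 : ℝ)|)]

lemma norm_dt_le (k : K) (v : C3) : ‖dt k v‖ ≤ 2 * nk k * ‖v‖ := by
  have h1 : ‖dt k v‖ ≤ l1 k * ‖v‖ := by
    unfold dt l1
    rw [Finset.sum_mul]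
    refine (norm_sum_le _ _).trans (Finset.sum_le_sum fun i _ => ?_)
    rw [norm_mul, Complex.norm_intCast]
    exact mul_le_mul_of_nonneg_left (norm_le_pi_norm v i) (abs_nonneg _)
  exact h1.trans (mul_le_mul_of_nonneg_right (l1_le_nk k) (norm_nonneg _))

lemma par_le {η : K} (hη : η ≠ 0) (v : C3) : par η v ≤ 2 * ‖v‖ := by
  unfold par
  rw [div_le_iff₀ (nk_pos hη)]
  have := norm_dt_le η v
  linarith

lemma dt_vadd (k : K) (v v' : C3) : dt k (v + v') = dt k v + dt k v' := dt_add k v v'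

lemma dt_kadd (k k' : K) (v : C3) : dt (k + k') v = dt k v + dt k' v := by
  rw [dt3, dt3, dt3]; simp only [Pi.add_apply]; push_cast; ring

lemma dt_ksmul (m : ℤ) (k : K) (v : C3) : dt (m • k) v = m * dt k v := by
  rw [dt3, dt3]; simp only [Pi.smul_apply, smul_eq_mul]; push_cast; ring

lemma dt_kneg (k : K) (v : C3) : dt (-k) v = -dt k v := by
  rw [dt3, dt3]; simp only [Pi.neg_apply]; push_cast; ring

lemma dt_vsmul (k : K) (s : ℂ) (v : C3) : dt k (s • v) = s * dt k v := by rw [dt3, dt3]; simp only [Pi.smul_apply, smul_eq_mul]; ring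

lemma dt_vsub (k : K) (v v' : C3) : dt k (v - v') = dt k v - dt k v' := by
  rw [dt3, dt3, dt3]; simp only [Pi.sub_apply]; ring

lemma dt_vneg (k : K) (v : C3) : dt k (-v) = -dt k v := by
  rw [dt3, dt3]; simp only [Pi.neg_apply]; ring

lemma dt_vzero (k : K) : dt k (0 : C3) = 0 := by rw [dt3]; simp

lemma par_add_le (η : K) (v v' : C3) : par η (v + v') ≤ par η v + par η v' := by
  unfold par
  rw [dt_vadd, ← add_div]
  exact div_le_div_of_nonneg_right (norm_add_le _ _) (nk_nonneg _)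

lemma nk_zsmul (m : ℤ) (η : K) : nk (m • η) = |(m : ℝ)| * nk η := by
  unfold nk
  have : sq (m • η) = (m : ℝ) ^ 2 * sq η := by
    rw [sq3, sq3]; simp only [Pi.smul_apply, smul_eq_mul]; push_cast; ring
  rw [this, Real.sqrt_mul (sq_nonneg _), Real.sqrt_sq_eq_abs]

lemma norm_dt_line {η : K} (hη : η ≠ 0) (m : ℤ) (v : C3) :
    ‖dt (m • η) v‖ = nk (m • η) * par η v := by
  have hn := nk_pos hη
  rw [dt_ksmul, norm_mul, Complex.norm_intCast, nk_zsmul]
  unfold par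
  field_simp

lemma ip_line {η : K} (hη : η ≠ 0) (m : ℤ) (j : K) :
    |(ip (m • η) j : ℝ)| = nk (m • η) * qq η j := by
  have hn := nk_pos hη
  rw [ip_smul, nk_zsmul]
  unfold qq
  push_cast
  rw [abs_mul]
  field_simp

lemma qq_line {η : K} (hη : η ≠ 0) (m : ℤ) : qq η (m • η) = nk (m • η) := by
  have hn := nk_pos hη
  unfold qq
  rw [ip_smul_right, nk_zsmul]
  push_cast
  rw [abs_mul, ← sq_eq_ip, ← nk_sq, abs_of_nonneg (sq_nonneg (nk η))]
  field_simp

lemma norm_bt_le (k : K) (v v' : C3) : ‖bt k v v'‖ ≤ 6 * Real.pi * ‖dt k v‖ * ‖v'‖ := by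
  have hpi := Real.pi_pos
  refine (pi_norm_le_iff_of_nonneg (by positivity)).2 fun i => ?_
  rw [bt_eq, norm_mul, norm_mul]
  have h1 : ‖-(2 * (Real.pi : ℂ) * Complex.I)‖ = 2 * Real.pi := by
    rw [norm_neg, norm_mul, norm_mul, Complex.norm_I, Complex.norm_real]
    simp [abs_of_pos hpi]
  have h2 : ‖v' i - (k i : ℂ) * dt k v' / ((sq k : ℝ) : ℂ)‖ ≤ 3 * ‖v'‖ := by
    by_cases hk : k = 0
    · subst hk
      simp only [Pi.zero_apply, Int.cast_zero, zero_mul, zero_div, sub_zero]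
      have := norm_le_pi_norm v' i
      have := norm_nonneg v'
      linarith
    have hs := sq_pos hk
    refine (norm_sub_le _ _).trans ?_
    have h3 : ‖(k i : ℂ) * dt k v' / ((sq k : ℝ) : ℂ)‖ ≤ 2 * ‖v'‖ := by
      rw [norm_div, norm_mul, Complex.norm_intCast, Complex.norm_real, Real.norm_of_nonneg hs.le,
        div_le_iff₀ hs]
      calc |(k i : ℝ)| * ‖dt k v'‖ ≤ nk k * (2 * nk k * ‖v'‖) :=
            mul_le_mul (abs_le_nk k i) (norm_dt_le k v') (norm_nonneg _) (nk_nonneg _)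
        _ = 2 * ‖v'‖ * sq k := by rw [← nk_sq]; ring
    have := norm_le_pi_norm v' i
    linarith
  rw [h1]
  calc 2 * Real.pi * ‖dt k v‖ * _ ≤ 2 * Real.pi * ‖dt k v‖ * (3 * ‖v'‖) :=
        mul_le_mul_of_nonneg_left h2 (by positivity)
    _ = _ := by ring

end Pool.Agent.H356R3.NS.SW
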