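import Pool.Agent.Helper19.SW.Stab

/-!
# Gluing of solutions
-/

open MeasureTheory Set Filter Topology
open scoped ENNReal NNReal

namespace Pool.Agent.H356R3.NS.SW

/-- gluing -/
noncomputable def gl (T : ℝ) (u1 u2 : Fam) : Fam := fun k t => if t ≤ T then u1 k (max t 0) else u2 k (t - T)

variable {c a T : ℝ} {V : K → C3} {u1 u2 : Fam}

lemma gl_left (T : ℝ) (u1 u2 : Fam) (k : K) {t : ℝ} (ht : t ∈ Icc 0 T) : gl T u1 u2 k t = u1 k t := by
  unfold gl; rw [if_pos ht.2, max_eq_left ht.1]

lemma Sol.at_zero (h : Sol c a V u1) (k : K) : u1 k 0 = V k := by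
  rw [h.eq k 0, Duh_at_zero]; simp

lemma gl_right (hT : 0 ≤ T) (h2 : Sol c a (at' u1 T) u2) (k : K) {t : ℝ} (ht : T ≤ t) :
    gl T u1 u2 k t = u2 k (t - T) := by
  unfold gl
  rcases eq_or_lt_of_le ht with h | h
  · subst h
    rw [if_pos le_rfl, max_eq_left hT, sub_self, Sol.at_zero h2]; rfl
  · rw [if_neg (not_le.2 h)]

lemma lint_shift (f : ℝ → ℝ≥0∞) (T : ℝ) : ∫⁻ t in Ioi T, f (t - T) = ∫⁻ s in Ioi 0, f s := by
  have h1 : ∫⁻ t in Ioi T, f (t - T) = ∫⁻ t, (Ioi (0 : ℝ)).indicator f (t - T) := by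
    rw [← lintegral_indicator measurableSet_Ioi]
    refine lintegral_congr fun t => ?_
    by_cases ht : T < t
    · rw [indicator_of_mem (show t ∈ Ioi T from ht), indicator_of_mem (show t - T ∈ Ioi 0 from sub_pos.2 ht)]
    · rw [indicator_of_notMem (show t ∉ Ioi T from ht), indicator_of_notMem]
      simp only [mem_Ioi, sub_pos]; exact ht
  rw [h1, lintegral_sub_right_eq_self (fun t => (Ioi (0 : ℝ)).indicator f t) T, lintegral_indicator measurableSet_Ioi]

theorem glue (ha : 0 < a) (hT : 0 ≤ T) (h1 : LSol c a T V u1) (h2 : Sol c a (at' u1 T) u2) :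
    Sol c a V (gl T u1 u2) := by
  obtain ⟨b1, hb1, hb1'⟩ := h1.dom
  obtain ⟨b2, hb2, hb2'⟩ := h2.dom
  have hb10 : ∀ k, 0 ≤ b1 k := fun k => (norm_nonneg _).trans (hb1' k 0)
  have hb20 : ∀ k, 0 ≤ b2 k := fun k => (norm_nonneg _).trans (hb2' k 0)
  have hcf : CF (gl T u1 u2) := by
    intro k
    unfold gl
    refine Continuous.if_le ((h1.cf k).comp (by fun_prop)) ((h2.cf k).comp (by fun_prop)) continuous_id
      continuous_const fun t ht => ?_
    subst ht
    rw [max_eq_left hT, sub_self, Sol.at_zero h2]; rfl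
  have hdom : WDom a (gl T u1 u2) := by
    refine ⟨fun k => b1 k + b2 k, ?_, fun k t => ?_⟩
    · simp only [mul_add]; exact hb1.add hb2
    · unfold gl
      split_ifs
      · exact (hb1' k _).trans (le_add_of_nonneg_right (hb20 k))
      · exact (hb2' k _).trans (le_add_of_nonneg_left (hb10 k))
  have hd1 : Dom u1 := (show WDom a u1 from h1.dom).dom ha.le
  have hd2 : Dom u2 := (show WDom a u2 from h2.dom).dom ha.le
  have hd := hdom.dom ha.le
  have hB := Bt_cont hcf hd
  have hB1 := Bt_cont h1.cf hd1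
  have hB2 := Bt_cont h2.cf hd2
  have hatl : ∀ s ∈ Icc 0 T, at' (gl T u1 u2) s = at' u1 s := fun s hs => by
    funext k; exact gl_left T u1 u2 k hs
  have hatr : ∀ s, T ≤ s → at' (gl T u1 u2) s = at' u2 (s - T) := fun s hs => by
    funext k; exact gl_right hT h2 k hs
  have hDuh : ∀ k, ∀ t ∈ Icc 0 T, Duh c (Bt (gl T u1 u2)) k t = Duh c (Bt u1) k t := by
    intro k t ht
    refine Duh_congr (T := T) (fun k s hs => ?_) k ht
    show Bf _ _ k = Bf _ _ k
    rw [hatl s hs]
  have hleft : ∀ k, ∀ t ∈ Icc 0 T, gl T u1 u2 k t = Real.exp (-(c * sq k * t)) • V k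
      + Duh c (Bt (gl T u1 u2)) k t := by
    intro k t ht
    rw [gl_left T u1 u2 k ht, hDuh k t ht]
    exact h1.eq k t ht
  refine ⟨hcf, fun t => ?_, fun t k i => ?_, hdom, ?_, fun k t => ?_⟩
  · unfold gl; split_ifs
    · exact h1.z _
    · exact h2.z _
  · simp only [at', gl]
    split_ifs
    · exact h1.sym _ k i
    · exact h2.sym _ k i
  · -- finite norm
    unfold LN
    refine (ENNReal.rpow_lt_top_of_nonneg (by norm_num) ?_).ne
    have hM : ∀ t, NW (Wa a) (at' (gl T u1 u2) t) ≤ ENNReal.ofReal (∑' k, om a k * (b1 k + b2 k)) := by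
      intro t
      have hs : Summable fun k => om a k * (b1 k + b2 k) := by
        simp only [mul_add]; exact hb1.add hb2
      rw [ENNReal.ofReal_tsum_of_nonneg (fun k => mul_nonneg (om_pos _ _).le (add_nonneg (hb10 k) (hb20 k))) hs]
      refine ENNReal.tsum_le_tsum fun k => ?_
      unfold Wa
      rw [← ofReal_norm, ← ENNReal.ofReal_mul (om_pos _ _).le]
      apply ENNReal.ofReal_le_ofReal
      apply mul_le_mul_of_nonneg_left _ (om_pos _ _).le
      show ‖gl T u1 u2 k t‖ ≤ _
      unfold gl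
      split_ifs
      · exact (hb1' k _).trans (le_add_of_nonneg_right (hb20 k))
      · exact (hb2' k _).trans (le_add_of_nonneg_left (hb10 k))
    rw [← Ioc_union_Ioi_eq_Ioi hT]
    refine (lt_of_le_of_lt (lintegral_union_le _ _ _) (ENNReal.add_lt_top.2 ⟨?_, ?_⟩)).ne
    · refine lt_of_le_of_lt (lintegral_mono fun t => ENNReal.rpow_le_rpow (hM t) (by norm_num : (0 : ℝ) ≤ 2)) ?_
      rw [setLIntegral_const]
      exact ENNReal.mul_lt_top (ENNReal.rpow_lt_top_of_nonneg (by norm_num) ENNReal.ofReal_ne_top) (by simp)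
    · have h3 : ∫⁻ t in Ioi T, NW (Wa a) (at' (gl T u1 u2) t) ^ (2 : ℝ)
          = ∫⁻ s in Ioi 0, NW (Wa a) (at' u2 s) ^ (2 : ℝ) := by
        rw [← lint_shift (fun s => NW (Wa a) (at' u2 s) ^ (2 : ℝ)) T]
        refine setLIntegral_congr_fun measurableSet_Ioi fun t ht => ?_
        rw [hatr t (le_of_lt ht)]
      rw [h3]
      have h4 := h2.l2
      unfold LN at h4
      have h5 := lt_top_iff_ne_top.2 h4
      exact (ENNReal.rpow_lt_top_iff_of_pos (by norm_num)).1 h5
  · rcases le_total t 0 with ht0 | ht0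
    · have e : gl T u1 u2 k t = gl T u1 u2 k 0 := by
        unfold gl
        rw [if_pos (ht0.trans hT), if_pos hT, max_eq_right ht0, max_self]
      have h0 := hleft k 0 ⟨le_rfl, hT⟩
      rw [e, h0, max_eq_right ht0, ← Duh_max c _ k t, max_eq_right ht0]
    rcases le_total t T with htT | htT
    · rw [max_eq_left ht0]
      exact hleft k t ⟨ht0, htT⟩
    · rw [gl_right hT h2 k htT, h2.eq, max_eq_left (sub_nonneg.2 htT), max_eq_left ht0]
      have eT := hleft k T ⟨hT, le_rfl⟩
      have e0 : at' u1 T k = gl T u1 u2 k T := (gl_left T u1 u2 k ⟨hT, le_rfl⟩).symm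
      rw [e0, eT]
      have e1 : Duh c (Bt u2) k (t - T) = ∫ s in T..t, Real.exp (-(c * sq k * (t - s))) • Bt (gl T u1 u2) k s := by
        unfold Duh
        rw [max_eq_left (sub_nonneg.2 htT)]
        have h3 := intervalIntegral.integral_comp_sub_right (a := T) (b := t)
          (fun s => Real.exp (-(c * sq k * (t - T - s))) • Bt u2 k s) T
        rw [sub_self] at h3
        rw [← h3]
        refine intervalIntegral.integral_congr fun s hs => ?_
        rw [uIcc_of_le htT] at hs
        show Real.exp (-(c * sq k * (t - T - (s - T)))) • Bt u2 k (s - T) = _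
        congr 1
        · congr 1; ring
        · show Bf _ _ k = Bf _ _ k
          rw [hatr s hs.1]
      have e2 : Duh c (Bt (gl T u1 u2)) k t = Real.exp (-(c * sq k * (t - T))) • Duh c (Bt (gl T u1 u2)) k T
          + ∫ s in T..t, Real.exp (-(c * sq k * (t - s))) • Bt (gl T u1 u2) k s := by
        have hBk := hB k
        have hci := cont_inner hB c k
        rw [Duh_eq, Duh_eq, max_eq_left ht0, max_eq_left hT]
        have e3 : ∫ s in T..t, Real.exp (-(c * sq k * (t - s))) • Bt (gl T u1 u2) k s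
            = Real.exp (-(c * sq k * t)) • ∫ s in T..t, Real.exp (c * sq k * s) • Bt (gl T u1 u2) k s := by
          rw [← intervalIntegral.integral_smul]
          refine intervalIntegral.integral_congr fun s _ => ?_
          simp only [smul_smul, ← Real.exp_add]
          congr 2; ring
        rw [e3, smul_smul, ← Real.exp_add]
        have e4 : -(c * sq k * (t - T)) + -(c * sq k * T) = -(c * sq k * t) := by ring
        rw [e4, ← smul_add, intervalIntegral.integral_add_adjacent_intervals (hci.intervalIntegrable _ _)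
          (hci.intervalIntegrable _ _)]
      rw [e1, e2, smul_add, smul_smul, ← Real.exp_add]
      have e4 : -(c * sq k * (t - T)) + -(c * sq k * T) = -(c * sq k * t) := by ring
      rw [e4, add_assoc]

/-! ### Restriction and shift -/

lemma Sol.lsol (h : Sol c a V u1) (T : ℝ) : LSol c a T V u1 :=
  ⟨h.cf, h.z, h.sym, h.dom, fun k t ht => by
    have := h.eq k t
    rwa [max_eq_left ht.1] at this⟩

lemma LSol.mono {a' : ℝ} (ha : a' ≤ a) (h : LSol c a T V u1) : LSol c a' T V u1 :=
  ⟨h.cf, h.z, h.sym, h.dom.mono ha, h.eq⟩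

lemma Sol.mono {a' : ℝ} (ha : a' ≤ a) (h : Sol c a V u1) : Sol c a' V u1 :=
  ⟨h.cf, h.z, h.sym, (show WDom a u1 from h.dom).mono ha,
    ne_top_of_le_ne_top h.l2 (LN_mono fun _ _ => NW_mono (fun k => Wa_mono ha k) _), h.eq⟩

/-- shift -/
noncomputable def shf (T : ℝ) (u : Fam) : Fam := fun k t => u k (T + max t 0)

theorem Sol.shf (ha : 0 < a) (hT : 0 ≤ T) (h : Sol c a V u1) : Sol c a (at' u1 T) (shf T u1) := by
  obtain ⟨b1, hb1, hb1'⟩ := h.dom
  have hd1 : Dom u1 := (show WDom a u1 from h.dom).dom ha.le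
  have hB1 := Bt_cont h.cf hd1
  refine ⟨fun k => (h.cf k).comp (by fun_prop), fun t => h.z _, fun t => h.sym _,
    ⟨b1, hb1, fun k t => hb1' k _⟩, ?_, fun k t => ?_⟩
  · have h4 := h.l2
    refine ne_top_of_le_ne_top h4 ?_
    unfold LN
    apply ENNReal.rpow_le_rpow _ (by norm_num)
    calc ∫⁻ t in Ioi 0, NW (Wa a) (at' (SW.shf T u1) t) ^ (2 : ℝ)
        = ∫⁻ t in Ioi 0, (fun s => NW (Wa a) (at' u1 (s + T)) ^ (2 : ℝ)) t := by
          refine setLIntegral_congr_fun measurableSet_Ioi fun t ht => ?_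
          have : at' (SW.shf T u1) t = at' u1 (t + T) := by
            funext k
            show u1 k (T + max t 0) = u1 k (t + T)
            rw [max_eq_left (le_of_lt ht), add_comm]
          simp only [this]
      _ = ∫⁻ t in Ioi T, (fun s => NW (Wa a) (at' u1 (s + T)) ^ (2 : ℝ)) (t - T) := (lint_shift _ T).symm
      _ = ∫⁻ t in Ioi T, NW (Wa a) (at' u1 t) ^ (2 : ℝ) := by simp only [sub_add_cancel]
      _ ≤ _ := lintegral_mono_set fun t ht => lt_of_le_of_lt hT ht
  · have hs := sol_shift hB1 h k hT (le_add_of_nonneg_right (le_max_right t 0) : T ≤ T + max t 0)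
    show u1 k (T + max t 0) = _
    rw [hs, add_sub_cancel_left]
    congr 1
    unfold Duh
    have h3 := intervalIntegral.integral_comp_add_left (a := 0) (b := max t 0)
      (fun s => Real.exp (-(c * sq k * (T + max t 0 - s))) • Bt u1 k s) T
    rw [add_zero] at h3
    rw [← h3]
    refine intervalIntegral.integral_congr fun s hs => ?_
    rw [uIcc_of_le (le_max_right t 0)] at hs
    show Real.exp (-(c * sq k * (T + max t 0 - (T + s)))) • Bt u1 k (T + s) = _
    congr 1
    · congr 1; ring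
    · show Bf _ _ k = Bf _ _ k
      have : at' (SW.shf T u1) s = at' u1 (T + s) := by
        funext k
        show u1 k (T + max s 0) = u1 k (T + s)
        rw [max_eq_left hs.1]
      rw [this]

end Pool.Agent.H356R3.NS.SW
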