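import Pool.Agent.Helper19.SW.Bil2

/-!
# Structural properties of families
-/

open MeasureTheory Set Filter Topology
open scoped ENNReal NNReal

namespace Pool.Agent.H356R3.NS.SW

variable {P : Pm}

lemma star_rsmul (s : ℝ) (z : ℂ) : star (s • z) = s • star z := by
  rw [star_smul]; rfl

/-- structural properties -/
structure St (F : Fam) : Prop where
  cf : CF F
  dv : ∀ k t, dt k (F k t) = 0
  z : ∀ t, F 0 t = 0
  sym : SymF F

lemma St.add {F G : Fam} (hF : St F) (hG : St G) : St (F + G) :=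
  ⟨fun k => (hF.cf k).add (hG.cf k), fun k t => by
    show dt k (F k t + G k t) = 0
    rw [dt_vadd, hF.dv, hG.dv, add_zero], fun t => by
    show F 0 t + G 0 t = 0
    rw [hF.z, hG.z, add_zero], fun t => (hF.sym t).add (hG.sym t)⟩

lemma St.sub {F G : Fam} (hF : St F) (hG : St G) : St (F - G) :=
  ⟨fun k => (hF.cf k).sub (hG.cf k), fun k t => by
    show dt k (F k t - G k t) = 0
    rw [dt_vsub, hF.dv, hG.dv, sub_zero], fun t => by
    show F 0 t - G 0 t = 0
    rw [hF.z, hG.z, sub_zero], fun t => (hF.sym t).sub (hG.sym t)⟩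

lemma St.zero : St (0 : Fam) :=
  ⟨fun k => continuous_const, fun k t => dt_vzero k, fun t => rfl, fun t k i => by simp [at']⟩

lemma St.comp {F : Fam} (hF : St F) {g : ℝ → ℝ} (hg : Continuous g) : St (fun k t => F k (g t)) :=
  ⟨fun k => (hF.cf k).comp hg, fun k t => hF.dv k _, fun t => hF.z _, fun t => hF.sym (g t)⟩

lemma dt_int {k : K} {f : ℝ → C3} (hf : Continuous f) (h : ∀ s, dt k (f s) = 0) (a b : ℝ) :
    dt k (∫ s in a..b, f s) = 0 := by
  let L : C3 →L[ℝ] ℂ := ∑ j, ((k j : ℝ) • (ContinuousLinearMap.proj (R := ℝ) (φ := fun _ : Fin 3 => ℂ) j))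
  have hL : ∀ v, L v = dt k v := by
    intro v
    simp [L, dt]
  rw [← hL, ← ContinuousLinearMap.intervalIntegral_comp_comm L (hf.intervalIntegrable _ _)]
  simp [hL, h]

lemma St.duh {F : Fam} (hF : St F) (c : ℝ) : St (Duh c F) := by
  refine ⟨Duh_cont hF.cf c, fun k t => ?_, fun t => at'_Duh_zero hF.z t, Duh_sym hF.sym hF.cf⟩
  unfold Duh
  have := hF.cf k
  refine dt_int (by fun_prop) (fun s => ?_) _ _
  rw [smul_real, dt_vsmul, hF.dv, mul_zero]

lemma St.DT {F : Fam} (hF : St F) : St (DT P F) := (hF.duh P.c).comp (cl_cont P.T)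

lemma St.bb {X Y : Fam} (hX : CF X) (hY : CF Y) (dX : Dom X) (dY : Dom Y) (sX : SymF X) (sY : SymF Y) :
    St (BB X Y) :=
  ⟨BB_cont hX hY dX dY, fun k t => Bf_div _ _ k, fun t => Bf_zero _ _, fun t => Bf_sym (sX t) (sY t)⟩

/-- a primitive as a Duhamel integral -/
lemma Yo_eq (hP : P.OK) (U : Fam) (k : K) (t : ℝ) : Yo P U k t = Duh 0 U k (cl P.T t) := by
  unfold Yo Duh
  rw [max_eq_left (cl_mem hP.hT.le t).1]
  simp

lemma St.Yo (hP : P.OK) {U : Fam} (hU : St U) : St (Yo P U) := by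
  have h : SW.Yo P U = fun k t => Duh 0 U k (cl P.T t) := by
    funext k t; exact Yo_eq hP U k t
  rw [h]
  exact (hU.duh 0).comp (cl_cont P.T)

lemma St.He (hP : P.OK) {V : K → C3} (hd : ∀ k, dt k (V k) = 0) (hz : V 0 = 0) (hs : Sym V) : St (He P V) := by
  refine ⟨He_cf V, fun k t => ?_, fun t => ?_, fun t k i => ?_⟩
  · unfold SW.He
    rw [smul_real, dt_vsmul, hd, mul_zero]
  · unfold SW.He
    rw [hz, smul_zero]
  · simp only [at', SW.He, sq_neg, Pi.smul_apply]
    rw [hs k i, star_rsmul]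

lemma A_sym (hP : P.OK) : SymF P.A := by
  intro t k i
  simp only [at', Pm.A, sq_neg, Pi.smul_apply]
  rw [hP.sym k i, star_rsmul]

lemma Ac_cf (P : Pm) : CF (Ac P) := fun k => (A_cf P k).comp (cl_cont P.T)

lemma Ac_sym (hP : P.OK) : SymF (Ac P) := fun t => A_sym hP (cl P.T t)

lemma Ac_dom (hP : P.OK) : Dom (Ac P) := by
  refine ⟨fun k => ‖P.a k‖, summable_of_ne_finset_zero (s := P.S) fun l hl => by rw [hP.supp l hl, norm_zero],
    fun k t => Ac_norm hP k t⟩

lemma Ac_St (hP : P.OK) : St (Ac P) := by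
  refine ⟨Ac_cf P, fun k t => ?_, fun t => ?_, Ac_sym hP⟩
  · by_cases hk : k ∈ P.S
    · exact dt_line (hP.line k hk) (A_perp hP k _)
    · have : Ac P k t = 0 := (Ac_sh hP t).supp k hk
      rw [this, dt_vzero]
  · exact (Ac_sh hP t).supp 0 fun h => hP.ne 0 h rfl

lemma BB_AA (hP : P.OK) : BB (Ac P) (Ac P) = 0 := by
  funext k t
  show Bf (at' (Ac P) t) (at' (Ac P) t) k = 0
  have hA := Ac_sh hP t
  rw [Bf_left_fin hA.supp (SN_fin hA.supp) (SN_fin hA.supp)]
  refine Finset.sum_eq_zero fun l hl => ?_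
  by_cases hk : k - l ∈ P.S
  · rw [bt_PK]
    have h1 : dt k (at' (Ac P) t l) = 0 := by
      obtain ⟨m, hm⟩ := hP.line l hl
      obtain ⟨m', hm'⟩ := hP.line _ hk
      have : k = (m' + m) • P.η := by
        rw [add_smul, ← hm, ← hm', sub_add_cancel]
      rw [this, dt_ksmul, hA.perp l, mul_zero]
    rw [h1, mul_zero, zero_smul]
  · have : at' (Ac P) t (k - l) = 0 := hA.supp _ hk
    rw [this, bt_zero_r]

/-! ### The class -/

/-- the class of the fixed point -/
structure Good (P : Pm) (U : Fam) : Prop where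
  st : St U
  cl : ∀ k t, U k t = U k (cl P.T t)
  fin : EN P U ≠ ⊤

lemma enorm_le_ph (hP : P.OK) (U : Fam) (k : K) (t : ℝ) : ‖U k t‖ₑ ≤ ph P U k t := by
  unfold ph
  calc ‖U k t‖ₑ = 1 * ‖U k t‖ₑ := (one_mul _).symm
    _ ≤ _ := by
      apply mul_le_mul' _ le_rfl
      rw [ENNReal.one_le_ofReal]
      exact one_le_W hP t k

lemma en_ne_top {U : Fam} (h : EN P U ≠ ⊤) (k : K) : en P U k ≠ ⊤ :=
  ne_top_of_le_ne_top h (ENNReal.le_tsum k)

lemma en_summ {U : Fam} (h : EN P U ≠ ⊤) : Summable fun k => (en P U k).toReal := ENNReal.summable_toReal h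

lemma norm_le_of_enorm {v : C3} {x : ℝ≥0∞} (hx : x ≠ ⊤) (h : ‖v‖ₑ ≤ x) : ‖v‖ ≤ x.toReal := by
  have := ENNReal.toReal_mono hx h
  simpa using this

lemma Good.norm_le (hP : P.OK) {U : Fam} (h : Good P U) (k : K) (t : ℝ) : ‖U k t‖ ≤ (en P U k).toReal := by
  rw [h.cl]
  exact norm_le_of_enorm (en_ne_top h.fin k) ((enorm_le_ph hP U k _).trans (ph_le_en (cl_mem hP.hT.le t)))

lemma Good.dom (hP : P.OK) {U : Fam} (h : Good P U) : Dom U := ⟨_, en_summ h.fin, h.norm_le hP⟩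

lemma cl_cl (hP : P.OK) (t : ℝ) : cl P.T (cl P.T t) = cl P.T t := cl_of_mem (cl_mem hP.hT.le t)

lemma cl_le (hP : P.OK) (t : ℝ) : cl P.T t ≤ 1 := (cl_mem hP.hT.le t).2.trans hP.hT1

lemma Yo_norm_le (hP : P.OK) {U : Fam} (h : Good P U) (k : K) (t : ℝ) : ‖Yo P U k t‖ ≤ (en P U k).toReal := by
  have e : Yo P U k t = Yo P U k (cl P.T t) := by unfold Yo; rw [cl_cl hP]
  rw [e]
  have ht := cl_mem hP.hT.le t
  have h1 := (enorm_le_ph hP (Yo P U) k _).trans (m3 hP h.st.cf k ht)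
  refine norm_le_of_enorm (en_ne_top h.fin k) (h1.trans ?_)
  calc _ ≤ 1 * en P U k := by
        apply mul_le_mul' _ le_rfl
        rw [ENNReal.ofReal_le_one]; exact cl_le hP t
    _ = _ := one_mul _

lemma Yo_dom (hP : P.OK) {U : Fam} (h : Good P U) : Dom (Yo P U) := ⟨_, en_summ h.fin, Yo_norm_le hP h⟩

lemma gppY_le (hP : P.OK) {U : Fam} (h : Good P U) {l : K} (hl : l ∈ P.S) (k : K) (t : ℝ) :
    ‖Ac P l t‖ * pp P.η k * ‖Yo P U k t‖ ≤ (en P U k).toReal := by
  have e : Yo P U k t = Yo P U k (cl P.T t) := by unfold Yo; rw [cl_cl hP]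
  have ht := cl_mem hP.hT.le t
  set s := cl P.T t
  have h1 := m2 hP h.st.cf k ht
  have hκ := κ_pos hP
  have hp := pp_nonneg P.η k
  have hg := g_nonneg P s
  have hAg : ‖Ac P l t‖ ≤ P.g s := by
    have h2 : ‖Ac P l t‖ ≤ P.h0 s := by
      rw [← h0_eq P ht.1]
      exact Finset.single_le_sum (f := fun l => ‖P.A l s‖) (fun _ _ => norm_nonneg _) hl
    exact h2.trans (h0_le hP ht.1)
  have h3 : ENNReal.ofReal (P.g s * pp P.η k) * ‖Yo P U k s‖ₑ ≤ en P U k := by
    refine (mul_le_mul' le_rfl (enorm_le_ph hP _ k s)).trans (h1.trans ?_)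
    calc _ ≤ 1 * en P U k := by
          apply mul_le_mul' _ le_rfl
          rw [ENNReal.ofReal_le_one, div_le_one hκ]; exact hP.hκ
      _ = _ := one_mul _
  rw [← ofReal_norm, ← ENNReal.ofReal_mul (by positivity)] at h3
  have h4 := ENNReal.toReal_mono (en_ne_top h.fin k) h3
  rw [ENNReal.toReal_ofReal (by positivity)] at h4
  rw [e]
  calc _ ≤ P.g s * pp P.η k * ‖Yo P U k s‖ := by gcongr
    _ ≤ _ := h4

lemma TAf_dom (hP : P.OK) {U : Fam} (h : Good P U) : Dom (TAf P (Yo P U)) := by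
  have hpi := Real.pi_pos
  refine ⟨fun k => ∑ l ∈ P.S, 4 * Real.pi * (1 + nk l * ‖P.a l‖) * (en P U (k - l)).toReal,
    summable_sum fun l _ => ((en_summ h.fin).comp_injective (Equiv.subRight l).injective).mul_left _,
    fun k t => ?_⟩
  refine (norm_sum_le _ _).trans (Finset.sum_le_sum fun l hl => ?_)
  have hn := nk_nonneg l
  have h1 := N1 hP hl (A_perp hP l (cl P.T t)) (j := k - l) (y := Yo P U (k - l) t)
  refine h1.trans ?_
  have h2 := gppY_le hP h hl (k - l) t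
  have h3 := Yo_norm_le hP h (k - l) t
  have h4 : ‖P.A l (cl P.T t)‖ ≤ ‖P.a l‖ := Ac_norm hP l t
  have h5 : ‖P.A l (cl P.T t)‖ * pp P.η (k - l) * ‖Yo P U (k - l) t‖ ≤ (en P U (k - l)).toReal := h2
  have h0 : 0 ≤ (en P U (k - l)).toReal := ENNReal.toReal_nonneg
  calc 4 * Real.pi * (‖P.A l (cl P.T t)‖ * pp P.η (k - l) + nk l * ‖P.A l (cl P.T t)‖) * ‖Yo P U (k - l) t‖
      = 4 * Real.pi * (‖P.A l (cl P.T t)‖ * pp P.η (k - l) * ‖Yo P U (k - l) t‖
        + nk l * ‖P.A l (cl P.T t)‖ * ‖Yo P U (k - l) t‖) := by ring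
    _ ≤ 4 * Real.pi * ((en P U (k - l)).toReal + nk l * ‖P.a l‖ * (en P U (k - l)).toReal) := by gcongr
    _ = _ := by ring

lemma tt_zero_mode {l : K} {a y : C3} (ha : dt l a = 0) (hy : dt (0 - l) y = 0) : tt l a (0 - l) y = 0 := by
  unfold tt
  have h1 : dt (0 - l) a = 0 := by rw [zero_sub, dt_kneg, ha, neg_zero]
  have h2 : dt l y = 0 := by
    rw [zero_sub, dt_kneg] at hy
    simpa using hy
  rw [h1, h2]; simp

lemma TAf_St (hP : P.OK) {Y : Fam} (hY : St Y) (hdom : Dom Y) : St (TAf P Y) := by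
  refine ⟨TAf_cf hY.cf, fun k t => ?_, fun t => ?_, fun t => ?_⟩
  · have h := TAf_at hP (hdom.sn t) hY.dv
    have e : TAf P Y k t = TA (at' (Ac P) t) (at' Y t) k := congrFun h k
    rw [e]
    exact TA_div hP (Ac_sh hP t) (hdom.sn t) (fun k => hY.dv k t) k
  · unfold TAf
    exact Finset.sum_eq_zero fun l hl => tt_zero_mode (dt_line (hP.line l hl) (A_perp hP l _)) (hY.dv _ t)
  · rw [TAf_at hP (hdom.sn t) hY.dv]
    unfold TA
    exact (Bf_sym (hY.sym t) (Ac_sym hP t)).sub (Bf_sym (Ac_sym hP t) (hY.sym t))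

lemma tt_smul (l : K) (s : ℝ) (a : C3) (j : K) (y : C3) : tt l (s • a) j y = s • tt l a j y := by
  unfold tt
  rw [smul_real, smul_real, dt_vsmul]
  funext i
  simp only [Pi.smul_apply, Pi.sub_apply, smul_eq_mul]
  ring

lemma Rf_at (hP : P.OK) {Y : Fam} {t : ℝ} (hs : SN (at' Y t)) (hd : ∀ k t, dt k (Y k t) = 0) (k : K) :
    Rf P Y k t = (P.c * sq k) • TA (at' (Ac P) t) (at' Y t) k
      - TA (fun l => (P.c * sq l) • Ac P l t) (at' Y t) k := by
  have hA := Ac_sh hP t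
  have hA' : ShA P (fun l => (P.c * sq l) • Ac P l t) := by
    refine ⟨fun l => ?_, fun l hl => ?_⟩
    · rw [smul_real, dt_vsmul]
      have : dt P.η (Ac P l t) = 0 := hA.perp l
      rw [this, mul_zero]
    · have : Ac P l t = 0 := hA.supp l hl
      rw [this, smul_zero]
  rw [TA_apply hP hA hs fun k => hd k t, TA_apply hP hA' hs fun k => hd k t, Finset.smul_sum,
    ← Finset.sum_sub_distrib]
  unfold Rf
  refine Finset.sum_congr rfl fun l _ => ?_
  rw [tt_smul, mul_sub, sub_smul]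
  rfl

lemma Rf_St (hP : P.OK) {Y : Fam} (hY : St Y) (hdom : Dom Y) : St (Rf P Y) := by
  refine ⟨Rf_cf hY.cf, fun k t => ?_, fun t => ?_, fun t k i => ?_⟩
  · unfold Rf
    have h1 : ∀ s : Finset K, s ⊆ P.S → dt k (∑ l ∈ s, (P.c * (sq k - sq l)) •
        tt l (P.A l (cl P.T t)) (k - l) (Y (k - l) t)) = 0 := by
      classical
      intro s
      induction s using Finset.induction_on with
      | empty => intro _; simp [dt_vzero]
      | insert l s hl ih =>
        intro hs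
        rw [Finset.sum_insert hl, dt_vadd, ih fun x hx => hs (Finset.mem_insert_of_mem hx), add_zero,
          smul_real, dt_vsmul]
        have hl' := hs (Finset.mem_insert_self l s)
        have := tt_div (dt_line (hP.line l hl') (A_perp hP l (cl P.T t))) (hY.dv (k - l) t)
        rw [add_sub_cancel] at this
        rw [this, mul_zero]
    exact h1 P.S le_rfl
  · unfold Rf
    refine Finset.sum_eq_zero fun l hl => ?_
    rw [tt_zero_mode (dt_line (hP.line l hl) (A_perp hP l _)) (hY.dv _ t), smul_zero]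
  · have hs := hdom.sn t
    have hA := Ac_sym hP t
    have hA' : Sym (fun l => (P.c * sq l) • Ac P l t) := by
      intro k i
      have := hA k i
      simp only [at'] at this
      simp only [sq_neg, Pi.smul_apply, this, star_rsmul]
    have s1 : Sym (TA (at' (Ac P) t) (at' Y t)) := by
      unfold TA
      exact (Bf_sym (hY.sym t) hA).sub (Bf_sym hA (hY.sym t))
    have s2 : Sym (TA (fun l => (P.c * sq l) • Ac P l t) (at' Y t)) := by
      unfold TA
      exact (Bf_sym (hY.sym t) hA').sub (Bf_sym hA' (hY.sym t))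
    simp only [at']
    rw [Rf_at hP hs hY.dv, Rf_at hP hs hY.dv]
    simp only [sq_neg, Pi.sub_apply, Pi.smul_apply]
    rw [s1 k i, s2 k i, star_sub, star_rsmul]

end Pool.Agent.H356R3.NS.SW
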