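import Pool.Agent.Helper19.SW.Geo

/-!
# Kernel estimates in time
-/

open MeasureTheory Set Filter Topology
open scoped ENNReal NNReal

namespace Pool.Agent.H356R3.NS.SW

/-- Tonelli on a triangle. -/
lemma tri_le {κ : ℝ → ℝ → ℝ≥0∞} (hκ : Measurable (Function.uncurry κ)) (T : ℝ) :
    ∫⁻ t in Ioc 0 T, ∫⁻ r in Ioc 0 t, κ t r ≤ ∫⁻ r in Ioc 0 T, ∫⁻ t in Icc r T, κ t r := by
  set H : ℝ → ℝ → ℝ≥0∞ := fun t r => (Ici r).indicator (fun t => κ t r) t
  have hH : Measurable (Function.uncurry H) := by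
    have e : Function.uncurry H = {p : ℝ × ℝ | p.2 ≤ p.1}.indicator (Function.uncurry κ) := by
      funext ⟨t, r⟩
      simp only [Function.uncurry, H, indicator, mem_Ici, mem_ofPred_eq]
    rw [e]
    exact hκ.indicator (measurableSet_le measurable_snd measurable_fst)
  calc ∫⁻ t in Ioc 0 T, ∫⁻ r in Ioc 0 t, κ t r ≤ ∫⁻ t in Ioc 0 T, ∫⁻ r in Ioc 0 T, H t r := by
        refine setLIntegral_mono' measurableSet_Ioc fun t ht => ?_
        calc ∫⁻ r in Ioc 0 t, κ t r = ∫⁻ r in Ioc 0 t, H t r := by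
              refine setLIntegral_congr_fun measurableSet_Ioc fun r hr => ?_
              simp only [H]
              rw [indicator_of_mem (show t ∈ Ici r from hr.2)]
          _ ≤ _ := lintegral_mono_set (Ioc_subset_Ioc_right ht.2)
    _ = ∫⁻ r in Ioc 0 T, ∫⁻ t in Ioc 0 T, H t r := lintegral_lintegral_swap hH.aemeasurable
    _ ≤ _ := by
        refine setLIntegral_mono' measurableSet_Ioc fun r hr => ?_
        simp only [H]
        rw [lintegral_indicator measurableSet_Ici, Measure.restrict_restrict measurableSet_Ici]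
        refine lintegral_mono_set fun t ht => ?_
        exact ⟨ht.1, ht.2.2⟩

/-- A rate `θ` with primitive `Θ`. -/
structure Ker (Θ θ : ℝ → ℝ) : Prop where
  hd : ∀ t, HasDerivAt Θ (θ t) t
  hc : Continuous θ
  h0 : ∀ t, 0 ≤ θ t

variable {Θ θ : ℝ → ℝ}

lemma Ker.cont (h : Ker Θ θ) : Continuous Θ :=
  continuous_iff_continuousAt.2 fun t => (h.hd t).continuousAt

lemma Ker.mono (h : Ker Θ θ) : Monotone Θ :=
  monotone_of_deriv_nonneg (fun t => (h.hd t).differentiableAt) fun t => by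
    rw [(h.hd t).deriv]; exact h.h0 t

lemma Ker.int_le (h : Ker Θ θ) {r T : ℝ} (hr : r ≤ T) :
    ∫⁻ t in Icc r T, ENNReal.ofReal (θ t * Real.exp (-(Θ t - Θ r))) ≤ 1 := by
  have hc := h.hc
  have hC := h.cont
  have hcont : Continuous fun t => θ t * Real.exp (-(Θ t - Θ r)) := by fun_prop
  rw [← ofReal_integral_eq_lintegral_ofReal]
  · rw [integral_Icc_eq_integral_Ioc, ← intervalIntegral.integral_of_le hr]
    have hd : ∀ t ∈ uIcc r T, HasDerivAt (fun t => -Real.exp (-(Θ t - Θ r)))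
        (θ t * Real.exp (-(Θ t - Θ r))) t := by
      intro t _
      have h1 : HasDerivAt (fun t => -(Θ t - Θ r)) (-θ t) t := ((h.hd t).sub_const _).fun_neg
      exact (h1.exp.fun_neg).congr_deriv (by ring)
    rw [intervalIntegral.integral_eq_sub_of_hasDerivAt hd (hcont.intervalIntegrable _ _)]
    rw [sub_self, neg_zero, Real.exp_zero, ENNReal.ofReal_le_one]
    have := Real.exp_pos (-(Θ T - Θ r))
    linarith
  · exact hcont.integrableOn_Icc
  · exact Filter.Eventually.of_forall fun t => mul_nonneg (h.h0 t) (Real.exp_pos _).le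

lemma Ker.int_le' (h : Ker Θ θ) {T : ℝ} (hT : 0 ≤ T) :
    ∫⁻ r in Ioc 0 T, ENNReal.ofReal (θ r * Real.exp (-(Θ T - Θ r))) ≤ 1 := by
  have hc := h.hc
  have hC := h.cont
  have hcont : Continuous fun r => θ r * Real.exp (-(Θ T - Θ r)) := by fun_prop
  rw [← ofReal_integral_eq_lintegral_ofReal]
  · rw [← intervalIntegral.integral_of_le hT]
    have hd : ∀ t ∈ uIcc 0 T, HasDerivAt (fun t => Real.exp (-(Θ T - Θ t)))
        (θ t * Real.exp (-(Θ T - Θ t))) t := by
      intro t _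
      have h1 : HasDerivAt (fun t => -(Θ T - Θ t)) (θ t) t :=
        (((h.hd t).const_sub _).fun_neg).congr_deriv (by ring)
      exact h1.exp.congr_deriv (by ring)
    rw [intervalIntegral.integral_eq_sub_of_hasDerivAt hd (hcont.intervalIntegrable _ _)]
    rw [sub_self, neg_zero, Real.exp_zero, ENNReal.ofReal_le_one]
    have := Real.exp_pos (-(Θ T - Θ 0))
    linarith
  · exact hcont.integrableOn_Icc.mono_set Ioc_subset_Icc_self
  · exact Filter.Eventually.of_forall fun t => mul_nonneg (h.h0 t) (Real.exp_pos _).le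

lemma Ker.int_exp_le (h : Ker Θ θ) {T : ℝ} (hT : 0 ≤ T) (h00 : Θ 0 = 0) :
    ∫⁻ r in Ioc 0 T, ENNReal.ofReal (θ r * Real.exp (-Θ r)) ≤ 1 := by
  have := h.int_le hT
  rw [h00] at this
  simp only [sub_zero] at this
  exact (lintegral_mono_set Ioc_subset_Icc_self).trans this

/-- The averaging operator with the kernel `exp (-(Θ t - Θ r))`. -/
noncomputable def Av (Θ : ℝ → ℝ) (ψ : ℝ → ℝ≥0∞) (t : ℝ) : ℝ≥0∞ :=
  ∫⁻ r in Ioc 0 t, ENNReal.ofReal (Real.exp (-(Θ t - Θ r))) * ψ r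

lemma Av_mono {ψ ψ' : ℝ → ℝ≥0∞} (h : ∀ r, ψ r ≤ ψ' r) (t : ℝ) : Av Θ ψ t ≤ Av Θ ψ' t :=
  lintegral_mono fun r => mul_le_mul' le_rfl (h r)

lemma Ker.meas_uncurry (h : Ker Θ θ) {u : ℝ → ℝ≥0∞} {ψ : ℝ → ℝ≥0∞} (hu : Measurable u)
    (hψ : Measurable ψ) : Measurable (Function.uncurry fun t r =>
      u t * (ENNReal.ofReal (Real.exp (-(Θ t - Θ r))) * ψ r)) := by
  have hC := h.cont
  have m1 := hu.comp (measurable_fst : Measurable (Prod.fst : ℝ × ℝ → ℝ))
  have m2 := hψ.comp (measurable_snd : Measurable (Prod.snd : ℝ × ℝ → ℝ))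
  refine m1.mul (Measurable.mul ?_ m2)
  have : Continuous fun p : ℝ × ℝ => Real.exp (-(Θ p.1 - Θ p.2)) := by fun_prop
  exact this.measurable.ennreal_ofReal

/-- Weighted `L¹` estimate of the averaging operator. -/
lemma Ker.av_L1 (h : Ker Θ θ) {m : ℝ → ℝ} (hm : AntitoneOn m (Ici 0)) (hmm : Measurable m) {T : ℝ} {ψ : ℝ → ℝ≥0∞}
    (hψ : Measurable ψ) :
    ∫⁻ t in Ioc 0 T, ENNReal.ofReal (m t) * ENNReal.ofReal (θ t) * Av Θ ψ t
      ≤ ∫⁻ r in Ioc 0 T, ENNReal.ofReal (m r) * ψ r := by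
  have hC := h.cont
  have hc := h.hc
  have m1 : Measurable fun t => ENNReal.ofReal (m t) * ENNReal.ofReal (θ t) :=
    hmm.ennreal_ofReal.mul hc.measurable.ennreal_ofReal
  have hin : ∀ t, Measurable fun r => ENNReal.ofReal (Real.exp (-(Θ t - Θ r))) * ψ r := fun t =>
    (by fun_prop : Measurable fun r => ENNReal.ofReal (Real.exp (-(Θ t - Θ r)))).mul hψ
  calc ∫⁻ t in Ioc 0 T, ENNReal.ofReal (m t) * ENNReal.ofReal (θ t) * Av Θ ψ t
      = ∫⁻ t in Ioc 0 T, ∫⁻ r in Ioc 0 t, ENNReal.ofReal (m t) * ENNReal.ofReal (θ t) *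
        (ENNReal.ofReal (Real.exp (-(Θ t - Θ r))) * ψ r) := by
        refine lintegral_congr fun t => ?_
        unfold Av
        rw [lintegral_const_mul _ (hin t)]
    _ ≤ ∫⁻ r in Ioc 0 T, ∫⁻ t in Icc r T, ENNReal.ofReal (m t) * ENNReal.ofReal (θ t) *
        (ENNReal.ofReal (Real.exp (-(Θ t - Θ r))) * ψ r) := tri_le (h.meas_uncurry m1 hψ) T
    _ ≤ ∫⁻ r in Ioc 0 T, ENNReal.ofReal (m r) * ψ r := by
        refine setLIntegral_mono' measurableSet_Ioc fun r hr => ?_
        calc ∫⁻ t in Icc r T, ENNReal.ofReal (m t) * ENNReal.ofReal (θ t) *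
              (ENNReal.ofReal (Real.exp (-(Θ t - Θ r))) * ψ r)
            ≤ ∫⁻ t in Icc r T, (ENNReal.ofReal (m r) * ψ r) *
              ENNReal.ofReal (θ t * Real.exp (-(Θ t - Θ r))) := by
              refine setLIntegral_mono' measurableSet_Icc fun t ht => ?_
              rw [ENNReal.ofReal_mul (h.h0 t)]
              calc _ = ENNReal.ofReal (m t) * (ψ r * (ENNReal.ofReal (θ t) *
                    ENNReal.ofReal (Real.exp (-(Θ t - Θ r))))) := by ring
                _ ≤ ENNReal.ofReal (m r) * (ψ r * (ENNReal.ofReal (θ t) *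
                    ENNReal.ofReal (Real.exp (-(Θ t - Θ r))))) := by
                    apply mul_le_mul' _ le_rfl
                    exact ENNReal.ofReal_le_ofReal (hm hr.1.le (hr.1.le.trans ht.1) ht.1)
                _ = _ := by ring
          _ = (ENNReal.ofReal (m r) * ψ r) * ∫⁻ t in Icc r T,
              ENNReal.ofReal (θ t * Real.exp (-(Θ t - Θ r))) := by
              rw [lintegral_const_mul _ (by fun_prop)]
          _ ≤ (ENNReal.ofReal (m r) * ψ r) * 1 := mul_le_mul' le_rfl (h.int_le hr.2)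
          _ = _ := mul_one _

/-- Pointwise estimate of the averaging operator for antitone rates. -/
lemma Ker.av_sup (h : Ker Θ θ) (hθ : AntitoneOn θ (Ici 0)) {t : ℝ} (ht : 0 ≤ t) {ψ : ℝ → ℝ≥0∞} {M : ℝ≥0∞}
    (hM : ∀ r ∈ Ioc 0 t, ψ r ≤ M) : ENNReal.ofReal (θ t) * Av Θ ψ t ≤ M := by
  have hC := h.cont
  have hc := h.hc
  calc ENNReal.ofReal (θ t) * Av Θ ψ t
      ≤ ENNReal.ofReal (θ t) * ∫⁻ r in Ioc 0 t, ENNReal.ofReal (Real.exp (-(Θ t - Θ r))) * M := by
        apply mul_le_mul' le_rfl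
        exact setLIntegral_mono' measurableSet_Ioc fun r hr => mul_le_mul' le_rfl (hM r hr)
    _ = ∫⁻ r in Ioc 0 t, ENNReal.ofReal (θ t) * (ENNReal.ofReal (Real.exp (-(Θ t - Θ r))) * M) := by
        rw [lintegral_const_mul _ (by fun_prop)]
    _ ≤ ∫⁻ r in Ioc 0 t, ENNReal.ofReal (θ r * Real.exp (-(Θ t - Θ r))) * M := by
        refine setLIntegral_mono' measurableSet_Ioc fun r hr => ?_
        rw [← mul_assoc, ENNReal.ofReal_mul (h.h0 r)]
        apply mul_le_mul' (mul_le_mul' _ le_rfl) le_rfl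
        exact ENNReal.ofReal_le_ofReal (hθ hr.1.le ht hr.2)
    _ = (∫⁻ r in Ioc 0 t, ENNReal.ofReal (θ r * Real.exp (-(Θ t - Θ r)))) * M := by
        rw [lintegral_mul_const _ (by fun_prop)]
    _ ≤ 1 * M := mul_le_mul' (h.int_le' ht) le_rfl
    _ = M := one_mul _

lemma Ker.av_le_sup (h : Ker Θ θ) {t : ℝ} {ψ : ℝ → ℝ≥0∞} {M : ℝ≥0∞}
    (hM : ∀ r ∈ Ioc 0 t, ψ r ≤ M) : Av Θ ψ t ≤ ENNReal.ofReal t * M := by
  calc Av Θ ψ t ≤ ∫⁻ r in Ioc 0 t, M := by
        refine setLIntegral_mono' measurableSet_Ioc fun r hr => ?_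
        calc _ ≤ 1 * M := by
              apply mul_le_mul' _ (hM r hr)
              rw [ENNReal.ofReal_le_one, Real.exp_le_one_iff]
              have := h.mono hr.2
              linarith
          _ = M := one_mul _
    _ = _ := by
        rw [setLIntegral_const, Real.volume_Ioc, sub_zero, mul_comm]

/-- `L¹` estimate of the averaging operator against a general rate. -/
lemma Ker.av_L1' (h : Ker Θ θ) {u v : ℝ → ℝ} (hu : Measurable u) (T : ℝ)
    (huv : ∀ r ∈ Ioc 0 T, ∫⁻ t in Icc r T, ENNReal.ofReal (u t) ≤ ENNReal.ofReal (v r)) {ψ : ℝ → ℝ≥0∞}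
    (hψ : Measurable ψ) :
    ∫⁻ t in Ioc 0 T, ENNReal.ofReal (u t) * Av Θ ψ t ≤ ∫⁻ r in Ioc 0 T, ENNReal.ofReal (v r) * ψ r := by
  have hC := h.cont
  have m1 : Measurable fun t => ENNReal.ofReal (u t) := hu.ennreal_ofReal
  have hin : ∀ t, Measurable fun r => ENNReal.ofReal (Real.exp (-(Θ t - Θ r))) * ψ r := fun t =>
    (by fun_prop : Measurable fun r => ENNReal.ofReal (Real.exp (-(Θ t - Θ r)))).mul hψ
  calc ∫⁻ t in Ioc 0 T, ENNReal.ofReal (u t) * Av Θ ψ t
      = ∫⁻ t in Ioc 0 T, ∫⁻ r in Ioc 0 t, ENNReal.ofReal (u t) *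
        (ENNReal.ofReal (Real.exp (-(Θ t - Θ r))) * ψ r) := by
        refine lintegral_congr fun t => ?_
        unfold Av
        rw [lintegral_const_mul _ (hin t)]
    _ ≤ ∫⁻ r in Ioc 0 T, ∫⁻ t in Icc r T, ENNReal.ofReal (u t) *
        (ENNReal.ofReal (Real.exp (-(Θ t - Θ r))) * ψ r) := tri_le (h.meas_uncurry m1 hψ) T
    _ ≤ ∫⁻ r in Ioc 0 T, ENNReal.ofReal (v r) * ψ r := by
        refine setLIntegral_mono' measurableSet_Ioc fun r hr => ?_
        calc ∫⁻ t in Icc r T, ENNReal.ofReal (u t) *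
              (ENNReal.ofReal (Real.exp (-(Θ t - Θ r))) * ψ r)
            ≤ ∫⁻ t in Icc r T, ENNReal.ofReal (u t) * ψ r := by
              refine setLIntegral_mono' measurableSet_Icc fun t ht => ?_
              apply mul_le_mul' le_rfl
              calc _ ≤ 1 * ψ r := by
                    apply mul_le_mul' _ le_rfl
                    rw [ENNReal.ofReal_le_one, Real.exp_le_one_iff]
                    have := h.mono ht.1
                    linarith
                _ = ψ r := one_mul _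
          _ = (∫⁻ t in Icc r T, ENNReal.ofReal (u t)) * ψ r := by
              rw [lintegral_mul_const _ m1]
          _ ≤ _ := mul_le_mul' (huv r hr) le_rfl

end Pool.Agent.H356R3.NS.SW
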