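import Pool.Agent.Helper19.SW.End
import Pool.Agent.H356R3.NS.Reg4

/-!
# The theorem on the Fourier side
-/

open MeasureTheory Set Filter Topology
open scoped ENNReal NNReal

namespace Pool.Agent.H356R3.NS.SW

/-- parameters which depend only on `c` -/
noncomputable def P0 (c : ℝ) : Pm := ⟨c, 0, ∅, 0, 0, 1, 0, 1⟩

lemma summ_poly {c a1 a0 : ℝ} (hc : 0 < c) (ha1 : 0 ≤ a1) (ha0 : 0 < a0) :
    ∃ C : ℝ, 0 < C ∧ ∀ k : K, (1 + c * sq k + a1 * (3 * nk k)) * om (a0 / 2) k ≤ C * om a0 k := by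
  refine ⟨1 + c * (16 / a0 ^ 2) + a1 * (3 * (2 / a0)), by positivity, fun k => ?_⟩
  have hl := l1_nonneg k
  have h1 : nk k ≤ 2 / a0 * Real.exp (a0 / 2 * l1 k) := by
    have h2 : a0 / 2 * l1 k + 1 ≤ Real.exp (a0 / 2 * l1 k) := Real.add_one_le_exp _
    have h3 := nk_le_l1 k
    rw [div_mul_eq_mul_div, le_div_iff₀ ha0]
    nlinarith
  have h2 : sq k ≤ 16 / a0 ^ 2 * Real.exp (a0 / 2 * l1 k) := by
    have h3 : a0 / 4 * l1 k + 1 ≤ Real.exp (a0 / 4 * l1 k) := Real.add_one_le_exp _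
    have h4 := nk_le_l1 k
    have h5 : nk k ≤ 4 / a0 * Real.exp (a0 / 4 * l1 k) := by
      rw [div_mul_eq_mul_div, le_div_iff₀ ha0]
      nlinarith
    have h6 : Real.exp (a0 / 4 * l1 k) ^ 2 = Real.exp (a0 / 2 * l1 k) := by
      rw [← Real.exp_nat_mul]; congr 1; push_cast; ring
    rw [← nk_sq]
    calc nk k ^ 2 ≤ (4 / a0 * Real.exp (a0 / 4 * l1 k)) ^ 2 := pow_le_pow_left₀ (nk_nonneg k) h5 2
      _ = _ := by rw [mul_pow, h6]; ring
  have h3 : 1 ≤ Real.exp (a0 / 2 * l1 k) := Real.one_le_exp (by positivity)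
  have h4 : om a0 k = Real.exp (a0 / 2 * l1 k) * om (a0 / 2) k := by
    unfold om; rw [← Real.exp_add]; congr 1; ring
  rw [h4, ← mul_assoc (1 + c * (16 / a0 ^ 2) + a1 * (3 * (2 / a0)))]
  apply mul_le_mul_of_nonneg_right _ (om_pos _ _).le
  calc 1 + c * sq k + a1 * (3 * nk k) ≤ 1 * Real.exp (a0 / 2 * l1 k) + c * (16 / a0 ^ 2 * Real.exp (a0 / 2 * l1 k))
        + a1 * (3 * (2 / a0 * Real.exp (a0 / 2 * l1 k))) := by
        rw [one_mul]; gcongr
    _ = _ := by ring

theorem main_fourier {c a0 ee δ : ℝ} (hc : 0 < c) (ha0 : 0 < a0) (hee : 0 < ee) (hδ : 0 < δ) {V : K → C3}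
    (hVd : ∀ k, dt k (V k) = 0) {v : Fam} (hv : Sol c a0 V v) :
    ∃ c0 : ℝ, 0 < c0 ∧ ∀ (η : K) (S : Finset K) (a : K → C3), η ≠ 0 → (∀ l ∈ S, ∃ m : ℤ, l = m • η) →
      (∀ l ∈ S, l ≠ 0) → (∀ l, dt η (a l) = 0) → (∀ l, l ∉ S → a l = 0) → Sym a →
      ∑ l ∈ S, ‖a l‖ / sq l ≤ c0 → ∃ b : ℝ, 0 < b ∧ ∃ u : Fam, Sol c b (V + a) u ∧
        LNd δ (u - v) ≤ ENNReal.ofReal ee := by
  have hvW : WDom a0 v := hv.dom
  obtain ⟨β, hβs, hβ⟩ := hv.dom
  have hβ0 : ∀ k, 0 ≤ β k := fun k => (norm_nonneg _).trans (hβ k 0)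
  have hvSt : St v := ⟨hv.cf, fun k t => sol_div ha0 hVd hv k t, hv.z, hv.sym⟩
  have hpi := Real.pi_pos
  -- the radii
  set a1 : ℝ := a0 / 12 with ha1
  have ha1p : 0 < a1 := by positivity
  obtain ⟨Cp, hCp, hCp'⟩ := summ_poly (c := c) hc ha1p.le ha0
  set M1 : ℝ := ∑' k, om a0 k * β k
  have hM1 : 0 ≤ M1 := tsum_nonneg fun k => mul_nonneg (om_pos _ _).le (hβ0 k)
  set R : ℝ := 1 + 4 * M1 + Cp * M1 with hR
  have hR0 : 0 < R := by positivity
  set KL := (P0 c).KL with hKLd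
  set KB := (P0 c).KB with hKBd
  have hCC : 1 ≤ (P0 c).CC := by
    have hs := Real.sqrt_pos.2 hc
    show 1 ≤ 1 + 1 / c + 2 / Real.sqrt c + 2 / c ^ 2 + 2 / (c * Real.sqrt c)
      + (2 + 1 / c) / Real.sqrt c
    have h1 : 0 ≤ 1 / c := by positivity
    have h2 : 0 ≤ 2 / Real.sqrt c := by positivity
    have h3 : 0 ≤ 2 / c ^ 2 := by positivity
    have h4 : 0 ≤ 2 / (c * Real.sqrt c) := by positivity
    have h5 : 0 ≤ (2 + 1 / c) / Real.sqrt c := by positivity
    linarith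
  have hKL : 0 < KL := by
    show 0 < 48 * Real.pi * (3 + c * (P0 c).CC) + 192 * Real.pi ^ 2
    positivity
  have hKB : 0 < KB := by
    show 0 < 48000 * Real.pi ^ 3 * (P0 c).CC ^ 2
    positivity
  -- the time
  set T : ℝ := min 1 ((1 / (16 * KB * R)) ^ 2) with hTd
  have hT : 0 < T := lt_min one_pos (by positivity)
  have hT1 : T ≤ 1 := min_le_left _ _
  have hTs : 4 * KB * R * Real.sqrt T ≤ 1 / 4 := by
    have h1 : Real.sqrt T ≤ 1 / (16 * KB * R) := by
      calc Real.sqrt T ≤ Real.sqrt ((1 / (16 * KB * R)) ^ 2) := Real.sqrt_le_sqrt (min_le_right _ _)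
        _ = _ := Real.sqrt_sq (by positivity)
    calc 4 * KB * R * Real.sqrt T ≤ 4 * KB * R * (1 / (16 * KB * R)) := mul_le_mul_of_nonneg_left h1 (by positivity)
      _ = 1 / 4 := by field_simp; norm_num
  -- stability from the time `T` on
  have hvT := Sol.shf ha0 hT.le hv
  obtain ⟨ε0, hε0, hstab⟩ := stab hc ha0 (half_pos hee) hvT
  -- the constants at the end
  set KE : ℝ := 4 / (c * T) + (4 * KL * R + 20 * KB * R ^ 2) + 16 * Real.pi * R
    + 16 * Real.pi * R / (Real.sqrt c * (c * T)) with hKE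
  have hsc := Real.sqrt_pos.2 hc
  have hKE0 : 0 < KE := by positivity
  set KD : ℝ := 4 / (c * δ) + (4 * KL * R + 20 * KB * R ^ 2) + 16 * Real.pi * R
    + 16 * Real.pi * R / (Real.sqrt c * (c * δ)) with hKD
  have hKD0 : 0 < KD := by positivity
  set μ0 : ℝ := min (1 / (4 * (2 * KL + 12 * KB * R))) (min (ε0 / KE) (ee / 2 / KD)) with hμ0d
  have hμ0 : 0 < μ0 := lt_min (by positivity) (lt_min (by positivity) (by positivity))
  have hμ1 : (2 * KL + 12 * KB * R) * μ0 ≤ 1 / 4 := by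
    have h1 : μ0 ≤ 1 / (4 * (2 * KL + 12 * KB * R)) := min_le_left _ _
    calc (2 * KL + 12 * KB * R) * μ0 ≤ (2 * KL + 12 * KB * R) * (1 / (4 * (2 * KL + 12 * KB * R))) :=
          mul_le_mul_of_nonneg_left h1 (by positivity)
      _ = 1 / 4 := by field_simp
  have hμ2 : μ0 * KE ≤ ε0 := by
    have h1 : μ0 ≤ ε0 / KE := (min_le_right _ _).trans (min_le_left _ _)
    rwa [le_div_iff₀ hKE0] at h1
  have hμ3 : μ0 * KD ≤ ee / 2 := by
    have h1 : μ0 ≤ ee / 2 / KD := (min_le_right _ _).trans (min_le_right _ _)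
    rwa [le_div_iff₀ hKD0] at h1
  set κ : ℝ := max 1 (2 / μ0) with hκd
  have hκ1 : 1 ≤ κ := le_max_left _ _
  have hκ0 : 0 < κ := lt_of_lt_of_le one_pos hκ1
  have hκμ : 1 / κ ≤ μ0 / 2 := by
    have h1 : 2 / μ0 ≤ κ := le_max_right _ _
    rw [div_le_iff₀ hμ0] at h1
    rw [div_le_iff₀ hκ0]
    linarith
  refine ⟨min (min (μ0 / 2) 1) (a1 * c / (2 * κ)), by positivity, fun η S a hη hline hne hperp hsupp hsym hX => ?_⟩
  have hX1 : ∑ l ∈ S, ‖a l‖ / sq l ≤ μ0 / 2 := hX.trans ((min_le_left _ _).trans (min_le_left _ _))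
  have hX2 : ∑ l ∈ S, ‖a l‖ / sq l ≤ 1 := hX.trans ((min_le_left _ _).trans (min_le_right _ _))
  have hX3 : ∑ l ∈ S, ‖a l‖ / sq l ≤ a1 * c / (2 * κ) := hX.trans (min_le_right _ _)
  have hL1 : 0 ≤ ∑ l ∈ S, l1 l := Finset.sum_nonneg fun l _ => l1_nonneg l
  set b : ℝ := min (a0 / 4) (Real.log 2 / (1 + ∑ l ∈ S, l1 l)) with hbd
  have hlog : 0 < Real.log 2 := Real.log_pos (by norm_num)
  have hb : 0 < b := lt_min (by positivity) (by positivity)
  have hb4 : b ≤ a0 / 4 := min_le_left _ _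
  have hbS : ∀ l ∈ S, om b l ≤ 2 := by
    intro l hl
    have h1 : l1 l ≤ ∑ l ∈ S, l1 l := Finset.single_le_sum (f := l1) (fun l _ => l1_nonneg l) hl
    have h2 : b ≤ Real.log 2 / (1 + ∑ l ∈ S, l1 l) := min_le_right _ _
    rw [le_div_iff₀ (by positivity)] at h2
    unfold om
    calc Real.exp (b * l1 l) ≤ Real.exp (Real.log 2) := by
          apply Real.exp_le_exp.2
          nlinarith [l1_nonneg l]
      _ = 2 := Real.exp_log (by norm_num)
  set P : Pm := ⟨c, η, S, a, a1, κ, b, T⟩ with hPd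
  have hPX : P.X2 = ∑ l ∈ S, ‖a l‖ / sq l := rfl
  have hP : P.OK := by
    refine ⟨hc, hη, hline, hne, hperp, hsupp, hsym, ha1p.le, hκ1, hb.le, hT, hT1, ?_, hbS, hX2⟩
    show κ * (2 / c * P.X2) ≤ a1
    rw [hPX]
    calc κ * (2 / c * ∑ l ∈ S, ‖a l‖ / sq l) ≤ κ * (2 / c * (a1 * c / (2 * κ))) := by gcongr
      _ = a1 := by field_simp
  have hμ : P.μ ≤ μ0 := by
    show 1 / κ + P.X2 ≤ μ0
    rw [hPX]; linarith
  have hμP := μ_nonneg hP
  have hSm : Sm P R := by
    refine ⟨hR0, ?_⟩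
    show 2 * KL * P.μ + 4 * KB * R * Real.sqrt T + 12 * KB * R * P.μ ≤ 1 / 2
    have h1 : (2 * KL + 12 * KB * R) * P.μ ≤ (2 * KL + 12 * KB * R) * μ0 :=
      mul_le_mul_of_nonneg_left hμ (by positivity)
    linarith
  -- the norms of the data and of `v`
  have h3a : 3 * P.a1 + P.b ≤ a0 / 2 := by
    show 3 * a1 + b ≤ a0 / 2
    rw [ha1]; linarith
  have hom2 : ∀ k, om (3 * P.a1 + P.b) k ≤ om (a0 / 2) k := fun k => om_mono h3a k
  have hV0 : ∀ k, V k = v k 0 := fun k => (Sol.at_zero hv k).symm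
  have hz : V 0 = 0 := by rw [hV0]; exact hv.z 0
  have hVs : Sym V := by
    intro k i
    rw [hV0, hV0]; exact hv.sym 0 k i
  have hHe : EN P (He P V) ≤ ENNReal.ofReal (R / 2) := by
    refine (EN_He_le hP V).trans ?_
    have h1 : ∀ k, ENNReal.ofReal (P.W 0 k) * ‖V k‖ₑ ≤ ENNReal.ofReal (om a0 k * β k) := by
      intro k
      rw [← ofReal_norm, ← ENNReal.ofReal_mul (W_pos P 0 k).le]
      apply ENNReal.ofReal_le_ofReal
      have h2 : P.W 0 k ≤ om a0 k := (W_le_om hP le_rfl k).trans ((hom2 k).trans (om_mono (by linarith) k))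
      have h3 : ‖V k‖ ≤ β k := by rw [hV0]; exact hβ k 0
      exact mul_le_mul h2 h3 (norm_nonneg _) (om_pos _ _).le
    refine (mul_le_mul' le_rfl (ENNReal.tsum_le_tsum h1)).trans ?_
    rw [← ENNReal.ofReal_tsum_of_nonneg (fun k => mul_nonneg (om_pos _ _).le (hβ0 k)) hβs,
      show (2 : ℝ≥0∞) = ENNReal.ofReal 2 by simp, ← ENNReal.ofReal_mul (by norm_num)]
    apply ENNReal.ofReal_le_ofReal
    have : 0 ≤ Cp * M1 := by positivity
    rw [hR]
    show 2 * M1 ≤ _
    linarith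
  have hvE : EN P (clf P v) ≤ ENNReal.ofReal R := by
    have hq : ∀ k, (1 + P.c * sq k + P.a1 * pp P.η k) * (om (3 * P.a1 + P.b) k * β k)
        ≤ Cp * (om a0 k * β k) := by
      intro k
      have h1 := pp_le_nk hP.hη k
      have h2 := sq_nonneg' k
      have h3 := nk_nonneg k
      have h4 := hβ0 k
      have h5 := pp_nonneg P.η k
      have hom := om_pos (3 * P.a1 + P.b) k
      have hPc : P.c = c := rfl
      have hPa : P.a1 = a1 := rfl
      rw [hPc]
      calc (1 + c * sq k + P.a1 * pp P.η k) * (om (3 * P.a1 + P.b) k * β k)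
          ≤ (1 + c * sq k + a1 * (3 * nk k)) * (om (a0 / 2) k * β k) := by
            apply mul_le_mul _ (mul_le_mul_of_nonneg_right (hom2 k) h4) (by positivity) (by positivity)
            have := mul_le_mul_of_nonneg_left h1 ha1p.le
            rw [hPa]; linarith
        _ = ((1 + c * sq k + a1 * (3 * nk k)) * om (a0 / 2) k) * β k := by ring
        _ ≤ (Cp * om a0 k) * β k := mul_le_mul_of_nonneg_right (hCp' k) h4
        _ = _ := by ring
    have hq0 : ∀ k, 0 ≤ (1 + P.c * sq k + P.a1 * pp P.η k) * (om (3 * P.a1 + P.b) k * β k) := by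
      intro k
      have h2 := sq_nonneg' k
      have h4 := hβ0 k
      have h5 := pp_nonneg P.η k
      have hom := om_pos (3 * P.a1 + P.b) k
      have h6 := hP.hc
      have h7 := hP.ha1
      positivity
    have hs2 : Summable fun k => (1 + P.c * sq k + P.a1 * pp P.η k) * (om (3 * P.a1 + P.b) k * β k) :=
      (hβs.mul_left Cp).of_nonneg_of_le hq0 hq
    refine EN_clf_le hP hβ hs2 ((hs2.tsum_le_tsum hq (hβs.mul_left Cp)).trans ?_)
    rw [tsum_mul_left, hR]
    show Cp * M1 ≤ _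
    linarith
  obtain ⟨U, hU, hUR, hfix⟩ := fixpoint hP hVd hz hVs hSm hHe
  have hst1 := stage1 hP hU hfix
  set u1 := Ac P + wz P U U with hu1
  have hveq : ∀ k, ∀ t ∈ Icc 0 P.T, v k t = Real.exp (-(P.c * sq k * t)) • V k + Duh P.c (Bt v) k t :=
    (Sol.lsol hv P.T).eq
  have hend := end_le hP hSm hU hUR hfix hvSt hvE hveq
  set e : K → C3 := at' u1 T - at' v T with he
  have heN : NW (Wm b) e ≤ ENNReal.ofReal ε0 := by
    refine hend.trans (ENNReal.ofReal_le_ofReal ?_)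
    show P.μ * KE ≤ ε0
    exact (mul_le_mul_of_nonneg_right hμ hKE0.le).trans hμ2
  have he0 : e 0 = 0 := by
    show u1 0 T - v 0 T = 0
    rw [hst1.z, hv.z, sub_zero]
  have hes : Sym e := (hst1.sym T).sub (hv.sym T)
  have hew : Summable fun k => om b k * ‖e k‖ := by
    have s1 := Aw_summ (show WDom b u1 from hst1.dom) T
    have s2 := Aw_summ (hvW.mono (by linarith : b ≤ a0)) T
    refine (s1.add s2).of_nonneg_of_le (fun k => mul_nonneg (om_pos _ _).le (norm_nonneg _)) fun k => ?_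
    rw [← mul_add]
    exact mul_le_mul_of_nonneg_left (norm_sub_le _ _) (om_pos _ _).le
  obtain ⟨u2, hu2, hu2c⟩ := hstab b hb (by linarith) e he0 hes hew heN
  have e2 : at' v T + e = at' u1 T := by rw [he]; abel
  rw [e2] at hu2
  have hglue := glue (half_pos hb) hT.le (LSol.mono (by linarith : b / 2 ≤ b) hst1) hu2
  refine ⟨b / 2, half_pos hb, gl T u1 u2, hglue, ?_⟩
  -- closeness
  have hD := diff_le hP hSm hU hUR hfix hvSt hvE hveq
  have hclose : ∀ t ∈ Ioc 0 T, δ < t → NW (Wa 0) (at' (gl T u1 u2 - v) t) ≤ ENNReal.ofReal (ee / 2) := by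
    intro t ht htδ
    have ht' : t ∈ Icc 0 P.T := Ioc_subset_Icc_self ht
    have e3 : at' (gl T u1 u2 - v) t = at' (Ac P + (U - clf P v) + TAf P (Yo P U)) t := by
      funext k
      show gl T u1 u2 k t - v k t = (Ac P k t + (U k t - v k (cl P.T t))) + TAf P (Yo P U) k t
      rw [gl_left T u1 u2 k (Ioc_subset_Icc_self ht), cl_of_mem ht']
      show (Ac P k t + (U k t + TAf P (Yo P U) k t)) - v k t = _
      abel
    rw [e3]
    have h1 : NW (Wa 0) (at' (Ac P + (U - clf P v) + TAf P (Yo P U)) t)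
        ≤ s0 P (Ac P + (U - clf P v) + TAf P (Yo P U)) t := by
      unfold NW s0
      refine ENNReal.tsum_le_tsum fun k => ?_
      refine le_trans (mul_le_mul' ?_ le_rfl) (om_enorm_le hP _ k t)
      unfold Wa
      exact ENNReal.ofReal_le_ofReal (om_mono hb.le k)
    have hB := (Bd_TA hP hU.st.cf (hU.st.Yo hP).dv hR0.le hUR).s t ht
    have hg0 := g_nonneg P t
    have hgt : P.g t ≤ 2 / (c * δ) * P.μ := by
      have h2 : P.g t ≤ P.g δ := g_anti hP htδ.le
      have h3 : P.g δ ≤ 2 / (c * δ) * P.X2 := by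
        unfold Pm.g Pm.X2
        rw [Finset.mul_sum]
        refine Finset.sum_le_sum fun l hl => ?_
        have hs := sq_pos (hP.ne l hl)
        have h1 : Real.exp (-(P.c * sq l / 2 * δ)) ≤ 1 / (P.c * sq l / 2 * δ) := by
          have hcP := hP.hc
          have hx : 0 < P.c * sq l / 2 * δ := by positivity
          rw [Real.exp_neg, ← one_div]
          apply one_div_le_one_div_of_le hx
          have := Real.add_one_le_exp (P.c * sq l / 2 * δ)
          linarith
        calc ‖P.a l‖ * Real.exp (-(P.c * sq l / 2 * δ)) ≤ ‖P.a l‖ * (1 / (P.c * sq l / 2 * δ)) :=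
              mul_le_mul_of_nonneg_left h1 (norm_nonneg _)
          _ = 2 / (c * δ) * (‖P.a l‖ / sq l) := by
              show ‖P.a l‖ * (1 / (c * sq l / 2 * δ)) = _
              field_simp
      exact h2.trans (h3.trans (mul_le_mul_of_nonneg_left (X2_le_μ hP) (by positivity)))
    have hA : s0 P (Ac P) t ≤ ENNReal.ofReal (2 * P.g t) := by
      have h1 : s0 P (Ac P) t = ∑ l ∈ P.S, ph P (Ac P) l t := by
        unfold s0
        refine tsum_eq_sum fun l hl => ?_
        unfold ph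
        have : Ac P l t = 0 := (Ac_sh hP t).supp l hl
        rw [this]; simp
      rw [h1]
      have h2 : ∀ l ∈ P.S, ph P (Ac P) l t ≤ ENNReal.ofReal (2 * ‖P.A l t‖) := by
        intro l hl
        rw [ph_eq]
        apply ENNReal.ofReal_le_ofReal
        have e : Ac P l t = P.A l t := by
          show P.A l (cl P.T t) = _
          rw [cl_of_mem ht']
        rw [e]
        exact mul_le_mul_of_nonneg_right (W_S hP _ hl) (norm_nonneg _)
      refine (Finset.sum_le_sum h2).trans ?_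
      rw [← ENNReal.ofReal_sum_of_nonneg fun l _ => by positivity, ← Finset.mul_sum, h0_eq P ht.1.le]
      apply ENNReal.ofReal_le_ofReal
      have := h0_le hP ht.1.le
      linarith
    refine h1.trans ((s0_add_le _ _ _).trans ((add_le_add ((s0_add_le _ _ _).trans
      (add_le_add hA ((s0_le_EN ht').trans hD))) hB).trans ?_))
    have hst0 := Real.sqrt_nonneg t
    have hst1 : Real.sqrt t ≤ 1 := (Real.sqrt_le_sqrt ht.2).trans (sT_le hP)
    have hPKL : P.KL = KL := rfl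
    have hPKB : P.KB = KB := rfl
    have hPc : P.c = c := rfl
    rw [hPKL, hPKB, hPc, ← ENNReal.ofReal_add (by positivity) (by positivity),
      ← ENNReal.ofReal_add (by positivity) (by positivity)]
    apply ENNReal.ofReal_le_ofReal
    have h5 : Real.sqrt t * P.g t ≤ 2 / (c * δ) * P.μ := by
      calc Real.sqrt t * P.g t ≤ 1 * P.g t := mul_le_mul_of_nonneg_right hst1 hg0
        _ ≤ _ := by rw [one_mul]; exact hgt
    have h6 : 8 * Real.pi / Real.sqrt c * R * (Real.sqrt t * P.g t)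
        ≤ 8 * Real.pi / Real.sqrt c * R * (2 / (c * δ) * P.μ) :=
      mul_le_mul_of_nonneg_left h5 (by positivity)
    have h7 : P.μ * KD = 2 * (2 / (c * δ) * P.μ) + P.μ * (4 * KL * R + 20 * KB * R ^ 2)
        + (16 * Real.pi * P.μ * R + 8 * Real.pi / Real.sqrt c * R * (2 / (c * δ) * P.μ)) := by
      rw [hKD]
      field_simp
      ring
    have h8 : P.μ * KD ≤ ee / 2 := (mul_le_mul_of_nonneg_right hμ hKD0.le).trans hμ3
    linarith
  have hcfd : CF (gl T u1 u2 - v) := fun k => (hglue.cf k).sub (hv.cf k)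
  have mN : Measurable fun t => NW (Wa 0) (at' (gl T u1 u2 - v) t) := NW_meas _ hcfd
  unfold LNd
  set φ1 : ℝ → ℝ≥0∞ := (Ioc 0 T).indicator fun _ => ENNReal.ofReal (ee / 2)
  set φ2 : ℝ → ℝ≥0∞ := (Ioi T).indicator fun t => NW (Wa 0) (at' (gl T u1 u2 - v) t)
  have m1 : Measurable φ1 := measurable_const.indicator measurableSet_Ioc
  have m2 : Measurable φ2 := mN.indicator measurableSet_Ioi
  have hle : LN (fun t => (Ioi δ).indicator (fun t => NW (Wa 0) (at' (gl T u1 u2 - v) t)) t)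
      ≤ LN (fun t => φ1 t + φ2 t) := by
    refine LN_mono fun t ht => ?_
    by_cases htδ : δ < t
    · rw [indicator_of_mem (show t ∈ Ioi δ from htδ)]
      by_cases htT : t ≤ T
      · refine le_trans ?_ le_self_add
        simp only [φ1]
        rw [indicator_of_mem (show t ∈ Ioc 0 T from ⟨ht, htT⟩)]
        exact hclose t ⟨ht, htT⟩ htδ
      · refine le_trans ?_ le_add_self
        simp only [φ2]
        rw [indicator_of_mem (show t ∈ Ioi T from not_le.1 htT)]
    · rw [indicator_of_notMem (show t ∉ Ioi δ from htδ)]; exact zero_le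
  refine hle.trans ((LN_add_le m1 m2).trans ?_)
  have h1 : LN φ1 ≤ ENNReal.ofReal (ee / 2) := by
    unfold LN
    calc (∫⁻ t in Ioi 0, φ1 t ^ (2 : ℝ)) ^ (1 / 2 : ℝ)
        ≤ (∫⁻ t in Ioc 0 T, ENNReal.ofReal (ee / 2) ^ (2 : ℝ)) ^ (1 / 2 : ℝ) := by
          apply ENNReal.rpow_le_rpow _ (by norm_num)
          rw [← lintegral_indicator measurableSet_Ioc]
          refine (setLIntegral_le_lintegral _ _).trans (lintegral_mono fun t => ?_)
          simp only [φ1]
          by_cases h : t ∈ Ioc 0 T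
          · rw [indicator_of_mem h, indicator_of_mem h]
          · rw [indicator_of_notMem h, indicator_of_notMem h]; simp
      _ ≤ (ENNReal.ofReal (ee / 2) ^ (2 : ℝ)) ^ (1 / 2 : ℝ) := by
          apply ENNReal.rpow_le_rpow _ (by norm_num)
          rw [setLIntegral_const, Real.volume_Ioc, sub_zero]
          calc _ ≤ ENNReal.ofReal (ee / 2) ^ (2 : ℝ) * 1 := by
                apply mul_le_mul' le_rfl
                rw [ENNReal.ofReal_le_one]; exact hT1
            _ = _ := mul_one _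
      _ = _ := by rw [← ENNReal.rpow_mul]; norm_num
  have h2 : LN φ2 ≤ ENNReal.ofReal (ee / 2) := by
    refine le_trans ?_ hu2c
    unfold LN
    apply ENNReal.rpow_le_rpow _ (by norm_num)
    rw [← lint_shift (fun t => NW (Wa 0) (at' (u2 - shf T v) t) ^ (2 : ℝ)) T]
    have e4 : ∫⁻ t in Ioi 0, φ2 t ^ (2 : ℝ) ≤ ∫⁻ t in Ioi T, NW (Wa 0) (at' (gl T u1 u2 - v) t) ^ (2 : ℝ) := by
      rw [← lintegral_indicator measurableSet_Ioi (μ := volume) (s := Ioi T)]
      refine (setLIntegral_le_lintegral _ _).trans (lintegral_mono fun t => ?_)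
      simp only [φ2]
      by_cases h : t ∈ Ioi T
      · rw [indicator_of_mem h, indicator_of_mem h]
      · rw [indicator_of_notMem h, indicator_of_notMem h]; simp
    refine e4.trans (le_of_eq (setLIntegral_congr_fun measurableSet_Ioi fun t ht => ?_))
    have e5 : at' (gl T u1 u2 - v) t = at' (u2 - shf T v) (t - T) := by
      funext k
      show gl T u1 u2 k t - v k t = u2 k (t - T) - v k (T + max (t - T) 0)
      rw [gl_right hT.le hu2 k (le_of_lt ht), max_eq_left (sub_nonneg.2 (le_of_lt ht)), add_sub_cancel]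
    simp only [e5]
  refine (add_le_add h1 h2).trans (le_of_eq ?_)
  rw [← ENNReal.ofReal_add (half_pos hee).le (half_pos hee).le, add_halves]

end Pool.Agent.H356R3.NS.SW
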