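import Pool.Agent.Helper19.SW.Uniq
import Pool.Agent.H356R3.NS.Four2
import Pool.Agent.H459R3.NS.Sol

/-!
# From smooth periodic solutions to families of Fourier coefficients
-/

open MeasureTheory Set Filter Topology
open scoped ENNReal NNReal ContDiff

namespace Pool.Agent.H356R3.NS.SW

open H459R3.NS (IsSol fr ee cube SP Per lap K3 S Rap)

lemma isSol_of_adm {ν : ℝ} {v : R3 → R3} {u : ℝ → R3 → R3} {p : ℝ → R3 → ℝ}
    (h : AdmissiblePeriodic ν v u p) (T : ℝ) : IsSol ν T u p := by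
  refine ⟨h.smooth_u.mono (prod_mono Ico_subset_Ici_self subset_rfl),
    h.smooth_p.mono (prod_mono Ico_subset_Ici_self subset_rfl),
    fun t ht i x => h.periodic_u t ht.1 x i, fun t ht i x => h.periodic_p t ht.1 x i,
    fun t ht x => h.divFree t ht.1 x, fun t ht x i => ?_⟩
  have := h.momentum t ht.1.le x i
  rw [derivWithin_of_mem_nhds (Ici_mem_nhds ht.1)] at this
  exact this

lemma ee_eq_ex (k : K) (x : E3) : ee k x = ex k x := by
  unfold ee ex H459R3.NS.ph
  congr 2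
  push_cast
  rfl

lemma fr_eq_fc (v : R3 → R3) (k : K) (i : Fin 3) : fr (fun y => v y i) k = fc v k i := by
  rw [fc_eq]
  unfold fr H459R3.NS.fc
  refine integral_congr_ae (Filter.Eventually.of_forall fun x => ?_)
  simp only [ee_eq_ex]
  ring

section gen

variable {E : Type*} [NormedAddCommGroup E] [NormedSpace ℝ E] [CompleteSpace E] {T : ℝ}

theorem hasDerivAt_sliceE {F : ℝ → R3 → E}
    (hF : ContDiffOn ℝ 1 (fun z : ℝ × R3 => F z.1 z.2) (Ioo 0 T ×ˢ univ)) {t : ℝ}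
    (ht : t ∈ Ioo 0 T) (x : R3) :
    HasDerivAt (fun s => F s x) (fderiv ℝ (fun z : ℝ × R3 => F z.1 z.2) (t, x) (1, 0)) t := by
  have hmem : Ioo 0 T ×ˢ (univ : Set R3) ∈ 𝓝 (t, x) :=
    prod_mem_nhds (Ioo_mem_nhds ht.1 ht.2) Filter.univ_mem
  have h1 : DifferentiableAt ℝ (fun z : ℝ × R3 => F z.1 z.2) (t, x) :=
    (hF.contDiffAt hmem).differentiableAt one_ne_zero
  have h2 : HasDerivAt (fun s : ℝ => ((s, x) : ℝ × R3)) (1, 0) t :=
    (hasDerivAt_id t).prodMk (hasDerivAt_const t x)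
  exact h1.hasFDerivAt.comp_hasDerivAt t h2

theorem hasDerivAt_intE {F : ℝ → R3 → E}
    (hF : ContDiffOn ℝ 1 (fun z : ℝ × R3 => F z.1 z.2) (Ioo 0 T ×ˢ univ)) {t : ℝ}
    (ht : t ∈ Ioo 0 T) :
    HasDerivAt (fun s => ∫ x in cube, F s x) (∫ x in cube, deriv (fun s => F s x) t) t := by
  obtain ⟨a, ha1, ha2⟩ := exists_between ht.1
  obtain ⟨b, hb1, hb2⟩ := exists_between ht.2
  have hO : IsOpen (Ioo 0 T ×ˢ (univ : Set R3)) := isOpen_Ioo.prod isOpen_univ
  have hd : ContinuousOn (fun z : ℝ × R3 =>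
      fderiv ℝ (fun z : ℝ × R3 => F z.1 z.2) z (1, 0)) (Ioo 0 T ×ˢ univ) :=
    (hF.continuousOn_fderiv_of_isOpen hO le_rfl).clm_apply continuousOn_const
  have hK : IsCompact (Icc a b ×ˢ cube) := isCompact_Icc.prod isCompact_Icc
  have hsub : Icc a b ×ˢ cube ⊆ Ioo 0 T ×ˢ (univ : Set R3) :=
    prod_mono (fun s hs => ⟨ha1.trans_le hs.1, hs.2.trans_lt hb2⟩) (subset_univ _)
  obtain ⟨C, hC⟩ := hK.exists_bound_of_continuousOn (hd.mono hsub)
  have hslice : ∀ s ∈ Ioo 0 T, Continuous (fun x => F s x) := fun s hs => by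
    have := hF.continuousOn.comp_continuous (f := fun x : R3 => ((s, x) : ℝ × R3)) (by fun_prop)
      (fun x => ⟨hs, mem_univ _⟩)
    exact this
  have hnh : Icc a b ∈ 𝓝 t := Icc_mem_nhds ha2 hb1
  have hmeas : MeasurableSet cube := measurableSet_Icc
  have := H459R3.NS.cube_finite
  have key := (hasDerivAt_integral_of_dominated_loc_of_deriv_le (s := Icc a b)
    (F := fun s x => F s x) (F' := fun s x =>
      fderiv ℝ (fun z : ℝ × R3 => F z.1 z.2) (s, x) (1, 0))
    (bound := fun _ => C) (μ := volume.restrict cube) hnh ?_ ?_ ?_ ?_ ?_ ?_).2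
  · have e : (∫ x in cube, deriv (fun s => F s x) t)
        = ∫ x in cube, fderiv ℝ (fun z : ℝ × R3 => F z.1 z.2) (t, x) (1, 0) := by
      congr 1
      funext x
      exact (hasDerivAt_sliceE hF ht x).deriv
    rw [e]
    exact key
  · filter_upwards [Ioo_mem_nhds ht.1 ht.2] with s hs
    exact (hslice s hs).aestronglyMeasurable
  · exact H459R3.NS.integrableOn_cube (hslice t ht)
  · have : Continuous (fun x => fderiv ℝ (fun z : ℝ × R3 => F z.1 z.2) (t, x) (1, 0)) := by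
      have h := hd.comp_continuous (f := fun x : R3 => ((t, x) : ℝ × R3)) (by fun_prop)
        (fun x => ⟨ht, mem_univ _⟩)
      exact h
    exact this.aestronglyMeasurable
  · refine (ae_restrict_iff' hmeas).2 (Filter.Eventually.of_forall fun x hx s hs => ?_)
    exact hC (s, x) ⟨hs, hx⟩
  · exact integrable_const _
  · refine Filter.Eventually.of_forall fun x s hs => ?_
    exact hasDerivAt_sliceE hF ⟨ha1.trans_le hs.1, hs.2.trans_lt hb2⟩ x

end gen

variable {ν T : ℝ} {u : ℝ → R3 → R3} {p : ℝ → R3 → ℝ}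

/-- the time derivative of a Fourier coefficient -/
lemma fr_deriv (h : IsSol ν T u p) (i : Fin 3) (k : K) {t : ℝ} (ht : t ∈ Ioo 0 T) :
    HasDerivAt (fun s => fr (fun y => u s y i) k) (fr (H459R3.NS.dt (fun s y => u s y i) t) k) t := by
  have h1 : ContDiffOn ℝ 1 (fun z : ℝ × R3 => ee (-k) z.2 * ((u z.1 z.2 i : ℝ) : ℂ)) (Ioo 0 T ×ˢ univ) := by
    have h2 : ContDiffOn ℝ 1 (fun z : ℝ × R3 => u z.1 z.2 i) (Ioo 0 T ×ˢ univ) :=
      (H459R3.NS.mono_Ioo (f := fun t y => u t y i) (h.smooth_c i) (by norm_cast))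
    have h3 : ContDiff ℝ 1 (fun z : ℝ × R3 => ee (-k) z.2) :=
      (H459R3.NS.ee_contDiff (-k)).comp contDiff_snd
    exact h3.contDiffOn.mul (Complex.ofRealCLM.contDiff.comp_contDiffOn h2)
  have h4 := hasDerivAt_intE (F := fun s y => ee (-k) y * ((u s y i : ℝ) : ℂ)) h1 ht
  refine h4.congr_deriv ?_
  unfold fr H459R3.NS.fc
  refine integral_congr_ae (Filter.Eventually.of_forall fun x => ?_)
  simp only
  have h5 := H459R3.NS.hasDerivAt_slice (F := fun s y => u s y i)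
    (H459R3.NS.mono_Ioo (f := fun t y => u t y i) (h.smooth_c i) (by norm_cast)) ht x
  have h6 : HasDerivAt (fun s => ((u s x i : ℝ) : ℂ)) ((H459R3.NS.dt (fun s y => u s y i) t x : ℝ) : ℂ) t := by
    unfold H459R3.NS.dt
    rw [h5.deriv]
    exact h5.ofReal_comp
  exact (h6.const_mul (ee (-k) x)).deriv

end Pool.Agent.H356R3.NS.SW
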