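import Pool.Agent.Helper19.SW.Phy1
import Pool.Agent.H459R3.NS.Main

/-!
# The equation for the Fourier coefficients of a smooth periodic solution
-/

open MeasureTheory Set Filter Topology
open scoped ENNReal NNReal ContDiff

namespace Pool.Agent.H356R3.NS.SW

open H459R3.NS (IsSol fr ee cube SP Per lap K3 S Rap)

variable {ν T : ℝ} {u : ℝ → R3 → R3} {p : ℝ → R3 → ℝ}

lemma sp_sub {f g : R3 → ℝ} (hf : SP f) (hg : SP g) : SP (fun x => f x - g x) where
  smooth := hf.smooth.sub hg.smooth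
  per := fun i x => by simp only [hf.per i x, hg.per i x]

lemma fr_sub' {f g : R3 → ℝ} (hf : SP f) (hg : SP g) (k : K) :
    fr (fun x => f x - g x) k = fr f k - fr g k := by
  unfold fr H459R3.NS.fc
  have h1 : IntegrableOn (fun x => ee (-k) x * (f x : ℂ)) cube :=
    H459R3.NS.integrableOn_cube ((H459R3.NS.ee_continuous _).mul (Complex.continuous_ofReal.comp hf.cont))
  have h2 : IntegrableOn (fun x => ee (-k) x * (g x : ℂ)) cube :=
    H459R3.NS.integrableOn_cube ((H459R3.NS.ee_continuous _).mul (Complex.continuous_ofReal.comp hg.cont))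
  rw [← integral_sub h1 h2]
  refine integral_congr_ae (Filter.Eventually.of_forall fun x => ?_)
  push_cast
  ring

lemma fr_smul' (c : ℝ) (f : R3 → ℝ) (k : K) : fr (fun x => c * f x) k = c * fr f k := by
  unfold fr H459R3.NS.fc
  rw [← integral_const_mul]
  refine integral_congr_ae (Filter.Eventually.of_forall fun x => ?_)
  push_cast
  ring

lemma fr_lap {f : R3 → ℝ} (hf : SP f) (k : K) : fr (lap f) k = -(4 * Real.pi ^ 2 * sq k : ℝ) * fr f k := by
  have h1 : fr (lap f) k = ∑ j, fr (H459R3.NS.pd j (H459R3.NS.pd j f)) k :=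
    H459R3.NS.fr_sum (f := fun j => H459R3.NS.pd j (H459R3.NS.pd j f)) (fun j _ => (hf.pd j).pd j) k
  rw [h1]
  have h2 : ∀ j, fr (H459R3.NS.pd j (H459R3.NS.pd j f)) k
      = (2 * Real.pi * Complex.I * (k j : ℂ)) ^ 2 * fr f k := by
    intro j
    rw [H459R3.NS.fr_pd (hf.pd j), H459R3.NS.fr_pd hf]
    unfold H459R3.NS.D
    ring
  simp only [h2]
  rw [← Finset.sum_mul]
  congr 1
  unfold sq
  push_cast
  rw [Finset.mul_sum, ← Finset.sum_neg_distrib]
  refine Finset.sum_congr rfl fun j _ => ?_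
  have : Complex.I ^ 2 = -1 := Complex.I_sq
  linear_combination (4 * (Real.pi : ℂ) ^ 2 * (k j : ℂ) ^ 2) * this

lemma fr_mul_tsum {f g : R3 → ℝ} (hf : SP f) (hg : SP g) (k : K) :
    fr (fun x => f x * g x) k = ∑' l, fr f l * fr g (k - l) := by
  have h := H459R3.NS.integral_ee_S_S (-k) (H459R3.NS.rap_fr hf).summable (H459R3.NS.rap_fr hg).summable
  have e : (∫ x in cube, ee (-k) x * (S (fr f) x * S (fr g) x)) = fr (fun x => f x * g x) k := by
    simp only [H459R3.NS.S_fr hf, H459R3.NS.S_fr hg]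
    unfold fr H459R3.NS.fc
    refine integral_congr_ae (Filter.Eventually.of_forall fun x => ?_)
    push_cast
    rfl
  rw [e] at h
  rw [← h.tsum_eq]
  simp only [neg_neg]

/-- the Fourier coefficients of a field -/
noncomputable def xf (u : ℝ → R3 → R3) (t : ℝ) : K → C3 := fun k i => fr (fun y => u t y i) k

lemma xf_eq (u : ℝ → R3 → R3) (t : ℝ) : xf u t = fc (u t) := by
  funext k i; exact fr_eq_fc (u t) k i

section at_t

variable (h : IsSol ν T u p) {t : ℝ} (ht : t ∈ Ico 0 T)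
include h ht

lemma xf_dt (k : K) : dt k (xf u t k) = 0 :=
  H459R3.NS.fr_div (v := fun i y => u t y i) (fun i => h.sp ht i) (h.divfree t ht) k

lemma xf_rap (i : Fin 3) : Rap (fun k => xf u t k i) := H459R3.NS.rap_fr (h.sp ht i)

lemma xf_sn : SN (xf u t) := by
  unfold SN
  have h1 : Summable fun k => ∑ i, ‖xf u t k i‖ := summable_sum fun i _ => by
    have := (xf_rap h ht i).summable
    exact this.norm
  refine h1.of_nonneg_of_le (fun _ => norm_nonneg _) fun k => ?_
  rw [pi_norm_le_iff_of_nonneg (Finset.sum_nonneg fun i _ => norm_nonneg _)]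
  exact fun i => Finset.single_le_sum (f := fun i => ‖xf u t k i‖) (fun i _ => norm_nonneg _) (Finset.mem_univ i)

omit h ht in
lemma xf_sym : Sym (xf u t) := by rw [xf_eq]; exact fc_sym (u t)

/-- the convection term -/
lemma fr_conv (k : K) (i : Fin 3) : fr (H459R3.NS.conv (fun i y => u t y i) i) k
    = ∑ j, (2 * Real.pi * Complex.I * (k j : ℂ)) * cv (xf u t) (xf u t) k j i := by
  have hsp : ∀ i, SP (fun y => u t y i) := fun i => h.sp ht i
  have hsn := xf_sn h ht
  have h1 : fr (H459R3.NS.conv (fun i y => u t y i) i) k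
      = ∑ j, fr (fun x => u t x j * H459R3.NS.pd j (fun y => u t y i) x) k :=
    H459R3.NS.fr_sum (f := fun j x => u t x j * H459R3.NS.pd j (fun y => u t y i) x)
      (fun j _ => (hsp j).mul ((hsp i).pd j)) k
  rw [h1]
  have h2 : ∀ j, fr (fun x => u t x j * H459R3.NS.pd j (fun y => u t y i) x) k
      = ∑' l, xf u t l j * ((2 * Real.pi * Complex.I * ((k - l) j : ℂ)) * xf u t (k - l) i) := by
    intro j
    rw [fr_mul_tsum (hsp j) ((hsp i).pd j), H459R3.NS.fr_pd (hsp i)]
    rfl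
  have hs1 : ∀ j, Summable fun l => xf u t l j * xf u t (k - l) i := fun j => summ_cv hsn hsn k j i
  have hs2 : ∀ j, Summable fun l => xf u t l j * ((2 * Real.pi * Complex.I * ((k - l) j : ℂ)) * xf u t (k - l) i) := by
    intro j
    have hD := ((H459R3.NS.rap_fr (hsp i)).D j).summable
    have hB := (xf_rap h ht j).summable
    have hM : ∀ l, ‖H459R3.NS.D j (fr fun y => u t y i) l‖ ≤ ∑' m, ‖H459R3.NS.D j (fr fun y => u t y i) m‖ :=
      fun l => hD.norm.le_tsum l fun _ _ => norm_nonneg _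
    refine Summable.of_norm_bounded (hB.norm.mul_right (∑' m, ‖H459R3.NS.D j (fr fun y => u t y i) m‖)) fun l => ?_
    rw [norm_mul]
    exact mul_le_mul_of_nonneg_left (hM (k - l)) (norm_nonneg _)
  simp only [h2]
  unfold cv
  simp only [← tsum_mul_left]
  rw [← Summable.tsum_finsetSum fun j _ => hs2 j,
    ← Summable.tsum_finsetSum fun j _ => (hs1 j).mul_left _]
  refine tsum_congr fun l => ?_
  have hd := xf_dt h ht l
  unfold dt at hd
  have h3 : ∑ j, xf u t l j * ((2 * Real.pi * Complex.I * ((k - l) j : ℂ)) * xf u t (k - l) i)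
      = ∑ j, 2 * Real.pi * Complex.I * (k j : ℂ) * (xf u t l j * xf u t (k - l) i)
        - (2 * Real.pi * Complex.I * xf u t (k - l) i) * ∑ j, (l j : ℂ) * xf u t l j := by
    rw [Finset.mul_sum, ← Finset.sum_sub_distrib]
    refine Finset.sum_congr rfl fun j _ => ?_
    simp only [Pi.sub_apply]
    push_cast
    ring
  simp only [Pi.sub_apply] at h3
  push_cast at h3
  simp only [Pi.sub_apply]
  push_cast
  rw [h3, hd, mul_zero, sub_zero]

end at_t

lemma Bf_as (x : K → C3) (k : K) (i : Fin 3) : Bf x x k i =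
    -(∑ j, (2 * Real.pi * Complex.I * (k j : ℂ)) * cv x x k j i)
      + (k i : ℂ) / ((sq k : ℝ) : ℂ) * ∑ m, (k m : ℂ) * ∑ j, (2 * Real.pi * Complex.I * (k j : ℂ)) * cv x x k j m := by
  unfold Bf coef
  have h1 : ∀ j, ∑ m, -(2 * Real.pi * Complex.I) * (k j : ℂ) *
      ((if m = i then 1 else 0) - (k i : ℂ) * (k m : ℂ) / ((sq k : ℝ) : ℂ)) * cv x x k j m
      = -((2 * Real.pi * Complex.I * (k j : ℂ)) * cv x x k j i)
        + (k i : ℂ) / ((sq k : ℝ) : ℂ) * ∑ m, (k m : ℂ) * ((2 * Real.pi * Complex.I * (k j : ℂ)) * cv x x k j m) := by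
    intro j
    have h2 : cv x x k j i = ∑ m, (if m = i then 1 else 0) * cv x x k j m := by simp
    rw [h2, Finset.mul_sum, Finset.mul_sum, ← Finset.sum_neg_distrib, ← Finset.sum_add_distrib]
    refine Finset.sum_congr rfl fun m _ => ?_
    ring
  simp only [h1]
  rw [Finset.sum_add_distrib, Finset.sum_neg_distrib, ← Finset.mul_sum]
  congr 2
  rw [Finset.sum_comm]
  refine Finset.sum_congr rfl fun m _ => ?_
  rw [Finset.mul_sum]

/-- The equation for the Fourier coefficients. -/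
theorem xf_ode (h : IsSol ν T u p) (k : K) {t : ℝ} (ht : t ∈ Ioo 0 T) :
    HasDerivAt (fun s => xf u s k) (-(4 * Real.pi ^ 2 * ν * sq k) • xf u t k + Bf (xf u t) (xf u t) k) t := by
  have hI : t ∈ Ico 0 T := ⟨ht.1.le, ht.2⟩
  have hsp : ∀ i, SP (fun y => u t y i) := fun i => h.sp hI i
  have h1 : ∀ i, HasDerivAt (fun s => xf u s k i) (fr (H459R3.NS.dt (fun s y => u s y i) t) k) t :=
    fun i => fr_deriv h i k ht
  set N : Fin 3 → ℂ := fun i => ∑ j, (2 * Real.pi * Complex.I * (k j : ℂ)) * cv (xf u t) (xf u t) k j i with hN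
  set P : ℂ := 2 * Real.pi * Complex.I * fr (p t) k with hP
  have h2 : ∀ i, fr (H459R3.NS.dt (fun s y => u s y i) t) k
      = -(4 * Real.pi ^ 2 * ν * sq k : ℝ) * xf u t k i - N i - (k i : ℂ) * P := by
    intro i
    have e1 : H459R3.NS.dt (fun s y => u s y i) t = fun x => (ν * lap (fun y => u t y i) x
        - H459R3.NS.conv (fun i y => u t y i) i x) - H459R3.NS.pd i (p t) x := by
      funext x; exact h.dt_eq ht i x
    have s1 : SP (fun x => ν * lap (fun y => u t y i) x) :=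
      ⟨contDiff_const.mul (hsp i).lap.smooth, fun j x => by rw [(hsp i).lap.per j x]⟩
    have s2 : SP (H459R3.NS.conv (fun i y => u t y i) i) := H459R3.NS.sp_conv (v := fun i y => u t y i) hsp i
    have s3 : SP (fun x => ν * lap (fun y => u t y i) x - H459R3.NS.conv (fun i y => u t y i) i x) := sp_sub s1 s2
    have s4 : SP (H459R3.NS.pd i (p t)) := (h.sp_p hI).pd i
    rw [e1, fr_sub' s3 s4, fr_sub' s1 s2, fr_smul', fr_lap (hsp i), fr_conv h hI, H459R3.NS.fr_pd (h.sp_p hI)]
    unfold H459R3.NS.D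
    rw [hN, hP]
    push_cast
    unfold xf
    ring
  -- the pressure
  have h3 : ∑ i, (k i : ℂ) * fr (H459R3.NS.dt (fun s y => u s y i) t) k = 0 := by
    have h4 : HasDerivAt (fun s => ∑ i, (k i : ℂ) * xf u s k i)
        (∑ i, (k i : ℂ) * fr (H459R3.NS.dt (fun s y => u s y i) t) k) t :=
      HasDerivAt.fun_sum fun i _ => (h1 i).const_mul _
    have h5 : (fun s => ∑ i, (k i : ℂ) * xf u s k i) =ᶠ[𝓝 t] fun _ => 0 := by
      filter_upwards [Ioo_mem_nhds ht.1 ht.2] with s hs
      exact xf_dt h ⟨hs.1.le, hs.2⟩ k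
    exact h4.unique ((hasDerivAt_const t (0 : ℂ)).congr_of_eventuallyEq h5)
  have h6 : ((sq k : ℝ) : ℂ) * P = -∑ m, (k m : ℂ) * N m := by
    simp only [h2] at h3
    have hd := xf_dt h hI k
    unfold dt at hd
    have e3 : ∑ i, (k i : ℂ) * (-(4 * Real.pi ^ 2 * ν * sq k : ℝ) * xf u t k i - N i - (k i : ℂ) * P)
        = -(4 * Real.pi ^ 2 * ν * sq k : ℝ) * ∑ i, (k i : ℂ) * xf u t k i - ∑ m, (k m : ℂ) * N m
          - (∑ i, (k i : ℂ) ^ 2) * P := by
      rw [Finset.mul_sum, Finset.sum_mul, ← Finset.sum_sub_distrib, ← Finset.sum_sub_distrib]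
      refine Finset.sum_congr rfl fun i _ => ?_
      ring
    rw [e3, hd, mul_zero, zero_sub] at h3
    have e4 : ∑ i, (k i : ℂ) ^ 2 = ((sq k : ℝ) : ℂ) := by
      unfold sq; push_cast; rfl
    rw [e4] at h3
    linear_combination -h3
  refine hasDerivAt_pi.2 fun i => ?_
  refine (h1 i).congr_deriv ?_
  rw [h2 i]
  simp only [Pi.add_apply, Pi.smul_apply]
  rw [Bf_as]
  have hNi : N i = ∑ j, (2 * Real.pi * Complex.I * (k j : ℂ)) * cv (xf u t) (xf u t) k j i := rfl
  have hNm : ∑ m, (k m : ℂ) * N m = ∑ m, (k m : ℂ) * ∑ j, (2 * Real.pi * Complex.I * (k j : ℂ)) *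
    cv (xf u t) (xf u t) k j m := rfl
  rw [← hNi, ← hNm, Complex.real_smul]
  by_cases hk : k = 0
  · subst hk
    simp
    ring
  · have hs : ((sq k : ℝ) : ℂ) ≠ 0 := by exact_mod_cast (sq_pos hk).ne'
    have h7 : P = -(∑ m, (k m : ℂ) * N m) / ((sq k : ℝ) : ℂ) := by
      rw [eq_div_iff hs, mul_comm]; exact h6
    rw [h7]
    push_cast
    ring

end Pool.Agent.H356R3.NS.SW
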