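import Pool.Agent.Helper19.SW.Phy2

/-!
# Uniform decay of the Fourier coefficients of a smooth periodic solution
-/

open MeasureTheory Set Filter Topology
open scoped ENNReal NNReal ContDiff

namespace Pool.Agent.H356R3.NS.SW

open H459R3.NS (IsSol fr ee cube SP Per lap K3 S Rap)

section gen

variable {E : Type*} [NormedAddCommGroup E] [NormedSpace ℝ E] [CompleteSpace E] {T : ℝ}

theorem continuousOn_intE {F : ℝ → R3 → E}
    (hF : ContinuousOn (fun z : ℝ × R3 => F z.1 z.2) (Ico 0 T ×ˢ univ)) :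
    ContinuousOn (fun s => ∫ x in cube, F s x) (Ico 0 T) := by
  intro t ht
  obtain ⟨b, hb1, hb2⟩ := exists_between ht.2
  have hK : IsCompact (Icc 0 b ×ˢ cube) := isCompact_Icc.prod isCompact_Icc
  have hsub : Icc 0 b ×ˢ cube ⊆ Ico 0 T ×ˢ (univ : Set R3) :=
    prod_mono (fun s hs => ⟨hs.1, hs.2.trans_lt hb2⟩) (subset_univ _)
  obtain ⟨C, hC⟩ := hK.exists_bound_of_continuousOn (hF.mono hsub)
  have hev : ∀ᶠ s in 𝓝[Ico 0 T] t, s ∈ Icc 0 b := by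
    have h1 : ∀ᶠ s in 𝓝[Ico 0 T] t, s < b := nhdsWithin_le_nhds (Iio_mem_nhds hb1)
    filter_upwards [h1, self_mem_nhdsWithin] with s hs1 hs2
    exact ⟨hs2.1, hs1.le⟩
  have hmeas : MeasurableSet cube := measurableSet_Icc
  have := H459R3.NS.cube_finite
  refine continuousWithinAt_of_dominated (bound := fun _ => C) ?_ ?_ ?_ ?_
  · filter_upwards [hev] with s hs
    have hc : Continuous (fun x => F s x) := by
      have := hF.comp_continuous (f := fun x : R3 => ((s, x) : ℝ × R3)) (by fun_prop)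
        (fun x => ⟨⟨hs.1, hs.2.trans_lt hb2⟩, mem_univ _⟩)
      exact this
    exact hc.aestronglyMeasurable
  · filter_upwards [hev] with s hs
    refine (ae_restrict_iff' hmeas).2 (Filter.Eventually.of_forall fun x hx => ?_)
    exact hC (s, x) ⟨hs, hx⟩
  · exact integrable_const _
  · refine Filter.Eventually.of_forall fun x => ?_
    have h1 : ContinuousWithinAt (fun z : ℝ × R3 => F z.1 z.2)
        (Ico 0 T ×ˢ univ) (t, x) := hF (t, x) ⟨ht, mem_univ _⟩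
    exact h1.comp (t := Ico 0 T ×ˢ univ) (f := fun s : ℝ => ((s, x) : ℝ × R3))
      (by fun_prop) (fun s hs => ⟨hs, mem_univ _⟩)

end gen

variable {ν T : ℝ} {u : ℝ → R3 → R3} {p : ℝ → R3 → ℝ}

/-- continuity of the Fourier coefficients -/
lemma xf_contOn (h : IsSol ν T u p) (k : K) : ContinuousOn (fun t => xf u t k) (Ico 0 T) := by
  refine continuousOn_pi.2 fun i => ?_
  have h1 : ContinuousOn (fun z : ℝ × R3 => ee (-k) z.2 * ((u z.1 z.2 i : ℝ) : ℂ)) (Ico 0 T ×ˢ univ) := by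
    have h2 : ContinuousOn (fun z : ℝ × R3 => u z.1 z.2 i) (Ico 0 T ×ˢ univ) := (h.smooth_c i).continuousOn
    have h3 : Continuous (fun z : ℝ × R3 => ee (-k) z.2) := (H459R3.NS.ee_continuous (-k)).comp continuous_snd
    exact h3.continuousOn.mul (Complex.continuous_ofReal.comp_continuousOn h2)
  exact continuousOn_intE (F := fun s y => ee (-k) y * ((u s y i : ℝ) : ℂ)) h1

lemma cdo_iter (h : IsSol ν T u p) (i j : Fin 3) (n : ℕ) :
    ContDiffOn ℝ ∞ (fun z : ℝ × R3 => ((H459R3.NS.pd j)^[n] (fun y => u z.1 y i)) z.2) (Ico 0 T ×ˢ univ) := by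
  induction n with
  | zero => exact h.smooth_c i
  | succ n ih =>
    have := H459R3.NS.contDiffOn_pd (f := fun t => (H459R3.NS.pd j)^[n] (fun y => u t y i)) ih j
    simp only [Function.iterate_succ_apply']
    exact this

lemma norm_fr_le_int (f : R3 → ℝ) (k : K) : ‖fr f k‖ ≤ ∫ x in cube, ‖f x‖ := by
  unfold fr H459R3.NS.fc
  refine (norm_integral_le_integral_norm _).trans (le_of_eq ?_)
  congr 1
  funext x
  rw [norm_mul, H459R3.NS.norm_ee, one_mul, Complex.norm_real]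

/-- polynomial decay, uniformly on compact time intervals -/
lemma N_pow_unif (h : IsSol ν T u p) (i : Fin 3) (n : ℕ) {T' : ℝ} (hT : T' < T) :
    ∃ C, 0 ≤ C ∧ ∀ k, ∀ t ∈ Icc 0 T', (H459R3.NS.N k : ℝ) ^ n * ‖xf u t k i‖ ≤ C := by
  have hsub : Icc 0 T' ⊆ Ico 0 T := fun s hs => ⟨hs.1, hs.2.trans_lt hT⟩
  have hC : ∀ j : Fin 3, ∃ C, ∀ t ∈ Icc 0 T', ‖∫ x in cube, ‖((H459R3.NS.pd j)^[n] (fun y => u t y i)) x‖‖ ≤ C := by
    intro j
    have h1 : ContinuousOn (fun t => ∫ x in cube, ‖((H459R3.NS.pd j)^[n] (fun y => u t y i)) x‖) (Ico 0 T) :=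
      continuousOn_intE (F := fun t x => ‖((H459R3.NS.pd j)^[n] (fun y => u t y i)) x‖)
        (cdo_iter h i j n).continuousOn.norm
    exact isCompact_Icc.exists_bound_of_continuousOn (h1.mono hsub)
  choose C hC using hC
  refine ⟨max 0 (∑ j, C j), le_max_left _ _, fun k t ht => le_trans ?_ (le_max_right _ _)⟩
  have hsp : SP (fun y => u t y i) := h.sp (hsub ht) i
  have h1 : ∀ j, |(k j : ℝ)| ^ n * ‖xf u t k i‖ ≤ C j := by
    intro j
    refine le_trans ?_ ((le_abs_self _).trans (hC j t ht))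
    refine le_trans ?_ (norm_fr_le_int _ k)
    rw [H459R3.NS.fr_iter hsp, norm_mul, norm_pow]
    unfold xf
    gcongr
    rw [norm_mul, norm_mul, norm_mul, Complex.norm_I, mul_one, Complex.norm_real,
      Real.norm_eq_abs, abs_of_pos Real.pi_pos, Complex.norm_ofNat, Complex.norm_intCast]
    have h0 : 0 ≤ |(k j : ℝ)| := abs_nonneg _
    have := Real.pi_gt_three
    nlinarith
  calc (H459R3.NS.N k : ℝ) ^ n * ‖xf u t k i‖ ≤ (∑ j, |(k j : ℝ)| ^ n) * ‖xf u t k i‖ := by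
        gcongr
        exact H459R3.NS.N_pow_le k n
    _ = ∑ j, |(k j : ℝ)| ^ n * ‖xf u t k i‖ := Finset.sum_mul _ _ _
    _ ≤ ∑ j, C j := Finset.sum_le_sum fun j _ => h1 j

lemma sq_le_N (k : K) : sq k ≤ 3 * (H459R3.NS.N k : ℝ) ^ 2 := by
  unfold sq
  have h1 : ∀ j : Fin 3, (k j : ℝ) ^ 2 ≤ (H459R3.NS.N k : ℝ) ^ 2 := by
    intro j
    have h := (H459R3.NS.N_le_iff k (H459R3.NS.N k)).1 le_rfl j
    have h1 : |(k j : ℝ)| ≤ H459R3.NS.N k := by exact_mod_cast h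
    rw [← sq_abs (k j : ℝ)]
    gcongr
  calc ∑ i, (k i : ℝ) ^ 2 ≤ ∑ _i : Fin 3, (H459R3.NS.N k : ℝ) ^ 2 := Finset.sum_le_sum fun i _ => h1 i
    _ = _ := by rw [Finset.sum_const]; simp

lemma summ_N8 {c : ℝ} (hc : 0 ≤ c) : Summable fun k : K => (1 + c * sq k) * (1 / (1 + (H459R3.NS.N k : ℝ)) ^ 8) := by
  refine Summable.of_nonneg_of_le (fun k => ?_) (fun k => ?_) (H459R3.NS.summable_K3.mul_left (1 + 3 * c))
  · have := sq_nonneg' k
    positivity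
  · have hN : (0 : ℝ) ≤ H459R3.NS.N k := by positivity
    have h0 := H459R3.NS.one_add_sq_le k 0
    have h1' := H459R3.NS.one_add_sq_le k 1
    have h2' := H459R3.NS.one_add_sq_le k 2
    have hprod : (1 + (k 0 : ℝ) ^ 2) * ((1 + (k 1 : ℝ) ^ 2) * (1 + (k 2 : ℝ) ^ 2))
        ≤ (1 + (H459R3.NS.N k : ℝ)) ^ 6 := by
      calc (1 + (k 0 : ℝ) ^ 2) * ((1 + (k 1 : ℝ) ^ 2) * (1 + (k 2 : ℝ) ^ 2))
          ≤ (1 + (H459R3.NS.N k : ℝ)) ^ 2 * ((1 + (H459R3.NS.N k : ℝ)) ^ 2 * (1 + (H459R3.NS.N k : ℝ)) ^ 2) := by gcongr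
        _ = _ := by ring
    have hP : (0 : ℝ) < (1 + (k 0 : ℝ) ^ 2) * ((1 + (k 1 : ℝ) ^ 2) * (1 + (k 2 : ℝ) ^ 2)) := by
      positivity
    have h3 : 1 + c * sq k ≤ (1 + 3 * c) * (1 + (H459R3.NS.N k : ℝ)) ^ 2 := by
      have h4 := sq_le_N k
      nlinarith [mul_le_mul_of_nonneg_left h4 hc, mul_nonneg hc hN]
    have e1 : (1 / (1 + (k 0 : ℝ) ^ 2)) * ((1 / (1 + (k 1 : ℝ) ^ 2)) * (1 / (1 + (k 2 : ℝ) ^ 2)))
      = 1 / ((1 + (k 0 : ℝ) ^ 2) * ((1 + (k 1 : ℝ) ^ 2) * (1 + (k 2 : ℝ) ^ 2))) := by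
      field_simp
    rw [e1]
    calc (1 + c * sq k) * (1 / (1 + (H459R3.NS.N k : ℝ)) ^ 8)
        ≤ ((1 + 3 * c) * (1 + (H459R3.NS.N k : ℝ)) ^ 2) * (1 / (1 + (H459R3.NS.N k : ℝ)) ^ 8) := by gcongr
      _ = (1 + 3 * c) * (1 / (1 + (H459R3.NS.N k : ℝ)) ^ 6) := by
        field_simp
      _ ≤ _ := by gcongr

/-- Domination of the Fourier coefficients, uniformly on compact time intervals. -/
theorem xf_unif (h : IsSol ν T u p) {T' : ℝ} (hT : T' < T) : ∃ A : ℝ, 0 ≤ A ∧ ∀ k, ∀ t ∈ Icc 0 T',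
    ‖xf u t k‖ ≤ A * (1 / (1 + (H459R3.NS.N k : ℝ)) ^ 8) := by
  have h1 : ∀ i, ∃ A : ℝ, 0 ≤ A ∧ ∀ k, ∀ t ∈ Icc 0 T', ‖xf u t k i‖ ≤ A * (1 / (1 + (H459R3.NS.N k : ℝ)) ^ 8) := by
    intro i
    obtain ⟨C0, h00, hC0⟩ := N_pow_unif h i 0 hT
    obtain ⟨C1, h10, hC1⟩ := N_pow_unif h i 8 hT
    refine ⟨256 * (C0 + C1), by positivity, fun k t ht => ?_⟩
    have hN : (0 : ℝ) ≤ H459R3.NS.N k := by positivity
    have h2 : (1 + (H459R3.NS.N k : ℝ)) ^ 8 ≤ 256 * (1 + (H459R3.NS.N k : ℝ) ^ 8) := by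
      rcases le_total (H459R3.NS.N k : ℝ) 1 with h | h
      · have : (1 + (H459R3.NS.N k : ℝ)) ^ 8 ≤ (1 + 1) ^ 8 := by gcongr
        nlinarith [pow_nonneg hN 8]
      · have : (1 + (H459R3.NS.N k : ℝ)) ^ 8 ≤ ((H459R3.NS.N k : ℝ) + (H459R3.NS.N k : ℝ)) ^ 8 := by gcongr
        have e : ((H459R3.NS.N k : ℝ) + (H459R3.NS.N k : ℝ)) ^ 8 = 256 * (H459R3.NS.N k : ℝ) ^ 8 := by ring
        linarith
    rw [mul_one_div, le_div_iff₀ (by positivity)]
    calc ‖xf u t k i‖ * (1 + (H459R3.NS.N k : ℝ)) ^ 8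
        ≤ ‖xf u t k i‖ * (256 * (1 + (H459R3.NS.N k : ℝ) ^ 8)) := by gcongr
      _ = 256 * ((H459R3.NS.N k : ℝ) ^ 0 * ‖xf u t k i‖ + (H459R3.NS.N k : ℝ) ^ 8 * ‖xf u t k i‖) := by ring
      _ ≤ 256 * (C0 + C1) := by
        have a1 := hC0 k t ht
        have a2 := hC1 k t ht
        linarith
  choose A hA0 hA using h1
  refine ⟨∑ i, A i, Finset.sum_nonneg fun i _ => hA0 i, fun k t ht => ?_⟩
  have hp : 0 ≤ 1 / (1 + (H459R3.NS.N k : ℝ)) ^ 8 := by positivity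
  refine (pi_norm_le_iff_of_nonneg (mul_nonneg (Finset.sum_nonneg fun i _ => hA0 i) hp)).2 fun i => ?_
  refine (hA i k t ht).trans (mul_le_mul_of_nonneg_right ?_ hp)
  exact Finset.single_le_sum (f := A) (fun i _ => hA0 i) (Finset.mem_univ i)

end Pool.Agent.H356R3.NS.SW
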