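import Pool.Agent.Helper19.SW.Phy3

/-!
# Galilean change of frame: from a smooth periodic solution to a mean-free family
-/

open MeasureTheory Set Filter Topology
open scoped ENNReal NNReal ContDiff

namespace Pool.Agent.H356R3.NS.SW

open H459R3.NS (IsSol)

/-- the mean-free part in the moving frame -/
noncomputable def gf (m : R3) (x : K → C3) (t : ℝ) : K → C3 := fun k => if k = 0 then 0 else ex k (t • m) • x k

/-- a real vector as a complex one -/
noncomputable def cm (m : R3) : C3 := fun i => ((m i : ℝ) : ℂ)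

lemma gf_zero (m : R3) (x : K → C3) (t : ℝ) : gf m x t 0 = 0 := if_pos rfl

lemma gf_ne (m : R3) (x : K → C3) (t : ℝ) {k : K} (hk : k ≠ 0) : gf m x t k = ex k (t • m) • x k := if_neg hk

lemma norm_gf_le (m : R3) (x : K → C3) (t : ℝ) (k : K) : ‖gf m x t k‖ ≤ ‖x k‖ := by
  by_cases hk : k = 0
  · subst hk; rw [gf_zero, norm_zero]; exact norm_nonneg _
  · rw [gf_ne m x t hk, norm_smul, norm_ex, one_mul]

lemma norm_gf_ne (m : R3) (x : K → C3) (t : ℝ) {k : K} (hk : k ≠ 0) : ‖gf m x t k‖ = ‖x k‖ := by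
  rw [gf_ne m x t hk, norm_smul, norm_ex, one_mul]

lemma gf_sn (m : R3) {x : K → C3} (hx : SN x) (t : ℝ) : SN (gf m x t) :=
  Summable.of_nonneg_of_le (fun _ => norm_nonneg _) (fun k => norm_gf_le m x t k) hx

lemma gf_dt (m : R3) {x : K → C3} (hd : ∀ k, dt k (x k) = 0) (t : ℝ) (k : K) : dt k (gf m x t k) = 0 := by
  by_cases hk : k = 0
  · subst hk; rw [gf_zero, dt_vzero]
  · rw [gf_ne m x t hk, dt_vsmul, hd, mul_zero]

lemma gf_sym (m : R3) {x : K → C3} (hs : Sym x) (t : ℝ) : Sym (gf m x t) := by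
  intro k i
  by_cases hk : k = 0
  · subst hk; rw [neg_zero, gf_zero]; simp
  · rw [gf_ne m x t hk, gf_ne m x t (neg_ne_zero.2 hk)]
    simp only [Pi.smul_apply, smul_eq_mul]
    rw [ex_neg, hs k i, star_mul']

lemma ex_deriv (k : K) (m : R3) (t : ℝ) :
    HasDerivAt (fun s => ex k (s • m)) ((2 * Real.pi * Complex.I * dt k (cm m)) * ex k (t • m)) t := by
  have h1 : ∀ s : ℝ, (2 * Real.pi * Complex.I * ∑ j, (k j : ℂ) * (((s • m) j : ℝ) : ℂ))
      = (2 * Real.pi * Complex.I * dt k (cm m)) * ((s : ℝ) : ℂ) := by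
    intro s
    unfold dt cm
    rw [Finset.mul_sum, Finset.mul_sum, Finset.sum_mul]
    refine Finset.sum_congr rfl fun j _ => ?_
    simp only [Pi.smul_apply, smul_eq_mul]
    push_cast
    ring
  unfold ex
  simp only [h1]
  have h2 : HasDerivAt (fun s : ℝ => (2 * Real.pi * Complex.I * dt k (cm m)) * ((s : ℝ) : ℂ))
      (2 * Real.pi * Complex.I * dt k (cm m)) t := by
    have := (Complex.ofRealCLM.hasDerivAt (x := t)).const_mul (2 * Real.pi * Complex.I * dt k (cm m))
    simpa using this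
  exact h2.cexp.congr_deriv (by ring)

lemma Bf_gal (m : R3) {x : K → C3} (hx : SN x) (h0 : x 0 = cm m) (hd : ∀ k, dt k (x k) = 0) (t : ℝ) {k : K}
    (hk : k ≠ 0) : ex k (t • m) • Bf x x k
      = (-(2 * Real.pi * Complex.I * dt k (cm m))) • gf m x t k + Bf (gf m x t) (gf m x t) k := by
  set x' : K → C3 := fun k => if k = 0 then 0 else x k with hx'
  have sx' : SN x' := Summable.of_nonneg_of_le (fun _ => norm_nonneg _) (fun k => by
    simp only [hx']
    split_ifs
    · rw [norm_zero]; exact norm_nonneg _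
    · exact le_rfl) hx
  have sS := SN_Sg 0 (cm m)
  have e : x = Sg 0 (cm m) + x' := by
    funext k
    simp only [hx', Sg, Pi.add_apply]
    split_ifs with h
    · rw [h, h0, add_zero]
    · rw [zero_add]
  have hd' : ∀ k, dt k (x' k) = 0 := by
    intro k
    simp only [hx']
    split_ifs
    · exact dt_vzero k
    · exact hd k
  have hS : ∀ l, l ∉ ({0} : Finset K) → Sg 0 (cm m) l = 0 := by
    intro l hl
    rw [Finset.mem_singleton] at hl
    exact if_neg hl
  have b1 : Bf (Sg 0 (cm m)) (Sg 0 (cm m)) k = 0 := by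
    rw [Bf_Sg, add_zero, bt_freq_zero, Sg_zero]; rfl
  have b2 : Bf (Sg 0 (cm m)) x' k = (-(2 * Real.pi * Complex.I) * dt k (cm m)) • x' k := by
    rw [Bf_left_fin hS sS sx', Finset.sum_singleton, sub_zero, bt_perp (hd' k)]
    rfl
  have b3 : Bf x' (Sg 0 (cm m)) k = 0 := by
    rw [Bf_right_fin hS sx' sS, Finset.sum_singleton, sub_zero, bt_zero_left (hd' k)]
  have b4 : Bf x x k = (-(2 * Real.pi * Complex.I) * dt k (cm m)) • x' k + Bf x' x' k := by
    conv_lhs => rw [e]
    rw [Bf_add_left sS sx' (sS.add sx'), Bf_add_right sS sS sx', Bf_add_right sx' sS sx']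
    simp only [Pi.add_apply]
    rw [b1, b2, b3, zero_add, zero_add]
  have b5 : Bf (gf m x t) (gf m x t) k = ex k (t • m) • Bf x' x' k := by
    have c1 : ∀ j i, cv (gf m x t) (gf m x t) k j i = ex k (t • m) * cv x' x' k j i := by
      intro j i
      unfold cv
      rw [← tsum_mul_left]
      refine tsum_congr fun l => ?_
      have h1 : ∀ l i, gf m x t l i = ex l (t • m) * x' l i := by
        intro l i
        simp only [hx', gf]
        split_ifs <;> simp
      rw [h1, h1]
      have h2 : ex k (t • m) = ex l (t • m) * ex (k - l) (t • m) := by rw [← ex_add, add_sub_cancel]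
      rw [h2]; ring
    funext i
    unfold Bf
    simp only [c1, Pi.smul_apply, smul_eq_mul]
    rw [Finset.mul_sum]
    refine Finset.sum_congr rfl fun j _ => ?_
    rw [Finset.mul_sum]
    refine Finset.sum_congr rfl fun m _ => ?_
    ring
  have b6 : gf m x t k = ex k (t • m) • x' k := by
    rw [gf_ne m x t hk]
    simp only [hx']
    rw [if_neg hk]
  rw [b4, b5, b6]
  simp only [smul_add, smul_smul]
  congr 2
  ring

variable {ν T : ℝ} {u : ℝ → R3 → R3} {p : ℝ → R3 → ℝ}

/-- the mean -/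
noncomputable def mean (u : ℝ → R3 → R3) : R3 := fun i => (xf u 0 0 i).re

lemma mean_zero : xf u 0 0 = cm (mean u) := by
  funext i
  have h1 := xf_sym (u := u) (t := 0) 0 i
  rw [neg_zero] at h1
  show _ = (((xf u 0 0 i).re : ℝ) : ℂ)
  rw [Complex.star_def] at h1
  exact (Complex.conj_eq_iff_re.1 h1.symm).symm

lemma mean_const (h : IsSol ν T u p) {t : ℝ} (ht : t ∈ Ico 0 T) : xf u t 0 = cm (mean u) := by
  rw [← mean_zero]
  have hsub : Icc 0 t ⊆ Ico 0 T := fun s hs => ⟨hs.1, hs.2.trans_lt ht.2⟩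
  have hy : Continuous fun s => xf u (cl t s) 0 :=
    ((xf_contOn h 0).mono hsub).comp_continuous (cl_cont t) fun s => cl_mem ht.1 s
  have h1 := varconst (lam := 0) (T := t) (y := fun s => xf u (cl t s) 0) (G := fun _ => 0) hy continuous_const
    (fun s hs => by
      have h2 := xf_ode h 0 (t := s) ⟨hs.1, hs.2.trans ht.2⟩
      rw [Bf_zero, sq_zero] at h2
      simp only [mul_zero, neg_zero, zero_smul, add_zero] at h2 ⊢
      refine h2.congr_of_eventuallyEq ?_
      filter_upwards [cl_ev hs] with r hr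
      rw [hr]) (t := t) ⟨ht.1, le_rfl⟩
  simp only [zero_mul, neg_zero, Real.exp_zero, one_smul, smul_zero, intervalIntegral.integral_zero, add_zero] at h1
  rw [cl_of_mem ⟨ht.1, le_rfl⟩, cl_of_mem ⟨le_rfl, ht.1⟩] at h1
  exact h1

/-- the mean-free family of a solution, frozen outside `[0,T]` -/
noncomputable def vf (u : ℝ → R3 → R3) (T : ℝ) : Fam := fun k t => gf (mean u) (xf u (cl T t)) (cl T t) k

lemma vf_eq (u : ℝ → R3 → R3) {T t : ℝ} (ht : t ∈ Icc 0 T) (k : K) : vf u T k t = gf (mean u) (xf u t) t k := by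
  unfold vf; rw [cl_of_mem ht]

/-- a smooth periodic solution yields a regular family of coefficients -/
theorem vf_ws (h : IsSol ν T u p) (hν : 0 < ν) {T' : ℝ} (hT0 : 0 ≤ T') (hT : T' < T) :
    WS (4 * Real.pi ^ 2 * ν) T' (vf u T') := by
  have hsub : Icc 0 T' ⊆ Ico 0 T := fun s hs => ⟨hs.1, hs.2.trans_lt hT⟩
  have hmem : ∀ t, cl T' t ∈ Ico 0 T := fun t => hsub (cl_mem hT0 t)
  have hx : ∀ k, Continuous fun s => xf u (cl T' s) k := fun k =>
    ((xf_contOn h k).mono hsub).comp_continuous (cl_cont T') fun s => cl_mem hT0 s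
  have hcf : CF (vf u T') := by
    intro k
    by_cases hk : k = 0
    · subst hk
      have : vf u T' 0 = fun _ => 0 := by funext t; exact gf_zero _ _ _
      rw [this]; exact continuous_const
    · have : vf u T' k = fun t => ex k (cl T' t • mean u) • xf u (cl T' t) k := by
        funext t; exact gf_ne _ _ _ hk
      rw [this]
      have h1 : Continuous fun t => ex k (cl T' t • mean u) :=
        (ex_cont k).comp ((cl_cont T').smul continuous_const)
      exact h1.smul (hx k)
  have hst : St (vf u T') := ⟨hcf, fun k t => gf_dt _ (fun k => xf_dt h (hmem t) k) _ k, fun t => gf_zero _ _ _,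
    fun t => gf_sym _ xf_sym _⟩
  obtain ⟨A, hA0, hA⟩ := xf_unif h hT
  have hc : 0 < 4 * Real.pi ^ 2 * ν := by positivity
  have hbd : ∃ β : K → ℝ, Summable (fun k => (1 + (4 * Real.pi ^ 2 * ν) * sq k) * β k) ∧
      ∀ k t, ‖vf u T' k t‖ ≤ β k := by
    refine ⟨fun k => A * (1 / (1 + (H459R3.NS.N k : ℝ)) ^ 8), ?_, fun k t => ?_⟩
    · refine ((summ_N8 hc.le).mul_left A).congr fun k => ?_
      ring
    · exact (norm_gf_le _ _ _ k).trans (hA k _ (cl_mem hT0 t))
  have hdom : Dom (vf u T') := by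
    obtain ⟨β, h1, h2⟩ := hbd
    have hβ0 : ∀ k, 0 ≤ β k := fun k => (norm_nonneg _).trans (h2 k 0)
    refine ⟨β, h1.of_nonneg_of_le hβ0 fun k => ?_, h2⟩
    have := sq_nonneg' k
    calc β k = 1 * β k := (one_mul _).symm
      _ ≤ _ := by
        apply mul_le_mul_of_nonneg_right _ (hβ0 k)
        have : 0 ≤ (4 * Real.pi ^ 2 * ν) * sq k := by positivity
        linarith
  have hB := Bt_cont hcf hdom
  refine ⟨hst, hbd, fun k t ht => ?_⟩
  by_cases hk : k = 0
  · subst hk
    have e1 : ∀ t, vf u T' 0 t = 0 := fun t => gf_zero _ _ _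
    have e2 : Duh (4 * Real.pi ^ 2 * ν) (Bt (vf u T')) 0 t = 0 := by
      unfold Duh
      have : ∀ s, Bt (vf u T') 0 s = 0 := fun s => Bf_zero _ _
      simp [this]
    rw [e1, e1, e2]; simp
  have hd : ∀ s ∈ Ioo 0 T', HasDerivAt (vf u T' k) (-((4 * Real.pi ^ 2 * ν) * sq k) • vf u T' k s + Bt (vf u T') k s) s := by
    intro s hs
    have hsI : s ∈ Ioo 0 T := ⟨hs.1, hs.2.trans hT⟩
    have hsI' : s ∈ Ico 0 T := ⟨hs.1.le, hsI.2⟩
    have hsc : s ∈ Icc 0 T' := ⟨hs.1.le, hs.2.le⟩
    have h1 := xf_ode h k hsI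
    have h2 := ex_deriv k (mean u) s
    have h3 := h2.fun_smul h1
    have e : vf u T' k =ᶠ[𝓝 s] fun r => ex k (r • mean u) • xf u r k := by
      filter_upwards [cl_ev hs] with r hr
      show gf (mean u) (xf u (cl T' r)) (cl T' r) k = _
      rw [hr, gf_ne _ _ _ hk]
    refine (h3.congr_of_eventuallyEq e).congr_deriv ?_
    have e2 : at' (vf u T') s = gf (mean u) (xf u s) s := by
      funext k; exact vf_eq u hsc k
    have e3 := Bf_gal (mean u) (xf_sn h hsI') (mean_const h hsI') (xf_dt h hsI') s hk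
    have e4 : Bt (vf u T') k s = Bf (gf (mean u) (xf u s) s) (gf (mean u) (xf u s) s) k := by
      show Bf (at' (vf u T') s) (at' (vf u T') s) k = _
      rw [e2]
    rw [e4, smul_add, e3, vf_eq u hsc, gf_ne _ _ _ hk]
    have e5 : ex k (s • mean u) • (-(4 * Real.pi ^ 2 * ν * sq k) • xf u s k)
        = -(4 * Real.pi ^ 2 * ν * sq k) • (ex k (s • mean u) • xf u s k) := smul_comm _ _ _
    rw [e5]
    set Bff := Bf (gf (mean u) (xf u s) s) (gf (mean u) (xf u s) s) k
    funext i
    simp only [Pi.add_apply, Pi.smul_apply, smul_eq_mul, Complex.real_smul]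
    ring
  have key := varconst (lam := (4 * Real.pi ^ 2 * ν) * sq k) (T := T') (hcf k) (hB k) hd ht
  rw [key]
  unfold Duh
  rw [max_eq_left ht.1]

end Pool.Agent.H356R3.NS.SW
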