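import Pool.Agent.Helper19.SW.Phy4

/-!
# A global smooth periodic solution with real-analytic data gives a solution on the Fourier side
-/

open MeasureTheory Set Filter Topology
open scoped ENNReal NNReal ContDiff

namespace Pool.Agent.H356R3.NS.SW

open H459R3.NS (IsSol fr)

variable {ν T : ℝ} {u : ℝ → R3 → R3} {p : ℝ → R3 → ℝ}

lemma enst (h : IsSol ν T u p) {t : ℝ} (ht : t ∈ Ico 0 T) :
    (Summable fun k => sq k * ‖xf u t k‖ ^ 2) ∧ ∑' k, sq k * ‖xf u t k‖ ^ 2 ≤ H459R3.NS.enstrophy (u t) := by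
  have hsp : ∀ i, H459R3.NS.SP (fun y => u t y i) := fun i => h.sp ht i
  have hg := H459R3.NS.sum_grad (v := fun i y => u t y i) hsp
  have hs : ∀ i m, Summable fun k => ‖H459R3.NS.D m (fr (fun y => u t y i)) k‖ ^ 2 := fun i m =>
    H459R3.NS.summable_sq ((H459R3.NS.rap_fr (hsp i)).D m).summable
  have e1 : ∑ i, ∑ m, H459R3.NS.n2 (H459R3.NS.D m (fr (fun y => u t y i))) ^ 2
      = ∑' k, ∑ i, ∑ m, ‖H459R3.NS.D m (fr (fun y => u t y i)) k‖ ^ 2 := by
    simp_rw [H459R3.NS.n2_sq]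
    rw [Summable.tsum_finsetSum fun i _ => summable_sum fun m _ => hs i m]
    refine Finset.sum_congr rfl fun i _ => ?_
    rw [Summable.tsum_finsetSum fun m _ => hs i m]
  have hS : Summable fun k => ∑ i, ∑ m, ‖H459R3.NS.D m (fr (fun y => u t y i)) k‖ ^ 2 :=
    summable_sum fun i _ => summable_sum fun m _ => hs i m
  have hle : ∀ k, sq k * ‖xf u t k‖ ^ 2 ≤ ∑ i, ∑ m, ‖H459R3.NS.D m (fr (fun y => u t y i)) k‖ ^ 2 := by
    intro k
    have e2 : ∀ i, ∑ m, ‖H459R3.NS.D m (fr (fun y => u t y i)) k‖ ^ 2 = 4 * Real.pi ^ 2 * sq k * ‖xf u t k i‖ ^ 2 := by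
      intro i
      unfold H459R3.NS.D sq
      rw [Finset.mul_sum, Finset.sum_mul]
      refine Finset.sum_congr rfl fun m _ => ?_
      rw [norm_mul, norm_mul, norm_mul, norm_mul, Complex.norm_I, mul_one, Complex.norm_real,
        Real.norm_eq_abs, abs_of_pos Real.pi_pos, Complex.norm_ofNat, Complex.norm_intCast]
      unfold xf
      rw [mul_pow, mul_pow, mul_pow, sq_abs]
      ring
    simp only [e2]
    rw [← Finset.mul_sum]
    have h1 : ‖xf u t k‖ ^ 2 ≤ ∑ i, ‖xf u t k i‖ ^ 2 := by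
      have h2 : ‖xf u t k‖ ≤ Real.sqrt (∑ i, ‖xf u t k i‖ ^ 2) := by
        refine (pi_norm_le_iff_of_nonneg (Real.sqrt_nonneg _)).2 fun i => ?_
        apply Real.le_sqrt_of_sq_le
        exact Finset.single_le_sum (f := fun i => ‖xf u t k i‖ ^ 2) (fun i _ => by positivity) (Finset.mem_univ i)
      calc ‖xf u t k‖ ^ 2 ≤ Real.sqrt (∑ i, ‖xf u t k i‖ ^ 2) ^ 2 := by gcongr
        _ = _ := Real.sq_sqrt (Finset.sum_nonneg fun i _ => by positivity)
    have hsq := sq_nonneg' k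
    have hpi : (1 : ℝ) ≤ 4 * Real.pi ^ 2 := by nlinarith [Real.pi_gt_three]
    calc sq k * ‖xf u t k‖ ^ 2 ≤ sq k * ∑ i, ‖xf u t k i‖ ^ 2 := by gcongr
      _ = 1 * (sq k * ∑ i, ‖xf u t k i‖ ^ 2) := (one_mul _).symm
      _ ≤ (4 * Real.pi ^ 2) * (sq k * ∑ i, ‖xf u t k i‖ ^ 2) := by
        apply mul_le_mul_of_nonneg_right hpi
        exact mul_nonneg hsq (Finset.sum_nonneg fun i _ => by positivity)
      _ = _ := by ring
  have h0 : ∀ k, 0 ≤ sq k * ‖xf u t k‖ ^ 2 := fun k => mul_nonneg (sq_nonneg' k) (by positivity)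
  have hs' := hS.of_nonneg_of_le h0 hle
  refine ⟨hs', (hs'.tsum_le_tsum hle hS).trans ?_⟩
  rw [← e1, hg]
  exact le_rfl

/-- the enstrophy is small at some positive time -/
lemma enst_small (h : ∀ T, IsSol ν T u p) (hν : 0 < ν) {e : ℝ} (he : 0 < e) :
    ∃ t : ℝ, 0 < t ∧ H459R3.NS.enstrophy (u t) ≤ e := by
  set E0 := H459R3.NS.energy (u 0)
  have hE0 : 0 ≤ E0 := H459R3.NS.energy_nonneg _
  set T : ℝ := (E0 + 1) / (2 * ν * e) with hT
  have hTp : 0 < T := by positivity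
  have h1 := h (T + 1)
  have hc : ContinuousOn (fun s => H459R3.NS.energy (u s)) (Icc 0 T) :=
    h1.energy_continuousOn.mono fun s hs => ⟨hs.1, by linarith [hs.2]⟩
  obtain ⟨t, ht, hd⟩ := exists_hasDerivAt_eq_slope (fun s => H459R3.NS.energy (u s))
    (fun t => -(2 * ν * H459R3.NS.enstrophy (u t))) hTp hc
    fun s hs => h1.energy_hasDerivAt ⟨hs.1, by linarith [hs.2]⟩
  refine ⟨t, ht.1, ?_⟩
  have hET := H459R3.NS.energy_nonneg (u T)
  rw [sub_zero] at hd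
  have h3 : -(2 * ν * H459R3.NS.enstrophy (u t)) * T = H459R3.NS.energy (u T) - E0 := by
    rw [hd]; field_simp; rfl
  have h4 : T * (2 * ν * e) = E0 + 1 := by rw [hT]; field_simp
  by_contra hcon
  push Not at hcon
  have h5 : (2 * ν * e) * T < (2 * ν * H459R3.NS.enstrophy (u t)) * T := by
    apply mul_lt_mul_of_pos_right _ hTp
    apply mul_lt_mul_of_pos_left hcon (by positivity)
  nlinarith

lemma small_time (h : ∀ T, IsSol ν T u p) (hν : 0 < ν) {ε : ℝ} (hε : 0 < ε) :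
    ∃ t : ℝ, 0 < t ∧ (Summable fun k => 1 / nk k * ‖xf u t k‖) ∧ ∑' k, 1 / nk k * ‖xf u t k‖ < ε := by
  set S4 := ∑' k : K, (1 / nk k) ^ 4
  have hS4 : 0 ≤ S4 := tsum_nonneg fun k => by have := nk_nonneg k; positivity
  set θ : ℝ := ε / (S4 + 1) with hθ
  have hθp : 0 < θ := by positivity
  obtain ⟨t, ht, hE⟩ := enst_small h hν (e := ε * θ / 2) (by positivity)
  have hI : t ∈ Ico 0 (t + 1) := ⟨ht.le, by linarith⟩
  obtain ⟨h1, h2⟩ := enst (h (t + 1)) hI
  have hle : ∀ k, 1 / nk k * ‖xf u t k‖ ≤ (θ * (1 / nk k) ^ 4 + 1 / θ * (sq k * ‖xf u t k‖ ^ 2)) / 2 := by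
    intro k
    by_cases hk : k = 0
    · subst hk
      rw [nk_zero, sq_zero]; simp
    have hn := nk_pos hk
    have hsθ := Real.sqrt_pos.2 hθp
    have hsθ2 := Real.sq_sqrt hθp.le
    set r := Real.sqrt θ
    have h3 : (1 / nk k) * ‖xf u t k‖ = (r * (1 / nk k) ^ 2) * (1 / r * (nk k * ‖xf u t k‖)) := by
      field_simp
    have h4 : (θ * (1 / nk k) ^ 4 + 1 / θ * (sq k * ‖xf u t k‖ ^ 2)) / 2
        = ((r * (1 / nk k) ^ 2) ^ 2 + (1 / r * (nk k * ‖xf u t k‖)) ^ 2) / 2 := by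
      rw [← hsθ2, ← nk_sq]
      field_simp
    rw [h3, h4]
    nlinarith [sq_nonneg (r * (1 / nk k) ^ 2 - 1 / r * (nk k * ‖xf u t k‖))]
  have hsum : Summable fun k : K => (θ * (1 / nk k) ^ 4 + 1 / θ * (sq k * ‖xf u t k‖ ^ 2)) / 2 :=
    ((summ_nk4.mul_left θ).add (h1.mul_left (1 / θ))).div_const 2
  have hs : Summable fun k => 1 / nk k * ‖xf u t k‖ :=
    hsum.of_nonneg_of_le (fun k => by have := nk_nonneg k; positivity) hle
  refine ⟨t, ht, hs, ?_⟩
  calc ∑' k, 1 / nk k * ‖xf u t k‖ ≤ ∑' k : K, (θ * (1 / nk k) ^ 4 + 1 / θ * (sq k * ‖xf u t k‖ ^ 2)) / 2 :=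
        hs.tsum_le_tsum hle hsum
    _ = (θ * S4 + 1 / θ * ∑' k, sq k * ‖xf u t k‖ ^ 2) / 2 := by
      rw [tsum_div_const, (summ_nk4.mul_left θ).tsum_add (h1.mul_left (1 / θ)), tsum_mul_left, tsum_mul_left]
    _ ≤ (θ * S4 + 1 / θ * (ε * θ / 2)) / 2 := by
      have := h2.trans hE
      gcongr
    _ < ε := by
      have h5 : θ * (S4 + 1) = ε := by rw [hθ]; field_simp
      have h6 : 1 / θ * (ε * θ / 2) = ε / 2 := by field_simp
      rw [h6]
      nlinarith

lemma LN_zero' : LN (fun _ => 0) = 0 := by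
  unfold LN
  simp

/-- the zero solution -/
lemma sol_zero {c a : ℝ} : Sol c a 0 (0 : Fam) := by
  have hB : ∀ k s, Bt (0 : Fam) k s = 0 := by
    intro k s
    show Bf (fun _ => 0) (fun _ => 0) k = 0
    funext i
    simp [Bf, cv]
  refine ⟨fun k => continuous_const, fun t => rfl, fun t k i => by simp [at'], ⟨0, by simp, fun k t => by simp⟩,
    ?_, fun k t => ?_⟩
  · have : (fun t => NW (Wa a) (at' (0 : Fam) t)) = fun _ => 0 := by
      funext t; exact NW_zero _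
    rw [this, LN_zero']; exact ENNReal.zero_ne_top
  · unfold Duh
    simp [hB]

/-- A global smooth periodic solution with real-analytic initial velocity gives a solution on the Fourier side. -/
theorem adm_sol (hν : 0 < ν) {V : R3 → R3} (h : AdmissiblePeriodic ν V u p) {a0 : ℝ} (ha0 : 0 < a0)
    (hV : Summable fun k => om a0 k * ‖fc V k‖) : ∃ b : ℝ, 0 < b ∧ ∃ w : Fam,
      Sol (4 * Real.pi ^ 2 * ν) b (gf (mean u) (fc V) 0) w ∧
      ∀ t, 0 ≤ t → ∀ k, w k t = gf (mean u) (xf u t) t k := by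
  set c : ℝ := 4 * Real.pi ^ 2 * ν with hcd
  have hc : 0 < c := by positivity
  have hS : ∀ T, IsSol ν T u p := fun T => isSol_of_adm h T
  have hx0 : xf u 0 = fc V := by rw [xf_eq, h.initial]
  obtain ⟨ε0, hε0, hstab⟩ := stab (c := c) (a0 := 1) (ee := 1) hc one_pos one_pos (sol_zero)
  obtain ⟨t1, ht1, hs1, hlt⟩ := small_time hS hν hε0
  have hws : ∀ T, 0 ≤ T → WS c T (vf u T) := fun T hT => vf_ws (hS (T + 1)) hν hT (by linarith)
  have hW1 := hws t1 ht1.le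
  -- analyticity on `[0, t1]`
  have hv0 : ∀ T, 0 ≤ T → ∀ k, vf u T k 0 = gf (mean u) (fc V) 0 k := fun T hT k => by
    rw [vf_eq u ⟨le_rfl, hT⟩, hx0]
  obtain ⟨b1, hb1, β, hβs, hβ⟩ := persist hc ht1.le hW1 ha0 (by
    simp only [hv0 t1 ht1.le]
    refine hV.of_nonneg_of_le (fun k => mul_nonneg (om_pos _ _).le (norm_nonneg _)) fun k => ?_
    exact mul_le_mul_of_nonneg_left (norm_gf_le _ _ _ k) (om_pos _ _).le)
  have hβ0 : ∀ k, 0 ≤ β k := fun k => (norm_nonneg _).trans (hβ k 0 ⟨le_rfl, ht1.le⟩)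
  set e : K → C3 := at' (vf u t1) t1 with he
  have heq : ∀ k, e k = gf (mean u) (xf u t1) t1 k := fun k => vf_eq u ⟨ht1.le, le_rfl⟩ k
  have hen : ∀ k, 1 / nk k * ‖e k‖ ≤ 1 / nk k * ‖xf u t1 k‖ := fun k => by
    rw [heq k]
    have := nk_nonneg k
    exact mul_le_mul_of_nonneg_left (norm_gf_le _ _ _ k) (by positivity)
  have hnn : ∀ k, 0 ≤ 1 / nk k * ‖e k‖ := fun k => by have := nk_nonneg k; positivity
  have hse : Summable fun k => 1 / nk k * ‖e k‖ := hs1.of_nonneg_of_le hnn hen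
  have hse' : ∑' k, 1 / nk k * ‖e k‖ < ε0 := lt_of_le_of_lt (hse.tsum_le_tsum hen hs1) hlt
  have hb2 : 0 < min b1 1 := lt_min hb1 one_pos
  have hom : ∀ b, b ≤ b1 → Summable fun k => om b k * ‖e k‖ := fun b hb => by
    refine hβs.of_nonneg_of_le (fun k => mul_nonneg (om_pos _ _).le (norm_nonneg _)) fun k => ?_
    exact mul_le_mul (om_mono hb k) (hβ k t1 ⟨ht1.le, le_rfl⟩) (norm_nonneg _) (om_pos _ _).le
  have hnk1 : ∀ k, 1 / nk k * ‖e k‖ ≤ ‖e k‖ := by
    intro k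
    by_cases hk : k = 0
    · subst hk; rw [nk_zero]; simp
    · have := one_le_nk hk
      calc 1 / nk k * ‖e k‖ ≤ 1 * ‖e k‖ := by
            apply mul_le_mul_of_nonneg_right _ (norm_nonneg _)
            rw [div_le_one (by linarith)]; exact this
        _ = _ := one_mul _
  have hs2 : Summable fun k => om (min b1 1) k * (1 / nk k * ‖e k‖) :=
    (hom _ (min_le_left _ _)).of_nonneg_of_le (fun k => mul_nonneg (om_pos _ _).le (hnn k))
      fun k => mul_le_mul_of_nonneg_left (hnk1 k) (om_pos _ _).le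
  obtain ⟨b, hb, hbb, hble⟩ := lower_radius hb2 hnn hs2 hse'
  have hbb1 : b ≤ b1 := hbb.trans (min_le_left _ _)
  have hNW : NW (Wm b) e ≤ ENNReal.ofReal ε0 := by
    have e1 : NW (Wm b) e = ENNReal.ofReal (∑' k, om b k * (1 / nk k * ‖e k‖)) := by
      rw [ENNReal.ofReal_tsum_of_nonneg (fun k => mul_nonneg (om_pos _ _).le (hnn k))]
      · unfold NW Wm
        refine tsum_congr fun k => ?_
        have hnk := nk_nonneg k
        rw [← ofReal_norm, ← ENNReal.ofReal_mul (div_nonneg (om_pos _ _).le hnk)]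
        congr 1
        ring
      · exact hs2.of_nonneg_of_le (fun k => mul_nonneg (om_pos _ _).le (hnn k))
          fun k => mul_le_mul_of_nonneg_right (om_mono hbb k) (hnn k)
    rw [e1]
    exact ENNReal.ofReal_le_ofReal hble
  obtain ⟨w2, hw2, -⟩ := hstab b hb (hbb.trans (min_le_right _ _)) e (hW1.st.z t1) (hW1.st.sym t1)
    (hom b hbb1) hNW
  rw [zero_add] at hw2
  -- the solution on `[0,t1]`
  have hL : LSol c (b / 2) t1 (gf (mean u) (fc V) 0) (vf u t1) := by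
    refine ⟨hW1.st.cf, hW1.st.z, hW1.st.sym, ⟨β, ?_, fun k t => ?_⟩, fun k t ht => ?_⟩
    · refine hβs.of_nonneg_of_le (fun k => mul_nonneg (om_pos _ _).le (hβ0 k)) fun k => ?_
      exact mul_le_mul_of_nonneg_right (om_mono (by linarith) k) (hβ0 k)
    · have h1 := hβ k (cl t1 t) (cl_mem ht1.le t)
      have h2 : vf u t1 k (cl t1 t) = vf u t1 k t := by
        unfold vf
        rw [cl_of_mem (cl_mem ht1.le t)]
      rwa [h2] at h1
    · rw [hW1.eq k t ht, hv0 t1 ht1.le]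
  have hg := glue (half_pos hb) ht1.le hL hw2
  have hdv : ∀ k, dt k (gf (mean u) (fc V) 0 k) = 0 := fun k => by
    rw [← hv0 t1 ht1.le]; exact hW1.st.dv k 0
  refine ⟨b / 2, half_pos hb, _, hg, fun t ht k => ?_⟩
  have hw := ws_of_lsol hc (half_pos hb) (fun k t => sol_div (half_pos hb) hdv hg k t) ht (Sol.lsol hg t)
  have huq := uniq hc hw (hws t ht) (fun k => by rw [Sol.at_zero hg, hv0 t ht]) t ⟨ht, le_rfl⟩ k
  rw [huq, vf_eq u ⟨ht, le_rfl⟩]

end Pool.Agent.H356R3.NS.SW
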