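import Pool.Agent.Helper19.SW.Phy5

/-!
# Adding a rapidly oscillating shear flow of large amplitude
-/

open MeasureTheory Set Filter Topology
open scoped ENNReal NNReal ContDiff

namespace Pool.Agent.H356R3.NS.SW

open H459R3.NS (IsSol fr SP)

/-- The shear flow `x ↦ Re ∑_{m ∈ S} A(m) exp(2πi m η·x)`. -/
noncomputable def shear (η : Fin 3 → ℤ) (S : Finset ℤ) (A : ℤ → Fin 3 → ℂ) (x : R3) (i : Fin 3) : ℝ :=
  (∑ m ∈ S, A m i * Complex.exp (2 * Real.pi * Complex.I * (m * ∑ j, (η j : ℂ) * (x j : ℂ)))).re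

/-- the coefficients of a shear flow -/
noncomputable def shc (η : K) (S : Finset ℤ) (A : ℤ → C3) : K → C3 := fun k =>
  ∑ m ∈ S, ((1 / 2 : ℝ) • (Sg (m • η) (A m) k + Sg (-(m • η)) (star (A m)) k))

lemma ex_line (η : K) (m : ℤ) (x : R3) :
    ex (m • η) x = Complex.exp (2 * Real.pi * Complex.I * (m * ∑ j, (η j : ℂ) * (x j : ℂ))) := by
  unfold ex
  congr 2
  rw [Finset.mul_sum]
  refine Finset.sum_congr rfl fun j _ => ?_
  simp only [Pi.smul_apply, smul_eq_mul]
  push_cast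
  ring

lemma hasSum_Sg (κ : K) (v : C3) (i : Fin 3) (x : R3) :
    HasSum (fun k => Sg κ v k i * ex k x) (v i * ex κ x) := by
  have := hasSum_single (f := fun k => Sg κ v k i * ex k x) κ (fun k hk => by simp [Sg, hk])
  simpa [Sg] using this

lemma shc_sum (η : K) (S : Finset ℤ) (A : ℤ → C3) (i : Fin 3) (x : R3) :
    HasSum (fun k => shc η S A k i * ex k x) ((shear η S A x i : ℝ) : ℂ) := by
  have h1 : HasSum (fun k => ∑ m ∈ S, ((1 / 2 : ℝ) : ℂ) * (Sg (m • η) (A m) k i * ex k x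
      + Sg (-(m • η)) (star (A m)) k i * ex k x))
      (∑ m ∈ S, ((1 / 2 : ℝ) : ℂ) * (A m i * ex (m • η) x + star (A m) i * ex (-(m • η)) x)) :=
    hasSum_sum fun m _ => ((hasSum_Sg _ _ i x).add (hasSum_Sg _ _ i x)).mul_left _
  have e1 : (∑ m ∈ S, ((1 / 2 : ℝ) : ℂ) * (A m i * ex (m • η) x + star (A m) i * ex (-(m • η)) x))
      = ((shear η S A x i : ℝ) : ℂ) := by
    unfold shear
    rw [Complex.re_sum]
    push_cast
    refine Finset.sum_congr rfl fun m _ => ?_
    rw [← ex_line, ex_neg, Complex.re_eq_add_conj, Pi.star_apply, map_mul]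
    simp only [Complex.star_def]
    push_cast
    ring
  rw [← e1]
  have e2 : (fun k => shc η S A k i * ex k x) = fun k => ∑ m ∈ S, ((1 / 2 : ℝ) : ℂ) *
      (Sg (m • η) (A m) k i * ex k x + Sg (-(m • η)) (star (A m)) k i * ex k x) := by
    funext k
    unfold shc
    rw [Finset.sum_apply, Finset.sum_mul]
    refine Finset.sum_congr rfl fun m _ => ?_
    rw [Pi.smul_apply, Pi.add_apply, Complex.real_smul]
    ring
  rw [e2]
  exact h1

lemma star_star_C3 (v : C3) (i : Fin 3) : star (star v i) = v i := by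
  rw [Pi.star_apply, star_star]

lemma shc_sym (η : K) (S : Finset ℤ) (A : ℤ → C3) : Sym (shc η S A) := by
  intro k i
  unfold shc
  rw [Finset.sum_apply, Finset.sum_apply, star_sum]
  refine Finset.sum_congr rfl fun m _ => ?_
  simp only [Pi.smul_apply, Pi.add_apply]
  rw [star_rsmul, star_add, add_comm]
  congr 2
  · unfold Sg
    by_cases h : k = m • η
    · rw [if_pos (by rw [h]), if_pos h]; rfl
    · rw [if_neg (fun h' => h (neg_injective h')), if_neg h]; simp
  · unfold Sg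
    by_cases h : k = -(m • η)
    · rw [if_pos (by rw [h, neg_neg]), if_pos h, star_star_C3]
    · rw [if_neg (fun h' => h (by rw [← h', neg_neg])), if_neg h]; simp

lemma dt_star (k : K) (v : C3) : dt k (star v) = star (dt k v) := by
  unfold dt
  rw [star_sum]
  refine Finset.sum_congr rfl fun j _ => ?_
  rw [star_mul', Pi.star_apply]
  congr 1
  simp

lemma dt_rsmul (k : K) (s : ℝ) (v : C3) : dt k (s • v) = s * dt k v := by
  unfold dt
  rw [Finset.mul_sum]
  refine Finset.sum_congr rfl fun j _ => ?_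
  rw [Pi.smul_apply, Complex.real_smul]
  ring

lemma dt_finsum {ι : Type*} (k : K) (s : Finset ι) (f : ι → C3) : dt k (∑ i ∈ s, f i) = ∑ i ∈ s, dt k (f i) := by
  classical
  induction s using Finset.induction_on with
  | empty => simp [dt_vzero]
  | insert i s hi ih => rw [Finset.sum_insert hi, Finset.sum_insert hi, dt_vadd, ih]

lemma dt_Sg' {η κ : K} {v : C3} (h : dt η v = 0) (k : K) : dt η (Sg κ v k) = 0 := by
  unfold Sg
  split_ifs
  · exact h
  · exact dt_vzero _

lemma shc_dt (η : K) (S : Finset ℤ) (A : ℤ → C3) (hA : ∀ m ∈ S, dt η (A m) = 0) (l : K) :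
    dt η (shc η S A l) = 0 := by
  unfold shc
  rw [dt_finsum]
  refine Finset.sum_eq_zero fun m hm => ?_
  rw [dt_rsmul, dt_vadd, dt_Sg' (hA m hm), dt_Sg' (by rw [dt_star, hA m hm, star_zero])]
  simp

/-- the frequencies of a shear flow -/
noncomputable def shS (η : K) (S : Finset ℤ) : Finset K := by
  classical exact S.image (fun m => m • η) ∪ S.image (fun m => -(m • η))

lemma shS_mem {η : K} {S : Finset ℤ} {l : K} (h : l ∈ shS η S) : ∃ m : ℤ, m ∈ S ∧ (l = m • η ∨ l = -(m • η)) := by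
  classical
  unfold shS at h
  rw [Finset.mem_union, Finset.mem_image, Finset.mem_image] at h
  rcases h with ⟨m, hm, rfl⟩ | ⟨m, hm, rfl⟩
  · exact ⟨m, hm, Or.inl rfl⟩
  · exact ⟨m, hm, Or.inr rfl⟩

lemma shS_line {η : K} {S : Finset ℤ} {l : K} (h : l ∈ shS η S) : ∃ m : ℤ, l = m • η := by
  obtain ⟨m, -, rfl | rfl⟩ := shS_mem h
  · exact ⟨m, rfl⟩
  · exact ⟨-m, (neg_smul m η).symm⟩

lemma zsmul_ne {η : K} (hη : η ≠ 0) {m : ℤ} (hm : m ≠ 0) : m • η ≠ 0 := by
  intro h
  apply hη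
  funext j
  have := congrFun h j
  simp only [Pi.smul_apply, smul_eq_mul, Pi.zero_apply, mul_eq_zero] at this
  rcases this with h | h
  · exact absurd h hm
  · exact h

lemma shS_ne {η : K} (hη : η ≠ 0) {S : Finset ℤ} (h0 : (0 : ℤ) ∉ S) {l : K} (h : l ∈ shS η S) : l ≠ 0 := by
  obtain ⟨m, hm, rfl | rfl⟩ := shS_mem h
  · exact zsmul_ne hη fun h => h0 (h ▸ hm)
  · exact neg_ne_zero.2 (zsmul_ne hη fun h => h0 (h ▸ hm))

lemma shc_supp (η : K) (S : Finset ℤ) (A : ℤ → C3) {l : K} (hl : l ∉ shS η S) : shc η S A l = 0 := by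
  classical
  unfold shc
  refine Finset.sum_eq_zero fun m hm => ?_
  have h1 : l ≠ m • η := fun h => hl (by
    unfold shS
    rw [Finset.mem_union]; left; rw [Finset.mem_image]; exact ⟨m, hm, h.symm⟩)
  have h2 : l ≠ -(m • η) := fun h => hl (by
    unfold shS
    rw [Finset.mem_union]; right; rw [Finset.mem_image]; exact ⟨m, hm, h.symm⟩)
  rw [show Sg (m • η) (A m) l = 0 from if_neg h1, show Sg (-(m • η)) (star (A m)) l = 0 from if_neg h2]
  simp

lemma norm_star_C3 (v : C3) : ‖star v‖ = ‖v‖ := norm_star v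

lemma sum_Sg_le (Q : Finset K) (κ : K) (v : C3) : ∑ l ∈ Q, ‖Sg κ v l‖ / sq l ≤ ‖v‖ / sq κ := by
  classical
  by_cases h : κ ∈ Q
  · rw [Finset.sum_eq_single κ]
    · simp [Sg]
    · intro l _ hl
      simp [Sg, hl]
    · intro h'; exact absurd h h'
  · rw [Finset.sum_eq_zero]
    · exact div_nonneg (norm_nonneg _) (sq_nonneg' _)
    · intro l hl
      have : l ≠ κ := fun h' => h (h' ▸ hl)
      simp [Sg, this]

lemma sq_zsmul (m : ℤ) (η : K) : sq (m • η) = (m : ℝ) ^ 2 * sq η := by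
  unfold sq
  rw [Finset.mul_sum]
  refine Finset.sum_congr rfl fun j _ => ?_
  simp only [Pi.smul_apply, smul_eq_mul]
  push_cast
  ring

lemma shc_norm (η : K) (S : Finset ℤ) (A : ℤ → C3) (Q : Finset K) :
    ∑ l ∈ Q, ‖shc η S A l‖ / sq l ≤ ∑ m ∈ S, ‖A m‖ / ((m : ℝ) ^ 2 * sq η) := by
  have h1 : ∀ l ∈ Q, ‖shc η S A l‖ / sq l ≤ ∑ m ∈ S, (1 / 2 : ℝ) * (‖Sg (m • η) (A m) l‖ / sq l
      + ‖Sg (-(m • η)) (star (A m)) l‖ / sq l) := by
    intro l _
    have h2 : ‖shc η S A l‖ ≤ ∑ m ∈ S, (1 / 2 : ℝ) * (‖Sg (m • η) (A m) l‖ + ‖Sg (-(m • η)) (star (A m)) l‖) := by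
      unfold shc
      refine (norm_sum_le _ _).trans (Finset.sum_le_sum fun m _ => ?_)
      rw [norm_smul, Real.norm_of_nonneg (by norm_num : (0 : ℝ) ≤ 1 / 2)]
      exact mul_le_mul_of_nonneg_left (norm_add_le _ _) (by norm_num)
    calc ‖shc η S A l‖ / sq l ≤ (∑ m ∈ S, (1 / 2 : ℝ) * (‖Sg (m • η) (A m) l‖
          + ‖Sg (-(m • η)) (star (A m)) l‖)) / sq l := div_le_div_of_nonneg_right h2 (sq_nonneg' l)
      _ = _ := by
        rw [Finset.sum_div]
        refine Finset.sum_congr rfl fun m _ => ?_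
        ring
  refine (Finset.sum_le_sum h1).trans ?_
  rw [Finset.sum_comm]
  refine Finset.sum_le_sum fun m _ => ?_
  rw [← Finset.mul_sum, Finset.sum_add_distrib]
  have h3 := sum_Sg_le Q (m • η) (A m)
  have h4 := sum_Sg_le Q (-(m • η)) (star (A m))
  rw [norm_star_C3, sq_neg] at h4
  rw [← sq_zsmul]
  linarith

lemma ex_zero_x (k : K) : ex k 0 = 1 := by unfold ex; simp

/-- the Fourier series of a smooth periodic field -/
lemma fc_sum {ν T : ℝ} {u : ℝ → R3 → R3} {p : ℝ → R3 → ℝ} (h : IsSol ν T u p) {t : ℝ} (ht : t ∈ Ico 0 T)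
    (i : Fin 3) (x : R3) : HasSum (fun k => xf u t k i * ex k x) ((u t x i : ℝ) : ℂ) := by
  have hsp := h.sp ht i
  have h1 := (H459R3.NS.summable_term (H459R3.NS.rap_fr hsp).summable x).hasSum
  have h2 := H459R3.NS.S_fr hsp x
  unfold H459R3.NS.S at h2
  rw [h2] at h1
  simp only [ee_eq_ex] at h1
  exact h1

lemma hasSum_nz {f g : K → ℂ} {s : ℂ} (hf : HasSum f s) (h : ∀ k, k ≠ 0 → g k = f k) (h0 : g 0 = 0) :
    HasSum g (s - f 0) := by
  classical
  have h1 := hasSum_single (f := fun k : K => if k = 0 then f 0 else 0) 0 (fun k hk => if_neg hk)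
  simp only [if_true] at h1
  have h2 := hf.sub h1
  have e : g = fun k => f k - if k = 0 then f 0 else 0 := by
    funext k
    by_cases hk : k = 0
    · subst hk; rw [if_pos rfl, sub_self, h0]
    · rw [if_neg hk, sub_zero, h k hk]
  rw [e]; exact h2

/-- The main theorem, with analyticity expressed by the decay of the Fourier coefficients. -/
theorem main_phys {ν δ ε : ℝ} (hν : 0 < ν) (hδ : 0 < δ) (hε : 0 < ε) {V : R3 → R3} {v : ℝ → R3 → R3}
    {q : ℝ → R3 → ℝ} (hv : AdmissiblePeriodic ν V v q) {α : ℝ} (hα : 0 < α)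
    (hV : Summable fun k => om α k * ‖fc V k‖) :
    ∃ c0 : ℝ, 0 < c0 ∧ ∀ (η : Fin 3 → ℤ) (S : Finset ℤ) (A : ℤ → Fin 3 → ℂ), η ≠ 0 → (0 : ℤ) ∉ S →
      (∀ m ∈ S, ∑ j, (η j : ℂ) * A m j = 0) →
      ∑ m ∈ S, ‖A m‖ / ((m : ℝ) ^ 2 * ∑ j, (η j : ℝ) ^ 2) ≤ c0 →
      ∃ (u : ℝ → R3 → R3) (p : ℝ → R3 → ℝ), AdmissiblePeriodic ν (fun x => V x + shear η S A x) u p ∧
        ∫⁻ t in Ioi δ, (⨆ x, ‖u t x - v t x‖ₑ) ^ 2 ≤ ENNReal.ofReal ε := by
  obtain ⟨b, hb, w, hw, hwv⟩ := adm_sol hν hv hα hV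
  set c : ℝ := 4 * Real.pi ^ 2 * ν with hcd
  have hc : 0 < c := by positivity
  have hS : ∀ T, IsSol ν T v q := fun T => isSol_of_adm hv T
  set M := mean v with hM
  set V0 := gf M (fc V) 0 with hV0
  have hx0 : xf v 0 = fc V := by rw [xf_eq, hv.initial]
  have hdV : ∀ k, dt k (V0 k) = 0 := by
    intro k
    refine gf_dt M (fun k => ?_) 0 k
    rw [← hx0]
    exact xf_dt (hS 1) ⟨le_rfl, one_pos⟩ k
  have hee : 0 < Real.sqrt ε := Real.sqrt_pos.2 hε
  obtain ⟨c0, hc0, hmain⟩ := main_fourier hc hb hee hδ hdV hw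
  refine ⟨c0, hc0, fun η S A hη h0 hA hle => ?_⟩
  obtain ⟨b', hb', U, hU, hLN⟩ := hmain η (shS η S) (shc η S A) hη (fun l hl => shS_line hl)
    (fun l hl => shS_ne hη h0 hl) (shc_dt η S A hA) (fun l hl => shc_supp η S A hl) (shc_sym η S A)
    ((shc_norm η S A _).trans hle)
  have hdA : ∀ k, dt k (shc η S A k) = 0 := by
    intro k
    by_cases hk : k ∈ shS η S
    · exact dt_line (shS_line hk) (shc_dt η S A hA k)
    · rw [shc_supp η S A hk, dt_vzero]
  have hdVA : ∀ k, dt k ((V0 + shc η S A) k) = 0 := fun k => by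
    rw [Pi.add_apply, dt_vadd, hdV, hdA, add_zero]
  have hphys := sol_physical hb' hdVA hU M
  -- the initial velocity
  have hinit : (fun (x : R3) (i : Fin 3) => M i + (∑' k, (V0 + shc η S A) k i * ex k x).re)
      = fun x => V x + shear η S A x := by
    funext x i
    have h1 := fc_sum (hS 1) (t := 0) ⟨le_rfl, one_pos⟩ i x
    rw [hv.initial, hx0] at h1
    have h2 : HasSum (fun k => V0 k i * ex k x) ((V x i : ℂ) - fc V 0 i * ex 0 x) := by
      refine hasSum_nz h1 (fun k hk => ?_) ?_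
      · rw [hV0, gf_ne _ _ _ hk, zero_smul, ex_zero_x, one_smul]
      · rw [hV0, gf_zero]; simp
    have h3 : ex 0 x = 1 := by unfold ex; simp
    have h4 : fc V 0 i = ((M i : ℝ) : ℂ) := by
      have := congrFun (mean_zero (u := v)) i
      rw [hx0] at this
      exact this
    rw [h3, h4, mul_one] at h2
    have h5 := h2.add (shc_sum η S A i x)
    have h6 : (fun k => V0 k i * ex k x + shc η S A k i * ex k x) = fun k => (V0 + shc η S A) k i * ex k x := by
      funext k; rw [Pi.add_apply, Pi.add_apply]; ring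
    rw [h6] at h5
    rw [h5.tsum_eq, Pi.add_apply, Complex.add_re, Complex.sub_re, Complex.ofReal_re, Complex.ofReal_re,
      Complex.ofReal_re]
    ring
  rw [hinit] at hphys
  refine ⟨_, _, hphys, ?_⟩
  -- closeness
  have hUd := (hU.dom)
  have hpt : ∀ t, 0 ≤ t → ∀ x, ‖(fun i => M i + (GS M (cf' U i) t x).re) - v t x‖ₑ ≤ NW (Wa 0) (at' (U - w) t) := by
    intro t ht x
    have hwd : SN (at' w t) := ((WDom.dom hb.le hw.dom)).sn t
    have hUd' : SN (at' U t) := ((WDom.dom hb'.le hU.dom)).sn t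
    have hsn : SN (at' (U - w) t) := hUd'.sub hwd
    have e1 : NW (Wa 0) (at' (U - w) t) = ENNReal.ofReal (∑' k, ‖at' (U - w) t k‖) := by
      rw [ENNReal.ofReal_tsum_of_nonneg (fun k => norm_nonneg _) hsn]
      unfold NW Wa
      refine tsum_congr fun k => ?_
      simp [om]
    rw [e1, ← ofReal_norm]
    apply ENNReal.ofReal_le_ofReal
    refine (pi_norm_le_iff_of_nonneg (tsum_nonneg fun k => norm_nonneg _)).2 fun i => ?_
    -- the series of `v`
    have h1 := fc_sum (hS (t + 1)) (t := t) ⟨ht, by linarith⟩ i x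
    have hmc := mean_const (hS (t + 1)) (t := t) ⟨ht, by linarith⟩
    have h2 : HasSum (fun k => w k t i * ex k (x - t • M)) ((v t x i : ℂ) - xf v t 0 i * ex 0 x) := by
      refine hasSum_nz h1 (fun k hk => ?_) ?_
      · rw [hwv t ht k, gf_ne _ _ _ hk, Pi.smul_apply, smul_eq_mul]
        have e2 : ex k (t • mean v) * ex k (x - t • M) = ex k x := by
          unfold ex
          rw [← Complex.exp_add, ← mul_add, ← Finset.sum_add_distrib]
          congr 2
          refine Finset.sum_congr rfl fun j _ => ?_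
          simp only [Pi.smul_apply, Pi.sub_apply, smul_eq_mul]
          push_cast
          ring
        rw [← e2]
        ring
      · rw [hwv t ht 0, gf_zero]; simp
    have h3 : ex 0 x = 1 := by unfold ex; simp
    rw [hmc, h3, mul_one] at h2
    have h4 : HasSum (fun k => U k t i * ex k (x - t • M)) (GS M (cf' U i) t x) := by
      unfold GS SF
      have : Summable fun k => U k t i * ex k (x - t • M) := by
        refine Summable.of_norm_bounded hUd' fun k => ?_
        rw [norm_mul, norm_ex, mul_one]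
        exact norm_le_pi_norm (U k t) i
      exact this.hasSum
    have h5 := h4.sub h2
    have h6 : ((fun i => M i + (GS M (cf' U i) t x).re) - v t x) i
        = (GS M (cf' U i) t x - ((v t x i : ℂ) - cm M i)).re := by
      unfold cm
      rw [Pi.sub_apply, Complex.sub_re, Complex.sub_re, Complex.ofReal_re, Complex.ofReal_re]
      ring
    rw [h6, Real.norm_eq_abs]
    refine (Complex.abs_re_le_norm _).trans ?_
    rw [← h5.tsum_eq]
    have h7 : ∀ k, ‖U k t i * ex k (x - t • M) - w k t i * ex k (x - t • M)‖ ≤ ‖at' (U - w) t k‖ := by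
      intro k
      rw [← sub_mul, norm_mul, norm_ex, mul_one]
      exact norm_le_pi_norm ((U - w) k t) i
    exact tsum_of_norm_bounded hsn.hasSum h7
  have h8 : ∫⁻ t in Ioi δ, (⨆ x, ‖(fun i => M i + (GS M (cf' U i) t x).re) - v t x‖ₑ) ^ 2
      ≤ ∫⁻ t in Ioi δ, (NW (Wa 0) (at' (U - w) t)) ^ 2 := by
    refine setLIntegral_mono' measurableSet_Ioi fun t ht => ?_
    have ht0 : 0 ≤ t := hδ.le.trans (le_of_lt ht)
    gcongr
    exact iSup_le fun x => hpt t ht0 x
  refine h8.trans ?_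
  have h9 : ∫⁻ t in Ioi δ, (NW (Wa 0) (at' (U - w) t)) ^ 2 = (LNd δ (U - w)) ^ 2 := by
    unfold LNd LN
    rw [← ENNReal.rpow_natCast, ← ENNReal.rpow_mul]
    norm_num
    have e3 : ∀ t, (Ioi δ).indicator (fun t => NW (Wa 0) (at' (U - w) t)) t ^ 2
        = (Ioi δ).indicator (fun t => NW (Wa 0) (at' (U - w) t) ^ 2) t := by
      intro t
      by_cases ht : t ∈ Ioi δ
      · rw [indicator_of_mem ht, indicator_of_mem ht]
      · rw [indicator_of_notMem ht, indicator_of_notMem ht]; simp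
    simp only [e3]
    rw [setLIntegral_indicator measurableSet_Ioi, inter_eq_left.2 (Ioi_subset_Ioi hδ.le)]
  rw [h9]
  calc (LNd δ (U - w)) ^ 2 ≤ (ENNReal.ofReal (Real.sqrt ε)) ^ 2 := by gcongr
    _ = ENNReal.ofReal ε := by
      rw [← ENNReal.ofReal_pow hee.le, Real.sq_sqrt hε.le]

end Pool.Agent.H356R3.NS.SW
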