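import Pool.Agent.Helper19.SW.Diff
import Pool.Agent.H356R3.NS.Step3

/-!
# Stability of global solutions
-/

open MeasureTheory Set Filter Topology
open scoped ENNReal NNReal

namespace Pool.Agent.H356R3.NS.SW

/-- the heat flow -/
noncomputable def hF (c : ℝ) (e : K → C3) : Fam := fun k t => Real.exp (-(c * sq k * max t 0)) • e k

lemma hF_cf (c : ℝ) (e : K → C3) : CF (hF c e) := fun k => by unfold hF; fun_prop

lemma hF_norm {c : ℝ} (hc : 0 < c) (e : K → C3) (k : K) (t : ℝ) : ‖hF c e k t‖ ≤ ‖e k‖ := by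
  unfold hF
  rw [norm_smul, Real.norm_of_nonneg (Real.exp_pos _).le]
  have h1 : Real.exp (-(c * sq k * max t 0)) ≤ 1 := by
    rw [Real.exp_le_one_iff]
    have : 0 ≤ c * sq k * max t 0 := mul_nonneg (mul_nonneg hc.le (sq_nonneg' k)) (le_max_right _ _)
    linarith
  calc _ ≤ 1 * ‖e k‖ := mul_le_mul_of_nonneg_right h1 (norm_nonneg _)
    _ = _ := one_mul _

lemma hF_sym {c : ℝ} {e : K → C3} (he : Sym e) : SymF (hF c e) := by
  intro t k i
  simp only [at', hF, sq_neg, Pi.smul_apply]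
  rw [he k i, star_rsmul]

lemma hF_wdom {c : ℝ} (hc : 0 < c) {b : ℝ} {e : K → C3} (h : Summable fun k => om b k * ‖e k‖) :
    WDom b (hF c e) := ⟨_, h, fun k t => hF_norm hc e k t⟩

/-- real weighted norm of a family -/
noncomputable def Aw (a : ℝ) (u : Fam) (t : ℝ) : ℝ := ∑' k, om a k * ‖u k t‖

lemma Aw_nonneg (a : ℝ) (u : Fam) (t : ℝ) : 0 ≤ Aw a u t :=
  tsum_nonneg fun k => mul_nonneg (om_pos _ _).le (norm_nonneg _)

lemma Aw_summ {a : ℝ} {u : Fam} (h : WDom a u) (t : ℝ) : Summable fun k => om a k * ‖u k t‖ := by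
  obtain ⟨b, hb, hb'⟩ := h
  exact hb.of_nonneg_of_le (fun k => mul_nonneg (om_pos _ _).le (norm_nonneg _))
      fun k => mul_le_mul_of_nonneg_left (hb' k t) (om_pos _ _).le

lemma Aw_cont {a : ℝ} {u : Fam} (hu : CF u) (h : WDom a u) : Continuous (Aw a u) := by
  obtain ⟨b, hb, hb'⟩ := h
  refine continuous_tsum (fun k => ?_) hb fun k t => ?_
  · have := hu k; fun_prop
  · rw [Real.norm_of_nonneg (mul_nonneg (om_pos _ _).le (norm_nonneg _))]
    exact mul_le_mul_of_nonneg_left (hb' k t) (om_pos _ _).le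

lemma Aw_eq {a : ℝ} {u : Fam} (h : WDom a u) (t : ℝ) : NW (Wa a) (at' u t) = ENNReal.ofReal (Aw a u t) := by
  unfold Aw
  rw [ENNReal.ofReal_tsum_of_nonneg (fun k => mul_nonneg (om_pos _ _).le (norm_nonneg _)) (Aw_summ h t)]
  unfold NW Wa at'
  refine tsum_congr fun k => ?_
  rw [ENNReal.ofReal_mul (om_pos _ _).le, ofReal_norm]

lemma LN_hF {c : ℝ} (hc : 0 < c) {b : ℝ} {e : K → C3} (h0 : e 0 = 0) {x : ℝ} (hx : 0 ≤ x)
    (he : NW (Wm b) e ≤ ENNReal.ofReal x) :
    LN (fun t => NW (Wa b) (at' (hF c e) t)) ≤ ENNReal.ofReal (x / Real.sqrt c) := by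
  have hsc := Real.sqrt_pos.2 hc
  have h1 : ∀ t, NW (Wa b) (at' (hF c e) t) ^ (2 : ℝ) ≤ ENNReal.ofReal x * NW (Wp b) (at' (hF c e) t) := by
    intro t
    rw [ENNReal.rpow_two, pow_two]
    refine (NW_interp (a := b) (x := at' (hF c e) t) (by simp [at', hF, h0])).trans
      (mul_le_mul' (le_trans ?_ he) le_rfl)
    unfold NW
    refine ENNReal.tsum_le_tsum fun k => mul_le_mul' le_rfl ?_
    rw [← ofReal_norm, ← ofReal_norm]
    exact ENNReal.ofReal_le_ofReal (hF_norm hc e k t)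
  have h2 : ∫⁻ t in Ioi 0, NW (Wp b) (at' (hF c e) t) ≤ ENNReal.ofReal (x / c) := by
    unfold NW
    rw [lintegral_tsum]
    · have h3 : ∀ k, ∫⁻ t in Ioi 0, Wp b k * ‖at' (hF c e) t k‖ₑ ≤ ENNReal.ofReal (1 / c) * (Wm b k * ‖e k‖ₑ) := by
        intro k
        by_cases hk : k = 0
        · subst hk
          simp [Wp, nk_zero]
        have hs := sq_pos hk
        have hn := nk_pos hk
        have e1 : ∀ t, Wp b k * ‖at' (hF c e) t k‖ₑ
            = (Wp b k * ‖e k‖ₑ) * ENNReal.ofReal (Real.exp (-(c * sq k * max t 0))) := by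
          intro t
          simp only [at', hF]
          rw [enorm_smul, Real.enorm_of_nonneg (Real.exp_pos _).le]
          ring
        simp only [e1]
        rw [lintegral_const_mul _ (by fun_prop), lint_e (by positivity)]
        apply le_of_eq
        have hom := om_pos b k
        have e2 : Wp b k * ENNReal.ofReal (1 / (c * sq k)) = ENNReal.ofReal (1 / c) * Wm b k := by
          unfold Wp Wm
          rw [← ENNReal.ofReal_mul (by positivity), ← ENNReal.ofReal_mul (by positivity)]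
          congr 1
          rw [← nk_mul_self]
          field_simp
        calc Wp b k * ‖e k‖ₑ * ENNReal.ofReal (1 / (c * sq k))
            = (Wp b k * ENNReal.ofReal (1 / (c * sq k))) * ‖e k‖ₑ := by ring
          _ = _ := by rw [e2]; ring
      refine (ENNReal.tsum_le_tsum h3).trans ?_
      rw [ENNReal.tsum_mul_left]
      refine (mul_le_mul' le_rfl he).trans (le_of_eq ?_)
      rw [← ENNReal.ofReal_mul (by positivity)]
      congr 1; ring
    · intro k
      exact (((hF_cf c e k).enorm.measurable).const_mul _).aemeasurable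
  unfold LN
  calc (∫⁻ t in Ioi 0, NW (Wa b) (at' (hF c e) t) ^ (2 : ℝ)) ^ (1 / 2 : ℝ)
      ≤ (∫⁻ t in Ioi 0, ENNReal.ofReal x * NW (Wp b) (at' (hF c e) t)) ^ (1 / 2 : ℝ) :=
        ENNReal.rpow_le_rpow (lintegral_mono h1) (by norm_num)
    _ ≤ (ENNReal.ofReal x * ENNReal.ofReal (x / c)) ^ (1 / 2 : ℝ) := by
        apply ENNReal.rpow_le_rpow _ (by norm_num)
        rw [lintegral_const_mul' _ _ ENNReal.ofReal_ne_top]
        exact mul_le_mul' le_rfl h2
    _ = _ := by
        rw [← ENNReal.ofReal_mul hx, ENNReal.ofReal_rpow_of_nonneg (by positivity) (by norm_num),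
          ← Real.sqrt_eq_rpow]
        congr 1
        have : x * (x / c) = (x / Real.sqrt c) ^ 2 := by
          rw [div_pow, Real.sq_sqrt hc.le]; ring
        rw [this, Real.sqrt_sq (by positivity)]

theorem stab {c a0 ee : ℝ} (hc : 0 < c) (ha0 : 0 < a0) (hee : 0 < ee) {V : K → C3} {v : Fam}
    (hv : Sol c a0 V v) : ∃ ε0 : ℝ, 0 < ε0 ∧ ∀ b, 0 < b → b ≤ a0 → ∀ e : K → C3, e 0 = 0 → Sym e →
      (Summable fun k => om b k * ‖e k‖) → NW (Wm b) e ≤ ENNReal.ofReal ε0 →
      ∃ u : Fam, Sol c (b / 2) (V + e) u ∧ LN (fun t => NW (Wa 0) (at' (u - v) t)) ≤ ENNReal.ofReal ee := by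
  have hvW : WDom a0 v := hv.dom
  have hvd : Dom v := hvW.dom ha0.le
  have hC := C0_pos
  have hsc := Real.sqrt_pos.2 hc
  set L : ℝ := (LN fun t => NW (Wa a0) (at' v t)).toReal
  have hL0 : 0 ≤ L := ENNReal.toReal_nonneg
  have hLN : LN (fun t => ENNReal.ofReal (Aw a0 v t)) = ENNReal.ofReal L := by
    simp only [← Aw_eq hvW]
    rw [ENNReal.ofReal_toReal hv.l2]
  set D : ℝ := L + 1
  have hD : 0 < D := by positivity
  obtain ⟨Lam, ρ0, hp0⟩ := exists_par hc hD
  have hρ0 := hp0.hρ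
  set ρ := min ρ0 (ee / (2 * Real.exp (Lam * D ^ 2)))
  have hρ : 0 < ρ := lt_min hρ0 (by positivity)
  have hp : Par c D Lam ρ := hp0.mono hρ (min_le_left _ _)
  have hρe : Real.exp (Lam * D ^ 2) * ρ ≤ ee / 2 := by
    have h1 : ρ ≤ ee / (2 * Real.exp (Lam * D ^ 2)) := min_le_right _ _
    have h2 := Real.exp_pos (Lam * D ^ 2)
    rw [le_div_iff₀ (by positivity)] at h1
    linarith
  set y : ℝ := min 1 (min (ee / 2) (Real.sqrt c * (ρ / 2) / (C0 * (2 * L + 1))))
  have hy : 0 < y := lt_min one_pos (lt_min (by positivity) (by positivity))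
  have hy1 : y ≤ 1 := min_le_left _ _
  have hy2 : y ≤ ee / 2 := (min_le_right _ _).trans (min_le_left _ _)
  have hy3 : C0 * (2 * L + 1) * y ≤ Real.sqrt c * (ρ / 2) := by
    have h1 : y ≤ Real.sqrt c * (ρ / 2) / (C0 * (2 * L + 1)) := (min_le_right _ _).trans (min_le_right _ _)
    rw [le_div_iff₀ (by positivity)] at h1
    linarith
  refine ⟨y * Real.sqrt c, by positivity, fun b hb hba e he0 hes heW heN => ?_⟩
  have hhW : WDom b (hF c e) := hF_wdom hc heW
  have hhd : Dom (hF c e) := hhW.dom hb.le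
  have hhc := hF_cf c e
  have hhs : SymF (hF c e) := hF_sym hes
  have hh0 : ∀ t, hF c e 0 t = 0 := fun t => by simp [hF, he0]
  have hLNh : LN (fun t => NW (Wa b) (at' (hF c e) t)) ≤ ENNReal.ofReal y := by
    have := LN_hF hc he0 (by positivity) heN
    rwa [mul_div_cancel_right₀ _ hsc.ne'] at this
  set U : Fam := v + hF c e with hU
  set FE : Fam := Bt U - Bt v with hFE
  have hUc : CF U := fun k => (hv.cf k).add (hhc k)
  have hvb : WDom b v := hvW.mono hba
  have hUW : WDom b U := hvb.add hhW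
  have hUd : Dom U := hUW.dom hb.le
  have hUs : SymF U := fun t => (hv.sym t).add (hhs t)
  have hFEc : CF FE := fun k => (Bt_cont hUc hUd k).sub (Bt_cont hv.cf hvd k)
  have hFEs : SymF FE := fun t => (Bt_sym hUs t).sub (Bt_sym hv.sym t)
  have hFE0 : ∀ t, FE 0 t = 0 := by
    intro t
    simp only [FE, Pi.sub_apply, Bt, Bf_zero, sub_self]
  set A : ℝ → ℝ := fun t => Aw a0 v t + Aw b (hF c e) t
  have hAc : Continuous A := (Aw_cont hv.cf hvW).add (Aw_cont hhc hhW)
  have hA0 : ∀ t, 0 ≤ A t := fun t => add_nonneg (Aw_nonneg _ _ _) (Aw_nonneg _ _ _)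
  have m1 := (Aw_cont hv.cf hvW).measurable.ennreal_ofReal
  have m2 := (Aw_cont hhc hhW).measurable.ennreal_ofReal
  have hLNh' : LN (fun t => ENNReal.ofReal (Aw b (hF c e) t)) ≤ ENNReal.ofReal y := by
    simp only [← Aw_eq hhW]; exact hLNh
  have hAi : LN (fun t => ENNReal.ofReal (A t)) ≤ ENNReal.ofReal D := by
    have h1 : ∀ t, ENNReal.ofReal (A t) = ENNReal.ofReal (Aw a0 v t) + ENNReal.ofReal (Aw b (hF c e) t) := by
      intro t
      rw [← ENNReal.ofReal_add (Aw_nonneg _ _ _) (Aw_nonneg _ _ _)]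
    simp only [h1]
    refine (LN_add_le m1 m2).trans ?_
    rw [hLN, ENNReal.ofReal_add hL0 zero_le_one]
    exact add_le_add le_rfl (hLNh'.trans (ENNReal.ofReal_le_ofReal hy1))
  have hvA : ∀ t, NW (Wa b) (at' v t) ≤ ENNReal.ofReal (Aw a0 v t) := fun t => by
    rw [← Aw_eq hvW]; exact NW_mono (fun k => Wa_mono hba k) _
  have hUA : ∀ t, 0 < t → NW (Wa b) (at' U t) ≤ ENNReal.ofReal (A t) := by
    intro t _
    have e1 : at' U t = at' v t + at' (hF c e) t := rfl
    rw [e1]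
    refine (NW_add_le _ _ _).trans ((add_le_add (hvA t) (Aw_eq hhW t).le).trans (le_of_eq ?_))
    rw [← ENNReal.ofReal_add (Aw_nonneg _ _ _) (Aw_nonneg _ _ _)]
  set η' := C0 * (2 * L + 1) * y
  have hη' : 0 ≤ η' := by positivity
  have hη2 : η' ^ 2 ≤ c * (ρ / 2) ^ 2 := by
    calc η' ^ 2 ≤ (Real.sqrt c * (ρ / 2)) ^ 2 := by gcongr
      _ = _ := by rw [mul_pow, Real.sq_sqrt hc.le]
  have hFEi : ∫⁻ s in Ioi 0, NW (Wm b) (at' FE s) ≤ ENNReal.ofReal η' := by
    have h1 : ∀ s, NW (Wm b) (at' FE s) ≤ ENNReal.ofReal C0 *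
        (2 * (ENNReal.ofReal (Aw b (hF c e) s) * ENNReal.ofReal (Aw a0 v s))
          + ENNReal.ofReal (Aw b (hF c e) s) * ENNReal.ofReal (Aw b (hF c e) s)) := by
      intro s
      set x := at' v s
      set h := at' (hF c e) s
      have nx : SN x := hvd.sn s
      have nh : SN h := hhd.sn s
      have e1 : at' FE s = Bf h (x + h) + Bf x h := by
        have e2 : at' FE s = Bf (x + h) (x + h) - Bf x x := rfl
        rw [e2, Bf_diff (nx.add nh) nx, add_sub_cancel_left]
      rw [e1]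
      have hh : NW (Wa b) h = ENNReal.ofReal (Aw b (hF c e) s) := Aw_eq hhW s
      have hx : NW (Wa b) x ≤ ENNReal.ofReal (Aw a0 v s) := hvA s
      calc _ ≤ ENNReal.ofReal C0 * (NW (Wa b) h * NW (Wa b) (x + h)) + ENNReal.ofReal C0 * (NW (Wa b) x * NW (Wa b) h) :=
            (NW_add_le _ _ _).trans (add_le_add (NW_Bf_le hb.le _ _) (NW_Bf_le hb.le _ _))
        _ ≤ ENNReal.ofReal C0 * (NW (Wa b) h * (ENNReal.ofReal (Aw a0 v s) + NW (Wa b) h))
            + ENNReal.ofReal C0 * (ENNReal.ofReal (Aw a0 v s) * NW (Wa b) h) := by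
            gcongr
            exact (NW_add_le _ _ _).trans (add_le_add hx le_rfl)
        _ = _ := by rw [hh]; ring
    have mm : Measurable fun s => ENNReal.ofReal (Aw b (hF c e) s) * ENNReal.ofReal (Aw a0 v s) := m2.mul m1
    calc _ ≤ ∫⁻ s in Ioi 0, ENNReal.ofReal C0 *
        (2 * (ENNReal.ofReal (Aw b (hF c e) s) * ENNReal.ofReal (Aw a0 v s))
          + ENNReal.ofReal (Aw b (hF c e) s) * ENNReal.ofReal (Aw b (hF c e) s)) := lintegral_mono h1
      _ = ENNReal.ofReal C0 * (2 * (∫⁻ s in Ioi 0, ENNReal.ofReal (Aw b (hF c e) s) * ENNReal.ofReal (Aw a0 v s))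
          + ∫⁻ s in Ioi 0, ENNReal.ofReal (Aw b (hF c e) s) * ENNReal.ofReal (Aw b (hF c e) s)) := by
          rw [lintegral_const_mul' _ _ ENNReal.ofReal_ne_top, lintegral_add_left (mm.const_mul 2),
            lintegral_const_mul' _ _ (by norm_num)]
      _ ≤ ENNReal.ofReal C0 * (2 * (ENNReal.ofReal y * ENNReal.ofReal L) + ENNReal.ofReal y * ENNReal.ofReal y) := by
          apply mul_le_mul' le_rfl (add_le_add (mul_le_mul' le_rfl _) _)
          · refine (LN_cs m2 m1).trans (mul_le_mul' hLNh' hLN.le)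
          · exact (LN_cs m2 m2).trans (mul_le_mul' hLNh' hLNh')
      _ ≤ _ := by
          rw [show (2 : ℝ≥0∞) = ENNReal.ofReal 2 by simp, ← ENNReal.ofReal_mul hy.le, ← ENNReal.ofReal_mul hy.le,
            ← ENNReal.ofReal_mul (by norm_num), ← ENNReal.ofReal_add (by positivity) (by positivity),
            ← ENNReal.ofReal_mul hC.le]
          apply ENNReal.ofReal_le_ofReal
          simp only [η']
          have h5 : y * y ≤ y * 1 := mul_le_mul_of_nonneg_left hy1 hy.le
          have h6 : C0 * (y * y) ≤ C0 * (y * 1) := mul_le_mul_of_nonneg_left h5 hC.le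
          nlinarith
  obtain ⟨r, M, hM, hrc, hr0, hrM, hrL, hrfix, hrs⟩ := exist hp hb hAc hA0 hAi hUc hUd hUs hUA hFEc
    hFEs hFE0 hη' hη2 hFEi
  have hrW : WDom (b / 2) r := by
    refine ⟨fun k => M * (nk k * Real.exp (-(b * l1 k))), ?_, fun k t =>
      norm_le_of_NWm hM (hr0 t) (hrM t) k⟩
    refine ((summ_nk (half_pos hb)).mul_left M).congr fun k => ?_
    unfold om
    have : Real.exp (-(b / 2 * l1 k)) = Real.exp (b / 2 * l1 k) * Real.exp (-(b * l1 k)) := by
      rw [← Real.exp_add]; congr 1; ring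
    rw [this]; ring
  have hrd : Dom r := hrW.dom (half_pos hb).le
  have hUrc : CF (U + r) := fun k => (hUc k).add (hrc k)
  refine ⟨U + r, ⟨hUrc, ?_, fun t => (hUs t).add (hrs t), (hUW.mono (by linarith)).add hrW, ?_, ?_⟩, ?_⟩
  · intro t
    show (v 0 t + hF c e 0 t) + r 0 t = 0
    rw [hv.z, hh0, hr0]; simp
  · have m1 : Measurable fun t => NW (Wa (b / 2)) (at' U t) := NW_meas _ hUc
    have m2 : Measurable fun t => NW (Wa (b / 2)) (at' r t) := NW_meas _ hrc
    have h1 : LN (fun t => NW (Wa (b / 2)) (at' U t)) ≠ ⊤ := by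
      refine ne_top_of_le_ne_top ENNReal.ofReal_ne_top ((LN_mono fun t ht => ?_).trans hAi)
      exact (NW_mono (fun k => Wa_mono (by linarith) k) _).trans (hUA t ht)
    have h2 : LN (fun t => NW (Wa (b / 2)) (at' r t)) ≠ ⊤ :=
      ne_top_of_le_ne_top (ENNReal.mul_ne_top ENNReal.ofReal_ne_top
        (ne_top_of_le_ne_top ENNReal.ofReal_ne_top hrL))
        (LN_le_LF hp.hL.le hD.le hAc hA0 hAi (half_le_self hb.le) hrc)
    refine ne_top_of_le_ne_top (LN_ne_top_add m1 m2 h1 h2) (LN_mono fun t _ => ?_)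
    exact NW_add_le _ _ _
  · intro k t
    have hBU := Bt_cont hUc hUd
    have hBv := Bt_cont hv.cf hvd
    have hBUr := Bt_cont hUrc (hUd.add hrd)
    have e1 : FE + (Bt (U + r) - Bt U) = Bt (U + r) - Bt v := by rw [hFE]; abel
    rw [e1] at hrfix
    have e2 : r k t = Duh c (Bt (U + r)) k t - Duh c (Bt v) k t := by
      conv_lhs => rw [hrfix]
      rw [Duh_sub hBUr hBv]; rfl
    show (v k t + hF c e k t) + r k t = Real.exp (-(c * sq k * max t 0)) • (V k + e k) + _
    rw [e2, hv.eq k t, smul_add]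
    unfold hF
    abel
  · have e1 : U + r - v = hF c e + r := by rw [hU]; abel
    rw [e1]
    have m1 : Measurable fun t => NW (Wa 0) (at' (hF c e) t) := NW_meas _ hhc
    have m2 : Measurable fun t => NW (Wa 0) (at' r t) := NW_meas _ hrc
    refine (LN_mono fun t _ => NW_add_le (Wa 0) (at' (hF c e) t) (at' r t)).trans ((LN_add_le m1 m2).trans ?_)
    have h1 : LN (fun t => NW (Wa 0) (at' (hF c e) t)) ≤ ENNReal.ofReal (ee / 2) :=
      (LN_mono fun t _ => NW_mono (fun k => Wa_mono hb.le k) _).trans (hLNh.trans (ENNReal.ofReal_le_ofReal hy2))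
    have h2 : LN (fun t => NW (Wa 0) (at' r t)) ≤ ENNReal.ofReal (ee / 2) := by
      refine (LN_le_LF hp.hL.le hD.le hAc hA0 hAi hb.le hrc).trans ((mul_le_mul' le_rfl hrL).trans ?_)
      rw [← ENNReal.ofReal_mul (Real.exp_pos _).le]
      exact ENNReal.ofReal_le_ofReal hρe
    refine (add_le_add h1 h2).trans (le_of_eq ?_)
    rw [← ENNReal.ofReal_add (half_pos hee).le (half_pos hee).le, add_halves]

end Pool.Agent.H356R3.NS.SW
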