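import Pool.Agent.Helper19.SW.Bil

/-!
# Sums over all modes
-/

open MeasureTheory Set Filter Topology
open scoped ENNReal NNReal

namespace Pool.Agent.H356R3.NS.SW

variable {P : Pm}

/-- the commutator with the shear flow -/
noncomputable def TAf (P : Pm) (Y : Fam) : Fam := fun k t =>
  ∑ l ∈ P.S, tt l (P.A l (cl P.T t)) (k - l) (Y (k - l) t)

lemma A_norm (P : Pm) (l : K) {t : ℝ} (ht : 0 ≤ t) :
    ‖P.A l t‖ = ‖P.a l‖ * Real.exp (-(P.c * sq l * t)) := by
  unfold Pm.A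
  rw [max_eq_left ht, norm_smul, Real.norm_of_nonneg (Real.exp_pos _).le, mul_comm]

lemma smul_real (s : ℝ) (v : C3) : s • v = (s : ℂ) • v := by
  funext i; simp

lemma A_perp (hP : P.OK) (l : K) (t : ℝ) : dt P.η (P.A l t) = 0 := by
  unfold Pm.A
  rw [smul_real, dt_vsmul, hP.perp l, mul_zero]

lemma A_cf (P : Pm) : CF P.A := fun k => by unfold Pm.A; fun_prop

lemma h0_eq (P : Pm) {t : ℝ} (ht : 0 ≤ t) : ∑ l ∈ P.S, ‖P.A l t‖ = P.h0 t := by
  unfold Pm.h0
  exact Finset.sum_congr rfl fun l _ => A_norm P l ht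

lemma h1_eq (P : Pm) {t : ℝ} (ht : 0 ≤ t) : ∑ l ∈ P.S, nk l * ‖P.A l t‖ = P.h1 t := by
  unfold Pm.h1
  exact Finset.sum_congr rfl fun l _ => by rw [A_norm P l ht]

lemma h2_eq (P : Pm) {t : ℝ} (ht : 0 ≤ t) : ∑ l ∈ P.S, sq l * ‖P.A l t‖ = P.h2 t := by
  unfold Pm.h2
  exact Finset.sum_congr rfl fun l _ => by rw [A_norm P l ht]

lemma sc_mono {f f' : K → ℝ} (h : ∀ k, f k ≤ f' k) (X : Fam) (t : ℝ) : sc P f X t ≤ sc P f' X t :=
  ENNReal.tsum_le_tsum fun k => mul_le_mul' (ENNReal.ofReal_le_ofReal (h k)) le_rfl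

lemma sc_eq (f : K → ℝ) (hf : ∀ k, 0 ≤ f k) (X : Fam) (t : ℝ) :
    sc P f X t = ∑' k, ENNReal.ofReal (P.W t k * (f k * ‖X k t‖)) := by
  unfold sc
  refine tsum_congr fun k => ?_
  rw [ph_eq, ← ENNReal.ofReal_mul (hf k)]
  congr 1; ring

lemma s0_eq (X : Fam) (t : ℝ) : s0 P X t = ∑' k, ENNReal.ofReal (P.W t k * ‖X k t‖) := by
  unfold s0
  exact tsum_congr fun k => ph_eq X k t

lemma fin3 {κ : ℝ} (hκ : 0 ≤ κ) (x1 x2 x3 : ℝ) (s1 s2 s3 : ℝ≥0∞) :
    2 * (ENNReal.ofReal (κ * x1) * s1 + ENNReal.ofReal (κ * x2) * s2 + ENNReal.ofReal (κ * x3) * s3)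
      = ENNReal.ofReal (2 * κ) * (ENNReal.ofReal x1 * s1 + ENNReal.ofReal x2 * s2 + ENNReal.ofReal x3 * s3) := by
  rw [ENNReal.ofReal_mul hκ, ENNReal.ofReal_mul hκ, ENNReal.ofReal_mul hκ,
    ENNReal.ofReal_mul (by norm_num : (0:ℝ) ≤ 2), ENNReal.ofReal_ofNat]
  ring

section TAsums

variable (hP : P.OK) {Y : Fam} (hd : ∀ k t, dt k (Y k t) = 0) {t : ℝ} (ht : t ∈ Icc 0 P.T)
include hP ht

lemma TAs0 : s0 P (TAf P Y) t ≤ ENNReal.ofReal (8 * Real.pi) *
    (ENNReal.ofReal (P.h0 t) * sc P (pp P.η) Y t + ENNReal.ofReal (P.h1 t) * s0 P Y t) := by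
  have hpi := Real.pi_pos
  rw [s0_eq]
  have h := line_sum3 hP (t := t) (Y := Y) (Q := fun k => ‖TAf P Y k t‖)
    (α1 := fun l => 4 * Real.pi * ‖P.A l t‖) (α2 := fun l => 4 * Real.pi * (nk l * ‖P.A l t‖))
    (α3 := fun _ => 0) (f1 := pp P.η) (f2 := fun _ => 1) (f3 := fun _ => 0)
    (fun l => by positivity) (fun l => by have := nk_nonneg l; positivity) (fun _ => le_rfl)
    (pp_nonneg P.η) (fun _ => zero_le_one) (fun _ => le_rfl) (fun k => by
      unfold TAf
      rw [cl_of_mem ht]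
      refine (norm_sum_le _ _).trans (Finset.sum_le_sum fun l hl => ?_)
      refine (N1 hP hl (A_perp hP l t)).trans (le_of_eq ?_)
      ring)
  refine h.trans (le_of_eq ?_)
  rw [← Finset.mul_sum, ← Finset.mul_sum, h0_eq P ht.1, h1_eq P ht.1, sc_one]
  have e := fin3 (κ := 4 * Real.pi) (by positivity) (P.h0 t) (P.h1 t) 0 (sc P (pp P.η) Y t) (s0 P Y t) 0
  simp only [mul_zero, add_zero] at e
  simp only [Finset.sum_const_zero, ENNReal.ofReal_zero, zero_mul, add_zero]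
  rw [e]; congr 2; ring

lemma TAsπ : sπ P (TAf P Y) t ≤ ENNReal.ofReal (16 * Real.pi) *
    (ENNReal.ofReal (P.h0 t) * sc P (pp P.η) Y t) := by
  have hpi := Real.pi_pos
  unfold sπ
  have h := line_sum3 hP (t := t) (Y := Y) (Q := fun k => par P.η (TAf P Y k t))
    (α1 := fun l => 8 * Real.pi * ‖P.A l t‖) (α2 := fun _ => 0)
    (α3 := fun _ => 0) (f1 := pp P.η) (f2 := fun _ => 0) (f3 := fun _ => 0)
    (fun l => by positivity) (fun _ => le_rfl) (fun _ => le_rfl)
    (pp_nonneg P.η) (fun _ => le_rfl) (fun _ => le_rfl) (fun k => by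
      unfold TAf
      rw [cl_of_mem ht]
      have h1 : par P.η (∑ l ∈ P.S, tt l (P.A l t) (k - l) (Y (k - l) t)) ≤
          ∑ l ∈ P.S, par P.η (tt l (P.A l t) (k - l) (Y (k - l) t)) := by
        classical
        induction P.S using Finset.induction_on with
        | empty => simp [par, dt_vzero]
        | insert i s hi ih =>
          rw [Finset.sum_insert hi, Finset.sum_insert hi]
          exact (par_add_le _ _ _).trans (add_le_add le_rfl ih)
      refine h1.trans (Finset.sum_le_sum fun l _ => ?_)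
      refine (N2 hP (A_perp hP l t)).trans (le_of_eq ?_)
      ring)
  refine h.trans (le_of_eq ?_)
  rw [← Finset.mul_sum, h0_eq P ht.1]
  have e := fin3 (κ := 8 * Real.pi) (by positivity) (P.h0 t) 0 0 (sc P (pp P.η) Y t) 0 0
  simp only [mul_zero, add_zero] at e
  simp only [Finset.sum_const_zero, ENNReal.ofReal_zero, zero_mul, add_zero]
  rw [e]; congr 2; ring

lemma TAsp : sc P (pp P.η) (TAf P Y) t ≤ ENNReal.ofReal (8 * Real.pi) *
    (ENNReal.ofReal (P.h0 t) * sc P (fun k => pp P.η k * pp P.η k) Y t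
      + ENNReal.ofReal (P.h1 t) * sc P (pp P.η) Y t) := by
  have hpi := Real.pi_pos
  rw [sc_eq _ (pp_nonneg P.η)]
  have h := line_sum3 hP (t := t) (Y := Y) (Q := fun k => pp P.η k * ‖TAf P Y k t‖)
    (α1 := fun l => 4 * Real.pi * ‖P.A l t‖) (α2 := fun l => 4 * Real.pi * (nk l * ‖P.A l t‖))
    (α3 := fun _ => 0) (f1 := fun k => pp P.η k * pp P.η k) (f2 := pp P.η) (f3 := fun _ => 0)
    (fun l => by positivity) (fun l => by have := nk_nonneg l; positivity) (fun _ => le_rfl)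
    (fun k => mul_nonneg (pp_nonneg _ _) (pp_nonneg _ _)) (pp_nonneg P.η) (fun _ => le_rfl) (fun k => by
      unfold TAf
      rw [cl_of_mem ht]
      refine (mul_le_mul_of_nonneg_left (norm_sum_le _ _) (pp_nonneg P.η k)).trans ?_
      rw [Finset.mul_sum]
      refine Finset.sum_le_sum fun l hl => ?_
      have h4 := N4 hP hl (A_perp hP l t) (j := k - l) (y := Y (k - l) t)
      rw [add_sub_cancel] at h4
      refine h4.trans (le_of_eq ?_)
      ring)
  refine h.trans (le_of_eq ?_)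
  rw [← Finset.mul_sum, ← Finset.mul_sum, h0_eq P ht.1, h1_eq P ht.1]
  have e := fin3 (κ := 4 * Real.pi) (by positivity) (P.h0 t) (P.h1 t) 0
    (sc P (fun k => pp P.η k * pp P.η k) Y t) (sc P (pp P.η) Y t) 0
  simp only [mul_zero, add_zero] at e
  simp only [Finset.sum_const_zero, ENNReal.ofReal_zero, zero_mul, add_zero]
  rw [e]; congr 2; ring

include hd

lemma TAsq : sc P (qq P.η) (TAf P Y) t ≤ ENNReal.ofReal (16 * Real.pi) *
    (ENNReal.ofReal (P.h1 t) * sc P (pp P.η) Y t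
      + ENNReal.ofReal (P.h0 t) * sc P (fun k => pp P.η k * nk k) Y t
      + ENNReal.ofReal (P.h2 t) * s0 P Y t) := by
  have hpi := Real.pi_pos
  rw [sc_eq _ (qq_nonneg P.η)]
  have h := line_sum3 hP (t := t) (Y := Y) (Q := fun k => qq P.η k * ‖TAf P Y k t‖)
    (α1 := fun l => 8 * Real.pi * (nk l * ‖P.A l t‖)) (α2 := fun l => 8 * Real.pi * ‖P.A l t‖)
    (α3 := fun l => 8 * Real.pi * (sq l * ‖P.A l t‖)) (f1 := pp P.η) (f2 := fun k => pp P.η k * nk k)
    (f3 := fun _ => 1)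
    (fun l => by have := nk_nonneg l; positivity) (fun l => by positivity)
    (fun l => by have := sq_nonneg' l; positivity)
    (pp_nonneg P.η) (fun k => mul_nonneg (pp_nonneg _ _) (nk_nonneg _)) (fun _ => zero_le_one) (fun k => by
      unfold TAf
      rw [cl_of_mem ht]
      refine (mul_le_mul_of_nonneg_left (norm_sum_le _ _) (qq_nonneg P.η k)).trans ?_
      rw [Finset.mul_sum]
      refine Finset.sum_le_sum fun l hl => ?_
      have h4 := N3 hP hl (A_perp hP l t) (hd (k - l) t)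
      rw [add_sub_cancel] at h4
      refine h4.trans (le_of_eq ?_)
      ring)
  refine h.trans (le_of_eq ?_)
  rw [← Finset.mul_sum, ← Finset.mul_sum, ← Finset.mul_sum, h0_eq P ht.1, h1_eq P ht.1, h2_eq P ht.1, sc_one]
  rw [fin3 (by positivity)]; congr 2; ring

/-- the remainder term -/
noncomputable def Rf (P : Pm) (Y : Fam) : Fam := fun k t =>
  ∑ l ∈ P.S, (P.c * (sq k - sq l)) • tt l (P.A l (cl P.T t)) (k - l) (Y (k - l) t)

lemma Rs0 : s0 P (Rf P Y) t ≤ ENNReal.ofReal (48 * Real.pi) *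
    (ENNReal.ofReal (P.h0 t) * sc P (fun k => pp P.η k * (P.c * sq k)) Y t
      + ENNReal.ofReal (P.c * P.h1 t) * sc P (fun k => pp P.η k * nk k) Y t
      + ENNReal.ofReal (P.c * P.h2 t) * sc P (pp P.η) Y t) := by
  have hpi := Real.pi_pos
  have hc := hP.hc
  rw [s0_eq]
  have h := line_sum3 hP (t := t) (Y := Y) (Q := fun k => ‖Rf P Y k t‖)
    (α1 := fun l => 24 * Real.pi * ‖P.A l t‖) (α2 := fun l => 24 * Real.pi * (P.c * (nk l * ‖P.A l t‖)))
    (α3 := fun l => 24 * Real.pi * (P.c * (sq l * ‖P.A l t‖))) (f1 := fun k => pp P.η k * (P.c * sq k))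
    (f2 := fun k => pp P.η k * nk k) (f3 := pp P.η)
    (fun l => by positivity) (fun l => by have := nk_nonneg l; positivity)
    (fun l => by have := sq_nonneg' l; positivity)
    (fun k => mul_nonneg (pp_nonneg _ _) (mul_nonneg hc.le (sq_nonneg' k)))
    (fun k => mul_nonneg (pp_nonneg _ _) (nk_nonneg _)) (pp_nonneg P.η) (fun k => by
      unfold Rf
      rw [cl_of_mem ht]
      refine (norm_sum_le _ _).trans (Finset.sum_le_sum fun l hl => ?_)
      have h5 := N5 hP hl (A_perp hP l t) (hd (k - l) t)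
      rw [add_sub_cancel] at h5
      rw [norm_smul, norm_mul, Real.norm_of_nonneg hc.le, Real.norm_eq_abs]
      refine h5.trans (le_of_eq ?_)
      ring)
  refine h.trans (le_of_eq ?_)
  rw [← Finset.mul_sum, ← Finset.mul_sum, ← Finset.mul_sum, ← Finset.mul_sum, ← Finset.mul_sum,
    h0_eq P ht.1, h1_eq P ht.1, h2_eq P ht.1]
  rw [fin3 (by positivity)]; congr 2; ring

end TAsums

end Pool.Agent.H356R3.NS.SW
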