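import Pool.Agent.Helper19.SW.MainF

/-!
# Uniqueness, local existence and persistence of analyticity
-/

open MeasureTheory Set Filter Topology
open scoped ENNReal NNReal

namespace Pool.Agent.H356R3.NS.SW

/-- Solutions on `[0,T]` in a class of regular families. -/
structure WS (c T : ℝ) (u : Fam) : Prop where
  st : St u
  bd : ∃ β : K → ℝ, Summable (fun k => (1 + c * sq k) * β k) ∧ ∀ k t, ‖u k t‖ ≤ β k
  eq : ∀ k, ∀ t ∈ Icc 0 T, u k t = Real.exp (-(c * sq k * t)) • u k 0 + Duh c (Bt u) k t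

variable {c T : ℝ}

lemma WS.dom (hc : 0 < c) {u : Fam} (h : WS c T u) : Dom u := by
  obtain ⟨β, hβ, hb⟩ := h.bd
  have hβ0 : ∀ k, 0 ≤ β k := fun k => (norm_nonneg _).trans (hb k 0)
  refine ⟨β, hβ.of_nonneg_of_le hβ0 fun k => ?_, hb⟩
  have := sq_nonneg' k
  calc β k = 1 * β k := (one_mul _).symm
    _ ≤ _ := by
      apply mul_le_mul_of_nonneg_right _ (hβ0 k)
      have : 0 ≤ c * sq k := by positivity
      linarith

lemma WS.mono {T' : ℝ} (hT : T' ≤ T) {u : Fam} (h : WS c T u) : WS c T' u :=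
  ⟨h.st, h.bd, fun k t ht => h.eq k t ⟨ht.1, ht.2.trans hT⟩⟩

lemma duh_shift {u : Fam} (hB : CF (Bt u)) (h : ∀ k, ∀ t ∈ Icc 0 T, u k t =
    Real.exp (-(c * sq k * t)) • u k 0 + Duh c (Bt u) k t) (k : K) {t0 t : ℝ} (h0 : 0 ≤ t0) (ht : t0 ≤ t)
    (htT : t ≤ T) : u k t = Real.exp (-(c * sq k * (t - t0))) • u k t0 +
      ∫ s in t0..t, Real.exp (-(c * sq k * (t - s))) • Bt u k s := by
  have e1 := h k t ⟨h0.trans ht, htT⟩
  have e0 := h k t0 ⟨h0, ht.trans htT⟩
  rw [Duh_eq, max_eq_left (h0.trans ht)] at e1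
  rw [Duh_eq, max_eq_left h0] at e0
  have hc := cont_inner hB c k
  have hadd : ∫ s in (0 : ℝ)..t, Real.exp (c * sq k * s) • Bt u k s
      = (∫ s in (0 : ℝ)..t0, Real.exp (c * sq k * s) • Bt u k s)
        + ∫ s in t0..t, Real.exp (c * sq k * s) • Bt u k s :=
    (intervalIntegral.integral_add_adjacent_intervals (hc.intervalIntegrable _ _)
      (hc.intervalIntegrable _ _)).symm
  have e2 : ∫ s in t0..t, Real.exp (-(c * sq k * (t - s))) • Bt u k s
      = Real.exp (-(c * sq k * t)) • ∫ s in t0..t, Real.exp (c * sq k * s) • Bt u k s := by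
    rw [← intervalIntegral.integral_smul]
    refine intervalIntegral.integral_congr fun s _ => ?_
    simp only [smul_smul, ← Real.exp_add]
    congr 2
    ring
  rw [e2, e1, e0, hadd]
  simp only [smul_add, smul_smul, ← Real.exp_add]
  have e3 : -(c * sq k * (t - t0)) + -(c * sq k * t0) = -(c * sq k * t) := by ring
  rw [e3, add_assoc]

lemma WS.shf (hc : 0 < c) {u : Fam} (h : WS c T u) {s : ℝ} (hs : s ∈ Icc 0 T) : WS c (T - s) (shf s u) := by
  have hd := h.dom hc
  have hB := Bt_cont h.st.cf hd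
  obtain ⟨β, hβ, hb⟩ := h.bd
  refine ⟨h.st.comp (g := fun t => s + max t 0) (by fun_prop), ⟨β, hβ, fun k t => hb k _⟩, fun k t ht => ?_⟩
  have e1 := duh_shift hB h.eq k hs.1 (le_add_of_nonneg_right ht.1 : s ≤ s + t) (by linarith [ht.2])
  show u k (s + max t 0) = Real.exp (-(c * sq k * t)) • u k (s + max 0 0) + _
  rw [max_eq_left ht.1, max_self, add_zero, e1, add_sub_cancel_left]
  congr 1
  unfold Duh
  rw [max_eq_left ht.1]
  have h3 := intervalIntegral.integral_comp_add_left (a := 0) (b := t)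
    (fun r => Real.exp (-(c * sq k * (s + t - r))) • Bt u k r) s
  rw [add_zero] at h3
  rw [← h3]
  refine intervalIntegral.integral_congr fun r hr => ?_
  rw [uIcc_of_le ht.1] at hr
  show Real.exp (-(c * sq k * (s + t - (s + r)))) • Bt u k (s + r) = _
  congr 1
  · congr 1; ring
  · show Bf _ _ k = Bf _ _ k
    have : at' (SW.shf s u) r = at' u (s + r) := by
      funext k
      show u k (s + max r 0) = u k (s + r)
      rw [max_eq_left hr.1]
    rw [this]

/-- parameters without shear flow -/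
noncomputable def PZ (c κ b τ : ℝ) : Pm := ⟨c, fun _ => 1, ∅, 0, 0, κ, b, τ⟩

lemma PZ_ok {κ b τ : ℝ} (hc : 0 < c) (hκ : 1 ≤ κ) (hb : 0 ≤ b) (hτ : 0 < τ) (hτ1 : τ ≤ 1) :
    (PZ c κ b τ).OK := by
  refine ⟨hc, ?_, by simp [PZ], by simp [PZ], fun l => dt_vzero _, fun l _ => rfl, fun k i => by simp [PZ],
    le_rfl, hκ, hb, hτ, hτ1, ?_, by simp [PZ], ?_⟩
  · intro h
    have := congrFun h 0
    simp [PZ] at this
  · simp [PZ, Pm.X2]
  · simp [PZ, Pm.X2]

lemma PZ_X2 (c κ b τ : ℝ) : (PZ c κ b τ).X2 = 0 := by simp [PZ, Pm.X2]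

lemma PZ_μ (c κ b τ : ℝ) : (PZ c κ b τ).μ = 1 / κ := by
  unfold Pm.μ; rw [PZ_X2, add_zero]; rfl

lemma PZ_W (c κ b τ t : ℝ) (k : K) : (PZ c κ b τ).W t k = om b k := by
  simp [PZ, Pm.W, Pm.G, om]

lemma wz_zero (P : Pm) (Z : Fam) : wz P Z 0 = Z := by unfold wz; rw [TAf_zero, add_zero]

lemma KB_PZ (c κ b τ : ℝ) : (PZ c κ b τ).KB = (P0 c).KB := rfl

lemma KB0_pos (hc : 0 < c) : 0 < (P0 c).KB := by
  have h := KB_pos (PZ_ok (κ := 1) (b := 0) (τ := 1) hc le_rfl le_rfl one_pos le_rfl)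
  rwa [KB_PZ] at h

lemma KL0_pos (hc : 0 < c) : 0 < (P0 c).KL := by
  have h := KL_pos (PZ_ok (κ := 1) (b := 0) (τ := 1) hc le_rfl le_rfl one_pos le_rfl)
  exact h

lemma EN_of_bd {τ : ℝ} (hc : 0 < c) (hτ : 0 < τ) (hτ1 : τ ≤ 1) {u : Fam} {β : K → ℝ}
    (hs : Summable (fun k => (1 + c * sq k) * β k)) (hb : ∀ k t, ‖u k t‖ ≤ β k) {R : ℝ}
    (hR : ∑' k, (1 + c * sq k) * β k ≤ R) : EN (PZ c 1 0 τ) (clf (PZ c 1 0 τ) u) ≤ ENNReal.ofReal R := by
  have hP := PZ_ok (κ := 1) (b := 0) (τ := τ) hc le_rfl le_rfl hτ hτ1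
  have e : ∀ k, (1 + (PZ c 1 0 τ).c * sq k + (PZ c 1 0 τ).a1 * pp (PZ c 1 0 τ).η k)
      * (om (3 * (PZ c 1 0 τ).a1 + (PZ c 1 0 τ).b) k * β k) = (1 + c * sq k) * β k := by
    intro k
    simp [PZ, om]
  refine EN_clf_le hP hb ?_ ?_
  · simp only [e]; exact hs
  · simp only [e]; exact hR

/-- short time uniqueness -/
lemma uniq_short (hc : 0 < c) {R τ : ℝ} (hR0 : 0 < R) (hτ : 0 < τ) (hτ1 : τ ≤ 1)
    (hRτ : 4 * (P0 c).KB * R * Real.sqrt τ ≤ 1 / 2) {x y : Fam} (hx : WS c τ x) (hy : WS c τ y)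
    {βx βy : K → ℝ} (hxs : Summable (fun k => (1 + c * sq k) * βx k)) (hxb : ∀ k t, ‖x k t‖ ≤ βx k)
    (hys : Summable (fun k => (1 + c * sq k) * βy k)) (hyb : ∀ k t, ‖y k t‖ ≤ βy k)
    (hxR : ∑' k, (1 + c * sq k) * βx k ≤ R) (hyR : ∑' k, (1 + c * sq k) * βy k ≤ R)
    (h0 : ∀ k, x k 0 = y k 0) (k : K) {t : ℝ} (ht : t ∈ Icc 0 τ) : x k t = y k t := by
  set P := PZ c 1 0 τ with hPd
  have hP : P.OK := PZ_ok (κ := 1) (b := 0) (τ := τ) hc le_rfl le_rfl hτ hτ1
  have hKB := KB_pos hP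
  have hμ := μ_nonneg hP
  have hst : (0 : ℝ) ≤ Real.sqrt P.T := Real.sqrt_nonneg _
  have ex := EN_of_bd hc hτ hτ1 hxs hxb hxR
  have ey := EN_of_bd hc hτ hτ1 hys hyb hyR
  set X := clf P x with hX
  set Y := clf P y with hY
  have gX : Good P X := ⟨hx.st.comp (cl_cont P.T), fun k t => by
    show x k _ = x k _
    rw [cl_cl hP], ne_top_of_le_ne_top ENNReal.ofReal_ne_top ex⟩
  have gY : Good P Y := ⟨hy.st.comp (cl_cont P.T), fun k t => by
    show y k _ = y k _
    rw [cl_cl hP], ne_top_of_le_ne_top ENNReal.ofReal_ne_top ey⟩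
  have dX := gX.dom hP
  have dY := gY.dom hP
  have eqn : ∀ {u : Fam}, WS c τ u → clf P u = He P (fun k => u k 0) + DT P (BB (clf P u) (clf P u)) := by
    intro u hu
    funext k t
    have ht := cl_mem hP.hT.le t
    show u k (cl P.T t) = Real.exp (-(P.c * sq k * cl P.T t)) • u k 0 + Duh P.c (BB (clf P u) (clf P u)) k (cl P.T t)
    rw [hu.eq k _ ht]
    congr 1
    refine Duh_congr (T := P.T) (fun k s hs => ?_) k ht
    show Bf (at' u s) (at' u s) k = Bf (at' (clf P u) s) (at' (clf P u) s) k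
    have : at' (clf P u) s = at' u s := by
      funext k
      show u k (cl P.T s) = u k s
      rw [cl_of_mem hs]
    rw [this]
  have bX : St (BB X X) := St.bb gX.st.cf gX.st.cf dX dX gX.st.sym gX.st.sym
  have bY : St (BB Y Y) := St.bb gY.st.cf gY.st.cf dY dY gY.st.sym gY.st.sym
  set D := X - Y with hD
  have gD : Good P D := gX.sub hP gY
  have dD := gD.dom hP
  have e1 : D = DT P (BB D X + BB Y D) := by
    have e2 : BB D X + BB Y D = BB X X - BB Y Y := by
      rw [hD, BB_sub_left dX dY dX, BB_sub_right dY dX dY]; abel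
    have e3 : D = (He P (fun k => x k 0) + DT P (BB X X)) - (He P (fun k => y k 0) + DT P (BB Y Y)) := by
      rw [← eqn hx, ← eqn hy]
    have e4 : (fun k => x k 0) = fun k => y k 0 := funext h0
    rw [e2, e3, e4]
    unfold DT
    rw [Duh_sub bX.cf bY.cf]
    funext k t
    simp only [Pi.sub_apply, Pi.add_apply]
    abel
  set z := (EN P D).toReal with hz
  have hz0 : 0 ≤ z := ENNReal.toReal_nonneg
  have hDz : EN P D ≤ ENNReal.ofReal z := by rw [hz, ENNReal.ofReal_toReal gD.fin]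
  have gz := Good.zero P
  have hz00 : EN P 0 ≤ ENNReal.ofReal 0 := by rw [EN_zero]; exact zero_le
  have s1 := SI_pair hP gD gz gX gz hz0 le_rfl hR0.le le_rfl hDz hz00 ex hz00
  have s2 := SI_pair hP gY gz gD gz hR0.le le_rfl hz0 le_rfl ey hz00 hDz hz00
  rw [wz_zero, wz_zero] at s1 s2
  have bD : St (BB D X) := St.bb gD.st.cf gX.st.cf dD dX gD.st.sym gX.st.sym
  have bD' : St (BB Y D) := St.bb gY.st.cf gD.st.cf dY dD gY.st.sym gD.st.sym
  have hE : EN P D ≤ ENNReal.ofReal (z / 2) := by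
    conv_lhs => rw [e1]
    refine (EN_DT_le hP (bD.add bD').cf).trans ((mul_le_mul' le_rfl ((SI_add_le hP bD.cf).trans
      (add_le_add s1 s2))).trans ?_)
    rw [← ENNReal.ofReal_add (by positivity) (by positivity), show (2 : ℝ≥0∞) = ENNReal.ofReal 2 by simp,
      ← ENNReal.ofReal_mul (by norm_num)]
    apply ENNReal.ofReal_le_ofReal
    have h5 := mul_le_mul_of_nonneg_right hRτ hz0
    have hKBe : P.KB = (P0 c).KB := rfl
    have hTe : P.T = τ := rfl
    rw [hKBe, hTe]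
    nlinarith
  have hz2 : z ≤ z / 2 := by
    have := ENNReal.toReal_mono ENNReal.ofReal_ne_top hE
    rwa [ENNReal.toReal_ofReal (by positivity)] at this
  have hz3 : z = 0 := by linarith
  have hzero : EN P D = 0 := by
    rw [hz3, ENNReal.ofReal_zero] at hDz
    exact le_antisymm hDz zero_le
  have h1 : D k (cl P.T t) = 0 := by
    have h2 : ph P D k (cl P.T t) ≤ 0 := by
      rw [← hzero]
      exact (ph_le_en (cl_mem hP.hT.le t)).trans (ENNReal.le_tsum k)
    have h3 := (enorm_le_ph hP D k (cl P.T t)).trans h2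
    simpa using h3
  have h2 : x k (cl P.T (cl P.T t)) - y k (cl P.T (cl P.T t)) = 0 := h1
  rw [cl_cl hP, cl_of_mem (show t ∈ Icc 0 P.T from ht)] at h2
  exact sub_eq_zero.1 h2

lemma exists_tau (hc : 0 < c) {R : ℝ} (hR0 : 0 < R) : ∃ τ : ℝ, 0 < τ ∧ τ ≤ 1 ∧
    4 * (P0 c).KB * R * Real.sqrt τ ≤ 1 / 4 := by
  have hKB := KB0_pos hc
  refine ⟨min 1 ((1 / (16 * (P0 c).KB * R)) ^ 2), lt_min one_pos (by positivity), min_le_left _ _, ?_⟩
  have h1 : Real.sqrt (min 1 ((1 / (16 * (P0 c).KB * R)) ^ 2)) ≤ 1 / (16 * (P0 c).KB * R) := by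
    calc _ ≤ Real.sqrt ((1 / (16 * (P0 c).KB * R)) ^ 2) := Real.sqrt_le_sqrt (min_le_right _ _)
      _ = _ := Real.sqrt_sq (by positivity)
  calc 4 * (P0 c).KB * R * Real.sqrt _ ≤ 4 * (P0 c).KB * R * (1 / (16 * (P0 c).KB * R)) :=
        mul_le_mul_of_nonneg_left h1 (by positivity)
    _ = 1 / 4 := by field_simp; norm_num

/-- uniqueness -/
theorem uniq (hc : 0 < c) {x y : Fam} (hx : WS c T x) (hy : WS c T y) (h0 : ∀ k, x k 0 = y k 0) :
    ∀ t ∈ Icc 0 T, ∀ k, x k t = y k t := by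
  obtain ⟨βx, hxs, hxb⟩ := hx.bd
  obtain ⟨βy, hys, hyb⟩ := hy.bd
  set R : ℝ := 1 + max (∑' k, (1 + c * sq k) * βx k) (∑' k, (1 + c * sq k) * βy k) with hR
  have hx0 : 0 ≤ ∑' k, (1 + c * sq k) * βx k := tsum_nonneg fun k => by
    have := sq_nonneg' k
    have := (norm_nonneg _).trans (hxb k 0)
    positivity
  have hR0 : 0 < R := by
    have := hx0.trans (le_max_left _ (∑' k, (1 + c * sq k) * βy k))
    linarith
  have hxR : ∑' k, (1 + c * sq k) * βx k ≤ R := by
    have := le_max_left (∑' k, (1 + c * sq k) * βx k) (∑' k, (1 + c * sq k) * βy k)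
    linarith
  have hyR : ∑' k, (1 + c * sq k) * βy k ≤ R := by
    have := le_max_right (∑' k, (1 + c * sq k) * βx k) (∑' k, (1 + c * sq k) * βy k)
    linarith
  obtain ⟨τ, hτ, hτ1, hRτ⟩ := exists_tau hc hR0
  have key : ∀ n : ℕ, ∀ t ∈ Icc 0 T, t ≤ n * τ → ∀ k, x k t = y k t := by
    intro n
    induction n with
    | zero =>
      intro t ht htn k
      simp only [Nat.cast_zero, zero_mul] at htn
      have : t = 0 := le_antisymm htn ht.1
      rw [this]; exact h0 k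
    | succ n ih =>
      intro t ht htn k
      by_cases htn' : t ≤ n * τ
      · exact ih t ht htn' k
      push Not at htn'
      have hn0 : (0 : ℝ) ≤ n * τ := by positivity
      set s : ℝ := n * τ
      have hs : s ∈ Icc 0 T := ⟨hn0, htn'.le.trans ht.2⟩
      have hsx := (hx.shf hc hs)
      have hsy := (hy.shf hc hs)
      have htt : t - s ≤ τ := by
        push_cast at htn
        have : ((n : ℝ) + 1) * τ = s + τ := by simp only [s]; ring
        linarith
      have hts0 : 0 < t - s := sub_pos.2 htn'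
      -- use the time `t - s`
      have hRτ' : 4 * (P0 c).KB * R * Real.sqrt (t - s) ≤ 1 / 2 := by
        have hKB := KB0_pos hc
        have h1 : Real.sqrt (t - s) ≤ Real.sqrt τ := Real.sqrt_le_sqrt htt
        have h2 : 4 * (P0 c).KB * R * Real.sqrt (t - s) ≤ 4 * (P0 c).KB * R * Real.sqrt τ :=
          mul_le_mul_of_nonneg_left h1 (by positivity)
        linarith
      have hmx := hsx.mono (T' := t - s) (by linarith [ht.2])
      have hmy := hsy.mono (T' := t - s) (by linarith [ht.2])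
      have := uniq_short hc hR0 hts0 (htt.trans hτ1) hRτ' hmx hmy hxs (fun k t => hxb k _) hys
        (fun k t => hyb k _) hxR hyR (fun k => by
          show x k (s + max 0 0) = y k (s + max 0 0)
          rw [max_self, add_zero]
          exact ih s hs le_rfl k) k (t := t - s) ⟨hts0.le, le_rfl⟩
      have e : ∀ w : Fam, shf s w k (t - s) = w k t := by
        intro w
        show w k (s + max (t - s) 0) = w k t
        rw [max_eq_left hts0.le, add_sub_cancel]
      rw [e, e] at this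
      exact this
  intro t ht k
  obtain ⟨n, hn⟩ := exists_nat_ge (t / τ)
  refine key n t ht ?_ k
  rwa [div_le_iff₀ hτ] at hn

lemma ws_of_lsol {a : ℝ} (hc : 0 < c) (ha : 0 < a) {V : K → C3} {u : Fam} (hd : ∀ k t, dt k (u k t) = 0)
    (hT : 0 ≤ T) (h : LSol c a T V u) : WS c T u := by
  obtain ⟨b, hb, hb'⟩ := h.dom
  have hb0 : ∀ k, 0 ≤ b k := fun k => (norm_nonneg _).trans (hb' k 0)
  obtain ⟨C, hC, hC'⟩ := summ_poly (c := c) hc (le_refl (0 : ℝ)) ha
  refine ⟨⟨h.cf, hd, h.z, h.sym⟩, ⟨b, ?_, hb'⟩, fun k t ht => ?_⟩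
  · refine (hb.mul_left C).of_nonneg_of_le (fun k => ?_) fun k => ?_
    · have := sq_nonneg' k; have := hb0 k; positivity
    · have h1 := hC' k
      rw [zero_mul, add_zero] at h1
      have hsq := sq_nonneg' k
      have h2 : 1 + c * sq k ≤ C * om a k := by
        refine le_trans ?_ h1
        have := one_le_om (half_pos ha).le k
        have h3 : 0 ≤ 1 + c * sq k := by positivity
        nlinarith
      calc (1 + c * sq k) * b k ≤ (C * om a k) * b k := mul_le_mul_of_nonneg_right h2 (hb0 k)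
        _ = _ := by ring
  · rw [h.eq k t ht]
    congr 2
    have := h.eq k 0 ⟨le_rfl, hT⟩
    rw [Duh_at_zero] at this
    rw [this]; simp

/-- local existence of analytic solutions -/
theorem loc_exist (hc : 0 < c) {N : ℝ} (hN : 0 < N) : ∃ τ : ℝ, 0 < τ ∧ τ ≤ 1 ∧ ∀ (b : ℝ), 0 < b →
    ∀ V : K → C3, (∀ k, dt k (V k) = 0) → V 0 = 0 → Sym V → (Summable fun k => om b k * ‖V k‖) →
    ∑' k, om b k * ‖V k‖ ≤ N → ∃ u : Fam, LSol c b τ V u ∧ ∀ k t, dt k (u k t) = 0 := by
  have hKB := KB0_pos hc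
  have hKL := KL0_pos hc
  set R : ℝ := 4 * N
  have hR0 : 0 < R := by positivity
  obtain ⟨τ, hτ, hτ1, hRτ⟩ := exists_tau hc hR0
  refine ⟨τ, hτ, hτ1, fun b hb V hd hz hs hsm hle => ?_⟩
  set κ : ℝ := max 1 (4 * (2 * (P0 c).KL + 12 * (P0 c).KB * R))
  have hκ1 : 1 ≤ κ := le_max_left _ _
  have hκ0 : 0 < κ := lt_of_lt_of_le one_pos hκ1
  set P := PZ c κ b τ with hPd
  have hP : P.OK := PZ_ok hc hκ1 hb.le hτ hτ1
  have hSm : Sm P R := by
    refine ⟨hR0, ?_⟩
    have e1 : P.KL = (P0 c).KL := rfl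
    have e2 : P.KB = (P0 c).KB := rfl
    have e3 : P.T = τ := rfl
    rw [e1, e2, e3, PZ_μ]
    have h1 : (2 * (P0 c).KL + 12 * (P0 c).KB * R) * (1 / κ) ≤ 1 / 4 := by
      have h2 : 4 * (2 * (P0 c).KL + 12 * (P0 c).KB * R) ≤ κ := le_max_right _ _
      rw [mul_one_div, div_le_iff₀ hκ0]
      linarith
    linarith
  have hHe : EN P (He P V) ≤ ENNReal.ofReal (R / 2) := by
    refine (EN_He_le hP V).trans ?_
    have e : ∀ k, ENNReal.ofReal (P.W 0 k) * ‖V k‖ₑ = ENNReal.ofReal (om b k * ‖V k‖) := by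
      intro k
      rw [PZ_W, ENNReal.ofReal_mul (om_pos _ _).le, ofReal_norm]
    simp only [e]
    rw [← ENNReal.ofReal_tsum_of_nonneg (fun k => mul_nonneg (om_pos _ _).le (norm_nonneg _)) hsm,
      show (2 : ℝ≥0∞) = ENNReal.ofReal 2 by simp, ← ENNReal.ofReal_mul (by norm_num)]
    apply ENNReal.ofReal_le_ofReal
    simp only [R]
    linarith
  obtain ⟨U, hU, hUR, hfix⟩ := fixpoint hP hd hz hs hSm hHe
  have h1 := stage1 hP hU hfix
  have e : V + P.a = V := by
    have : P.a = 0 := rfl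
    rw [this, add_zero]
  rw [e] at h1
  exact ⟨_, h1, ((Ac_St hP).add (wz_St hP hU hU)).dv⟩

/-- lowering the radius -/
lemma lower_radius {a : ℝ} (ha : 0 < a) {f : K → ℝ} (hf : ∀ k, 0 ≤ f k) (hs : Summable fun k => om a k * f k)
    {M : ℝ} (hM : ∑' k, f k < M) : ∃ b : ℝ, 0 < b ∧ b ≤ a ∧ ∑' k, om b k * f k ≤ M := by
  have h1 : Tendsto (fun b : ℝ => ∑' k, om b k * f k) (𝓝[Icc 0 a] 0) (𝓝 (∑' k, om 0 k * f k)) := by
    refine tendsto_tsum_of_dominated_convergence hs (fun k => ?_) ?_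
    · have hc : Continuous fun b : ℝ => om b k * f k := by unfold om; fun_prop
      exact (hc.tendsto 0).mono_left nhdsWithin_le_nhds
    · filter_upwards [self_mem_nhdsWithin] with b hb k
      rw [Real.norm_of_nonneg (mul_nonneg (om_pos _ _).le (hf k))]
      exact mul_le_mul_of_nonneg_right (om_mono hb.2 k) (hf k)
  have h2 : ∑' k, om 0 k * f k = ∑' k, f k := by simp [om]
  rw [h2] at h1
  have h3 := (h1.eventually (gt_mem_nhds hM))
  have h4 : ∀ᶠ b in 𝓝[>] (0 : ℝ), ∑' k, om b k * f k < M := by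
    have h5 : 𝓝[Ioc 0 a] (0 : ℝ) ≤ 𝓝[Icc 0 a] 0 := nhdsWithin_mono _ Ioc_subset_Icc_self
    rw [nhdsWithin_Ioc_eq_nhdsGT ha] at h5
    exact h3.filter_mono h5
  obtain ⟨b, hb, hb2⟩ := (h4.and (Ioc_mem_nhdsGT ha)).exists
  exact ⟨b, hb2.1, hb2.2, hb.le⟩

/-- persistence of analyticity -/
theorem persist (hc : 0 < c) (hT : 0 ≤ T) {x : Fam} (hx : WS c T x) {a0 : ℝ} (ha0 : 0 < a0)
    (h0 : Summable fun k => om a0 k * ‖x k 0‖) : ∃ b : ℝ, 0 < b ∧ ∃ β : K → ℝ,
      Summable (fun k => om b k * β k) ∧ ∀ k, ∀ t ∈ Icc 0 T, ‖x k t‖ ≤ β k := by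
  obtain ⟨β0, hβ0s, hβ0⟩ := hx.dom hc
  have hβ00 : ∀ k, 0 ≤ β0 k := fun k => (norm_nonneg _).trans (hβ0 k 0)
  set M := ∑' k, β0 k
  have hM0 : 0 ≤ M := tsum_nonneg hβ00
  obtain ⟨τ, hτ, hτ1, hloc⟩ := loc_exist hc (N := M + 1) (by positivity)
  have key : ∀ n : ℕ, ∃ b : ℝ, 0 < b ∧ ∃ β : K → ℝ,
      Summable (fun k => om b k * β k) ∧ ∀ k, ∀ t ∈ Icc 0 T, t ≤ n * τ → ‖x k t‖ ≤ β k := by
    intro n
    induction n with
    | zero =>
      refine ⟨a0, ha0, fun k => ‖x k 0‖, h0, fun k t ht htn => ?_⟩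
      simp only [Nat.cast_zero, zero_mul] at htn
      rw [le_antisymm htn ht.1]
    | succ n ih =>
      obtain ⟨b, hb, β, hβs, hβ⟩ := ih
      have hn0 : (0 : ℝ) ≤ n * τ := by positivity
      set s : ℝ := min (n * τ) T
      have hs : s ∈ Icc 0 T := ⟨le_min hn0 hT, min_le_right _ _⟩
      have hsn : s ≤ n * τ := min_le_left _ _
      have hβnn : ∀ k, 0 ≤ β k := fun k => (norm_nonneg _).trans (hβ k s hs hsn)
      have hxs : Summable fun k => om b k * ‖x k s‖ :=
        hβs.of_nonneg_of_le (fun k => mul_nonneg (om_pos _ _).le (norm_nonneg _))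
          fun k => mul_le_mul_of_nonneg_left (hβ k s hs hsn) (om_pos _ _).le
      have hxM : ∑' k, ‖x k s‖ < M + 1 := by
        have h1 : ∑' k, ‖x k s‖ ≤ M := ((hx.dom hc).sn s).tsum_le_tsum (fun k => hβ0 k s) hβ0s
        linarith
      obtain ⟨b', hb', hb'b, hle⟩ := lower_radius hb (fun k => norm_nonneg (x k s)) hxs hxM
      have hxs' : Summable fun k => om b' k * ‖x k s‖ :=
        hxs.of_nonneg_of_le (fun k => mul_nonneg (om_pos _ _).le (norm_nonneg _))
          fun k => mul_le_mul_of_nonneg_right (om_mono hb'b k) (norm_nonneg _)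
      obtain ⟨u, hu, hud⟩ := hloc b' hb' (at' x s) (fun k => hx.st.dv k s) (hx.st.z s) (hx.st.sym s) hxs' hle
      have huW := ws_of_lsol hc hb' hud hτ.le hu
      have hxW := hx.shf hc hs
      have hu0 : ∀ k, u k 0 = x k s := by
        intro k
        have := hu.eq k 0 ⟨le_rfl, hτ.le⟩
        rw [Duh_at_zero] at this
        rw [this]; simp [at']
      have hm1 := huW.mono (T' := min τ (T - s)) (min_le_left _ _)
      have hm2 := hxW.mono (T' := min τ (T - s)) (min_le_right _ _)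
      have huq := uniq hc hm1 hm2 (fun k => by
        rw [hu0]
        show x k s = x k (s + max 0 0)
        rw [max_self, add_zero])
      obtain ⟨βu, hβus, hβu⟩ := hu.dom
      have hβu0 : ∀ k, 0 ≤ βu k := fun k => (norm_nonneg _).trans (hβu k 0)
      refine ⟨b', hb', fun k => β k + βu k, ?_, fun k t ht htn => ?_⟩
      · simp only [mul_add]
        refine Summable.add ?_ hβus
        exact hβs.of_nonneg_of_le (fun k => mul_nonneg (om_pos _ _).le (hβnn k))
          fun k => mul_le_mul_of_nonneg_right (om_mono hb'b k) (hβnn k)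
      · by_cases htn' : t ≤ n * τ
        · exact (hβ k t ht htn').trans (le_add_of_nonneg_right (hβu0 k))
        · push Not at htn'
          have hss : s = n * τ := min_eq_left (htn'.le.trans ht.2)
          have h3 : t - s ∈ Icc 0 (min τ (T - s)) := by
            refine ⟨by rw [hss]; linarith, le_min ?_ (by linarith [ht.2])⟩
            push_cast at htn
            rw [hss]; linarith
          have h4 := huq (t - s) h3 k
          have h5 : shf s x k (t - s) = x k t := by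
            show x k (s + max (t - s) 0) = x k t
            rw [max_eq_left h3.1, add_sub_cancel]
          rw [h5] at h4
          rw [← h4]
          exact (hβu k _).trans (le_add_of_nonneg_left (hβnn k))
  obtain ⟨n, hn⟩ := exists_nat_ge (T / τ)
  rw [div_le_iff₀ hτ] at hn
  obtain ⟨b, hb, β, hβs, hβ⟩ := key n
  exact ⟨b, hb, β, hβs, fun k t ht => hβ k t ht (ht.2.trans hn)⟩

end Pool.Agent.H356R3.NS.SW
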