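import Pool.Agent.Helper19.SW.Kern

/-!
# Shear waves, rates and weights
-/

open MeasureTheory Set Filter Topology
open scoped ENNReal NNReal

namespace Pool.Agent.H356R3.NS.SW

/-- Parameters. -/
structure Pm where
  c : ℝ
  η : K
  S : Finset K
  a : K → C3
  a1 : ℝ
  κ : ℝ
  b : ℝ
  T : ℝ

namespace Pm

variable (P : Pm)

/-- the rate -/
noncomputable def g (t : ℝ) : ℝ := ∑ l ∈ P.S, ‖P.a l‖ * Real.exp (-(P.c * sq l / 2 * t))

/-- its primitive -/
noncomputable def G (t : ℝ) : ℝ :=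
  ∑ l ∈ P.S, ‖P.a l‖ * ((1 - Real.exp (-(P.c * sq l / 2 * t))) * (2 / (P.c * sq l)))

noncomputable def h0 (t : ℝ) : ℝ := ∑ l ∈ P.S, ‖P.a l‖ * Real.exp (-(P.c * sq l * t))
noncomputable def h1 (t : ℝ) : ℝ := ∑ l ∈ P.S, nk l * (‖P.a l‖ * Real.exp (-(P.c * sq l * t)))
noncomputable def h2 (t : ℝ) : ℝ := ∑ l ∈ P.S, sq l * (‖P.a l‖ * Real.exp (-(P.c * sq l * t)))

/-- the norm of the shear flow -/
noncomputable def X2 : ℝ := ∑ l ∈ P.S, ‖P.a l‖ / sq l

/-- the weight -/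
noncomputable def W (t : ℝ) (k : K) : ℝ := Real.exp ((P.a1 - P.κ * P.G t) * pp P.η k + P.b * l1 k)

/-- the shear flow -/
noncomputable def A : Fam := fun k t => Real.exp (-(P.c * sq k * max t 0)) • P.a k

/-- Assumptions on the parameters. -/
structure OK : Prop where
  hc : 0 < P.c
  hη : P.η ≠ 0
  line : ∀ l ∈ P.S, ∃ m : ℤ, l = m • P.η
  ne : ∀ l ∈ P.S, l ≠ 0
  perp : ∀ l, dt P.η (P.a l) = 0
  supp : ∀ l, l ∉ P.S → P.a l = 0
  sym : Sym P.a
  ha1 : 0 ≤ P.a1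
  hκ : 1 ≤ P.κ
  hb : 0 ≤ P.b
  hT : 0 < P.T
  hT1 : P.T ≤ 1
  hG : P.κ * (2 / P.c * P.X2) ≤ P.a1
  hom : ∀ l ∈ P.S, om P.b l ≤ 2
  hX : P.X2 ≤ 1

end Pm

variable {P : Pm}

lemma g_nonneg (P : Pm) (t : ℝ) : 0 ≤ P.g t :=
  Finset.sum_nonneg fun _ _ => mul_nonneg (norm_nonneg _) (Real.exp_pos _).le

lemma h0_nonneg (P : Pm) (t : ℝ) : 0 ≤ P.h0 t :=
  Finset.sum_nonneg fun _ _ => mul_nonneg (norm_nonneg _) (Real.exp_pos _).le

lemma h1_nonneg (P : Pm) (t : ℝ) : 0 ≤ P.h1 t :=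
  Finset.sum_nonneg fun _ _ => mul_nonneg (nk_nonneg _) (mul_nonneg (norm_nonneg _) (Real.exp_pos _).le)

lemma h2_nonneg (P : Pm) (t : ℝ) : 0 ≤ P.h2 t :=
  Finset.sum_nonneg fun _ _ => mul_nonneg (sq_nonneg' _) (mul_nonneg (norm_nonneg _) (Real.exp_pos _).le)

lemma X2_nonneg (P : Pm) : 0 ≤ P.X2 := Finset.sum_nonneg fun _ _ => div_nonneg (norm_nonneg _) (sq_nonneg' _)

lemma g_cont (P : Pm) : Continuous P.g := by unfold Pm.g; fun_prop
lemma h0_cont (P : Pm) : Continuous P.h0 := by unfold Pm.h0; fun_prop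
lemma h1_cont (P : Pm) : Continuous P.h1 := by unfold Pm.h1; fun_prop
lemma h2_cont (P : Pm) : Continuous P.h2 := by unfold Pm.h2; fun_prop

lemma G_zero (P : Pm) : P.G 0 = 0 := by simp [Pm.G]

lemma g_anti (hP : P.OK) : Antitone P.g := by
  intro s t hst
  refine Finset.sum_le_sum fun l _ => mul_le_mul_of_nonneg_left ?_ (norm_nonneg _)
  apply Real.exp_le_exp.2
  have : 0 ≤ P.c * sq l / 2 := by have := hP.hc; have := sq_nonneg' l; positivity
  nlinarith

lemma G_deriv (hP : P.OK) (t : ℝ) : HasDerivAt P.G (P.g t) t := by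
  unfold Pm.G Pm.g
  refine HasDerivAt.fun_sum fun l hl => ?_
  have h1 : HasDerivAt (fun t => -(P.c * sq l / 2 * t)) (-(P.c * sq l / 2)) t := by
    simpa using ((hasDerivAt_id' t).const_mul (P.c * sq l / 2)).fun_neg
  have h2 := (((h1.exp).const_sub 1).mul_const (2 / (P.c * sq l))).const_mul ‖P.a l‖
  refine h2.congr_deriv ?_
  have := hP.hc
  have := sq_pos (hP.ne l hl)
  field_simp

lemma G_ker (hP : P.OK) : Ker P.G P.g := ⟨G_deriv hP, g_cont P, g_nonneg P⟩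

lemma G_le (hP : P.OK) (t : ℝ) : P.G t ≤ 2 / P.c * P.X2 := by
  have hc := hP.hc
  unfold Pm.G Pm.X2
  rw [Finset.mul_sum]
  refine Finset.sum_le_sum fun l hl => ?_
  have hs := sq_pos (hP.ne l hl)
  calc ‖P.a l‖ * ((1 - Real.exp (-(P.c * sq l / 2 * t))) * (2 / (P.c * sq l)))
      ≤ ‖P.a l‖ * (1 * (2 / (P.c * sq l))) := by
        apply mul_le_mul_of_nonneg_left _ (norm_nonneg _)
        apply mul_le_mul_of_nonneg_right _ (by positivity)
        have := Real.exp_pos (-(P.c * sq l / 2 * t))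
        linarith
    _ = _ := by field_simp

lemma G_nonneg (hP : P.OK) {t : ℝ} (ht : 0 ≤ t) : 0 ≤ P.G t := by
  rw [← G_zero P]; exact (G_ker hP).mono ht

lemma κ_pos (hP : P.OK) : 0 < P.κ := lt_of_lt_of_le one_pos hP.hκ

lemma κG_le (hP : P.OK) (t : ℝ) : P.κ * P.G t ≤ P.a1 :=
  (mul_le_mul_of_nonneg_left (G_le hP t) (κ_pos hP).le).trans hP.hG

lemma h0_le (hP : P.OK) {t : ℝ} (ht : 0 ≤ t) : P.h0 t ≤ P.g t := by
  refine Finset.sum_le_sum fun l _ => mul_le_mul_of_nonneg_left ?_ (norm_nonneg _)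
  apply Real.exp_le_exp.2
  have : 0 ≤ P.c * sq l * t := by have := hP.hc; have := sq_nonneg' l; positivity
  linarith

lemma x_exp_le {x : ℝ} (_hx : 0 ≤ x) : x * Real.exp (-(x ^ 2)) ≤ Real.exp (-(x ^ 2 / 2)) := by
  have h1 : x ≤ Real.exp (x ^ 2 / 2) := by
    have := Real.add_one_le_exp (x ^ 2 / 2)
    nlinarith [sq_nonneg (x - 1)]
  calc x * Real.exp (-(x ^ 2)) ≤ Real.exp (x ^ 2 / 2) * Real.exp (-(x ^ 2)) :=
        mul_le_mul_of_nonneg_right h1 (Real.exp_pos _).le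
    _ = _ := by rw [← Real.exp_add]; congr 1; ring

lemma x_exp_le' {x : ℝ} : x * Real.exp (-x) ≤ Real.exp (-(x / 2)) := by
  have h1 : x ≤ Real.exp (x / 2) := by
    have h2 := Real.quadratic_le_exp_of_nonneg (x := |x| / 2) (by positivity)
    by_cases hx : 0 ≤ x
    · rw [abs_of_nonneg hx] at h2
      nlinarith [sq_nonneg (x / 2 - 1)]
    · push Not at hx
      exact hx.le.trans (Real.exp_pos _).le
  calc x * Real.exp (-x) ≤ Real.exp (x / 2) * Real.exp (-x) :=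
        mul_le_mul_of_nonneg_right h1 (Real.exp_pos _).le
    _ = _ := by rw [← Real.exp_add]; congr 1; ring

lemma h1_le (hP : P.OK) {t : ℝ} (ht : 0 < t) : P.h1 t ≤ P.g t / Real.sqrt (P.c * t) := by
  have hc := hP.hc
  have hs : 0 < Real.sqrt (P.c * t) := Real.sqrt_pos.2 (by positivity)
  rw [le_div_iff₀ hs]
  unfold Pm.h1 Pm.g
  rw [Finset.sum_mul]
  refine Finset.sum_le_sum fun l _ => ?_
  have hn := nk_nonneg l
  have h := x_exp_le (x := nk l * Real.sqrt (P.c * t)) (by positivity)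
  have e1 : (nk l * Real.sqrt (P.c * t)) ^ 2 = P.c * sq l * t := by
    rw [mul_pow, nk_sq, Real.sq_sqrt (by positivity)]; ring
  rw [e1] at h
  calc nk l * (‖P.a l‖ * Real.exp (-(P.c * sq l * t))) * Real.sqrt (P.c * t)
      = ‖P.a l‖ * (nk l * Real.sqrt (P.c * t) * Real.exp (-(P.c * sq l * t))) := by ring
    _ ≤ ‖P.a l‖ * Real.exp (-(P.c * sq l * t / 2)) := mul_le_mul_of_nonneg_left h (norm_nonneg _)
    _ = _ := by congr 2; ring

lemma h2_le (hP : P.OK) (t : ℝ) : t * P.h2 t ≤ P.g t / P.c := by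
  have hc := hP.hc
  rw [le_div_iff₀ hc]
  unfold Pm.h2 Pm.g
  rw [Finset.mul_sum, Finset.sum_mul]
  refine Finset.sum_le_sum fun l _ => ?_
  have h := x_exp_le' (x := P.c * sq l * t)
  calc t * (sq l * (‖P.a l‖ * Real.exp (-(P.c * sq l * t)))) * P.c
      = ‖P.a l‖ * (P.c * sq l * t * Real.exp (-(P.c * sq l * t))) := by ring
    _ ≤ ‖P.a l‖ * Real.exp (-(P.c * sq l * t / 2)) := mul_le_mul_of_nonneg_left h (norm_nonneg _)
    _ = _ := by congr 2; ring

lemma g_int (hP : P.OK) {T : ℝ} (hT : 0 ≤ T) :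
    ∫⁻ t in Ioc 0 T, ENNReal.ofReal (P.g t) ≤ ENNReal.ofReal (2 / P.c * P.X2) := by
  have hgc := g_cont P
  rw [← ofReal_integral_eq_lintegral_ofReal]
  · apply ENNReal.ofReal_le_ofReal
    rw [← intervalIntegral.integral_of_le hT, intervalIntegral.integral_eq_sub_of_hasDerivAt
      (fun t _ => G_deriv hP t) (hgc.intervalIntegrable _ _), G_zero, sub_zero]
    exact G_le hP T
  · exact hgc.integrableOn_Icc.mono_set Ioc_subset_Icc_self
  · exact Filter.Eventually.of_forall fun t => g_nonneg P t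

lemma h2_int (hP : P.OK) {r T : ℝ} (h0r : 0 ≤ r) (hr : r ≤ T) :
    ∫⁻ t in Icc r T, ENNReal.ofReal (P.h2 t) ≤ ENNReal.ofReal (P.g r / P.c) := by
  have hc := hP.hc
  have hh := h2_cont P
  rw [← ofReal_integral_eq_lintegral_ofReal]
  · apply ENNReal.ofReal_le_ofReal
    rw [integral_Icc_eq_integral_Ioc, ← intervalIntegral.integral_of_le hr]
    have hd : ∀ t ∈ uIcc r T, HasDerivAt (fun t => -(P.h0 t / P.c)) (P.h2 t) t := by
      intro t _
      unfold Pm.h0 Pm.h2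
      have h3 : HasDerivAt (fun t => ∑ l ∈ P.S, ‖P.a l‖ * Real.exp (-(P.c * sq l * t)))
          (∑ l ∈ P.S, ‖P.a l‖ * (Real.exp (-(P.c * sq l * t)) * -(P.c * sq l))) t := by
        refine HasDerivAt.fun_sum fun l hl => ?_
        have h1 : HasDerivAt (fun t => -(P.c * sq l * t)) (-(P.c * sq l)) t := by
          simpa using ((hasDerivAt_id' t).const_mul (P.c * sq l)).fun_neg
        exact h1.exp.const_mul _
      refine ((h3.div_const P.c).fun_neg).congr_deriv ?_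
      rw [Finset.sum_div, ← Finset.sum_neg_distrib]
      refine Finset.sum_congr rfl fun l _ => ?_
      field_simp
    rw [intervalIntegral.integral_eq_sub_of_hasDerivAt hd (hh.intervalIntegrable _ _)]
    have h4 : 0 ≤ P.h0 T / P.c := div_nonneg (h0_nonneg P T) hc.le
    have h5 : P.h0 r / P.c ≤ P.g r / P.c := div_le_div_of_nonneg_right (h0_le hP h0r) hc.le
    linarith
  · exact hh.integrableOn_Icc
  · exact Filter.Eventually.of_forall fun t => h2_nonneg P t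

/-! ### Weights -/

lemma W_pos (P : Pm) (t : ℝ) (k : K) : 0 < P.W t k := Real.exp_pos _

lemma ex_nonneg (hP : P.OK) (t : ℝ) : 0 ≤ P.a1 - P.κ * P.G t := by have := κG_le hP t; linarith

lemma om_le_W (hP : P.OK) (t : ℝ) (k : K) : om P.b k ≤ P.W t k := by
  unfold om Pm.W
  apply Real.exp_le_exp.2
  have := mul_nonneg (ex_nonneg hP t) (pp_nonneg P.η k)
  linarith

lemma one_le_W (hP : P.OK) (t : ℝ) (k : K) : 1 ≤ P.W t k := (one_le_om hP.hb k).trans (om_le_W hP t k)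

lemma W_add (hP : P.OK) (t : ℝ) (j k : K) : P.W t (j + k) ≤ P.W t j * P.W t k := by
  unfold Pm.W
  rw [← Real.exp_add]
  apply Real.exp_le_exp.2
  have h1 := mul_le_mul_of_nonneg_left (pp_add_le P.η j k) (ex_nonneg hP t)
  have h2 := mul_le_mul_of_nonneg_left (l1_add j k) hP.hb
  nlinarith

lemma W_sub (hP : P.OK) (t : ℝ) (k l : K) : P.W t k ≤ P.W t l * P.W t (k - l) := by
  have := W_add hP t l (k - l)
  rwa [add_sub_cancel] at this

lemma pp_S (hP : P.OK) {l : K} (hl : l ∈ P.S) : pp P.η l = 0 := by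
  obtain ⟨m, rfl⟩ := hP.line l hl
  exact pp_line m P.η

lemma W_S (hP : P.OK) (t : ℝ) {l : K} (hl : l ∈ P.S) : P.W t l ≤ 2 := by
  have : P.W t l = om P.b l := by
    unfold Pm.W om; rw [pp_S hP hl, mul_zero, zero_add]
  rw [this]; exact hP.hom l hl

lemma W_line (hP : P.OK) (t : ℝ) {l : K} (hl : l ∈ P.S) (k : K) : P.W t k ≤ 2 * P.W t (k - l) :=
  (W_sub hP t k l).trans (mul_le_mul_of_nonneg_right (W_S hP t hl) (W_pos P t _).le)

lemma pp_le_l1 (hP : P.OK) (k : K) : pp P.η k ≤ 3 * l1 k :=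
  (pp_le_nk hP.hη k).trans (mul_le_mul_of_nonneg_left (nk_le_l1 k) (by norm_num))

lemma W_le_om (hP : P.OK) {t : ℝ} (ht : 0 ≤ t) (k : K) : P.W t k ≤ om (3 * P.a1 + P.b) k := by
  unfold Pm.W om
  apply Real.exp_le_exp.2
  have h1 : P.a1 - P.κ * P.G t ≤ P.a1 := by
    have := mul_nonneg (κ_pos hP).le (G_nonneg hP ht); linarith
  have h2 := mul_le_mul_of_nonneg_right h1 (pp_nonneg P.η k)
  have h3 := mul_le_mul_of_nonneg_left (pp_le_l1 hP k) hP.ha1
  nlinarith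

/-- the combined rate -/
noncomputable def Pm.ra (P : Pm) (k : K) (t : ℝ) : ℝ := P.c * sq k + P.κ * pp P.η k * P.g t

noncomputable def Pm.Ra (P : Pm) (k : K) (t : ℝ) : ℝ := P.c * sq k * t + P.κ * pp P.η k * P.G t

noncomputable def Pm.rb (P : Pm) (k : K) (t : ℝ) : ℝ := P.κ * pp P.η k * P.g t

noncomputable def Pm.Rb (P : Pm) (k : K) (t : ℝ) : ℝ := P.κ * pp P.η k * P.G t

lemma κp_nonneg (hP : P.OK) (k : K) : 0 ≤ P.κ * pp P.η k := mul_nonneg (κ_pos hP).le (pp_nonneg _ _)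

lemma Ra_ker (hP : P.OK) (k : K) : Ker (P.Ra k) (P.ra k) := by
  refine ⟨fun t => ?_, ?_, fun t => ?_⟩
  · unfold Pm.Ra Pm.ra
    have h1 : HasDerivAt (fun t => P.c * sq k * t) (P.c * sq k) t := by
      simpa using (hasDerivAt_id' t).const_mul (P.c * sq k)
    exact h1.add ((G_deriv hP t).const_mul _)
  · have := g_cont P
    unfold Pm.ra; fun_prop
  · unfold Pm.ra
    have := hP.hc; have := sq_nonneg' k; have := g_nonneg P t; have := κp_nonneg hP k
    positivity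

lemma Rb_ker (hP : P.OK) (k : K) : Ker (P.Rb k) (P.rb k) := by
  refine ⟨fun t => (G_deriv hP t).const_mul _, ?_, fun t => ?_⟩
  · have := g_cont P
    unfold Pm.rb; fun_prop
  · unfold Pm.rb
    have := g_nonneg P t; have := κp_nonneg hP k
    positivity

lemma rb_anti (hP : P.OK) (k : K) : Antitone (P.rb k) := fun _ _ h =>
  mul_le_mul_of_nonneg_left (g_anti hP h) (κp_nonneg hP k)

lemma W_exp (P : Pm) (k : K) (s t : ℝ) :
    P.W t k * Real.exp (-(P.c * sq k * (t - s))) = P.W s k * Real.exp (-(P.Ra k t - P.Ra k s)) := by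
  unfold Pm.W Pm.Ra
  rw [← Real.exp_add, ← Real.exp_add]
  congr 1; ring

lemma W_eq (P : Pm) (k : K) (s t : ℝ) :
    P.W t k = P.W s k * Real.exp (-(P.Rb k t - P.Rb k s)) := by
  unfold Pm.W Pm.Rb
  rw [← Real.exp_add]
  congr 1; ring

lemma W_cont (hP : P.OK) (k : K) : Continuous fun t => P.W t k := by
  have := (G_ker hP).cont
  unfold Pm.W; fun_prop

end Pool.Agent.H356R3.NS.SW
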